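import Pool.Agent.MP_e0214e_ag.Mg.H61_Bertini

/-! Symmetric multilinear forms of order two, three and five. -/

set_option autoImplicit false

namespace Pool.Agent.MP_e0214e_ag.H64

open MvPolynomial

/-- A vector with coordinates in a larger ring. -/
def up {σ A : Type} (B : Type) [CommRing A] [CommRing B] [Algebra A B] (y : σ → A) : σ → B :=
  algebraMap A B ∘ y

section
variable {σ A B : Type} [CommRing A] [CommRing B] [Algebra A B]

theorem up_apply (y : σ → A) (i : σ) : up B y i = algebraMap A B (y i) := rfl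

theorem up_add (y z : σ → A) : up B (y + z) = up B y + up B z := funext fun _ => map_add _ _ _

theorem up_sub (y z : σ → A) : up B (y - z) = up B y - up B z := funext fun _ => map_sub _ _ _

theorem up_smul (r : A) (y : σ → A) : up B (r • y) = algebraMap A B r • up B y :=
  funext fun _ => map_mul _ _ _

theorem up_zero : up B (0 : σ → A) = 0 := funext fun _ => map_zero _

theorem up_self (y : σ → A) : up A y = y := rfl

theorem up_single [DecidableEq σ] (i : σ) : up B (Pi.single i (1 : A)) = Pi.single i 1 :=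
  H61.comp_single _ i

theorem up_up {C : Type} [CommRing C] [Algebra A C] [Algebra B C] [IsScalarTower A B C]
    (y : σ → A) : up C (up B y) = up C y :=
  funext fun _ => (IsScalarTower.algebraMap_apply A B C _).symm

theorem map_up {C F : Type} [CommRing C] [Algebra A C] [FunLike F B C] [AlgHomClass F A B C]
    (φ : F) (y : σ → A) : φ ∘ up B y = up C y := funext fun _ => AlgHomClass.commutes φ _

theorem der_up {R : Type} [CommRing R] [Algebra R B] (D : Derivation R B B)
    (hD : ∀ c : A, D (algebraMap A B c) = 0) (y : σ → A) : D ∘ up B y = 0 :=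
  funext fun _ => hD _

theorem aeval_comp_X (y : σ → B) : (aeval y : MvPolynomial σ A →ₐ[A] B) ∘ X = y :=
  funext fun i => by simp only [Function.comp, aeval_X]

end

theorem up_inj {σ A B : Type} [Field A] [Field B] [Algebra A B] {y z : σ → A}
    (h : up B y = up B z) : y = z := funext fun i => (algebraMap A B).injective (congrFun h i)

theorem up_ne_zero {σ A B : Type} [Field A] [Field B] [Algebra A B] {y : σ → A} (h : y ≠ 0) :
    up B y ≠ 0 := fun h0 => h (up_inj (h0.trans up_zero.symm))

/-- A symmetric tensor of order 2. -/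
structure S2 (σ R : Type) where
  t : σ → σ → R
  s12 : ∀ i j, t i j = t j i

namespace S2

variable {σ : Type} [Fintype σ] {R : Type} [CommRing R] (q : S2 σ R) {A B : Type} [CommRing A] [Algebra R A]
  [CommRing B] [Algebra R B]

/-- The multilinear form over any algebra. -/
def T (a b : σ → A) : A :=
  ∑ i, ∑ j, algebraMap R A (q.t i j) * (a i * b j)

theorem T12 (a b : σ → A) : q.T a b = q.T b a := by
  unfold T
  rw [Finset.sum_comm]
  refine Finset.sum_congr rfl fun i _ => Finset.sum_congr rfl fun j _ => ?_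
  rw [q.s12]; ring

theorem add1 (a b z : σ → A) : q.T (a + z) b = q.T a b + q.T z b := by
  simp only [T, Pi.add_apply, add_mul, mul_add, Finset.sum_add_distrib]

theorem sub1 (a b z : σ → A) : q.T (a - z) b = q.T a b - q.T z b := by
  simp only [T, Pi.sub_apply, sub_mul, mul_sub, Finset.sum_sub_distrib]

theorem smul1 (r : A) (a b : σ → A) : q.T (r • a) b = r * q.T a b := by
  simp only [T, Pi.smul_apply, smul_eq_mul, Finset.mul_sum]
  refine Finset.sum_congr rfl fun i _ => Finset.sum_congr rfl fun j _ => ?_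
  ring

theorem zero1 (b : σ → A) : q.T 0 b = 0 := by simp [T]

theorem add2 (a b z : σ → A) : q.T a (b + z) = q.T a b + q.T a z := by
  simp only [T, Pi.add_apply, add_mul, mul_add, Finset.sum_add_distrib]

theorem sub2 (a b z : σ → A) : q.T a (b - z) = q.T a b - q.T a z := by
  simp only [T, Pi.sub_apply, sub_mul, mul_sub, Finset.sum_sub_distrib]

theorem smul2 (r : A) (a b : σ → A) : q.T a (r • b) = r * q.T a b := by
  simp only [T, Pi.smul_apply, smul_eq_mul, Finset.mul_sum]
  refine Finset.sum_congr rfl fun i _ => Finset.sum_congr rfl fun j _ => ?_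
  ring

theorem zero2 (a : σ → A) : q.T a 0 = 0 := by simp [T]

/-- The linear form in the last slot. -/
def L (a : σ → A) : (σ → A) →ₗ[A] A where
  toFun := q.T a
  map_add' := q.add2 a
  map_smul' r z := q.smul2 r a z

theorem L_apply (a b : σ → A) : q.L a b = q.T a b := rfl

theorem sum_last {ι : Type} (s : Finset ι) (a : σ → A) (z : ι → σ → A) :
    q.T a (∑ x ∈ s, z x) = ∑ x ∈ s, q.T a (z x) := map_sum (q.L a) z s

theorem T_eq_sum [DecidableEq σ] (a b : σ → A) :
    q.T a b = ∑ x, b x * q.T a (Pi.single x 1) := by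
  conv_lhs => rw [← L_apply, ← Finset.univ_sum_single b, map_sum]
  refine Finset.sum_congr rfl fun x _ => ?_
  rw [L_apply, ← smul2, ← Pi.single_smul, smul_eq_mul, mul_one]

theorem map {F : Type} [FunLike F A B] [AlgHomClass F R A B] (φ : F) (a b : σ → A) :
    φ (q.T a b) = q.T (φ ∘ a) (φ ∘ b) := by
  simp only [T, map_sum, map_mul, AlgHomClass.commutes, Function.comp]

theorem T_up [Algebra A B] [IsScalarTower R A B] (a b : σ → A) :
    q.T (up B a) (up B b) = algebraMap A B (q.T a b) :=
  (q.map (IsScalarTower.toAlgHom R A B) a b).symm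

theorem der' {R' : Type} [CommRing R'] [Algebra R' A] (D : Derivation R' A A)
    (hD : ∀ c : R, D (algebraMap R A c) = 0) (a b : σ → A) :
    D (q.T a b) = q.T (D ∘ a) b
      + q.T a (D ∘ b) := by
  simp only [T, map_sum, Derivation.leibniz, hD, smul_eq_mul, mul_zero,
    add_zero, Function.comp, ← Finset.sum_add_distrib]
  refine Finset.sum_congr rfl fun i _ => Finset.sum_congr rfl fun j _ => ?_
  ring

theorem der (D : Derivation R A A) (a b : σ → A) :
    D (q.T a b) = q.T (D ∘ a) b
      + q.T a (D ∘ b) :=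
  q.der' D D.map_algebraMap a b

@[fun_prop]
theorem cont {Y : Type} [TopologicalSpace Y] [TopologicalSpace A] [IsTopologicalRing A]
    {a b : Y → σ → A} (ha : Continuous a) (hb : Continuous b) :
    Continuous fun y => q.T (a y) (b y) := by
  unfold T
  fun_prop

theorem mem_subring {S : Type} [SetLike S A] [SubringClass S A] (K : S)
    (ht : ∀ i j, algebraMap R A (q.t i j) ∈ K) {a b : σ → A}
    (ha : ∀ i, a i ∈ K) (hb : ∀ i, b i ∈ K) : q.T a b ∈ K :=
  sum_mem fun i _ => sum_mem fun j _ =>
    mul_mem (ht i j) (mul_mem (ha i) (hb j))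

end S2

/-- A symmetric tensor of order 3. -/
structure S3 (σ R : Type) where
  t : σ → σ → σ → R
  s12 : ∀ i j k, t i j k = t j i k
  s23 : ∀ i j k, t i j k = t i k j

namespace S3

variable {σ : Type} [Fintype σ] {R : Type} [CommRing R] (q : S3 σ R) {A B : Type} [CommRing A] [Algebra R A]
  [CommRing B] [Algebra R B]

/-- The multilinear form over any algebra. -/
def T (a b c : σ → A) : A :=
  ∑ i, ∑ j, ∑ k, algebraMap R A (q.t i j k) * (a i * b j * c k)

theorem T12 (a b c : σ → A) : q.T a b c = q.T b a c := by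
  unfold T
  rw [Finset.sum_comm]
  refine Finset.sum_congr rfl fun i _ => Finset.sum_congr rfl fun j _ => Finset.sum_congr rfl fun k _ => ?_
  rw [q.s12]; ring

theorem T23 (a b c : σ → A) : q.T a b c = q.T a c b := by
  unfold T
  refine Finset.sum_congr rfl fun i _ => ?_
  rw [Finset.sum_comm]
  refine Finset.sum_congr rfl fun j _ => Finset.sum_congr rfl fun k _ => ?_
  rw [q.s23]; ring

theorem add1 (a b c z : σ → A) : q.T (a + z) b c = q.T a b c + q.T z b c := by
  simp only [T, Pi.add_apply, add_mul, mul_add, Finset.sum_add_distrib]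

theorem sub1 (a b c z : σ → A) : q.T (a - z) b c = q.T a b c - q.T z b c := by
  simp only [T, Pi.sub_apply, sub_mul, mul_sub, Finset.sum_sub_distrib]

theorem smul1 (r : A) (a b c : σ → A) : q.T (r • a) b c = r * q.T a b c := by
  simp only [T, Pi.smul_apply, smul_eq_mul, Finset.mul_sum]
  refine Finset.sum_congr rfl fun i _ => Finset.sum_congr rfl fun j _ => Finset.sum_congr rfl fun k _ => ?_
  ring

theorem zero1 (b c : σ → A) : q.T 0 b c = 0 := by simp [T]

theorem add2 (a b c z : σ → A) : q.T a (b + z) c = q.T a b c + q.T a z c := by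
  simp only [T, Pi.add_apply, add_mul, mul_add, Finset.sum_add_distrib]

theorem sub2 (a b c z : σ → A) : q.T a (b - z) c = q.T a b c - q.T a z c := by
  simp only [T, Pi.sub_apply, sub_mul, mul_sub, Finset.sum_sub_distrib]

theorem smul2 (r : A) (a b c : σ → A) : q.T a (r • b) c = r * q.T a b c := by
  simp only [T, Pi.smul_apply, smul_eq_mul, Finset.mul_sum]
  refine Finset.sum_congr rfl fun i _ => Finset.sum_congr rfl fun j _ => Finset.sum_congr rfl fun k _ => ?_
  ring

theorem zero2 (a c : σ → A) : q.T a 0 c = 0 := by simp [T]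

theorem add3 (a b c z : σ → A) : q.T a b (c + z) = q.T a b c + q.T a b z := by
  simp only [T, Pi.add_apply, add_mul, mul_add, Finset.sum_add_distrib]

theorem sub3 (a b c z : σ → A) : q.T a b (c - z) = q.T a b c - q.T a b z := by
  simp only [T, Pi.sub_apply, sub_mul, mul_sub, Finset.sum_sub_distrib]

theorem smul3 (r : A) (a b c : σ → A) : q.T a b (r • c) = r * q.T a b c := by
  simp only [T, Pi.smul_apply, smul_eq_mul, Finset.mul_sum]
  refine Finset.sum_congr rfl fun i _ => Finset.sum_congr rfl fun j _ => Finset.sum_congr rfl fun k _ => ?_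
  ring

theorem zero3 (a b : σ → A) : q.T a b 0 = 0 := by simp [T]

/-- The linear form in the last slot. -/
def L (a b : σ → A) : (σ → A) →ₗ[A] A where
  toFun := q.T a b
  map_add' := q.add3 a b
  map_smul' r z := q.smul3 r a b z

theorem L_apply (a b c : σ → A) : q.L a b c = q.T a b c := rfl

theorem sum_last {ι : Type} (s : Finset ι) (a b : σ → A) (z : ι → σ → A) :
    q.T a b (∑ x ∈ s, z x) = ∑ x ∈ s, q.T a b (z x) := map_sum (q.L a b) z s

theorem T_eq_sum [DecidableEq σ] (a b c : σ → A) :
    q.T a b c = ∑ x, c x * q.T a b (Pi.single x 1) := by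
  conv_lhs => rw [← L_apply, ← Finset.univ_sum_single c, map_sum]
  refine Finset.sum_congr rfl fun x _ => ?_
  rw [L_apply, ← smul3, ← Pi.single_smul, smul_eq_mul, mul_one]

theorem map {F : Type} [FunLike F A B] [AlgHomClass F R A B] (φ : F) (a b c : σ → A) :
    φ (q.T a b c) = q.T (φ ∘ a) (φ ∘ b) (φ ∘ c) := by
  simp only [T, map_sum, map_mul, AlgHomClass.commutes, Function.comp]

theorem T_up [Algebra A B] [IsScalarTower R A B] (a b c : σ → A) :
    q.T (up B a) (up B b) (up B c) = algebraMap A B (q.T a b c) :=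
  (q.map (IsScalarTower.toAlgHom R A B) a b c).symm

theorem der' {R' : Type} [CommRing R'] [Algebra R' A] (D : Derivation R' A A)
    (hD : ∀ c : R, D (algebraMap R A c) = 0) (a b c : σ → A) :
    D (q.T a b c) = q.T (D ∘ a) b c
      + q.T a (D ∘ b) c
      + q.T a b (D ∘ c) := by
  simp only [T, map_sum, Derivation.leibniz, hD, smul_eq_mul, mul_zero,
    add_zero, Function.comp, ← Finset.sum_add_distrib]
  refine Finset.sum_congr rfl fun i _ => Finset.sum_congr rfl fun j _ => Finset.sum_congr rfl fun k _ => ?_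
  ring

theorem der (D : Derivation R A A) (a b c : σ → A) :
    D (q.T a b c) = q.T (D ∘ a) b c
      + q.T a (D ∘ b) c
      + q.T a b (D ∘ c) :=
  q.der' D D.map_algebraMap a b c

@[fun_prop]
theorem cont {Y : Type} [TopologicalSpace Y] [TopologicalSpace A] [IsTopologicalRing A]
    {a b c : Y → σ → A} (ha : Continuous a) (hb : Continuous b) (hc : Continuous c) :
    Continuous fun y => q.T (a y) (b y) (c y) := by
  unfold T
  fun_prop

theorem mem_subring {S : Type} [SetLike S A] [SubringClass S A] (K : S)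
    (ht : ∀ i j k, algebraMap R A (q.t i j k) ∈ K) {a b c : σ → A}
    (ha : ∀ i, a i ∈ K) (hb : ∀ i, b i ∈ K) (hc : ∀ i, c i ∈ K) : q.T a b c ∈ K :=
  sum_mem fun i _ => sum_mem fun j _ => sum_mem fun k _ =>
    mul_mem (ht i j k) (mul_mem (mul_mem (ha i) (hb j)) (hc k))

end S3

/-- A symmetric tensor of order 5. -/
structure S5 (σ : Type) where
  t : σ → σ → σ → σ → σ → ℂ
  s12 : ∀ i j k l m, t i j k l m = t j i k l m
  s23 : ∀ i j k l m, t i j k l m = t i k j l m
  s34 : ∀ i j k l m, t i j k l m = t i j l k m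
  s45 : ∀ i j k l m, t i j k l m = t i j k m l

namespace S5

variable {σ : Type} [Fintype σ] (q : S5 σ) {A B : Type} [CommRing A] [Algebra ℂ A]
  [CommRing B] [Algebra ℂ B]

/-- The multilinear form over any algebra. -/
def T (a b c d e : σ → A) : A :=
  ∑ i, ∑ j, ∑ k, ∑ l, ∑ m, algebraMap ℂ A (q.t i j k l m) * (a i * b j * c k * d l * e m)

theorem T12 (a b c d e : σ → A) : q.T a b c d e = q.T b a c d e := by
  unfold T
  rw [Finset.sum_comm]
  refine Finset.sum_congr rfl fun i _ => Finset.sum_congr rfl fun j _ => Finset.sum_congr rfl fun k _ => Finset.sum_congr rfl fun l _ => Finset.sum_congr rfl fun m _ => ?_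
  rw [q.s12]; ring

theorem T23 (a b c d e : σ → A) : q.T a b c d e = q.T a c b d e := by
  unfold T
  refine Finset.sum_congr rfl fun i _ => ?_
  rw [Finset.sum_comm]
  refine Finset.sum_congr rfl fun j _ => Finset.sum_congr rfl fun k _ => Finset.sum_congr rfl fun l _ => Finset.sum_congr rfl fun m _ => ?_
  rw [q.s23]; ring

theorem T34 (a b c d e : σ → A) : q.T a b c d e = q.T a b d c e := by
  unfold T
  refine Finset.sum_congr rfl fun i _ => Finset.sum_congr rfl fun j _ => ?_
  rw [Finset.sum_comm]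
  refine Finset.sum_congr rfl fun k _ => Finset.sum_congr rfl fun l _ => Finset.sum_congr rfl fun m _ => ?_
  rw [q.s34]; ring

theorem T45 (a b c d e : σ → A) : q.T a b c d e = q.T a b c e d := by
  unfold T
  refine Finset.sum_congr rfl fun i _ => Finset.sum_congr rfl fun j _ => Finset.sum_congr rfl fun k _ => ?_
  rw [Finset.sum_comm]
  refine Finset.sum_congr rfl fun l _ => Finset.sum_congr rfl fun m _ => ?_
  rw [q.s45]; ring

theorem add1 (a b c d e z : σ → A) : q.T (a + z) b c d e = q.T a b c d e + q.T z b c d e := by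
  simp only [T, Pi.add_apply, add_mul, mul_add, Finset.sum_add_distrib]

theorem sub1 (a b c d e z : σ → A) : q.T (a - z) b c d e = q.T a b c d e - q.T z b c d e := by
  simp only [T, Pi.sub_apply, sub_mul, mul_sub, Finset.sum_sub_distrib]

theorem smul1 (r : A) (a b c d e : σ → A) : q.T (r • a) b c d e = r * q.T a b c d e := by
  simp only [T, Pi.smul_apply, smul_eq_mul, Finset.mul_sum]
  refine Finset.sum_congr rfl fun i _ => Finset.sum_congr rfl fun j _ => Finset.sum_congr rfl fun k _ => Finset.sum_congr rfl fun l _ => Finset.sum_congr rfl fun m _ => ?_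
  ring

theorem zero1 (b c d e : σ → A) : q.T 0 b c d e = 0 := by simp [T]

theorem add2 (a b c d e z : σ → A) : q.T a (b + z) c d e = q.T a b c d e + q.T a z c d e := by
  simp only [T, Pi.add_apply, add_mul, mul_add, Finset.sum_add_distrib]

theorem sub2 (a b c d e z : σ → A) : q.T a (b - z) c d e = q.T a b c d e - q.T a z c d e := by
  simp only [T, Pi.sub_apply, sub_mul, mul_sub, Finset.sum_sub_distrib]

theorem smul2 (r : A) (a b c d e : σ → A) : q.T a (r • b) c d e = r * q.T a b c d e := by
  simp only [T, Pi.smul_apply, smul_eq_mul, Finset.mul_sum]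
  refine Finset.sum_congr rfl fun i _ => Finset.sum_congr rfl fun j _ => Finset.sum_congr rfl fun k _ => Finset.sum_congr rfl fun l _ => Finset.sum_congr rfl fun m _ => ?_
  ring

theorem zero2 (a c d e : σ → A) : q.T a 0 c d e = 0 := by simp [T]

theorem add3 (a b c d e z : σ → A) : q.T a b (c + z) d e = q.T a b c d e + q.T a b z d e := by
  simp only [T, Pi.add_apply, add_mul, mul_add, Finset.sum_add_distrib]

theorem sub3 (a b c d e z : σ → A) : q.T a b (c - z) d e = q.T a b c d e - q.T a b z d e := by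
  simp only [T, Pi.sub_apply, sub_mul, mul_sub, Finset.sum_sub_distrib]

theorem smul3 (r : A) (a b c d e : σ → A) : q.T a b (r • c) d e = r * q.T a b c d e := by
  simp only [T, Pi.smul_apply, smul_eq_mul, Finset.mul_sum]
  refine Finset.sum_congr rfl fun i _ => Finset.sum_congr rfl fun j _ => Finset.sum_congr rfl fun k _ => Finset.sum_congr rfl fun l _ => Finset.sum_congr rfl fun m _ => ?_
  ring

theorem zero3 (a b d e : σ → A) : q.T a b 0 d e = 0 := by simp [T]

theorem add4 (a b c d e z : σ → A) : q.T a b c (d + z) e = q.T a b c d e + q.T a b c z e := by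
  simp only [T, Pi.add_apply, add_mul, mul_add, Finset.sum_add_distrib]

theorem sub4 (a b c d e z : σ → A) : q.T a b c (d - z) e = q.T a b c d e - q.T a b c z e := by
  simp only [T, Pi.sub_apply, sub_mul, mul_sub, Finset.sum_sub_distrib]

theorem smul4 (r : A) (a b c d e : σ → A) : q.T a b c (r • d) e = r * q.T a b c d e := by
  simp only [T, Pi.smul_apply, smul_eq_mul, Finset.mul_sum]
  refine Finset.sum_congr rfl fun i _ => Finset.sum_congr rfl fun j _ => Finset.sum_congr rfl fun k _ => Finset.sum_congr rfl fun l _ => Finset.sum_congr rfl fun m _ => ?_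
  ring

theorem zero4 (a b c e : σ → A) : q.T a b c 0 e = 0 := by simp [T]

theorem add5 (a b c d e z : σ → A) : q.T a b c d (e + z) = q.T a b c d e + q.T a b c d z := by
  simp only [T, Pi.add_apply, add_mul, mul_add, Finset.sum_add_distrib]

theorem sub5 (a b c d e z : σ → A) : q.T a b c d (e - z) = q.T a b c d e - q.T a b c d z := by
  simp only [T, Pi.sub_apply, sub_mul, mul_sub, Finset.sum_sub_distrib]

theorem smul5 (r : A) (a b c d e : σ → A) : q.T a b c d (r • e) = r * q.T a b c d e := by
  simp only [T, Pi.smul_apply, smul_eq_mul, Finset.mul_sum]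
  refine Finset.sum_congr rfl fun i _ => Finset.sum_congr rfl fun j _ => Finset.sum_congr rfl fun k _ => Finset.sum_congr rfl fun l _ => Finset.sum_congr rfl fun m _ => ?_
  ring

theorem zero5 (a b c d : σ → A) : q.T a b c d 0 = 0 := by simp [T]

/-- The linear form in the last slot. -/
def L (a b c d : σ → A) : (σ → A) →ₗ[A] A where
  toFun := q.T a b c d
  map_add' := q.add5 a b c d
  map_smul' r z := q.smul5 r a b c d z

theorem L_apply (a b c d e : σ → A) : q.L a b c d e = q.T a b c d e := rfl

theorem sum_last {ι : Type} (s : Finset ι) (a b c d : σ → A) (z : ι → σ → A) :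
    q.T a b c d (∑ x ∈ s, z x) = ∑ x ∈ s, q.T a b c d (z x) := map_sum (q.L a b c d) z s

theorem T_eq_sum [DecidableEq σ] (a b c d e : σ → A) :
    q.T a b c d e = ∑ x, e x * q.T a b c d (Pi.single x 1) := by
  conv_lhs => rw [← L_apply, ← Finset.univ_sum_single e, map_sum]
  refine Finset.sum_congr rfl fun x _ => ?_
  rw [L_apply, ← smul5, ← Pi.single_smul, smul_eq_mul, mul_one]

theorem map {F : Type} [FunLike F A B] [AlgHomClass F ℂ A B] (φ : F) (a b c d e : σ → A) :
    φ (q.T a b c d e) = q.T (φ ∘ a) (φ ∘ b) (φ ∘ c) (φ ∘ d) (φ ∘ e) := by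
  simp only [T, map_sum, map_mul, AlgHomClass.commutes, Function.comp]

theorem T_up [Algebra A B] [IsScalarTower ℂ A B] (a b c d e : σ → A) :
    q.T (up B a) (up B b) (up B c) (up B d) (up B e) = algebraMap A B (q.T a b c d e) :=
  (q.map (IsScalarTower.toAlgHom ℂ A B) a b c d e).symm

theorem der' {R' : Type} [CommRing R'] [Algebra R' A] (D : Derivation R' A A)
    (hD : ∀ c : ℂ, D (algebraMap ℂ A c) = 0) (a b c d e : σ → A) :
    D (q.T a b c d e) = q.T (D ∘ a) b c d e
      + q.T a (D ∘ b) c d e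
      + q.T a b (D ∘ c) d e
      + q.T a b c (D ∘ d) e
      + q.T a b c d (D ∘ e) := by
  simp only [T, map_sum, Derivation.leibniz, hD, smul_eq_mul, mul_zero,
    add_zero, Function.comp, ← Finset.sum_add_distrib]
  refine Finset.sum_congr rfl fun i _ => Finset.sum_congr rfl fun j _ => Finset.sum_congr rfl fun k _ => Finset.sum_congr rfl fun l _ => Finset.sum_congr rfl fun m _ => ?_
  ring

theorem der (D : Derivation ℂ A A) (a b c d e : σ → A) :
    D (q.T a b c d e) = q.T (D ∘ a) b c d e
      + q.T a (D ∘ b) c d e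
      + q.T a b (D ∘ c) d e
      + q.T a b c (D ∘ d) e
      + q.T a b c d (D ∘ e) :=
  q.der' D D.map_algebraMap a b c d e

@[fun_prop]
theorem cont {Y : Type} [TopologicalSpace Y] [TopologicalSpace A] [IsTopologicalRing A]
    {a b c d e : Y → σ → A} (ha : Continuous a) (hb : Continuous b) (hc : Continuous c) (hd : Continuous d) (he : Continuous e) :
    Continuous fun y => q.T (a y) (b y) (c y) (d y) (e y) := by
  unfold T
  fun_prop

theorem mem_subring {S : Type} [SetLike S A] [SubringClass S A] (K : S)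
    (ht : ∀ i j k l m, algebraMap ℂ A (q.t i j k l m) ∈ K) {a b c d e : σ → A}
    (ha : ∀ i, a i ∈ K) (hb : ∀ i, b i ∈ K) (hc : ∀ i, c i ∈ K) (hd : ∀ i, d i ∈ K) (he : ∀ i, e i ∈ K) : q.T a b c d e ∈ K :=
  sum_mem fun i _ => sum_mem fun j _ => sum_mem fun k _ => sum_mem fun l _ => sum_mem fun m _ =>
    mul_mem (ht i j k l m) (mul_mem (mul_mem (mul_mem (mul_mem (ha i) (hb j)) (hc k)) (hd l)) (he m))

end S5

end Pool.Agent.MP_e0214e_ag.H64

/-! Definitions for the quintic theorem. -/

set_option autoImplicit false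

namespace Pool.Agent.MP_e0214e_ag.H64

open MvPolynomial

/-- The tangent vectors at `y` realised by derivations over `M`. -/
def Tan (M : Type) {σ L : Type} [CommRing M] [Field L] [Algebra M L] (y : σ → L) :
    Submodule L (σ → L) where
  carrier := {u | ∃ D : Derivation M L L, D ∘ y = u}
  add_mem' := by
    rintro _ _ ⟨D, rfl⟩ ⟨D', rfl⟩
    exact ⟨D + D', rfl⟩
  zero_mem' := ⟨0, rfl⟩
  smul_mem' := by
    rintro c _ ⟨D, rfl⟩
    exact ⟨c • D, rfl⟩

theorem mem_Tan {M σ L : Type} [CommRing M] [Field L] [Algebra M L] {y u : σ → L} :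
    u ∈ Tan M y ↔ ∃ D : Derivation M L L, D ∘ y = u := Iff.rfl

section V
variable {σ R A : Type} [Fintype σ] [CommRing R] [CommRing A] [Algebra R A]
  (Q : S2 σ R) (C : S3 σ R)

/-- A point of the intersection of the quadric and the cubic. -/
structure InV (y : σ → A) : Prop where
  ne : y ≠ 0
  q : Q.T y y = 0
  c : C.T y y y = 0

/-- The tangent space. -/
def Hs (y : σ → A) : Submodule A (σ → A) := LinearMap.ker (Q.L y) ⊓ LinearMap.ker (C.L y y)

theorem mem_Hs {y u : σ → A} : u ∈ Hs Q C y ↔ Q.T y u = 0 ∧ C.T y y u = 0 := Iff.rfl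

/-- Smoothness over a field. -/
structure Sm (L : Type) [Field L] [Algebra R L] : Prop where
  nd : ∀ y : σ → L, (∀ u, Q.T y u = 0) → y = 0
  sm : ∀ y : σ → L, InV Q C y → ∀ a b : L, (∀ u, a * Q.T y u + b * C.T y y u = 0) → a = 0 ∧ b = 0

/-- A pair of vectors dual to the two gradients. -/
structure Dual (y e1 e2 : σ → A) : Prop where
  q1 : Q.T y e1 = 1
  c1 : C.T y y e1 = 0
  q2 : Q.T y e2 = 0
  c2 : C.T y y e2 = 1

/-- Eckardt points. -/
def Eck (y : σ → A) : Prop :=
  ∃ μ : A, ∀ u ∈ Hs Q C y, ∀ u' ∈ Hs Q C y, C.T y u u' = μ * Q.T u u'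

/-- Isotropic non-radical tangent vectors. -/
structure Iso (y w : σ → A) : Prop where
  h : w ∈ Hs Q C y
  q : Q.T w w = 0
  nr : ∃ u ∈ Hs Q C y, Q.T w u ≠ 0

/-- One step on the intersection. -/
structure Step (y y' : σ → A) : Prop where
  iso : Iso Q C y y'
  c : C.T y' y' y' = 0
  ne : C.T y y' y' ≠ 0

/-- The parametrisation of the quadric from an isotropic vector. -/
def zt (e τ : σ → A) : σ → A := (2 * Q.T e τ) • τ - Q.T τ τ • e

/-- The hypersurface model. -/
noncomputable def Fm (e : σ → R) : MvPolynomial σ R :=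
  C.T (zt Q (up _ e) X) (zt Q (up _ e) X) (zt Q (up _ e) X)

theorem map_zt {B F : Type} [CommRing B] [Algebra R B] [FunLike F A B] [AlgHomClass F R A B]
    (φ : F) (e τ : σ → A) : φ ∘ zt Q e τ = zt Q (φ ∘ e) (φ ∘ τ) := funext fun i => by
  simp only [zt, Function.comp, Pi.sub_apply, Pi.smul_apply, smul_eq_mul, map_sub, map_mul,
    map_ofNat, Q.map φ]

theorem aeval_Fm (e : σ → R) (τ : σ → A) : aeval τ (Fm Q C e) =
    C.T (zt Q (up A e) τ) (zt Q (up A e) τ) (zt Q (up A e) τ) := by
  rw [Fm, C.map, map_zt, map_up, aeval_comp_X]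

theorem zt_iso {e : σ → A} (he : Q.T e e = 0) (τ : σ → A) : Q.T (zt Q e τ) (zt Q e τ) = 0 := by
  simp only [zt, Q.sub1, Q.sub2, Q.smul1, Q.smul2, he, Q.T12 τ e]
  ring

/-- The third point of the line through `y` in direction `w`. -/
def res3 {L : Type} [Field L] [Algebra R L] (y w : σ → L) : σ → L :=
  w - (C.T w w w / (3 * C.T y w w)) • y

end V

/-- A symmetric tensor of order five over the complex numbers: the quintic form. -/
noncomputable def S5.f {σ : Type} [Fintype σ] (q : S5 σ) : MvPolynomial σ ℂ := q.T X X X X X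

theorem S5.aeval_f {σ A : Type} [Fintype σ] [CommRing A] [Algebra ℂ A] (q : S5 σ) (y : σ → A) :
    aeval y q.f = q.T y y y y y := by rw [S5.f, q.map, aeval_comp_X]

/-- Smoothness of the quintic over a field. -/
def S5.Sm {σ : Type} [Fintype σ] (q : S5 σ) (K : Type) [Field K] [Algebra ℂ K] : Prop :=
  ∀ y : σ → K, y ≠ 0 → q.T y y y y y = 0 → ∃ w, q.T y y y y w ≠ 0

section X
variable {σ A : Type} [Fintype σ] [DecidableEq σ] [CommRing A] [Algebra ℂ A] (q : S5 σ)

/-- Good points: no degenerate contact line. -/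
structure Good (p : σ → A) : Prop where
  b1 : ∀ z, (∀ c : A, z ≠ c • p) → q.T p p p p z = 0 →
    ∀ a0 : A, ¬ ∀ u, q.T p p p z u = a0 * q.T p p p p u
  b2 : ∀ z, (∀ c : A, z ≠ c • p) → q.T p p p p z = 0 → q.T p p p z z = 0 →
    ∀ a0 a1 : A, ¬ ∀ u, q.T p p z z u = a0 * q.T p p p p u + a1 * q.T p p p z u
  b3 : ∀ z, (∀ c : A, z ≠ c • p) → q.T p p p p z = 0 → q.T p p p z z = 0 → q.T p p z z z = 0 →
    ∀ a0 a1 a2 : A, ¬ ∀ u, q.T p z z z u =
      a0 * q.T p p p p u + a1 * q.T p p p z u + a2 * q.T p p z z u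
  b4 : ∀ z, (∀ c : A, z ≠ c • p) → q.T p p p p z = 0 → q.T p p p z z = 0 → q.T p p z z z = 0 →
    q.T p z z z z = 0 → ∀ a0 a1 a2 a3 : A, ¬ ∀ u, q.T z z z z u =
      a0 * q.T p p p p u + a1 * q.T p p p z u + a2 * q.T p p z z u + a3 * q.T p z z z u

/-- A polynomial whose nonvanishing makes points good. -/
structure Dl (Δ : MvPolynomial σ ℂ) : Prop where
  nd : ¬ q.f ∣ Δ
  good : ∀ (L : Type) [Field L] [Algebra ℂ L] (p : σ → L), q.T p p p p p = 0 → aeval p Δ ≠ 0 →
    p ≠ 0 ∧ Good q p

/-- One step on the quintic. -/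
structure XStep (Δ : MvPolynomial σ ℂ) (p p' : σ → A) : Prop where
  z : q.T p p p p p = 0
  d : aeval p Δ ≠ 0
  g1 : q.T p p p p p' = 0
  g2 : q.T p p p p' p' = 0
  g3 : q.T p p p' p' p' = 0
  g4 : q.T p p' p' p' p' ≠ 0
  g5 : q.T p' p' p' p' p' = 0

/-- The coordinates other than two. -/
abbrev Ix (i k : σ) : Type := {j : σ // j ≠ i ∧ j ≠ k}

/-- A frame of the tangent space modulo the point. -/
def Bj (i k : σ) (p : σ → A) (j : Ix i k) : σ → A :=
  q.T p p p p (Pi.single k 1) • (Pi.single j.1 1 : σ → A) -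
    q.T p p p p (Pi.single j.1 1) • (Pi.single k 1 : σ → A)

/-- The linear map given by the frame. -/
def Bv (i k : σ) (p : σ → A) (z : Ix i k → A) : σ → A := ∑ j, z j • Bj q i k p j

/-- The frame condition. -/
structure Fr (i k : σ) (p : σ → A) : Prop where
  ik : i ≠ k
  pi : p i ≠ 0
  gk : q.T p p p p (Pi.single k 1) ≠ 0

/-- The quadric of directions of contact three. -/
def Qp (i k : σ) (p : σ → A) : S2 (Ix i k) A where
  t a b := q.T p p p (Bj q i k p a) (Bj q i k p b)
  s12 _ _ := q.T45 _ _ _ _ _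

/-- The cubic of directions of contact four. -/
def Cp (i k : σ) (p : σ → A) : S3 (Ix i k) A where
  t a b c := q.T p p (Bj q i k p a) (Bj q i k p b) (Bj q i k p c)
  s12 _ _ _ := q.T34 _ _ _ _ _
  s23 _ _ _ := q.T45 _ _ _ _ _

/-- The residual point without denominators. -/
def res5 (p v : σ → A) : σ → A := q.T v v v v v • p - (5 * q.T p v v v v) • v

/-- The third point inside the variety of contact directions, without denominators. -/
def gv (p y w : σ → A) : σ → A := q.T p p w w w • y - (3 * q.T p p y w w) • w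

/-- A conic of isotropic directions. -/
def gw (p w d e : σ → A) (u : A) : σ → A :=
  (2 * q.T p p p w e) • (w + u • d) - (u ^ 2 * q.T p p p d d) • e

/-- The data of the final surface. -/
structure Par (p y w d e : σ → A) : Prop where
  z : q.T p p p p p = 0
  y1 : q.T p p p p y = 0
  w1 : q.T p p p p w = 0
  d1 : q.T p p p p d = 0
  e1 : q.T p p p p e = 0
  yy : q.T p p p y y = 0
  yw : q.T p p p y w = 0
  yd : q.T p p p y d = 0
  ye : q.T p p p y e = 0
  yyy : q.T p p y y y = 0
  yyw : q.T p p y y w = 0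
  yyd : q.T p p y y d = 0
  yye : q.T p p y y e = 0
  ww : q.T p p p w w = 0
  ee : q.T p p p e e = 0
  wd : q.T p p p w d = 0
  ed : q.T p p p e d = 0
  we : q.T p p p w e ≠ 0
  yww : q.T p p y w w ≠ 0
  g4 : q.T p (gv q p y w) (gv q p y w) (gv q p y w) (gv q p y w) ≠ 0
  ind : ∀ a b c c' : A, a • p + b • y + c • w + c' • d = 0 → c' = 0 ∧ c = 0

end X

/-- A dense subfield that is a union of rational function fields. -/
structure Fd {Ω : Type} [NormedField Ω] [Algebra ℂ Ω] (K : IntermediateField ℂ Ω) : Prop where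
  na : ∀ a b : Ω, ‖a + b‖ ≤ max ‖a‖ ‖b‖
  c1 : ∀ c : ℂ, ‖algebraMap ℂ Ω c‖ ≤ 1
  nb : (nhdsWithin (0 : Ω) {0}ᶜ).NeBot
  dense : Dense (K : Set Ω)
  fin : ∀ (ι : Type) [Finite ι] (a : ι → Ω), (∀ i, a i ∈ K) → ∃ ρ ∈ K,
    Function.Injective (Polynomial.aeval ρ : Polynomial ℂ →ₐ[ℂ] Ω) ∧ ∃ d : Polynomial ℂ, d ≠ 0 ∧
      ∃ P : ι → Polynomial ℂ, ∀ i, Polynomial.aeval ρ (P i) = Polynomial.aeval ρ d * a i
  der : ∃ D : Derivation ℂ Ω Ω, ∀ r ∈ K, D r = 0 → ∃ c : ℂ, r = algebraMap ℂ Ω c

section K
variable {σ Ω : Type} [Fintype σ] [NormedField Ω] [Algebra ℂ Ω] (K : IntermediateField ℂ Ω)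

/-- Vectors over the subfield. -/
def In (a : σ → Ω) : Prop := ∀ i, a i ∈ K

/-- Forms over the subfield. -/
structure InQ (Q : S2 σ Ω) (C : S3 σ Ω) : Prop where
  q : ∀ i j, Q.t i j ∈ K
  c : ∀ i j k, C.t i j k ∈ K

/-- Points reached by a step over the subfield. -/
def SK (Q : S2 σ Ω) (C : S3 σ Ω) : Set (σ → Ω) :=
  {z | ∃ y w, In K y ∧ In K w ∧ InV Q C y ∧ Iso Q C y w ∧ C.T y w w ≠ 0 ∧ z = res3 C y w}

/-- Points of the quintic over the subfield. -/
def XK (q : S5 σ) : Set (σ → Ω) := {p | In K p ∧ q.T p p p p p = 0}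

end K

/-- Non-constant points. -/
def NC {σ Ω : Type} [Field Ω] [Algebra ℂ Ω] : Set (σ → Ω) :=
  {p | ∃ i j, p j ≠ 0 ∧ ∀ c : ℂ, p i ≠ algebraMap ℂ Ω c * p j}

end Pool.Agent.MP_e0214e_ag.H64

/-! Derivations and elimination. -/

set_option autoImplicit false

namespace Pool.Agent.MP_e0214e_ag.H64

open MvPolynomial Module Filter Topology

/-- In characteristic zero every field extension is formally smooth. -/
theorem der_fsm (F L : Type) [Field F] [Field L] [Algebra F L] [CharZero F] :
    Algebra.FormallySmooth F L := by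
  obtain ⟨s, hs⟩ := exists_isTranscendenceBasis F L
  have h1 : Algebra.IsAlgebraic (IntermediateField.adjoin F (Set.range ((↑) : s → L))) L :=
    hs.isAlgebraic_field
  have : CharZero (IntermediateField.adjoin F (Set.range ((↑) : s → L))) :=
    algebraRat.charZero _
  exact Algebra.FormallySmooth.of_algebraicIndependent_of_isSeparable hs.1

theorem der_labs {A K B : Type} [CommRing A] [CommRing K] [CommRing B] [Algebra A K]
    [Algebra.FormallySmooth A K] (π : B →+* K) (hπ : Function.Surjective π)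
    (hn : IsNilpotent (RingHom.ker π)) (j : A →+* B) (hj : ∀ x, π (j x) = algebraMap A K x) :
    ∃ φ : K →+* B, (∀ a, π (φ a) = a) ∧ ∀ x, φ (algebraMap A K x) = j x := by
  let := j.toAlgebra
  let g : B →ₐ[A] K := { π with commutes' := hj }
  exact ⟨(Algebra.FormallySmooth.liftOfSurjective (AlgHom.id A K) g hπ hn).toRingHom,
    Algebra.FormallySmooth.liftOfSurjective_apply (AlgHom.id A K) g hπ hn,
    (Algebra.FormallySmooth.liftOfSurjective (AlgHom.id A K) g hπ hn).commutes⟩

/-- Extension of derivations along a formally smooth map. -/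
theorem der_lift {M A L : Type} [CommRing M] [CommRing A] [CommRing L] [Algebra M A] [Algebra A L]
    [Algebra M L] [IsScalarTower M A L] [Algebra.FormallySmooth A L] (D : Derivation M A L) :
    ∃ D' : Derivation M L L, ∀ a, D' (algebraMap A L a) = D a := by
  let j : A →+* TrivSqZeroExt L L :=
    { toFun := fun a => TrivSqZeroExt.inl (algebraMap A L a) + TrivSqZeroExt.inr (D a)
      map_one' := by ext <;> simp
      map_mul' := fun a b => by
        ext
        · simp
        · have := D.leibniz a b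
          rw [Algebra.smul_def, Algebra.smul_def] at this
          simp [this, mul_comm]
      map_zero' := by ext <;> simp
      map_add' := fun a b => by ext <;> simp }
  obtain ⟨φ, h4, h2⟩ := der_labs (A := A) (TrivSqZeroExt.fstHom L L L).toRingHom
    (fun a => ⟨TrivSqZeroExt.inl a, rfl⟩) ⟨2, TrivSqZeroExt.kerIdeal_sq L L⟩ j fun x => by
      change (TrivSqZeroExt.inl (algebraMap A L x) + TrivSqZeroExt.inr (D x) :
        TrivSqZeroExt L L).fst = _
      simp
  have h4 : ∀ a, (φ a).fst = a := h4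
  have h5 : ∀ x, (φ (algebraMap A L x)).snd = D x := fun x => by
    rw [h2]
    change (TrivSqZeroExt.inl (algebraMap A L x) + TrivSqZeroExt.inr (D x) :
        TrivSqZeroExt L L).snd = _
    simp
  refine ⟨Derivation.mk' ⟨⟨fun a => (φ a).snd, fun a b => by simp⟩, fun c a => ?_⟩
    fun a b => ?_, h5⟩
  · have h6 : (φ (algebraMap M L c)).snd = 0 := by
      rw [IsScalarTower.algebraMap_apply M A L, h5, D.map_algebraMap]
    simp only [Algebra.smul_def, map_mul, TrivSqZeroExt.snd_mul, RingHom.id_apply, h6, h4]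
    simp
  · simp [h4, mul_comm]

/-- DER: prescribed values on algebraically independent elements. -/
theorem der_val {M L ι : Type} [Field M] [CharZero M] [Field L] [Algebra M L] {x : ι → L}
    (hx : AlgebraicIndependent M x) (w : ι → L) : ∃ D : Derivation M L L, ∀ i, D (x i) = w i := by
  let A := MvPolynomial ι M
  let F := FractionRing A
  let g : A →ₐ[M] L := MvPolynomial.aeval x
  have hg : Function.Injective g := hx
  let _ : Algebra A L := g.toRingHom.toAlgebra
  have : IsScalarTower M A L := .of_algebraMap_eq fun c => (g.commutes c).symm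
  have : FaithfulSMul A L := (faithfulSMul_iff_algebraMap_injective A L).2 hg
  let _ : Algebra F L := FractionRing.liftAlgebra A L
  have : IsScalarTower A F L := FractionRing.isScalarTower_liftAlgebra A L
  have : CharZero F := algebraRat.charZero F
  have : Algebra.FormallySmooth A F := .of_isLocalization (nonZeroDivisors A)
  have : Algebra.FormallySmooth F L := der_fsm F L
  have : Algebra.FormallySmooth A L := .comp A F L
  obtain ⟨D, hD⟩ := der_lift (MvPolynomial.mkDerivation M w : Derivation M A L)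
  refine ⟨D, fun i => ?_⟩
  have := hD (MvPolynomial.X i)
  rw [MvPolynomial.mkDerivation_X] at this
  rw [← this]
  congr 1
  exact (MvPolynomial.aeval_X x i).symm

/-- EXT: a derivation extends to every larger field. -/
theorem der_ext0 {M L L' : Type} [CommRing M] [Field L] [CharZero L] [Field L'] [Algebra M L]
    [Algebra L L'] [Algebra M L'] [IsScalarTower M L L'] (D : Derivation M L L) :
    ∃ D' : Derivation M L' L', ∀ a, D' (algebraMap L L' a) = algebraMap L L' (D a) := by
  have := der_fsm L L'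
  exact der_lift ((Algebra.linearMap L L').compDer D)

/-- The constants of a derivation form a subfield. -/
theorem der_cf {M L : Type} [CommRing M] [Field L] [Algebra M L]
    (D : Derivation M L L) : ∃ k : Subfield L, ∀ c, c ∈ k ↔ D c = 0 :=
  ⟨{ carrier := {c | D c = 0}
     mul_mem' := fun {a b} ha hb => by
       simp only [Set.mem_ofPred_eq] at *
       simp [ha, hb]
     one_mem' := D.map_one_eq_zero
     add_mem' := fun {a b} ha hb => by
       simp only [Set.mem_ofPred_eq] at *
       simp [ha, hb]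
     zero_mem' := D.map_zero
     neg_mem' := fun {a} ha => by
       simp only [Set.mem_ofPred_eq] at *
       simp [ha]
     inv_mem' := fun a ha => by
       simp only [Set.mem_ofPred_eq] at *
       simp [D.leibniz_inv, ha] }, fun _ => Iff.rfl⟩

/-- An element algebraic over constants is a constant. -/
theorem der_alg {M L k : Type} [CommRing M] [Field L] [Algebra M L] [Field k]
    [CharZero k] [Algebra k L] (D : Derivation M L L) (hk : ∀ c, D (algebraMap k L c) = 0)
    {a : L} (ha : IsAlgebraic k a) : D a = 0 := by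
  let D' : Derivation k L L := Derivation.mk'
    ⟨⟨D, D.map_add⟩, fun c x => by simp [Algebra.smul_def, hk]⟩ D.leibniz
  have h1 := D'.map_aeval (minpoly k a) a
  rw [minpoly.aeval, map_zero, smul_eq_mul] at h1
  exact (mul_eq_zero.1 h1.symm).resolve_left
    ((minpoly.irreducible ha.isIntegral).separable.aeval_derivative_ne_zero (minpoly.aeval k a))

section
variable {M L L' : Type} [Field M] [Field L] [Field L'] [Algebra M L] [Algebra M L'] [Algebra L L']
  [IsScalarTower M L L']

theorem der_ext [CharZero M] (D0 : Derivation M L L) {ι : Type} (x : ι → L')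
    (hx : AlgebraicIndependent L x) (w : ι → L') : ∃ D : Derivation M L' L',
      (∀ a : L, D (algebraMap L L' a) = algebraMap L L' (D0 a)) ∧ D ∘ x = w := by
  have : CharZero L := charZero_of_injective_algebraMap (algebraMap M L).injective
  obtain ⟨D1, h1⟩ := der_ext0 (L' := L') D0
  obtain ⟨D2, h2⟩ := der_val hx fun i => w i - D1 (x i)
  refine ⟨D1 + D2.restrictScalars M, fun a => ?_, funext fun i => ?_⟩
  · simp [h1]
  · simp [h2]

theorem der_const [CharZero M] [IsAlgClosed M] (a : L) (h : ∀ D : Derivation M L L, D a = 0) :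
    ∃ c : M, algebraMap M L c = a := by
  by_contra ha
  have ht : Transcendental M a := fun h => ha <|
    minpoly.mem_range_of_degree_eq_one M a
      (IsAlgClosed.degree_eq_one_of_irreducible M (minpoly.irreducible h.isIntegral))
  obtain ⟨D, hD⟩ := der_val (algebraicIndependent_unique_type_iff (x := fun _ : Unit => a).2 ht)
    fun _ => 1
  exact one_ne_zero ((hD ()).symm.trans (h D))

theorem gen_ext (M L : Type) [Field M] [Field L] [Algebra M L] (τ : Type) :
    ∃ (L' : Type) (_ : Field L') (_ : IsAlgClosed L') (_ : Algebra M L') (_ : Algebra L L')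
      (_ : IsScalarTower M L L') (x : τ → L'), AlgebraicIndependent L x := by
  let A := MvPolynomial τ L
  let F := FractionRing A
  let K := AlgebraicClosure F
  let g := IsScalarTower.toAlgHom L A K
  have hg : Function.Injective g := (algebraMap F K).injective.comp (IsFractionRing.injective A F)
  let j : Algebra M K := ((algebraMap L K).comp (algebraMap M L)).toAlgebra
  exact ⟨K, inferInstance, inferInstance, j, inferInstance, .of_algebraMap_eq fun _ => rfl,
    g ∘ X, (MvPolynomial.algebraicIndependent_X τ L).map' hg⟩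

theorem tan_up [CharZero M] {σ : Type} (y u : σ → L) (hu : u ∈ Tan M y) :
    up L' u ∈ Tan M (up L' y) := by
  have : CharZero L := charZero_of_injective_algebraMap (algebraMap M L).injective
  obtain ⟨D, rfl⟩ := mem_Tan.1 hu
  obtain ⟨D', hD⟩ := der_ext0 (L' := L') D
  exact mem_Tan.2 ⟨D', funext fun i => hD (y i)⟩

theorem finrank_span_up {σ : Type} [Fintype σ] (E : Submodule L (σ → L)) :
    finrank L' (Submodule.span L' (up L' '' (E : Set (σ → L)))) = finrank L E := by
  let b := Module.finBasis L E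
  have h1 : LinearIndependent L fun i => (b i : σ → L) :=
    b.linearIndependent.map' E.subtype (Submodule.ker_subtype E)
  have h2 : LinearIndependent L' fun i => up L' (b i : σ → L) :=
    linearIndependent_algebraMap_comp_iff.2 h1
  have h3 : Submodule.span L' (up L' '' (E : Set (σ → L))) =
      Submodule.span L' (Set.range fun i => up L' (b i : σ → L)) := by
    refine le_antisymm (Submodule.span_le.2 ?_) (Submodule.span_mono ?_)
    · rintro _ ⟨u, hu, rfl⟩
      have h4 : up L' u = ∑ i, algebraMap L L' (b.repr ⟨u, hu⟩ i) • up L' (b i : σ → L) := by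
        funext j
        have h5 := congrArg (fun v : E => algebraMap L L' (v.1 j)) (b.sum_repr ⟨u, hu⟩)
        simp only [Submodule.coe_sum, Submodule.coe_smul, Finset.sum_apply, Pi.smul_apply,
          smul_eq_mul, map_sum, map_mul] at h5
        simp only [Finset.sum_apply, Pi.smul_apply, smul_eq_mul, up_apply, h5]
      rw [h4]
      exact Submodule.sum_mem _ fun i _ => Submodule.smul_mem _ _ (Submodule.subset_span ⟨i, rfl⟩)
    · rintro _ ⟨i, rfl⟩
      exact ⟨_, (b i).2, rfl⟩
  rw [h3, finrank_span_eq_card h2, Fintype.card_fin]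

theorem tan_le {σ : Type} (y : σ → L') : Tan L y ≤ Tan M y := fun _ h => by
  obtain ⟨D, rfl⟩ := mem_Tan.1 h
  exact mem_Tan.2 ⟨D.restrictScalars M, rfl⟩

theorem cut {U W Z : Type} [AddCommGroup U] [Module L U] [AddCommGroup W] [Module L W]
    [AddCommGroup Z] [Module L Z] [FiniteDimensional L W] [FiniteDimensional L Z]
    (α : U →ₗ[L] W) (θ : U →ₗ[L] Z) :
    finrank L (LinearMap.range α) ≤
      finrank L ((LinearMap.ker θ).map α) + finrank L (LinearMap.range θ) := by
  obtain ⟨C, hC⟩ := (LinearMap.ker θ).exists_isCompl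
  have e := (Submodule.quotientEquivOfIsCompl _ _ hC).symm.trans θ.quotKerEquivRange
  have : FiniteDimensional L C := Module.Finite.equiv e.symm
  have h2 : LinearMap.range α = (LinearMap.ker θ).map α ⊔ C.map α := by
    rw [← Submodule.map_sup, hC.sup_eq_top, Submodule.map_top]
  rw [h2, ← e.finrank_eq]
  exact (Submodule.finrank_add_le_finrank_add_finrank _ _).trans
    (Nat.add_le_add_left (Submodule.finrank_map_le α C) _)

theorem exists_dep {W : Type} [AddCommGroup W] [Module L W] {m : ℕ} (φ : W →ₗ[L] (Fin m → L))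
    (E : Submodule L W) (h : finrank L (E.map φ) < m) :
    ∃ c : Fin m → L, c ≠ 0 ∧ ∀ u ∈ E, ∑ i, c i * φ u i = 0 := by
  obtain ⟨f, h0, hf⟩ := (E.map φ).exists_le_ker_of_lt_top (lt_top_iff_ne_top.2 fun h1 => by
    rw [h1] at h
    simp at h)
  have h2 : ∀ v : Fin m → L, f v = ∑ i, f (Pi.single i 1) * v i := fun v => by
    conv_lhs => rw [← Finset.univ_sum_single v, map_sum]
    refine Finset.sum_congr rfl fun i _ => ?_
    rw [mul_comm, ← smul_eq_mul, ← map_smul, ← Pi.single_smul, smul_eq_mul, mul_one]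
  refine ⟨fun i => f (Pi.single i 1), fun h3 => h0 (LinearMap.ext fun v => ?_), fun u hu => ?_⟩
  · simp [h2 v, show ∀ i, f (Pi.single i 1) = 0 from congrFun h3]
  · rw [← h2]
    exact hf ⟨u, hu, rfl⟩

theorem vald [CharZero L] {R : Type} [CommRing R] [Algebra R L] (D : Derivation R L L) (a : L)
    (h : ∀ O : ValuationSubring L, (∀ c, D c = 0 → c ∈ O) → a ∈ O) : D a = 0 := by
  obtain ⟨k, hk⟩ := der_cf D
  have h1 : a ∈ (integralClosure (Subring.closure (k : Set L)) L).toSubring := by
    rw [← iInf_valuationSubring_superset, Subring.mem_iInf]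
    exact fun V => h V.1 fun c hc => V.2 ((hk c).2 hc)
  have h2 : Subring.closure (k : Set L) = k.toSubring := Subring.closure_eq k.toSubring
  rw [h2] at h1
  have h3 : IsIntegral k a := h1
  exact der_alg D (fun c : k => (hk c).1 c.2) h3.isAlgebraic

end

section
variable {M L L' : Type} [Field M] [Field L] [Field L'] [Algebra M L] [Algebra M L'] [Algebra L L']
  [IsScalarTower M L L']

theorem gen {σ ι κ : Type} [Finite σ] [Finite ι] (r : κ → MvPolynomial ι M)
    (o : σ → MvPolynomial ι M) (y0 : ι → L) (h0 : ∀ j, aeval y0 (r j) = 0) :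
    ∃ Δ : MvPolynomial σ M, aeval (fun i => aeval y0 (o i)) Δ ≠ 0 ∧
      ∀ (Ω : Type) [Field Ω] [IsAlgClosed Ω] [Algebra M Ω] (ξ : σ → Ω),
        (∀ h : MvPolynomial σ M, aeval (fun i => aeval y0 (o i)) h = 0 → aeval ξ h = 0) →
        aeval ξ Δ ≠ 0 → ∃ y : ι → Ω, (∀ j, aeval y (r j) = 0) ∧ ∀ i, aeval y (o i) = ξ i := by
  let B := (aeval y0 : MvPolynomial ι M →ₐ[M] L).range
  let π : MvPolynomial ι M →ₐ[M] B := (aeval y0 : MvPolynomial ι M →ₐ[M] L).rangeRestrict
  let g : MvPolynomial σ M →ₐ[M] L := aeval fun i => aeval y0 (o i)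
  have hg : ∀ h, g h = (π (aeval o h) : B) := fun h => (comp_aeval_apply (f := o) (aeval y0) h).symm
  let I := RingHom.ker g
  have : I.IsPrime := RingHom.ker_isPrime g
  let g' : (MvPolynomial σ M ⧸ I) →ₐ[M] B :=
    Ideal.Quotient.liftₐ I (π.comp (aeval o)) fun h hh => Subtype.ext ((hg h).symm.trans hh)
  let := g'.toRingHom.toAlgebra
  have : IsScalarTower M (MvPolynomial σ M ⧸ I) B :=
    IsScalarTower.of_algebraMap_eq fun c => (g'.commutes c).symm
  have : Algebra.FiniteType M B := .of_surjective π (AlgHom.rangeRestrict_surjective _)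
  have := Algebra.FiniteType.of_restrictScalars_finiteType M (MvPolynomial σ M ⧸ I) B
  obtain ⟨a, ha, H2⟩ := H61.gen0 (A := MvPolynomial σ M ⧸ I) (B := B) (by
    rw [injective_iff_map_eq_zero]
    intro x hx
    obtain ⟨h, rfl⟩ := Ideal.Quotient.mk_surjective x
    exact Ideal.Quotient.eq_zero_iff_mem.2 ((hg h).trans (congrArg Subtype.val hx)))
  obtain ⟨Δ, rfl⟩ := Ideal.Quotient.mk_surjective a
  refine ⟨Δ, fun h => ha (Ideal.Quotient.eq_zero_iff_mem.2 h), fun Ω _ _ _ ξ h1 h2 => ?_⟩
  obtain ⟨ψ, hψ⟩ := H2 Ω (Ideal.Quotient.lift I (aeval ξ : MvPolynomial σ M →ₐ[M] Ω).toRingHom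
    fun h hh => h1 h hh) h2
  have h3 : ∀ h, ψ (π (aeval o h)) = aeval ξ h := fun h => hψ (Ideal.Quotient.mk I h)
  have h4 : ∀ p, aeval (fun i => ψ (π (X i))) p = ψ (π p) := by
    intro p
    induction p using MvPolynomial.induction_on with
    | C c => have := h3 (C c); rwa [aeval_C, aeval_C, algebraMap_eq, ← aeval_C, eq_comm] at this
    | add p q hp hq => simp only [map_add, hp, hq]
    | mul_X p i hp => simp only [map_mul, hp, aeval_X]
  have h5 : ∀ h : MvPolynomial ι M, aeval y0 h = 0 → aeval (fun i => ψ (π (X i))) h = 0 :=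
    fun h hh => by rw [h4, show π h = 0 from Subtype.ext hh, map_zero]
  exact ⟨_, fun j => h5 _ (h0 j), fun i => by rw [h4]; simpa using h3 (X i)⟩

theorem bad [IsAlgClosed L] {σ ι κ : Type} [Finite σ] [Finite ι]
    (r : κ → MvPolynomial (σ ⊕ ι) M) (ξ : σ → L)
    (h : ¬ ∃ a : ι → L, ∀ j, aeval (Sum.elim ξ a) (r j) = 0) :
    ∃ Δ : MvPolynomial σ M, aeval ξ Δ ≠ 0 ∧
      ∀ (A : Type) [CommRing A] [Algebra M A] (ξ' : σ → A) (a : ι → A),
        (∀ h : MvPolynomial σ M, aeval ξ h = 0 → aeval ξ' h = 0) →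
        (∀ j, aeval (Sum.elim ξ' a) (r j) = 0) → aeval ξ' Δ = 0 := by
  let g : MvPolynomial σ M →ₐ[M] L := aeval ξ
  let J : Ideal (MvPolynomial (σ ⊕ ι) M) :=
    Ideal.span (Set.range r) ⊔ (RingHom.ker g).map (rename Sum.inl)
  by_cases hJ : ∃ Δ, rename Sum.inl Δ ∈ J ∧ g Δ ≠ 0
  · obtain ⟨Δ, h1, h2⟩ := hJ
    refine ⟨Δ, h2, fun A _ _ ξ' y h3 h4 => ?_⟩
    have h5 : J ≤ RingHom.ker (aeval (Sum.elim ξ' y) : MvPolynomial (σ ⊕ ι) M →ₐ[M] A) := by
      refine sup_le (Ideal.span_le.2 ?_) (Ideal.map_le_iff_le_comap.2 fun t ht => ?_)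
      · rintro _ ⟨j, rfl⟩; exact h4 j
      · rw [Ideal.mem_comap, RingHom.mem_ker, aeval_rename]
        exact h3 t ht
    have h6 := h5 h1
    rwa [RingHom.mem_ker, aeval_rename] at h6
  exfalso
  push Not at hJ
  let I := RingHom.ker g
  have : I.IsPrime := RingHom.ker_isPrime g
  let g' : (MvPolynomial σ M ⧸ I) →ₐ[M] MvPolynomial (σ ⊕ ι) M ⧸ J :=
    Ideal.Quotient.liftₐ I ((Ideal.Quotient.mkₐ M J).comp (rename Sum.inl)) fun h hh =>
      Ideal.Quotient.eq_zero_iff_mem.2 (Ideal.mem_sup_right (Ideal.mem_map_of_mem _ hh))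
  let := g'.toRingHom.toAlgebra
  have : IsScalarTower M (MvPolynomial σ M ⧸ I) (MvPolynomial (σ ⊕ ι) M ⧸ J) :=
    IsScalarTower.of_algebraMap_eq fun c => (g'.commutes c).symm
  have := Algebra.FiniteType.of_restrictScalars_finiteType M (MvPolynomial σ M ⧸ I)
    (MvPolynomial (σ ⊕ ι) M ⧸ J)
  obtain ⟨a, ha, H2⟩ := H61.gen0 (A := MvPolynomial σ M ⧸ I) (B := MvPolynomial (σ ⊕ ι) M ⧸ J) (by
    rw [injective_iff_map_eq_zero]
    intro x hx
    obtain ⟨t, rfl⟩ := Ideal.Quotient.mk_surjective x
    exact Ideal.Quotient.eq_zero_iff_mem.2 (hJ t (Ideal.Quotient.eq_zero_iff_mem.1 hx)))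
  obtain ⟨Δ, rfl⟩ := Ideal.Quotient.mk_surjective a
  obtain ⟨ψ, hψ⟩ := H2 L (Ideal.Quotient.lift I g.toRingHom fun _ hh => hh)
    fun h => ha (Ideal.Quotient.eq_zero_iff_mem.2 h)
  have h3 : ∀ t, ψ (Ideal.Quotient.mk J (rename Sum.inl t)) = aeval ξ t :=
    fun t => hψ (Ideal.Quotient.mk I t)
  have h4 : ∀ p, aeval (Sum.elim ξ fun i => ψ (Ideal.Quotient.mk J (X (Sum.inr i)))) p =
      ψ (Ideal.Quotient.mk J p) := by
    intro p
    induction p using MvPolynomial.induction_on with
    | C c => have := h3 (C c); rwa [rename_C, aeval_C, ← aeval_C, eq_comm] at this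
    | add p q hp hq => simp only [map_add, hp, hq]
    | mul_X p i hp =>
      simp only [map_mul, hp, aeval_X]
      rcases i with i | i
      · have := h3 (X i)
        rw [rename_X, aeval_X] at this
        rw [this, Sum.elim_inl]
      · rfl
  refine h ⟨_, fun j => (h4 _).trans ?_⟩
  rw [Ideal.Quotient.eq_zero_iff_mem.2 (Ideal.mem_sup_left (Ideal.subset_span
    (Set.mem_range_self j))), map_zero]

end

section
variable {M L L' : Type} [Field M] [Field L] [Field L'] [Algebra M L] [Algebra M L'] [Algebra L L']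
  [IsScalarTower M L L']

theorem elim_poly {R : Type} [CommRing R] [IsDomain R] {f g : Polynomial R} (hf : Prime f)
    (hg : ¬ f ∣ g) : ∃ c : R, c ≠ 0 ∧ ∃ a b, Polynomial.C c = a * f + b * g := by
  have := AdjoinRoot.isDomain_of_prime hf
  have h1 : ∀ p, IsAlgebraic R (AdjoinRoot.mk f p) := fun p => by
    induction p using Polynomial.induction_on' with
    | add p q hp hq => rw [map_add]; exact hp.add hq
    | monomial n a =>
      rw [← Polynomial.C_mul_X_pow_eq_monomial, map_mul, map_pow]
      exact (isAlgebraic_algebraMap a).mul ((AdjoinRoot.isAlgebraic_root hf.ne_zero).pow n)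
  obtain ⟨c, hc, t, ht⟩ := (h1 g).exists_nonzero_dvd
    (mem_nonZeroDivisors_of_ne_zero fun h => hg (AdjoinRoot.mk_eq_zero.1 h))
  obtain ⟨t, rfl⟩ := AdjoinRoot.mk_surjective t
  obtain ⟨a, ha⟩ := (AdjoinRoot.mk_eq_mk (f := f) (g := Polynomial.C c) (h := g * t)).1
    (by rw [map_mul]; exact ht)
  exact ⟨c, hc, a, t, by linear_combination ha⟩

theorem elim {σ : Type} [Fintype σ] [DecidableEq σ] {f g : MvPolynomial σ M} (hf : Prime f)
    (hg : ¬ f ∣ g) (k : σ) : ∃ H : MvPolynomial {i // i ≠ k} M, H ≠ 0 ∧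
      ∃ a b, rename Subtype.val H = a * f + b * g := by
  classical
  let e : MvPolynomial σ M ≃ₐ[M] Polynomial (MvPolynomial {i // i ≠ k} M) :=
    (renameEquiv M (Equiv.optionSubtypeNe k).symm).trans (optionEquivLeft M _)
  have he : ∀ H, e (rename Subtype.val H) = Polynomial.C H := fun H => by
    induction H using MvPolynomial.induction_on with
    | C c => simp [e]
    | add p q hp hq => simp only [map_add, hp, hq]
    | mul_X p i hp =>
      rw [map_mul, map_mul, hp, map_mul, rename_X]
      simp [e, Equiv.optionSubtypeNe_symm_of_ne i.2]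
  obtain ⟨H, h0, a, b, h⟩ := elim_poly (f := e f) (g := e g) ((MulEquiv.prime_iff e.toMulEquiv).2 hf)
    fun h => hg ((map_dvd_iff e).1 h)
  refine ⟨H, h0, e.symm a, e.symm b, e.injective ?_⟩
  rw [he, h]
  simp

theorem elim_der {σ : Type} [Fintype σ] (D : Derivation M L L)
    (y : σ → L) (H : MvPolynomial σ M) :
    D (aeval y H) = ∑ i, aeval y (pderiv i H) * D (y i) := by
  classical
  induction H using MvPolynomial.induction_on with
  | C a => simp
  | add p q hp hq => simp only [map_add, hp, hq, add_mul, Finset.sum_add_distrib]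
  | mul_X p j h =>
    simp only [map_mul, aeval_X, Derivation.leibniz, smul_eq_mul, h, pderiv_X, map_add,
      Pi.single_apply, add_mul, Finset.sum_add_distrib, Finset.mul_sum]
    congr 1
    · rw [Finset.sum_eq_single j]
      · simp
      · intro b _ hb
        simp [Ne.symm hb]
      · simp
    · refine Finset.sum_congr rfl fun l _ => by ring

theorem elim_closed {σ : Type} [CharZero M] (I : Ideal (MvPolynomial σ M)) (hI : I ≠ ⊤)
    (hd : ∀ i, ∀ H ∈ I, pderiv i H ∈ I) : ∀ H ∈ I, H = 0 := by
  classical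
  have h0 : ∀ H ∈ I, (∀ s : σ →₀ ℕ, s ≠ 0 → coeff s H = 0) → H = 0 := by
    intro H hH hs
    have hC : H = C (coeff 0 H) := by
      ext s
      by_cases h : s = 0
      · simp [h]
      · rw [hs s h, coeff_C, if_neg (Ne.symm h)]
    by_contra h1
    have hc : coeff 0 H ≠ 0 := fun hc => h1 (by rw [hC, hc, map_zero])
    rw [hC] at hH
    exact hI (Ideal.eq_top_of_isUnit_mem I hH ((Ne.isUnit hc).map C))
  have key : ∀ n : ℕ, ∀ H ∈ I, (∀ s : σ →₀ ℕ, n ≤ s.degree → coeff s H = 0) → H = 0 := by
    intro n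
    induction n with
    | zero => exact fun H hH hs => h0 H hH fun s _ => hs s (Nat.zero_le _)
    | succ n ih =>
      intro H hH hs
      have hp : ∀ i, pderiv i H = 0 := by
        intro i
        refine ih _ (hd i H hH) fun s h => ?_
        rw [coeff_pderiv, hs _ (by rw [map_add, Finsupp.degree_single]; omega), zero_mul]
      refine h0 H hH fun s h => ?_
      obtain ⟨i, hi⟩ : ∃ i, s i ≠ 0 := by
        by_contra! hcon
        exact h (Finsupp.ext hcon)
      have e : s = (s - Finsupp.single i 1) + Finsupp.single i 1 := by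
        rw [tsub_add_cancel_of_le]
        rw [Finsupp.single_le_iff]
        omega
      have := coeff_pderiv (i := i) H (s - Finsupp.single i 1)
      rw [hp i, coeff_zero, ← e] at this
      exact (mul_eq_zero.1 this.symm).resolve_right (Nat.cast_add_one_ne_zero _)
  exact fun H hH => key (H.totalDegree + 1) H hH fun s hs => coeff_eq_zero_of_totalDegree_lt hs

theorem elim_jac {σ : Type} [Fintype σ] [DecidableEq σ] [CharZero M]
    (y : σ → L)
    (h : ∀ j, ∃ D : Derivation M L L, ∀ i, D (y i) = if i = j then 1 else 0)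
    (H : MvPolynomial σ M) (hH : aeval y H = 0) : H = 0 := by
  refine elim_closed (RingHom.ker (aeval y : MvPolynomial σ M →ₐ[M] L)) (RingHom.ker_ne_top _)
    (fun j H hH => ?_) H hH
  obtain ⟨D, hD⟩ := h j
  have h1 := elim_der D y H
  rw [RingHom.mem_ker] at hH ⊢
  simpa [hH, hD] using h1.symm

theorem generic [CharZero M] {σ : Type} [Fintype σ] {f : MvPolynomial σ M} (hf : Prime f)
    (ξ : σ → L) (h0 : aeval ξ f = 0) (lam : (σ → L) →ₗ[L] L) (hl : lam ≠ 0)
    (ht : LinearMap.ker lam ≤ Tan M ξ) (h : MvPolynomial σ M) (hh : aeval ξ h = 0) : f ∣ h := by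
  classical
  by_contra hfg
  obtain ⟨k, hk⟩ : ∃ k, lam (Pi.single k 1) ≠ 0 := by
    by_contra! H
    exact hl (LinearMap.pi_ext' fun i => LinearMap.ext_ring (H i))
  obtain ⟨H, hH, a, b, e⟩ := elim hf hfg k
  refine hH (elim_jac (fun i : {i // i ≠ k} => ξ i.1) (fun j => ?_) H ?_)
  · obtain ⟨D, hD⟩ := mem_Tan.1 (ht (x := Pi.single j.1 1 -
      (lam (Pi.single j.1 1) / lam (Pi.single k 1)) • Pi.single k 1) (by
        rw [LinearMap.mem_ker, map_sub, map_smul, smul_eq_mul, div_mul_cancel₀ _ hk, sub_self]))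
    refine ⟨D, fun i => (congrFun hD i.1).trans ?_⟩
    simp [Pi.single_apply, i.2, Subtype.ext_iff]
  · have h1 := congrArg (aeval ξ) e
    rwa [map_add, map_mul, map_mul, h0, hh, mul_zero, mul_zero, add_zero, aeval_rename] at h1

end

section
variable {M L L' : Type} [Field M] [Field L] [Field L'] [Algebra M L] [Algebra M L'] [Algebra L L']
  [IsScalarTower M L L']

theorem gpt_der {σ K : Type} [Fintype σ] [Field K] [Algebra M K] (D : Derivation M K K)
    (ξ : σ → K) (h : MvPolynomial σ M) :
    D (aeval ξ h) = ∑ i, aeval ξ (pderiv i h) * D (ξ i) := by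
  classical
  induction h using MvPolynomial.induction_on with
  | C a => simp
  | add p r hp hr => simp only [map_add, hp, hr, add_mul, Finset.sum_add_distrib]
  | mul_X p j h =>
    simp only [Derivation.leibniz, pderiv_X, smul_eq_mul, map_add, map_mul, aeval_X, h, add_mul,
      Finset.sum_add_distrib, Finset.mul_sum, mul_assoc]
    congr 1
    rw [Finset.sum_eq_single j (fun i _ hi => by simp [hi.symm]) (by simp)]
    simp

theorem gpt_nd [CharZero M] {σ : Type} {f : MvPolynomial σ M} {k : σ} (hk : f.degreeOf k ≠ 0) :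
    ¬ f ∣ pderiv k f := by
  classical
  rintro ⟨g, hg⟩
  obtain ⟨m, hm, hmk⟩ := (mem_vars_iff_mem_support k).1 (mem_vars_iff_degreeOf_ne_zero.2 hk)
  have e : m - Finsupp.single k 1 + Finsupp.single k 1 = m :=
    tsub_add_cancel_of_le (Finsupp.single_le_iff.2 (Nat.pos_of_ne_zero (Finsupp.mem_support_iff.1 hmk)))
  have h0 : pderiv k f ≠ 0 := fun h => by
    have := coeff_pderiv (i := k) f (m - Finsupp.single k 1)
    rw [h, e, coeff_zero] at this
    exact mul_ne_zero (mem_support_iff.1 hm) (Nat.cast_add_one_ne_zero _) this.symm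
  have h1 : (pderiv k f).degreeOf k < f.degreeOf k :=
    (degreeOf_lt_iff (Nat.pos_of_ne_zero hk)).2 fun n hn => by
      have := mem_support_iff.1 hn
      rw [coeff_pderiv] at this
      have := monomial_le_degreeOf k (mem_support_iff.2 (left_ne_zero_of_mul this))
      simp only [Finsupp.add_apply, Finsupp.single_eq_same] at this
      omega
  rw [hg] at h0 h1
  rw [degreeOf_mul_eq (left_ne_zero_of_mul h0) (right_ne_zero_of_mul h0)] at h1
  omega

theorem gpt [CharZero M] {σ : Type} [Fintype σ] {f : MvPolynomial σ M} (hf : Prime f) :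
    ∃ (K : Type) (_ : Field K) (_ : IsAlgClosed K) (_ : Algebra M K) (ξ : σ → K),
      (∀ h, aeval ξ h = 0 ↔ f ∣ h) ∧
        ∀ w : σ → K, ∑ i, aeval ξ (pderiv i f) * w i = 0 → w ∈ Tan M ξ := by
  classical
  have : (Ideal.span {f}).IsPrime := (Ideal.span_singleton_prime hf.ne_zero).2 hf
  let R := MvPolynomial σ M ⧸ Ideal.span {f}
  let K := AlgebraicClosure (FractionRing R)
  let φ : MvPolynomial σ M →ₐ[M] K :=
    (IsScalarTower.toAlgHom M R K).comp (Ideal.Quotient.mkₐ M (Ideal.span {f}))
  have hi : Function.Injective (algebraMap R K) := by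
    rw [IsScalarTower.algebraMap_eq R (FractionRing R) K]
    exact (algebraMap (FractionRing R) K).injective.comp (IsFractionRing.injective R _)
  have hξ : ∀ h, aeval (fun i => φ (X i)) h = 0 ↔ f ∣ h := fun h => by
    rw [← Ideal.mem_span_singleton, ← Ideal.Quotient.eq_zero_iff_mem, ← map_eq_zero_iff _ hi,
      show aeval (fun i => φ (X i)) h = φ h from (DFunLike.congr_fun (aeval_unique φ) h).symm]
    rfl
  refine ⟨K, inferInstance, inferInstance, inferInstance, fun i => φ (X i), hξ, fun w hw => ?_⟩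
  generalize (fun i => φ (X i)) = ξ at hξ hw ⊢
  obtain ⟨k, hk⟩ : ∃ k, f.degreeOf k ≠ 0 := by
    by_contra h
    have e := vars_eq_empty_iff_eq_C.1 (Finset.eq_empty_of_forall_notMem fun k hk =>
      h ⟨k, mem_vars_iff_degreeOf_ne_zero.1 hk⟩)
    refine hf.not_isUnit ?_
    rw [e]
    exact (IsUnit.mk0 _ fun h0 => hf.ne_zero (by rw [e, h0, C_0])).map C
  have hx : AlgebraicIndependent M (ξ ∘ (Subtype.val : {i // i ≠ k} → σ)) := by
    refine algebraicIndependent_iff.2 fun H hH => ?_
    by_contra h0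
    obtain ⟨g, hg⟩ := (hξ _).1 ((aeval_rename _ _ H).trans hH)
    have h1 : rename Subtype.val H ≠ 0 := fun h =>
      h0 (rename_injective _ Subtype.val_injective (h.trans (map_zero _).symm))
    have h2 : (rename Subtype.val H).degreeOf k = 0 := by
      by_contra h
      obtain ⟨j, -, hj⟩ := mem_vars_rename _ _ (mem_vars_iff_degreeOf_ne_zero.2 h)
      exact j.2 hj
    rw [hg] at h1 h2
    rw [degreeOf_mul_eq (left_ne_zero_of_mul h1) (right_ne_zero_of_mul h1)] at h2
    omega
  obtain ⟨D, -, hD⟩ := der_ext (M := M) (L := M) 0 _ hx (w ∘ Subtype.val)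
  have hj : ∀ j, j ≠ k → D (ξ j) = w j := fun j hj => congrFun hD ⟨j, hj⟩
  refine ⟨D, funext fun j => ?_⟩
  by_cases h : j = k
  · have e := gpt_der D ξ f
    rw [(hξ f).2 dvd_rfl, map_zero, ← hw, eq_comm, ← sub_eq_zero, ← Finset.sum_sub_distrib,
      Finset.sum_eq_single k (fun i _ hi => by rw [hj i hi, sub_self]) (by simp), ← mul_sub] at e
    rw [h]
    exact sub_eq_zero.1 ((mul_eq_zero.1 e).resolve_left fun h0 => gpt_nd hk ((hξ _).1 h0))
  · exact hj j h

end

section
variable {M L L' : Type} [Field M] [Field L] [Field L'] [Algebra M L] [Algebra M L'] [Algebra L L']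
  [IsScalarTower M L L']

theorem prime0_fac {σ : Type} {a b : MvPolynomial σ M} {d : ℕ} (h : (a * b).IsHomogeneous d)
    (h0 : a * b ≠ 0) : ∃ i j, i + j = d ∧ a.IsHomogeneous i ∧ b.IsHomogeneous j := by
  classical
  let φ : MvPolynomial σ M →ₐ[M] Polynomial (MvPolynomial σ M) :=
    aeval fun i => Polynomial.X * Polynomial.C (X i)
  have h1 : ∀ (p : MvPolynomial σ M) n, (φ p).coeff n = homogeneousComponent n p := by
    intro p n
    induction p using MvPolynomial.induction_on' with
    | add p q hp hq => simp only [map_add, Polynomial.coeff_add, hp, hq]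
    | monomial s c =>
      have h2 : φ (monomial s c) = Polynomial.monomial s.degree (monomial s c) := by
        rw [aeval_monomial, monomial_eq, ← Polynomial.C_mul_X_pow_eq_monomial, map_mul, mul_assoc]
        congr 1
        simp only [Finsupp.prod, mul_pow, Finset.prod_mul_distrib, map_prod, map_pow,
          Finset.prod_pow_eq_pow_sum, mul_comm]
        rfl
      rw [h2, Polynomial.coeff_monomial,
        homogeneousComponent_of_mem (isHomogeneous_monomial (n := s.degree) c rfl)]
      simp only [eq_comm]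
  have h2 : ∀ p : MvPolynomial σ M, (φ p).natDegree ≤ (φ p).natTrailingDegree →
      p.IsHomogeneous (φ p).natDegree := fun p hp => by
    have h3 : ∀ n, n ≠ (φ p).natDegree → homogeneousComponent n p = 0 := fun n hn => by
      rw [← h1]
      rcases lt_or_gt_of_ne hn with h4 | h4
      · exact Polynomial.coeff_eq_zero_of_lt_natTrailingDegree (h4.trans_le hp)
      · exact Polynomial.coeff_eq_zero_of_natDegree_lt h4
    intro s hs
    by_contra h4
    have h5 := coeff_homogeneousComponent (φ := p) (n := s.degree) s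
    rw [h3 _ (by rw [Finsupp.degree_eq_weight_one]; exact h4), if_pos rfl] at h5
    exact hs h5.symm
  have h3 : φ a * φ b = Polynomial.monomial d (a * b) := by
    ext1 n
    rw [← map_mul, h1, homogeneousComponent_of_mem h, Polynomial.coeff_monomial]
    simp only [eq_comm]
  have h4 : φ a * φ b ≠ 0 := by rw [h3]; simpa using h0
  have h5 := Polynomial.natDegree_mul (left_ne_zero_of_mul h4) (right_ne_zero_of_mul h4)
  have h6 := Polynomial.natTrailingDegree_mul (left_ne_zero_of_mul h4) (right_ne_zero_of_mul h4)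
  rw [h3, Polynomial.natDegree_monomial_eq _ h0] at h5
  rw [h3, Polynomial.natTrailingDegree_monomial h0] at h6
  have h7 := (φ a).natTrailingDegree_le_natDegree
  have h8 := (φ b).natTrailingDegree_le_natDegree
  exact ⟨_, _, h5.symm, h2 a (by omega), h2 b (by omega)⟩

theorem homfac {σ : Type} {f a b : MvPolynomial σ M} {d : ℕ} (hf : f.IsHomogeneous d) (h0 : f ≠ 0)
    (h : f = a * b) : a.IsHomogeneous a.totalDegree := by
  subst h
  obtain ⟨i, j, -, ha, -⟩ := prime0_fac hf h0
  rwa [ha.totalDegree (left_ne_zero_of_mul h0)]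

theorem prime0 [IsAlgClosed M] {σ κ : Type} [Fintype σ] [Fintype κ] {f : MvPolynomial σ M} {d : ℕ}
    (hf : f.IsHomogeneous d) (hd : 0 < d) (h0 : f ≠ 0) (lam : κ → (σ → M) →ₗ[M] M)
    (hc : Fintype.card κ + 2 < Fintype.card σ)
    (hs : ∀ y : σ → M, (∀ j, lam j y = 0) → eval y f = 0 → (∀ i, eval y (pderiv i f) = 0) → y = 0) :
    Prime f := by
  classical
  have hl : ∀ j (y : σ → M), eval y (∑ i, C (lam j (Pi.single i 1)) * X i) = lam j y := by
    intro j y
    conv_rhs => rw [pi_eq_sum_univ' y]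
    simp [mul_comm]
  refine UniqueFactorizationMonoid.irreducible_iff_prime.1 ?_
  have hz : ∀ {p : MvPolynomial σ M} {i : ℕ}, p.IsHomogeneous i → i ≠ 0 → eval 0 p = 0 :=
    fun {p i} hp hi => by
      rw [eval_zero, constantCoeff_eq]
      exact hp.coeff_eq_zero (by simpa using hi.symm)
  have hu : ∀ {p : MvPolynomial σ M}, p.IsHomogeneous 0 → p ≠ 0 → IsUnit p := fun {p} hp h0 => by
    have h1 := totalDegree_eq_zero_iff_eq_C.1 (hp.totalDegree h0)
    rw [h1] at h0 ⊢
    exact (Ne.isUnit fun h => h0 (by rw [h, map_zero])).map C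
  refine ⟨fun hu => (hu.map (eval 0)).ne_zero (hz hf hd.ne'), fun a b hab => ?_⟩
  by_contra! H2
  rw [hab] at hf h0
  obtain ⟨i, j, -, ha, hb⟩ := prime0_fac hf h0
  obtain ⟨y, hy0, hy⟩ := H61.exists_zero
    (Sum.elim (fun j => ∑ i, C (lam j (Pi.single i 1)) * X i) ![a, b]) (fun t => by
      rcases t with t | t
      · exact (hl t 0).trans (map_zero _)
      fin_cases t
      · exact hz ha fun h => H2.1 (hu (h ▸ ha) (left_ne_zero_of_mul h0))
      · exact hz hb fun h => H2.2 (hu (h ▸ hb) (right_ne_zero_of_mul h0))) (by simpa using hc)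
  have h1 : eval y a = 0 := hy (.inr 0)
  have h2 : eval y b = 0 := hy (.inr 1)
  exact hy0 (hs y (fun t => (hl t y).symm.trans (hy (.inl t))) (by simp [hab, h1])
    fun i => by simp [hab, h1, h2])

end

end Pool.Agent.MP_e0214e_ag.H64
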