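import Pool.Agent.MP_e0214e_ag.H64.Base

/-! The intersection of a quadric and a cubic. -/

set_option autoImplicit false

namespace Pool.Agent.MP_e0214e_ag.H64

open MvPolynomial Module Filter Topology

section
variable {σ M L : Type} [Fintype σ] [DecidableEq σ] [Field M] [Field L] [Algebra M L]
  {Q : S2 σ M} {C : S3 σ M}

theorem kit_pd (i : σ) : (pderiv i : Derivation M (MvPolynomial σ M) (MvPolynomial σ M)) ∘ X =
    Pi.single i 1 := funext fun j => by
  simp only [Function.comp, pderiv_X]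

theorem S2.hom (Q : S2 σ M) : (Q.T X X : MvPolynomial σ M).IsHomogeneous 2 :=
  IsHomogeneous.sum _ _ _ fun i _ => IsHomogeneous.sum _ _ _ fun j _ =>
    ((isHomogeneous_X M i).mul (isHomogeneous_X M j)).C_mul _

theorem S3.hom (C : S3 σ M) : (C.T X X X : MvPolynomial σ M).IsHomogeneous 3 :=
  IsHomogeneous.sum _ _ _ fun i _ => IsHomogeneous.sum _ _ _ fun j _ =>
    IsHomogeneous.sum _ _ _ fun k _ =>
      (((isHomogeneous_X M i).mul (isHomogeneous_X M j)).mul (isHomogeneous_X M k)).C_mul _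

theorem S2.aeval_pderiv (Q : S2 σ M) {A : Type} [CommRing A] [Algebra M A] (y : σ → A) (i : σ) :
    aeval y (pderiv i (Q.T X X : MvPolynomial σ M)) = 2 * Q.T y (Pi.single i 1) := by
  rw [Q.der, kit_pd, map_add, Q.map, Q.map, aeval_comp_X, H61.comp_single, Q.T12 _ y]
  ring

theorem S3.aeval_pderiv (C : S3 σ M) {A : Type} [CommRing A] [Algebra M A] (y : σ → A) (i : σ) :
    aeval y (pderiv i (C.T X X X : MvPolynomial σ M)) = 3 * C.T y y (Pi.single i 1) := by
  rw [C.der, kit_pd, map_add, map_add, C.map, C.map, C.map, aeval_comp_X, H61.comp_single,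
    C.T12 _ y, C.T23 y _ y]
  ring

theorem hom_dot (l : σ → M) : (up (MvPolynomial σ M) l ⬝ᵥ X).IsHomogeneous 1 :=
  IsHomogeneous.sum _ _ _ fun i _ => (isHomogeneous_X M i).C_mul _

theorem lin_eq_dot (l : (σ → L) →ₗ[L] L) (y : σ → L) :
    l y = (fun i => l (Pi.single i 1)) ⬝ᵥ y := by
  conv_lhs => rw [← Finset.univ_sum_single y, map_sum]
  refine Finset.sum_congr rfl fun x _ => ?_
  rw [mul_comm, ← smul_eq_mul, ← map_smul, ← Pi.single_smul, smul_eq_mul, mul_one]

theorem zero_qc [IsAlgClosed L] (Q : S2 σ M) (C : S3 σ M) {κ : Type} [Fintype κ]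
    (l : κ → (σ → L) →ₗ[L] L) (hc : Fintype.card κ + 2 < Fintype.card σ) :
    ∃ y : σ → L, InV Q C y ∧ ∀ j, l j y = 0 := by
  have hX : ∀ y : σ → L, ((aeval y : MvPolynomial σ L →ₐ[L] L).restrictScalars M) ∘ X = y :=
    fun y => aeval_comp_X y
  have hq : ∀ y : σ → L, eval y (Q.T X X : MvPolynomial σ L) = Q.T y y := fun y => by
    have h := Q.map ((aeval y : MvPolynomial σ L →ₐ[L] L).restrictScalars M) X X
    rwa [hX] at h
  have hC : ∀ y : σ → L, eval y (C.T X X X : MvPolynomial σ L) = C.T y y y := fun y => by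
    have h := C.map ((aeval y : MvPolynomial σ L →ₐ[L] L).restrictScalars M) X X X
    rwa [hX] at h
  have hl : ∀ (j : κ) (y : σ → L),
      eval y (∑ i, MvPolynomial.C (l j (Pi.single i 1)) * X i : MvPolynomial σ L) = l j y :=
    fun j y => by
      rw [lin_eq_dot (l j) y]
      simp only [map_sum, map_mul, eval_C, eval_X, dotProduct]
  obtain ⟨y, hy, h⟩ := H61.exists_zero (F := L) (σ := σ) (κ := Option (Option κ))
    (fun o => o.elim (Q.T X X) fun o' => o'.elim (C.T X X X)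
      fun j => ∑ i, MvPolynomial.C (l j (Pi.single i 1)) * X i)
    (by
      rintro (_ | _ | j)
      · exact (hq 0).trans (Q.zero1 _)
      · exact (hC 0).trans (C.zero1 _ _)
      · exact (hl j 0).trans (map_zero _))
    (by simp only [Fintype.card_option]; omega)
  exact ⟨y, ⟨hy, (hq y).symm.trans (h none), (hC y).symm.trans (h (some none))⟩,
    fun j => (hl j y).symm.trans (h (some (some j)))⟩

end

section
variable {σ M L : Type} [Fintype σ] [DecidableEq σ] [Field M] [Field L] [Algebra M L]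
  {Q : S2 σ M} {C : S3 σ M}

theorem lin_ev {ι A : Type} [CommRing A] [Algebra M A] (z : ι → A) (f : σ → ι) :
    (aeval z : MvPolynomial ι M →ₐ[M] A) ∘ (fun i => X (f i)) = fun i => z (f i) :=
  funext fun i => by simp only [Function.comp, aeval_X]

theorem Sm.ext [IsAlgClosed M] (h : Sm Q C M) (L : Type) [Field L] [Algebra M L] : Sm Q C L := by
  constructor
  · intro y hy
    funext i
    have h1 := H61.null (F := M) (K := L) (fun j : σ => Q.T X (Pi.single j 1)) (X i)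
      (fun z hz => by
        have h0 : z = 0 := h.nd z fun u => by
          rw [Q.T_eq_sum]
          refine Finset.sum_eq_zero fun j _ => ?_
          have h2 := hz j
          rw [← coe_aeval_eq_eval, RingHom.coe_coe, Q.map, aeval_comp_X, H61.comp_single] at h2
          rw [h2, mul_zero]
        rw [h0, eval_X]; rfl) y
      (fun j => by rw [Q.map, aeval_comp_X, H61.comp_single]; exact hy _)
    rwa [aeval_X] at h1
  · intro y hy a b hab
    let Y : σ → MvPolynomial (σ ⊕ Bool) M := fun i => X (Sum.inl i)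
    let r : Option (Option σ) → MvPolynomial (σ ⊕ Bool) M := fun o => o.elim (Q.T Y Y)
      fun o' => o'.elim (C.T Y Y Y) fun j => X (Sum.inr true) * Q.T Y (Pi.single j 1) +
        X (Sum.inr false) * C.T Y Y (Pi.single j 1)
    have key : ∀ (i : σ) (t : Bool), y i * (if t then a else b) = 0 := fun i t => by
      have h1 := H61.null (F := M) (K := L) r (X (Sum.inl i) * X (Sum.inr t))
        (fun z hz => by
          rw [map_mul, eval_X, eval_X]
          by_cases h0 : (fun i => z (Sum.inl i)) = 0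
          · rw [congrFun h0 i]; exact zero_mul _
          have hz' : ∀ j, aeval z (r j) = 0 := hz
          have e1 := hz' none
          have e2 := hz' (some none)
          simp only [r, Y, Option.elim, Q.map, C.map, lin_ev] at e1 e2
          obtain ⟨ha, hb⟩ := h.sm _ ⟨h0, e1, e2⟩ (z (Sum.inr true)) (z (Sum.inr false)) fun u => by
            rw [Q.T_eq_sum, C.T_eq_sum, Finset.mul_sum, Finset.mul_sum, ← Finset.sum_add_distrib]
            refine Finset.sum_eq_zero fun j _ => ?_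
            have e3 := hz' (some (some j))
            simp only [r, Y, Option.elim, map_add, map_mul, aeval_X, Q.map, C.map, lin_ev,
              H61.comp_single] at e3
            linear_combination u j * e3
          cases t
          · rw [hb, mul_zero]
          · rw [ha, mul_zero])
        (Sum.elim y fun t => if t then a else b)
        (by
          rintro (_ | _ | j)
          · simp only [r, Y, Option.elim, Q.map, lin_ev, Sum.elim_inl]; exact hy.q
          · simp only [r, Y, Option.elim, C.map, lin_ev, Sum.elim_inl]; exact hy.c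
          · simp only [r, Y, Option.elim, map_add, map_mul, aeval_X, Q.map, C.map, lin_ev,
              H61.comp_single, Sum.elim_inl, Sum.elim_inr]
            exact hab _)
      simpa only [map_mul, aeval_X, Sum.elim_inl, Sum.elim_inr] using h1
    obtain ⟨i, hi⟩ := Function.ne_iff.1 hy.ne
    exact ⟨(mul_eq_zero.1 (key i true)).resolve_left hi,
      (mul_eq_zero.1 (key i false)).resolve_left hi⟩

theorem Sm.dual (h : Sm Q C L) {y : σ → L} (hy : InV Q C y) : ∃ e1 e2, Dual Q C y e1 e2 := by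
  obtain ⟨u, hu⟩ : ∃ u, Q.T y u ≠ 0 := by
    by_contra! H
    exact one_ne_zero (h.sm y hy 1 0 fun u => by rw [H u]; ring).1
  obtain ⟨v, hv⟩ : ∃ v, -C.T y y u * Q.T y v + Q.T y u * C.T y y v ≠ 0 := by
    by_contra! H
    exact hu (h.sm y hy _ _ H).2
  set d := -C.T y y u * Q.T y v + Q.T y u * C.T y y v with hd
  refine ⟨d⁻¹ • (C.T y y v • u - C.T y y u • v), d⁻¹ • (Q.T y u • v - Q.T y v • u), ?_, ?_, ?_, ?_⟩
  all_goals simp only [Q.smul2, Q.sub2, C.smul3, C.sub3]
  · rw [inv_mul_eq_one₀ hv, hd]; ring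
  · ring
  · ring
  · rw [inv_mul_eq_one₀ hv, hd]; ring

theorem Dual.span {y e1 e2 : σ → L} (h : Dual Q C y e1 e2) (l : (σ → L) →ₗ[L] L)
    (hl : ∀ u ∈ Hs Q C y, l u = 0) (u : σ → L) : l u = l e1 * Q.T y u + l e2 * C.T y y u := by
  have h1 := hl (u - Q.T y u • e1 - C.T y y u • e2) ((mem_Hs Q C).2 ⟨by
    simp only [Q.sub2, Q.smul2, h.q1, h.q2]; ring, by
    simp only [C.sub3, C.smul3, h.c1, h.c2]; ring⟩)
  simp only [map_sub, map_smul, smul_eq_mul] at h1
  linear_combination h1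

theorem Sm.finrank_Hs (h : Sm Q C L) {y : σ → L} (hy : InV Q C y) :
    finrank L (Hs Q C y) + 2 = Fintype.card σ := by
  obtain ⟨e1, e2, he⟩ := h.dual hy
  have h1 := LinearMap.finrank_range_add_finrank_ker ((Q.L y).prod (C.L y y))
  have h2 : LinearMap.range ((Q.L y).prod (C.L y y)) = ⊤ := LinearMap.range_eq_top.2 fun z =>
    ⟨z.1 • e1 + z.2 • e2, Prod.ext
      (by show Q.T y _ = z.1; simp only [Q.add2, Q.smul2, he.q1, he.q2]; ring)
      (by show C.T y y _ = z.2; simp only [C.add3, C.smul3, he.c1, he.c2]; ring)⟩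
  rw [h2, LinearMap.ker_prod, finrank_top, finrank_prod, finrank_self, finrank_pi] at h1
  rw [← h1, add_comm]; rfl

theorem Sm.rad (h : Sm Q C L) {y : σ → L} (hy : InV Q C y) (E : Submodule L (σ → L))
    (hE : 3 ≤ finrank L E) : ∃ η ∈ E, ∃ u ∈ Hs Q C y, Q.T η u ≠ 0 := by
  obtain ⟨e1, e2, he⟩ := h.dual hy
  by_contra! H
  have hi : Function.Injective (((Q.L e1).prod (Q.L e2)) ∘ₗ E.subtype) := by
    rw [injective_iff_map_eq_zero]
    intro η hη
    have h1 : Q.T e1 η.1 = 0 := congrArg Prod.fst hη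
    have h2 : Q.T e2 η.1 = 0 := congrArg Prod.snd hη
    refine Subtype.ext (h.nd _ fun u => ?_)
    have h3 := he.span (Q.L η.1) (H η.1 η.2) u
    simp only [S2.L_apply] at h3
    rw [h3, Q.T12 _ e1, Q.T12 _ e2, h1, h2]; ring
  have h4 := LinearMap.finrank_le_finrank_of_injective hi
  rw [finrank_prod, finrank_self] at h4
  omega

theorem tan_le_Hs [CharZero L] {y : σ → L} (hy : InV Q C y) : Tan M y ≤ Hs Q C y := by
  rintro _ ⟨D, rfl⟩
  have h1 := Q.der D y y
  have h2 := C.der D y y y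
  rw [hy.q, map_zero, Q.T12 _ y] at h1
  rw [hy.c, map_zero, C.T12 _ y, C.T23 y _ y] at h2
  exact (mem_Hs Q C).2 ⟨by linear_combination (-1 / 2 : L) * h1,
    by linear_combination (-1 / 3 : L) * h2⟩

theorem Step.inV {y y' : σ → L} (h : Step Q C y y') : InV Q C y' :=
  ⟨fun h0 => h.ne (by rw [h0, C.zero3]), h.iso.q, h.c⟩

theorem Step.up {L' : Type} [Field L'] [Algebra M L'] [Algebra L L'] [IsScalarTower M L L']
    {y y' : σ → L} (h : Step Q C y y') : Step Q C (H64.up L' y) (H64.up L' y') := by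
  have hH : ∀ u ∈ Hs Q C y, H64.up L' u ∈ Hs Q C (H64.up L' y) := fun u hu =>
    (mem_Hs Q C).2 ⟨by rw [Q.T_up, ((mem_Hs Q C).1 hu).1, map_zero],
      by rw [C.T_up, ((mem_Hs Q C).1 hu).2, map_zero]⟩
  obtain ⟨u, hu, hne⟩ := h.iso.nr
  refine ⟨⟨hH _ h.iso.h, by rw [Q.T_up, h.iso.q, map_zero], H64.up L' u, hH u hu, ?_⟩,
    by rw [C.T_up, h.c, map_zero], ?_⟩
  · rw [Q.T_up]; exact (map_ne_zero _).2 hne
  · rw [C.T_up]; exact (map_ne_zero _).2 h.ne

theorem res3_step [CharZero L] {y w : σ → L} (hy : InV Q C y) (hw : Iso Q C y w)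
    (hc : C.T y w w ≠ 0) : Step Q C y (res3 C y w) := by
  obtain ⟨h1, h2⟩ := (mem_Hs Q C).1 hw.h
  obtain ⟨u, hu, hne⟩ := hw.nr
  have a1 : C.T y w y = 0 := (C.T23 _ _ _).trans h2
  have a2 : C.T w y y = 0 := (C.T12 _ _ _).trans a1
  have a3 : C.T w y w = C.T y w w := C.T12 _ _ _
  have a4 : C.T w w y = C.T y w w := (C.T23 _ _ _).trans a3
  refine ⟨⟨(mem_Hs Q C).2 ⟨?_, ?_⟩, ?_, u, hu, ?_⟩, ?_, ?_⟩
  · simp only [res3, Q.sub2, Q.smul2, h1, hy.q]; ring
  · simp only [res3, C.sub3, C.smul3, h2, hy.c]; ring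
  · simp only [res3, Q.sub1, Q.sub2, Q.smul1, Q.smul2, h1, hy.q, hw.q, Q.T12 w y]; ring
  · simp only [res3, Q.sub1, Q.smul1, ((mem_Hs Q C).1 hu).1, mul_zero, sub_zero]; exact hne
  · simp only [res3, C.sub1, C.sub2, C.sub3, C.smul1, C.smul2, C.smul3, h2, hy.c, a1, a2, a3, a4]
    field_simp
    ring
  · simp only [res3, C.sub2, C.sub3, C.smul2, C.smul3, h2, hy.c, a1, mul_zero, sub_zero]
    exact hc

end

section
variable {σ M L : Type} [Fintype σ] [DecidableEq σ] [Field M] [Field L] [Algebra M L]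
  {Q : S2 σ M} {C : S3 σ M}

theorem prim_qz {u : σ → L} (h : ∀ i, Q.T u (Pi.single i 1) = 0)
    (w : σ → L) : Q.T u w = 0 := by
  rw [Q.T_eq_sum]
  exact Finset.sum_eq_zero fun l _ => by rw [h, mul_zero]

theorem prim_cz {y : σ → L} {a b : L}
    (h : ∀ i, a * Q.T y (Pi.single i 1) + b * C.T y y (Pi.single i 1) = 0) (w : σ → L) :
    a * Q.T y w + b * C.T y y w = 0 := by
  rw [Q.T_eq_sum, C.T_eq_sum, Finset.mul_sum, Finset.mul_sum, ← Finset.sum_add_distrib]
  refine Finset.sum_eq_zero fun l _ => ?_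
  linear_combination w l * h l

theorem prim_minor (h : Sm Q C L) {y : σ → L} (hy : InV Q C y) : ∃ i j,
    Q.T y (Pi.single i 1) * C.T y y (Pi.single j 1) -
      Q.T y (Pi.single j 1) * C.T y y (Pi.single i 1) ≠ 0 := by
  by_contra! H
  have h1 : ∀ i, Q.T y (Pi.single i 1) = 0 := fun i =>
    (h.sm y hy (-C.T y y (Pi.single i 1)) (Q.T y (Pi.single i 1))
      (prim_cz fun j => by linear_combination H i j)).2
  exact hy.ne (h.nd y (prim_qz h1))

theorem prim_dm {y : σ → L} {i j : σ} {d : L}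
    (hd : d * (Q.T y (Pi.single i 1) * C.T y y (Pi.single j 1) -
      Q.T y (Pi.single j 1) * C.T y y (Pi.single i 1)) = 1) :
    Q.T y ((d * C.T y y (Pi.single j 1)) • Pi.single i 1 -
        (d * C.T y y (Pi.single i 1)) • Pi.single j 1) = 1 ∧
      C.T y y ((d * C.T y y (Pi.single j 1)) • Pi.single i 1 -
        (d * C.T y y (Pi.single i 1)) • Pi.single j 1) = 0 ∧
      Q.T y ((d * Q.T y (Pi.single i 1)) • Pi.single j 1 -
        (d * Q.T y (Pi.single j 1)) • Pi.single i 1) = 0 ∧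
      C.T y y ((d * Q.T y (Pi.single i 1)) • Pi.single j 1 -
        (d * Q.T y (Pi.single j 1)) • Pi.single i 1) = 1 := by
  simp only [Q.sub2, Q.smul2, C.sub3, C.smul3]
  exact ⟨by linear_combination hd, by ring, by ring, by linear_combination hd⟩

omit [Fintype σ] in
theorem prim_sm (O : ValuationSubring L) (i j : σ) :
    (Pi.single i 1 : σ → L) j ∈ O := by
  rw [Pi.single_apply]
  split_ifs
  exacts [one_mem _, zero_mem _]

omit [DecidableEq σ] in
theorem prim_ep (O : ValuationSubring L) {y : σ → L} (hy : y ≠ 0) :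
    ∃ (f : L) (i : σ), f ≠ 0 ∧ (∀ j, (f • y) j ∈ O) ∧ (f • y) i = 1 := by
  obtain ⟨i0, hi0⟩ := Function.ne_iff.1 hy
  obtain ⟨i, -, hi⟩ := Finset.exists_max_image Finset.univ (fun i => O.valuation (y i))
    ⟨i0, Finset.mem_univ _⟩
  have h0 : y i ≠ 0 := fun h0 => by
    have := hi i0 (Finset.mem_univ _)
    rw [h0, map_zero, le_zero_iff, map_eq_zero] at this
    exact hi0 this
  refine ⟨(y i)⁻¹, i, inv_ne_zero h0, fun j => ?_, inv_mul_cancel₀ h0⟩
  rw [← O.valuation_le_one_iff, Pi.smul_apply, smul_eq_mul, map_mul, map_inv₀,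
    inv_mul_le_iff₀ (zero_lt_iff.2 ((map_ne_zero _).2 h0)), mul_one]
  exact hi j (Finset.mem_univ _)

theorem prim_red [IsAlgClosed M] (h : Sm Q C M) (O : ValuationSubring L)
    (hO : ∀ x : M, algebraMap M L x ∈ O) {y : σ → L} (hy : ∀ j, y j ∈ O) {i0 : σ}
    (h1 : y i0 = 1) : (∃ j, ∃ d ∈ O, d * Q.T y (Pi.single j 1) = 1) ∧
      (Q.T y y = 0 → C.T y y y = 0 → ∃ i j, ∃ d ∈ O,
        d * (Q.T y (Pi.single i 1) * C.T y y (Pi.single j 1) -
          Q.T y (Pi.single j 1) * C.T y y (Pi.single i 1)) = 1) := by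
  let _ : Algebra M O := ((algebraMap M L).codRestrict O hO).toAlgebra
  let _ : Algebra M (IsLocalRing.ResidueField O) :=
    ((IsLocalRing.residue O).comp (algebraMap M O)).toAlgebra
  let v : O →ₐ[M] L := { O.subtype with commutes' := fun _ => rfl }
  let r : O →ₐ[M] IsLocalRing.ResidueField O :=
    { IsLocalRing.residue O with commutes' := fun _ => rfl }
  let z : σ → O := fun j => ⟨y j, hy j⟩
  have hv : v ∘ z = y := rfl
  have hvi : Function.Injective v := Subtype.val_injective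
  have hz : r ∘ z ≠ 0 := fun h0 => by
    have h2 : r (z i0) = 0 := congrFun h0 i0
    have h3 : z i0 = 1 := Subtype.ext h1
    rw [h3, map_one] at h2
    exact one_ne_zero h2
  have hu : ∀ x : O, r x ≠ 0 → ∃ d ∈ O, d * v x = 1 := fun x hx => by
    obtain ⟨d, hd⟩ := ((IsLocalRing.residue_ne_zero_iff_isUnit x).1 hx).exists_left_inv
    exact ⟨d, d.2, (map_mul v d x).symm.trans ((congrArg v hd).trans (map_one v))⟩
  have hs := h.ext (IsLocalRing.ResidueField O)
  refine ⟨?_, fun hq hc => ?_⟩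
  · by_contra! H
    refine hz (hs.nd _ (prim_qz fun j => ?_))
    by_contra h0
    obtain ⟨d, hd, hd1⟩ := hu (Q.T z (Pi.single j 1)) (by rwa [Q.map, H61.comp_single])
    rw [Q.map, H61.comp_single, hv] at hd1
    exact H j d hd hd1
  · have hq' : Q.T z z = 0 := hvi (by rw [Q.map, hv, hq, map_zero])
    have hc' : C.T z z z = 0 := hvi (by rw [C.map, hv, hc, map_zero])
    obtain ⟨i, j, hij⟩ := prim_minor hs (y := r ∘ z)
      ⟨hz, by rw [← Q.map, hq', map_zero], by rw [← C.map, hc', map_zero]⟩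
    obtain ⟨d, hd, hd1⟩ := hu (Q.T z (Pi.single i 1) * C.T z z (Pi.single j 1) -
      Q.T z (Pi.single j 1) * C.T z z (Pi.single i 1))
      (by simpa only [map_sub, map_mul, Q.map, C.map, H61.comp_single] using hij)
    refine ⟨i, j, d, hd, ?_⟩
    simpa only [map_sub, map_mul, Q.map, C.map, H61.comp_single, hv] using hd1

theorem prim [IsAlgClosed M] (h : Sm Q C M) (O : ValuationSubring L)
    (hO : ∀ c : M, algebraMap M L c ∈ O) {y : σ → L} (hy : InV Q C y) :
    ∃ f : L, f ≠ 0 ∧ (∀ i, (f • y) i ∈ O) ∧ ∃ e1 e2 : σ → L, (∀ i, e1 i ∈ O) ∧ (∀ i, e2 i ∈ O) ∧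
      Dual Q C (f • y) e1 e2 := by
  obtain ⟨f, i0, hf, hm, h1⟩ := prim_ep O hy.ne
  obtain ⟨i, j, d, hd, hd1⟩ := (prim_red h O hO hm h1).2 (by rw [Q.smul1, Q.smul2, hy.q]; ring)
    (by rw [C.smul1, C.smul2, C.smul3, hy.c]; ring)
  obtain ⟨k1, k2, k3, k4⟩ := prim_dm hd1
  refine ⟨f, hf, hm, _, _, fun k => ?_, fun k => ?_, k1, k2, k3, k4⟩
  · exact sub_mem (mul_mem (mul_mem hd (C.mem_subring O (fun _ _ _ => hO _) hm hm (prim_sm O _))) (prim_sm O _ _))
      (mul_mem (mul_mem hd (C.mem_subring O (fun _ _ _ => hO _) hm hm (prim_sm O _))) (prim_sm O _ _))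
  · exact sub_mem (mul_mem (mul_mem hd (Q.mem_subring O (fun _ _ => hO _) hm (prim_sm O _))) (prim_sm O _ _))
      (mul_mem (mul_mem hd (Q.mem_subring O (fun _ _ => hO _) hm (prim_sm O _))) (prim_sm O _ _))

theorem prim_nd [IsAlgClosed M] (h : Sm Q C M) (O : ValuationSubring L)
    (hO : ∀ c : M, algebraMap M L c ∈ O) {u : σ → L} (hu : u ≠ 0) :
    ∃ f : L, (∀ i, (f • u) i ∈ O) ∧ ∃ z : σ → L, (∀ i, z i ∈ O) ∧ Q.T (f • u) z = 1 := by
  obtain ⟨f, i, -, hm, h1⟩ := prim_ep O hu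
  obtain ⟨j, d, hd, hd1⟩ := (prim_red h O hO hm h1).1
  exact ⟨f, hm, d • Pi.single j 1, fun k => mul_mem hd (prim_sm O _ _),
    (Q.smul2 _ _ _).trans hd1⟩

end

section
variable {σ M L : Type} [Fintype σ] [DecidableEq σ] [Field M] [Field L] [Algebra M L]
  {Q : S2 σ M} {C : S3 σ M}

theorem fin_qz {u : σ → L} (h : ∀ i, Q.T u (Pi.single i 1) = 0)
    (w : σ → L) : Q.T u w = 0 := by
  rw [Q.T_eq_sum]
  exact Finset.sum_eq_zero fun l _ => by rw [h, mul_zero]

theorem fin_cz {y : σ → L} {a b : L}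
    (h : ∀ i, a * Q.T y (Pi.single i 1) + b * C.T y y (Pi.single i 1) = 0) (w : σ → L) :
    a * Q.T y w + b * C.T y y w = 0 := by
  rw [Q.T_eq_sum, C.T_eq_sum, Finset.mul_sum, Finset.mul_sum, ← Finset.sum_add_distrib]
  refine Finset.sum_eq_zero fun l _ => ?_
  linear_combination w l * h l

omit [Fintype σ] in
theorem fin_ds (D : Derivation M L L) (i : σ) : D ∘ Pi.single i (1 : L) = 0 := by
  funext j
  simp only [Function.comp, Pi.single_apply]
  split_ifs <;> simp

theorem fin_zero [IsAlgClosed M] [CharZero L] (h : Sm Q C M) (D : Derivation M L L) {y : σ → L}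
    (hy : InV Q C y) {a b : L} (hab : a ≠ 0 ∨ b ≠ 0)
    (hD : ∀ i, D (a * Q.T y (Pi.single i 1) + b * C.T y y (Pi.single i 1)) = 0) :
    ∃ t : L, D ∘ y = t • y := by
  by_cases hb : b = 0
  · have ha : a ≠ 0 := hab.resolve_right fun h => h hb
    have h0 : D ∘ (a • y) = 0 := (h.ext L).nd _ (fin_qz fun i => by
      have := hD i
      rwa [hb, zero_mul, add_zero, ← Q.smul1, Q.der, fin_ds, Q.zero2, add_zero] at this)
    refine ⟨-(D a / a), funext fun i => ?_⟩
    have := congrFun h0 i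
    simp only [Function.comp, Pi.smul_apply, smul_eq_mul, Derivation.leibniz, Pi.zero_apply]
      at this ⊢
    field_simp
    linear_combination this
  · have h0 : ∀ i j, D (b * y i * y j) = 0 := fun i j => vald D _ fun O hO => by
      have hM : ∀ x : M, algebraMap M L x ∈ O := fun x => hO _ (D.map_algebraMap x)
      obtain ⟨f, hf, hm, e1, e2, -, he, -, -, h3, h4⟩ := prim h O hM hy
      have h5 : a * Q.T y e2 + b * C.T y y e2 ∈ O := by
        rw [Q.T_eq_sum, C.T_eq_sum, Finset.mul_sum, Finset.mul_sum, ← Finset.sum_add_distrib]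
        refine sum_mem fun l _ => ?_
        have := mul_mem (he l) (hO _ (hD l))
        convert this using 1
        ring
      rw [Q.smul1] at h3
      rw [C.smul1, C.smul2] at h4
      have h6 : Q.T y e2 = 0 := (mul_eq_zero.1 h3).resolve_left hf
      have := mul_mem (mul_mem h5 (hm i)) (hm j)
      convert this using 1
      simp only [Pi.smul_apply, smul_eq_mul, h6]
      linear_combination (-(b * y i * y j)) * h4
    obtain ⟨j, hj⟩ := Function.ne_iff.1 hy.ne
    have hj' : y j ≠ 0 := hj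
    refine ⟨-(D (b * y j) / (b * y j)), funext fun i => ?_⟩
    have := h0 j i
    rw [Derivation.leibniz] at this
    simp only [Function.comp, Pi.smul_apply, smul_eq_mul] at this ⊢
    field_simp
    linear_combination this

theorem fin [IsAlgClosed M] [CharZero M] [IsAlgClosed L] (h : Sm Q C M) {y : σ → L}
    (hy : InV Q C y) (D : Derivation M L L) {a b k : L} (hab : a ≠ 0 ∨ b ≠ 0)
    (hD : ∀ i, D (a * Q.T y (Pi.single i 1) + b * C.T y y (Pi.single i 1)) =
      k * (a * Q.T y (Pi.single i 1) + b * C.T y y (Pi.single i 1))) :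
    ∃ c : L, D ∘ y = c • y := by
  have := charZero_of_injective_algebraMap (algebraMap M L).injective
  obtain ⟨i, hi⟩ : ∃ i, a * Q.T y (Pi.single i 1) + b * C.T y y (Pi.single i 1) ≠ 0 := by
    by_contra! H
    have := (h.ext L).sm y hy a b (fin_cz H)
    exact hab.elim (fun h => h this.1) fun h => h this.2
  set x := a * Q.T y (Pi.single i 1) + b * C.T y y (Pi.single i 1) with hx
  refine fin_zero h D hy (a := x⁻¹ * a) (b := x⁻¹ * b)
    (hab.imp (mul_ne_zero (inv_ne_zero hi)) (mul_ne_zero (inv_ne_zero hi))) fun j => ?_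
  have h1 : x⁻¹ * a * Q.T y (Pi.single j 1) + x⁻¹ * b * C.T y y (Pi.single j 1) =
      x⁻¹ * (a * Q.T y (Pi.single j 1) + b * C.T y y (Pi.single j 1)) := by ring
  have h2 : D x = k * x := hD i
  rw [h1, Derivation.leibniz, hD j, Derivation.leibniz_inv, h2]
  simp only [smul_eq_mul]
  field_simp
  ring

theorem off_hyp [IsAlgClosed M] [CharZero M] [IsAlgClosed L] (h : Sm Q C M)
    (hN : 4 ≤ Fintype.card σ) {y : σ → L} (hy : InV Q C y) (ht : Hs Q C y ≤ Tan M y)
    {l : σ → M} (hl : l ≠ 0) : up L l ⬝ᵥ y ≠ 0 := by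
  intro h0
  obtain ⟨e1, e2, hd⟩ := (h.ext L).dual hy
  let lam : (σ → L) →ₗ[L] L := dotProductBilin L L (up L l)
  have hlam : ∀ u, lam u = up L l ⬝ᵥ u := fun _ => rfl
  have h1 : ∀ u ∈ Hs Q C y, lam u = 0 := fun u hu => by
    obtain ⟨D, rfl⟩ := ht hu
    have := congrArg D h0
    simpa only [hlam, dotProduct, map_sum, Derivation.leibniz, up_apply, Derivation.map_algebraMap,
      mul_zero, add_zero, smul_eq_mul, map_zero, Function.comp] using this
  have h2 : ∀ i, lam e1 * Q.T y (Pi.single i 1) + lam e2 * C.T y y (Pi.single i 1) =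
      algebraMap M L (l i) := fun i => by
    rw [← hd.span lam h1, hlam, dotProduct_single_one, up_apply]
  have h3 : lam e1 ≠ 0 ∨ lam e2 ≠ 0 := by
    by_contra! H
    refine hl (funext fun i => (map_eq_zero (algebraMap M L)).1 ?_)
    rw [← h2, H.1, H.2]; ring
  have h4 : Hs Q C y ≤ Submodule.span L {y} := fun u hu => by
    obtain ⟨D, rfl⟩ := ht hu
    obtain ⟨c, hc⟩ := fin h hy D (k := 0) h3 fun i => by
      rw [h2, D.map_algebraMap, zero_mul]
    rw [hc]
    exact Submodule.smul_mem _ _ (Submodule.mem_span_singleton_self y)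
  have h5 := Submodule.finrank_mono h4
  rw [finrank_span_singleton hy.ne] at h5
  have := (h.ext L).finrank_Hs hy
  omega

end

section
variable {σ M L : Type} [Fintype σ] [DecidableEq σ] [Field M] [Field L] [Algebra M L]
  {Q : S2 σ M} {C : S3 σ M}

/-- The residual linear form at an Eckardt point. -/
def eck_m (Q : S2 σ M) (C : S3 σ M) (y : σ → L) (μ : L) (e u : σ → L) : L :=
  2 * (C.T y e u - μ * Q.T e u) - C.T y y u * (C.T y e e - μ * Q.T e e)

omit [DecidableEq σ] in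
theorem eck_lin (y : σ → L) (μ : L) (e u v : σ → L) (a b : L) :
    eck_m Q C y μ e (a • u - b • v) = a * eck_m Q C y μ e u - b * eck_m Q C y μ e v := by
  simp only [eck_m, C.sub3, C.smul3, Q.sub2, Q.smul2]
  ring

theorem eck_sum (y : σ → L) (μ : L) (e u : σ → L) :
    eck_m Q C y μ e u = ∑ i, u i * eck_m Q C y μ e (Pi.single i 1) := by
  simp only [eck_m]
  rw [C.T_eq_sum y e u, Q.T_eq_sum e u, C.T_eq_sum y y u, Finset.mul_sum, ← Finset.sum_sub_distrib,
    Finset.mul_sum, Finset.sum_mul, ← Finset.sum_sub_distrib]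
  exact Finset.sum_congr rfl fun i _ => by ring

omit [DecidableEq σ] in
theorem eck_key {y e u v : σ → L} {μ : L}
    (hE : ∀ u ∈ Hs Q C y, ∀ u' ∈ Hs Q C y, C.T y u u' = μ * Q.T u u') (q2 : Q.T y e = 0)
    (c2 : C.T y y e = 1) (hu : Q.T y u = 0) (hv : Q.T y v = 0) :
    2 * (C.T y u v - μ * Q.T u v) =
      C.T y y u * eck_m Q C y μ e v + C.T y y v * eck_m Q C y μ e u := by
  have hm : ∀ w, Q.T y w = 0 → w - C.T y y w • e ∈ Hs Q C y := fun w hw =>
    (mem_Hs Q C).2 ⟨by rw [Q.sub2, Q.smul2, hw, q2]; ring, by rw [C.sub3, C.smul3, c2]; ring⟩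
  have h := hE _ (hm u hu) _ (hm v hv)
  simp only [C.sub2, C.sub3, C.smul2, C.smul3, Q.sub1, Q.sub2, Q.smul1, Q.smul2, C.T23 y u e,
    Q.T12 u e] at h
  simp only [eck_m]
  linear_combination 2 * h

omit [DecidableEq σ] in
theorem eck_scale [CharZero L] {y e e' u : σ → L} {μ f : L}
    (hE : ∀ u ∈ Hs Q C y, ∀ u' ∈ Hs Q C y, C.T y u u' = μ * Q.T u u') (q2 : Q.T y e = 0)
    (c2 : C.T y y e = 1) (hf : f ≠ 0) (q2' : Q.T (f • y) e' = 0) (c2' : C.T (f • y) (f • y) e' = 1)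
    (hu : Q.T y u = 0) : eck_m Q C y μ e u = f * eck_m Q C (f • y) (f * μ) e' u := by
  rw [Q.smul1] at q2'
  rw [C.smul1, C.smul2] at c2'
  have q := (mul_eq_zero.1 q2').resolve_left hf
  have h1 := eck_key hE q2 c2 q hu
  have h2 := eck_key hE q2 c2 q q
  generalize eck_m Q C y μ e u = a at h1 ⊢
  generalize eck_m Q C y μ e e' = b at h1 h2
  simp only [eck_m, C.smul1, C.smul2]
  linear_combination (-f ^ 2) * h1 + (f ^ 4 * C.T y y u / 2) * h2 +
    (f ^ 2 * C.T y y u * b - a) * c2'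

theorem eck_mu [IsAlgClosed M] (h : Sm Q C M) (hN : 5 ≤ Fintype.card σ) (O : ValuationSubring L)
    (hO : ∀ c : M, algebraMap M L c ∈ O) {y e1 e2 : σ → L} {μ : L} (hy : ∀ i, y i ∈ O)
    (h1 : ∀ i, e1 i ∈ O) (h2 : ∀ i, e2 i ∈ O) (hd : Dual Q C y e1 e2)
    (hE : ∀ u ∈ Hs Q C y, ∀ u' ∈ Hs Q C y, C.T y u u' = μ * Q.T u u') : μ ∈ O := by
  obtain ⟨u, hu, hu0⟩ := (Submodule.ne_bot_iff _).1 (LinearMap.ker_ne_bot_of_finrank_lt
    (f := LinearMap.pi ![Q.L y, C.L y y, Q.L e1, Q.L e2]) (by simp; omega))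
  have k0 : Q.T y u = 0 := congrFun hu 0
  have k1 : C.T y y u = 0 := congrFun hu 1
  have k2 : Q.T e1 u = 0 := congrFun hu 2
  have k3 : Q.T e2 u = 0 := congrFun hu 3
  obtain ⟨f, hf, z, hz, h0⟩ := prim_nd h O hO hu0
  have a1 := Q.mem_subring O (fun _ _ => hO _) hy hz
  have a2 := C.mem_subring O (fun _ _ _ => hO _) hy hy hz
  have hw : z - Q.T y z • e1 - C.T y y z • e2 ∈ Hs Q C y := (mem_Hs Q C).2
    ⟨by rw [Q.sub2, Q.sub2, Q.smul2, Q.smul2, hd.q1, hd.q2]; ring,
      by rw [C.sub3, C.sub3, C.smul3, C.smul3, hd.c1, hd.c2]; ring⟩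
  have h3 := hE _ ((Hs Q C y).smul_mem f ((mem_Hs Q C).2 ⟨k0, k1⟩)) _ hw
  rw [Q.sub2, Q.sub2, Q.smul2, Q.smul2, h0, Q.smul1, Q.smul1, Q.T12 u e1, Q.T12 u e2, k2, k3] at h3
  simp only [mul_zero, sub_zero, mul_one] at h3
  exact h3 ▸ C.mem_subring O (fun _ _ _ => hO _) hy hf fun i =>
    sub_mem (sub_mem (hz i) (mul_mem a1 (h1 i))) (mul_mem a2 (h2 i))

theorem eck [IsAlgClosed M] [CharZero M] (h : Sm Q C M) (hN : 5 ≤ Fintype.card σ) {y : σ → L}
    (hy : InV Q C y) (hE : Eck Q C y) (D : Derivation M L L) : ∃ c : L, D ∘ y = c • y := by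
  have : CharZero L := charZero_of_injective_algebraMap (algebraMap M L).injective
  obtain ⟨μ, hE⟩ := hE
  obtain ⟨-, e, -, -, q2, c2⟩ := (h.ext L).dual hy
  have hs : ∀ (O : ValuationSubring L) (i j : σ), (Pi.single i 1 : σ → L) j ∈ O := fun O i j => by
    rw [Pi.single_apply]
    split_ifs
    exacts [one_mem _, zero_mem _]
  have hβ : ∀ i j, D (Q.T y (Pi.single i 1) * eck_m Q C y μ e (Pi.single j 1) -
      Q.T y (Pi.single j 1) * eck_m Q C y μ e (Pi.single i 1)) = 0 := fun i j => by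
    refine vald D _ fun O hO => ?_
    have hO' : ∀ c : M, algebraMap M L c ∈ O := fun c => hO _ (D.map_algebraMap c)
    obtain ⟨f, hf, hy', e1, e2, h1, h2, hd⟩ := prim h O hO' hy
    have hμ : f * μ ∈ O := eck_mu h hN O hO' hy' h1 h2 hd fun u hu v hv => by
      rw [mem_Hs, Q.smul1, C.smul1, C.smul2] at hu hv
      simp only [mul_eq_zero, hf, false_or] at hu hv
      rw [C.smul1, hE u hu v hv, mul_assoc]
    have hq := fun {a b : σ → L} => Q.mem_subring O (fun _ _ => hO' _) (a := a) (b := b)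
    have hc := fun {a b c : σ → L} => C.mem_subring O (fun _ _ _ => hO' _) (a := a) (b := b) (c := c)
    have hm : ∀ k, eck_m Q C (f • y) (f * μ) e2 (Pi.single k 1) ∈ O := fun k =>
      sub_mem (mul_mem (natCast_mem O 2) (sub_mem (hc hy' h2 (hs O k)) (mul_mem hμ (hq h2 (hs O k)))))
        (mul_mem (hc hy' hy' (hs O k)) (sub_mem (hc hy' h2 h2) (mul_mem hμ (hq h2 h2))))
    rw [← eck_lin, eck_scale hE q2 c2 hf hd.q2 hd.c2 (by rw [Q.sub2, Q.smul2, Q.smul2]; ring),
      eck_lin, mul_sub, ← mul_assoc, ← mul_assoc, ← Q.smul1, ← Q.smul1]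
    exact sub_mem (mul_mem (hq hy' (hs O i)) (hm j)) (mul_mem (hq hy' (hs O j)) (hm i))
  have hS : ∀ (w : σ → L) (j : σ), ∑ i, w i * (Q.T y (Pi.single i 1) * eck_m Q C y μ e (Pi.single j 1) -
      Q.T y (Pi.single j 1) * eck_m Q C y μ e (Pi.single i 1)) =
      Q.T y w * eck_m Q C y μ e (Pi.single j 1) - Q.T y (Pi.single j 1) * eck_m Q C y μ e w :=
    fun w j => by
      rw [Q.T_eq_sum y w, eck_sum y μ e w, Finset.sum_mul, Finset.mul_sum, ← Finset.sum_sub_distrib]
      exact Finset.sum_congr rfl fun i _ => by ring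
  have hD : Q.T y (D ∘ y) = 0 := by
    have := Q.der D y y
    rw [hy.q, map_zero, Q.T12 (D ∘ y) y] at this
    linear_combination (-1 / 2 : L) * this
  have hm : eck_m Q C y μ e y = 2 := by
    rw [eck_m, C.T23 y e y, Q.T12 e y, c2, q2, hy.c]
    ring
  refine ⟨eck_m Q C y μ e (D ∘ y) / 2, sub_eq_zero.1 ((h.ext L).nd _ fun u => ?_)⟩
  rw [Q.T_eq_sum]
  refine Finset.sum_eq_zero fun j _ => mul_eq_zero_of_right _ ?_
  have h1 := congrArg D (hS y j)
  have h2 := hS (D ∘ y) j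
  have h3 : D ∘ (Pi.single j 1 : σ → L) = 0 := by
    rw [← up_single (A := M)]
    exact der_up D D.map_algebraMap _
  rw [hy.q, hm, zero_mul, zero_sub, map_neg, mul_two, map_add, Q.der, h3, Q.zero2, map_sum] at h1
  simp only [Derivation.leibniz _ (y _), hβ, mul_zero, zero_add, smul_eq_mul] at h1
  rw [hD, ← Finset.sum_congr rfl fun i _ => mul_comm _ ((D ∘ y) i)] at h2
  simp only [Function.comp_apply] at h2
  rw [Q.sub1, Q.smul1]
  linear_combination (1 / 2 : L) * h1 - (1 / 2 : L) * h2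

end

section
variable {σ M : Type} [Fintype σ] [DecidableEq σ] [CommRing M] (Q : S2 σ M) (C : S3 σ M)
  {A B : Type} [CommRing A] [Algebra M A] [CommRing B] [Algebra M B]

/-- Projection to the tangent space along two dual vectors. -/
def ne_prj (y e1 e2 u : σ → A) : σ → A := u - Q.T y u • e1 - C.T y y u • e2

/-- Equations for an Eckardt point on a hyperplane. -/
def ne_sys (h y e1 e2 : σ → A) (μ : A) : (σ × σ) ⊕ Fin 4 → A :=
  Sum.elim (fun ij =>
    C.T y (ne_prj Q C y e1 e2 (Pi.single ij.1 1)) (ne_prj Q C y e1 e2 (Pi.single ij.2 1)) -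
      μ * Q.T (ne_prj Q C y e1 e2 (Pi.single ij.1 1)) (ne_prj Q C y e1 e2 (Pi.single ij.2 1)))
    ![Q.T y y, C.T y y y, ∑ i, h i * y i, Q.T y e1 - 1]

theorem ne_sys_map (φ : A →ₐ[M] B) (h y e1 e2 : σ → A) (μ : A) (k : (σ × σ) ⊕ Fin 4) :
    φ (ne_sys Q C h y e1 e2 μ k) = ne_sys Q C (φ ∘ h) (φ ∘ y) (φ ∘ e1) (φ ∘ e2) (φ μ) k := by
  have h1 : ∀ u, φ ∘ ne_prj Q C y e1 e2 u = ne_prj Q C (φ ∘ y) (φ ∘ e1) (φ ∘ e2) (φ ∘ u) :=
    fun u => funext fun i => by simp [ne_prj, ← Q.map, ← C.map]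
  have h2 : ∀ i : σ, φ ∘ Pi.single i 1 = Pi.single i 1 := fun i => funext fun j => by
    by_cases h : j = i <;> simp [h]
  rcases k with ij | k
  · simp only [ne_sys, Sum.elim_inl, map_sub, map_mul, Q.map, C.map, h1, h2]
  · fin_cases k <;> simp [ne_sys, Q.map, C.map]

theorem ne_eck {h y e1 e2 : σ → A} {μ : A} (H : ∀ k, ne_sys Q C h y e1 e2 μ k = 0) :
    Eck Q C y := by
  let π : (σ → A) →ₗ[A] (σ → A) := LinearMap.id - (Q.L y).smulRight e1 - (C.L y y).smulRight e2
  have h0 : ∀ v, π v = ∑ i, v i • π (Pi.single i 1) := fun v => by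
    simp only [← map_smul, ← map_sum, ← Pi.single_smul, smul_eq_mul, mul_one,
      Finset.univ_sum_single]
  have h1 : ∀ v ∈ Hs Q C y, π v = v := fun v hv => by
    simp [π, Q.L_apply, C.L_apply, ((mem_Hs Q C).1 hv).1, ((mem_Hs Q C).1 hv).2]
  have h2 : ∀ i j, C.T y (π (Pi.single i 1)) (π (Pi.single j 1)) =
      μ * Q.T (π (Pi.single i 1)) (π (Pi.single j 1)) := fun i j =>
    sub_eq_zero.1 (H (Sum.inl (i, j)))
  have h3 : ∀ a, (∀ j, C.T y a (π (Pi.single j 1)) = μ * Q.T a (π (Pi.single j 1))) →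
      ∀ v, C.T y a (π v) = μ * Q.T a (π v) := fun a ha v => by
    rw [h0 v, C.sum_last, Q.sum_last, Finset.mul_sum]
    refine Finset.sum_congr rfl fun j _ => ?_
    rw [C.smul3, Q.smul2, ha]
    ring
  refine ⟨μ, fun u hu u' hu' => ?_⟩
  rw [← h1 u hu, ← h1 u' hu']
  refine h3 _ (fun j => ?_) _
  rw [C.T23, Q.T12]
  exact h3 _ (h2 j) _

end

section
variable {σ M L : Type} [Fintype σ] [DecidableEq σ] [Field M] [Field L] [Algebra M L]
  {Q : S2 σ M} {C : S3 σ M}

theorem ne_poly [IsAlgClosed M] [CharZero M] (h : Sm Q C M) (hN : 5 ≤ Fintype.card σ) :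
    ∃ P : MvPolynomial σ M, P ≠ 0 ∧ ∀ l y : σ → M, InV Q C y → l ⬝ᵥ y = 0 → Eck Q C y →
      eval l P = 0 := by
  obtain ⟨L, _, _, a, _, t, ξ, hξ⟩ := gen_ext M M σ
  clear t a
  let r : (σ × σ) ⊕ Fin 4 → MvPolynomial (σ ⊕ Option (Fin 3 × σ)) M :=
    ne_sys Q C (fun i => X (Sum.inl i)) (fun i => X (Sum.inr (some (0, i))))
      (fun i => X (Sum.inr (some (1, i)))) (fun i => X (Sum.inr (some (2, i)))) (X (Sum.inr none))
  have hr : ∀ (A : Type) [CommRing A] [Algebra M A] (l : σ → A) (z : Option (Fin 3 × σ) → A) k,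
      aeval (Sum.elim l z) (r k) = ne_sys Q C l (fun i => z (some (0, i)))
        (fun i => z (some (1, i))) (fun i => z (some (2, i))) (z none) k := fun A _ _ l z k => by
    rw [ne_sys_map]
    simp [Function.comp_def]
  obtain ⟨R, hR, H⟩ := bad r ξ fun ⟨z, hz⟩ => by
    simp only [hr] at hz
    set y : σ → L := fun i => z (some (0, i))
    have h3 : ∑ i, ξ i * y i = 0 := hz (Sum.inr 2)
    have h4 : Q.T y _ - 1 = 0 := hz (Sum.inr 3)
    have h5 : y ≠ 0 := fun h => by simp [h, Q.zero1] at h4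
    obtain ⟨i, hi⟩ := Function.ne_iff.1 h5
    obtain ⟨D, -, hD⟩ := der_ext (0 : Derivation M M M) ξ hξ (Pi.single i 1)
    obtain ⟨t, ht⟩ := eck h hN ⟨h5, hz (Sum.inr 0), hz (Sum.inr 1)⟩ (ne_eck Q C hz) D
    have h6 := congrArg D h3
    have h7 : ∀ j, D (y j) = t * y j := congrFun ht
    have h8 : ∀ j, D (ξ j) = Pi.single (M := fun _ => L) i 1 j := congrFun hD
    simp only [map_sum, Derivation.leibniz, smul_eq_mul, h8, h7, map_zero, Finset.sum_add_distrib,
      mul_left_comm _ t, ← Finset.mul_sum, Pi.single_apply] at h6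
    exact hi (by simpa [h3] using h6)
  refine ⟨R, fun h => hR (by simp [h]), fun l y hy h0 ⟨μ, hμ⟩ => ?_⟩
  obtain ⟨e1, e2, a1, a2, a3, a4⟩ := h.dual hy
  refine H M l (fun o => o.elim μ fun p => ![y, e1, e2] p.1 p.2) (fun g hg => ?_) fun k => ?_
  · rw [show g = 0 from hξ (by simpa using hg), map_zero]
  · rw [hr]
    change ne_sys Q C l y e1 e2 μ k = 0
    have h1 : ∀ u, ne_prj Q C y e1 e2 u ∈ Hs Q C y := fun u => (mem_Hs Q C).2 <| by
      simp [ne_prj, Q.sub2, Q.smul2, C.sub3, C.smul3, a1, a2, a3, a4]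
    rcases k with ij | k
    · exact sub_eq_zero.2 (hμ _ (h1 _) _ (h1 _))
    · fin_cases k
      exacts [hy.q, hy.c, h0, sub_eq_zero.2 a1]

end

section
variable {σ M L : Type} [Fintype σ] [DecidableEq σ] [Field M] [Field L] [Algebra M L]
  {Q : S2 σ M} {C : S3 σ M}

theorem quad_hyp [CharZero L] [IsAlgClosed L] (h : Sm Q C L) (hN : 7 ≤ Fintype.card σ) {y : σ → L}
    (hy : InV Q C y) : ∃ e ∈ Hs Q C y, ∃ f ∈ Hs Q C y, Q.T e e = 0 ∧ Q.T f f = 0 ∧ Q.T e f = 1 := by
  have pol : ∀ W : Submodule L (σ → L), (∀ u ∈ W, Q.T u u = 0) → ∀ u ∈ W, ∀ v ∈ W,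
      Q.T u v = 0 := fun W hW u hu v hv => by
    have := hW _ (W.add_mem hu hv)
    rw [Q.add1, Q.add2, Q.add2, hW u hu, hW v hv, Q.T12 v u] at this
    linear_combination (1 / 2 : L) * this
  have hd := h.finrank_Hs hy
  have rl : ∀ W : Submodule L (σ → L), (∀ u ∈ W, ∀ v ∈ Hs Q C y, Q.T u v = 0) →
      finrank L W ≤ 2 := fun W hW => by
    by_contra! h3
    obtain ⟨u, hu, v, hv, h4⟩ := h.rad hy W h3
    exact h4 (hW u hu v hv)
  obtain ⟨a, ha, haa⟩ : ∃ a ∈ Hs Q C y, Q.T a a ≠ 0 := by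
    by_contra! H
    have := rl _ (pol _ H)
    omega
  obtain ⟨b, hb, hbb⟩ : ∃ b ∈ Hs Q C y ⊓ LinearMap.ker (Q.L a), Q.T b b ≠ 0 := by
    by_contra! H
    have h1 := rl (Hs Q C y ⊓ LinearMap.ker (Q.L a)) fun u hu v hv => by
      have hv' : v - (Q.T a v / Q.T a a) • a ∈ Hs Q C y ⊓ LinearMap.ker (Q.L a) := by
        refine ⟨sub_mem hv ((Hs Q C y).smul_mem _ ha), ?_⟩
        change Q.T a _ = 0
        rw [Q.sub2, Q.smul2]
        field_simp
        ring
      have := pol _ H u hu _ hv'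
      have h2 : Q.T a u = 0 := hu.2
      rwa [Q.sub2, Q.smul2, Q.T12 u a, h2, mul_zero, sub_zero] at this
    have h2 := Submodule.finrank_sup_add_finrank_inf_eq (Hs Q C y) (LinearMap.ker (Q.L a))
    have h3 := Submodule.finrank_le (Hs Q C y ⊔ LinearMap.ker (Q.L a))
    have h4 := LinearMap.finrank_range_add_finrank_ker (Q.L a)
    have h5 := Submodule.finrank_le (LinearMap.range (Q.L a))
    rw [Module.finrank_self] at h5
    rw [Module.finrank_fintype_fun_eq_card] at h3 h4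
    omega
  have hab : Q.T a b = 0 := hb.2
  obtain ⟨s, hs⟩ := IsAlgClosed.exists_eq_mul_self (-(Q.T a a / Q.T b b))
  have hs' : s * s * Q.T b b = -Q.T a a := by rw [← hs]; field_simp
  refine ⟨a + s • b, add_mem ha ((Hs Q C y).smul_mem _ hb.1), (2 * Q.T a a)⁻¹ • (a - s • b),
    (Hs Q C y).smul_mem _ (sub_mem ha ((Hs Q C y).smul_mem _ hb.1)), ?_, ?_, ?_⟩
  · simp only [Q.add1, Q.add2, Q.smul1, Q.smul2, Q.T12 b a, hab]
    linear_combination hs'
  · simp only [Q.sub1, Q.sub2, Q.smul1, Q.smul2, Q.T12 b a, hab]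
    linear_combination (2 * Q.T a a)⁻¹ * (2 * Q.T a a)⁻¹ * hs'
  · simp only [Q.add1, Q.sub2, Q.smul1, Q.smul2, Q.T12 b a, hab]
    field_simp
    linear_combination -hs'

omit [DecidableEq σ] in
theorem quad_zero [CharZero L] (W : Submodule L (σ → L)) (c : (σ → L) →ₗ[L] (σ → L) →ₗ[L] L)
    (hc : ∀ u v, c u v = c v u) {e f : σ → L} (he : e ∈ W) (hf : f ∈ W) (hee : Q.T e e = 0)
    (hff : Q.T f f = 0) (hef : Q.T e f = 1)
    (h : ∀ w ∈ W, Q.T w w = 0 → (∃ v ∈ W, Q.T v w ≠ 0) → c w w = 0) :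
    ∀ u ∈ W, ∀ v ∈ W, c u v = c e f * Q.T u v := by
  have hfe : Q.T f e = 1 := by rw [Q.T12, hef]
  have ce := h e he hee ⟨f, hf, by rw [hfe]; exact one_ne_zero⟩
  have cf := h f hf hff ⟨e, he, by rw [hef]; exact one_ne_zero⟩
  have k : ∀ u ∈ W, Q.T e u = 0 → Q.T f u = 0 → ∀ s t : L, s ≠ 0 ∨ t ≠ 0 →
      Q.T u u + 2 * s * t = 0 →
      c u u + 2 * s * c u e + 2 * t * c u f + 2 * s * t * c e f = 0 := fun u hu h1 h2 s t hs hst => by
    have := h (u + s • e + t • f) (add_mem (add_mem hu (W.smul_mem _ he)) (W.smul_mem _ hf))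
      (by
        simp only [Q.add1, Q.add2, Q.smul1, Q.smul2, Q.T12 u e, Q.T12 u f, h1, h2, hee, hff, hef, hfe]
        linear_combination hst)
      (hs.elim (fun hs => ⟨f, hf, by
        simpa only [Q.add2, Q.smul2, h2, hff, hfe, zero_add, mul_one, mul_zero, add_zero]⟩)
        fun hs => ⟨e, he, by
          simpa only [Q.add2, Q.smul2, h1, hee, hef, zero_add, mul_one, mul_zero, add_zero]⟩)
    simp only [map_add, map_smul, LinearMap.add_apply, LinearMap.smul_apply, smul_eq_mul,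
      hc e u, hc f u, hc f e, ce, cf] at this
    linear_combination this
  have k2 : ∀ u ∈ W, Q.T e u = 0 → Q.T f u = 0 →
      c u u = c e f * Q.T u u ∧ c u e = 0 ∧ c u f = 0 := fun u hu h1 h2 => by
    have a1 := k u hu h1 h2 1 (-(Q.T u u / 2)) (Or.inl one_ne_zero) (by ring)
    have a2 := k u hu h1 h2 (-1) (Q.T u u / 2) (Or.inl (by norm_num)) (by ring)
    have a3 := k u hu h1 h2 2 (-(Q.T u u / 4)) (Or.inl two_ne_zero) (by ring)
    have b1 := k u hu h1 h2 (-(Q.T u u / 2)) 1 (Or.inr one_ne_zero) (by ring)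
    have b2 := k u hu h1 h2 (Q.T u u / 2) (-1) (Or.inr (by norm_num)) (by ring)
    have b3 := k u hu h1 h2 (-(Q.T u u / 4)) 2 (Or.inr two_ne_zero) (by ring)
    exact ⟨by linear_combination (1 / 2 : L) * a1 + (1 / 2 : L) * a2,
      by linear_combination (-1 / 4 : L) * a1 + (-1 / 12 : L) * a2 + (1 / 3 : L) * a3,
      by linear_combination (-1 / 4 : L) * b1 + (-1 / 12 : L) * b2 + (1 / 3 : L) * b3⟩
  have k3 : ∀ w ∈ W, c w w = c e f * Q.T w w := fun w hw => by
    obtain ⟨u, hu, h1, h2, s, t, rfl⟩ : ∃ u ∈ W, Q.T e u = 0 ∧ Q.T f u = 0 ∧ ∃ s t : L,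
        w = u + s • e + t • f := by
      refine ⟨w - Q.T f w • e - Q.T e w • f,
        sub_mem (sub_mem hw (W.smul_mem _ he)) (W.smul_mem _ hf), ?_, ?_, Q.T f w, Q.T e w, by abel⟩
      · simp only [Q.sub2, Q.smul2, hee, hef]; ring
      · simp only [Q.sub2, Q.smul2, hff, hfe]; ring
    obtain ⟨a, b, d⟩ := k2 u hu h1 h2
    simp only [map_add, map_smul, LinearMap.add_apply, LinearMap.smul_apply, smul_eq_mul,
      hc e u, hc f u, hc f e, ce, cf, a, b, d, Q.add1, Q.add2, Q.smul1, Q.smul2, Q.T12 u e,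
      Q.T12 u f, h1, h2, hee, hff, hef, hfe]
    ring
  intro u hu v hv
  have := k3 _ (W.add_mem hu hv)
  simp only [map_add, LinearMap.add_apply, Q.add1, Q.add2, hc v u, Q.T12 v u, k3 u hu, k3 v hv]
    at this
  linear_combination (1 / 2 : L) * this

theorem quad [CharZero L] (h : Sm Q C L) (hN : 7 ≤ Fintype.card σ) [IsAlgClosed L] {y : σ → L}
    (hy : InV Q C y) (hE : ¬ Eck Q C y) : ∃ w0 e, Iso Q C y w0 ∧ C.T y w0 w0 ≠ 0 ∧
      e ∈ Hs Q C y ∧ Q.T e e = 0 ∧ Q.T e w0 ≠ 0 := by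
  obtain ⟨e, he', f, hf, hee, hff, hef⟩ := quad_hyp h hN hy
  by_contra! H
  refine hE ⟨_, quad_zero (Hs Q C y) (LinearMap.mk₂ L (C.T y) (fun a b c => C.add2 y a c b)
    (fun r a b => C.smul2 r y a b) (C.add3 y) fun r a b => C.smul3 r y a b) (C.T23 y) he' hf hee
    hff hef fun w hw hww ⟨v, hv, hvw⟩ => ?_⟩
  by_contra hc
  refine hvw (Eq.trans ?_ (H w (v - (Q.T v v / (2 * Q.T v w)) • w)
    ⟨hw, hww, v, hv, by rwa [Q.T12]⟩ hc (sub_mem hv ((Hs Q C y).smul_mem _ hw)) ?_))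
  · rw [Q.sub1, Q.smul1, hww, mul_zero, sub_zero]
  · simp only [Q.sub1, Q.sub2, Q.smul1, Q.smul2, hww, Q.T12 w v]
    field_simp
    ring

omit [DecidableEq σ] in
theorem r1a_cut (W : Submodule L (σ → L)) (l : (σ → L) →ₗ[L] L) :
    finrank L W ≤ finrank L (W ⊓ LinearMap.ker l : Submodule L (σ → L)) + 1 := by
  have h1 := Submodule.finrank_sup_add_finrank_inf_eq W (LinearMap.ker l)
  have h2 := Submodule.finrank_le (W ⊔ LinearMap.ker l)
  have h3 := l.finrank_range_add_finrank_ker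
  have h4 := Submodule.finrank_le (LinearMap.range l)
  rw [finrank_self] at h4
  omega

theorem r1_alg [CharZero L] (h : Sm Q C L) (hN : 7 ≤ Fintype.card σ) {y e η : σ → L}
    (hy : InV Q C y) (he : e ∈ Hs Q C y) (he' : ∃ u ∈ Hs Q C y, Q.T e u ≠ 0)
    (hη : ∃ u ∈ Hs Q C y, Q.T η u ≠ 0) : ∃ τ ∈ Hs Q C y, Q.T η (zt Q e τ) ≠ 0 := by
  by_contra hh
  have H : ∀ τ ∈ Hs Q C y, 2 * Q.T e τ * Q.T η τ = Q.T τ τ * Q.T η e := fun τ hτ => by
    have h1 : Q.T η (zt Q e τ) = 0 := by_contra fun h1 => hh ⟨τ, hτ, h1⟩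
    rwa [zt, Q.sub2, Q.smul2, Q.smul2, sub_eq_zero] at h1
  have P : ∀ a ∈ Hs Q C y, ∀ b ∈ Hs Q C y,
      Q.T e a * Q.T η b + Q.T e b * Q.T η a = Q.T a b * Q.T η e := fun a ha b hb => by
    have h1 := H _ (add_mem ha hb)
    simp only [Q.add1, Q.add2, Q.T12 b a] at h1
    linear_combination (h1 - H a ha - H b hb) / 2
  by_cases hc : Q.T η e = 0
  · obtain ⟨a, ha, ha'⟩ := he'
    obtain ⟨b, hb, hb'⟩ := hη
    have h1 := H a ha
    have h2 := P a ha b hb
    rw [hc, mul_zero] at h1 h2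
    rw [(mul_eq_zero.1 h1).resolve_left (mul_ne_zero two_ne_zero ha'), mul_zero, add_zero] at h2
    exact mul_ne_zero ha' hb' h2
  · have h1 := h.finrank_Hs hy
    have h2 := r1a_cut (Hs Q C y) (Q.L e)
    have h3 := r1a_cut (Hs Q C y ⊓ LinearMap.ker (Q.L e)) (Q.L η)
    obtain ⟨a, ⟨⟨ha, hae⟩, haη⟩, b, hb, hab⟩ := h.rad hy
      (Hs Q C y ⊓ LinearMap.ker (Q.L e) ⊓ LinearMap.ker (Q.L η)) (by omega)
    have h4 := P a ha b hb
    rw [show Q.T e a = 0 from hae, show Q.T η a = 0 from haη, zero_mul, mul_zero, add_zero] at h4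
    exact mul_ne_zero hab hc h4.symm

end

section
variable {σ M L : Type} [Fintype σ] [DecidableEq σ] [Field M] [Field L] [Algebra M L]
  {Q : S2 σ M} {C : S3 σ M}

/-- Projection onto the tangent space. -/
def parw_P {σ M A : Type} [Fintype σ] [Field M] [CommRing A] [Algebra M A] (Q : S2 σ M)
    (C : S3 σ M) (y e1 e2 t : σ → A) : σ → A := t - Q.T y t • e1 - C.T y y t • e2

omit [DecidableEq σ] in
theorem parw_map {A B : Type} [CommRing A] [Algebra M A] [CommRing B] [Algebra M B]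
    (φ : A →ₐ[M] B) (y e1 e2 t : σ → A) :
    φ ∘ parw_P Q C y e1 e2 t = parw_P Q C (φ ∘ y) (φ ∘ e1) (φ ∘ e2) (φ ∘ t) := by
  funext i
  simp only [parw_P, Function.comp_apply, Pi.sub_apply, Pi.smul_apply, smul_eq_mul, map_sub,
    map_mul, Q.map φ, C.map φ]

theorem parw_dsub {ι R A : Type} [CommRing R] [CommRing A] [Algebra R A] (D : Derivation R A A)
    (x z : ι → A) : D ∘ (x - z) = D ∘ x - D ∘ z := by
  funext i; simp

theorem parw_dsmul {ι R A : Type} [CommRing R] [CommRing A] [Algebra R A] (D : Derivation R A A)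
    (r : A) (x : ι → A) : D ∘ (r • x) = D r • x + r • (D ∘ x) := by
  funext i; simp [Derivation.leibniz]; ring

omit [DecidableEq σ] in
theorem parw_move [CharZero L] {L' : Type} [Field L'] [Algebra M L'] [Algebra L L']
    [IsScalarTower M L L'] {y e e1 e2 : σ → L} {t : σ → L'} (ht : AlgebraicIndependent L t)
    {τ : σ → L'} (hτ : τ = parw_P Q C (up L' y) (up L' e1) (up L' e2) t)
    (hH : τ ∈ Hs Q C (up L' y)) (ha : Q.T (up L' e) τ ≠ 0) {v : σ → L'}
    (hv : v ∈ Hs Q C (up L' y)) (hw : Q.T (zt Q (up L' e) τ) v = 0) :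
    v ∈ Tan L (zt Q (up L' e) τ) := by
  have : CharZero L' := charZero_of_injective_algebraMap (algebraMap L L').injective
  set e' := up L' e with he'
  let u := (2 * Q.T e' τ)⁻¹ • (v - (Q.T e' v / (2 * Q.T e' τ)) • τ)
  have hu : u ∈ Hs Q C (up L' y) :=
    Submodule.smul_mem _ _ (sub_mem hv (Submodule.smul_mem _ _ hH))
  obtain ⟨D, -, h1⟩ := der_ext (0 : Derivation L L L) t ht u
  have h0 : ∀ η : σ → L, D ∘ up L' η = 0 := fun η => funext fun i => D.map_algebraMap (η i)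
  have hM : ∀ c : M, D (algebraMap M L' c) = 0 := fun c => by
    rw [IsScalarTower.algebraMap_apply M L L', D.map_algebraMap]
  have h2 : D ∘ τ = u := by
    rw [hτ, parw_P, parw_dsub, parw_dsub, parw_dsmul, parw_dsmul, Q.der' D hM, C.der' D hM, h0, h0,
      h0, h1, Q.zero1, C.zero1, C.zero2, ((mem_Hs Q C).1 hu).1, ((mem_Hs Q C).1 hu).2]
    simp
  have h3 : D (2 : L') = 0 := by simpa using D.map_natCast 2
  refine mem_Tan.2 ⟨D, ?_⟩
  rw [zt, Q.sub1, Q.smul1, Q.smul1] at hw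
  have h4 : Q.T e' u = Q.T e' v / (4 * Q.T e' τ) := by
    rw [Q.smul2, Q.sub2, Q.smul2]; field_simp; ring
  have h5 : Q.T τ u = 0 := by
    rw [Q.smul2, Q.sub2, Q.smul2]
    refine mul_eq_zero_of_right _ ?_
    field_simp
    linear_combination hw
  rw [zt, parw_dsub, parw_dsmul, parw_dsmul, Derivation.leibniz, Q.der' D hM, Q.der' D hM, h0 e,
    h2, h3, Q.zero1, Q.T12 u τ, h4, h5]
  funext i
  simp only [u, Pi.sub_apply, Pi.add_apply, Pi.smul_apply, smul_eq_mul, Pi.zero_apply]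
  field_simp
  ring

omit [DecidableEq σ] in
theorem parw_gen {L' : Type} [Field L'] [Algebra M L'] [Algebra L L'] [IsScalarTower M L L']
    {y e e1 e2 : σ → L} {t : σ → L'} (ht : AlgebraicIndependent L t) {τ0 : σ → L}
    (h0 : τ0 ∈ Hs Q C y) {τ : σ → L'} (hτ : τ = parw_P Q C (up L' y) (up L' e1) (up L' e2) t) :
    (Q.T e τ0 ≠ 0 → Q.T (up L' e) τ ≠ 0) ∧
    (C.T y (zt Q e τ0) (zt Q e τ0) ≠ 0 →
      C.T (up L' y) (zt Q (up L' e) τ) (zt Q (up L' e) τ) ≠ 0) ∧
    ∀ η : σ → L, Q.T η (zt Q e τ0) ≠ 0 → Q.T (up L' η) (zt Q (up L' e) τ) ≠ 0 := by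
  let ψ : MvPolynomial σ L →ₐ[M] L' := (aeval t).restrictScalars M
  let χ : MvPolynomial σ L →ₐ[M] L := (aeval τ0).restrictScalars M
  have hψ : Function.Injective ψ := ht
  let c : (σ → L) → σ → MvPolynomial σ L := fun x => MvPolynomial.C ∘ x
  have c1 : ∀ x, ψ ∘ c x = up L' x := fun x => funext fun i => by simp [ψ, c, up]
  have c2 : ∀ x, χ ∘ c x = x := fun x => funext fun i => by simp [χ, c]
  have x1 : ψ ∘ X = t := funext fun i => by simp [ψ]
  have x2 : χ ∘ X = τ0 := funext fun i => by simp [χ]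
  have g : ∀ p, χ p ≠ 0 → ψ p ≠ 0 := fun p hp h =>
    hp (by rw [hψ (h.trans (map_zero ψ).symm), map_zero])
  set T := parw_P Q C (c y) (c e1) (c e2) X with hT
  have t1 : ψ ∘ T = τ := by rw [hT, parw_map, c1, c1, c1, x1, hτ]
  have t2 : χ ∘ T = τ0 := by
    rw [hT, parw_map, c2, c2, c2, x2, parw_P, ((mem_Hs Q C).1 h0).1, ((mem_Hs Q C).1 h0).2]
    simp
  refine ⟨fun h => ?_, fun h => ?_, fun η h => ?_⟩
  · have := g (Q.T (c e) T) (by rwa [Q.map χ, c2, t2])
    rwa [Q.map ψ, c1, t1] at this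
  · have := g (C.T (c y) (zt Q (c e) T) (zt Q (c e) T)) (by rwa [C.map χ, map_zt, c2, c2, t2])
    rwa [C.map ψ, map_zt, c1, c1, t1] at this
  · have := g (Q.T (c η) (zt Q (c e) T)) (by rwa [Q.map χ, map_zt, c2, c2, t2])
    rwa [Q.map ψ, map_zt, c1, c1, t1] at this

theorem par_w [IsAlgClosed M] [CharZero M] [IsAlgClosed L] (h : Sm Q C M)
    (hN : 7 ≤ Fintype.card σ) {y : σ → L} (hy : InV Q C y) (hE : ¬ Eck Q C y) :
    ∃ (L' : Type) (_ : Field L') (_ : IsAlgClosed L') (_ : Algebra M L') (_ : Algebra L L')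
      (_ : IsScalarTower M L L') (w : σ → L'), Iso Q C (up L' y) w ∧ C.T (up L' y) w w ≠ 0 ∧
        (∀ u ∈ Hs Q C (up L' y), Q.T w u = 0 → u ∈ Tan L w) ∧
        ∀ η : σ → L, (∃ u ∈ Hs Q C y, Q.T η u ≠ 0) → Q.T (up L' η) w ≠ 0 := by
  have : CharZero L := charZero_of_injective_algebraMap (algebraMap M L).injective
  obtain ⟨w0, e, hw0, cw, heH, qe, qew⟩ := quad (h.ext L) hN hy hE
  obtain ⟨e1, e2, a1, a2, a3, a4⟩ := (h.ext L).dual hy
  obtain ⟨L', _, _, _, _, _, t, ht⟩ := gen_ext M L σ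
  have : CharZero L' := charZero_of_injective_algebraMap (algebraMap L L').injective
  obtain ⟨τ, hτ⟩ : ∃ τ, τ = parw_P Q C (up L' y) (up L' e1) (up L' e2) t := ⟨_, rfl⟩
  have hH : τ ∈ Hs Q C (up L' y) := hτ ▸ (mem_Hs Q C).2 ⟨by
      rw [parw_P, Q.sub2, Q.sub2, Q.smul2, Q.smul2, Q.T_up, Q.T_up, a1, a3]; simp, by
      rw [parw_P, C.sub3, C.sub3, C.smul3, C.smul3, C.T_up, C.T_up, a2, a4]; simp⟩
  obtain ⟨g1, g2, -⟩ := parw_gen (e := e) ht hw0.h hτ
  have ha := g1 qew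
  have hE' : up L' e ∈ Hs Q C (up L' y) := (mem_Hs Q C).2
    ⟨by rw [Q.T_up, ((mem_Hs Q C).1 heH).1, map_zero],
      by rw [C.T_up, ((mem_Hs Q C).1 heH).2, map_zero]⟩
  have qE : Q.T (up L' e) (up L' e) = 0 := by rw [Q.T_up, qe, map_zero]
  refine ⟨L', inferInstance, inferInstance, inferInstance, inferInstance, inferInstance,
    zt Q (up L' e) τ, ⟨sub_mem (Submodule.smul_mem _ _ hH) (Submodule.smul_mem _ _ hE'),
      zt_iso Q qE τ, _, hE', ?_⟩, g2 ?_, fun u hu h0 => parw_move ht hτ hH ha hu h0,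
    fun η hη => ?_⟩
  · rw [zt, Q.sub1, Q.smul1, Q.smul1, qE, mul_zero, sub_zero, Q.T12 τ]
    exact mul_ne_zero (mul_ne_zero two_ne_zero ha) ha
  · rw [zt, hw0.q, zero_smul, sub_zero, C.smul2, C.smul3]
    exact mul_ne_zero (mul_ne_zero two_ne_zero qew) (mul_ne_zero (mul_ne_zero two_ne_zero qew) cw)
  · obtain ⟨τ0, h5, h6⟩ := r1_alg (h.ext L) hN hy heH ⟨w0, hw0.h, qew⟩ hη
    exact (parw_gen ht h5 hτ).2.2 η h6

end

section
variable {σ M L : Type} [Fintype σ] [DecidableEq σ] [Field M] [Field L] [Algebra M L]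
  {Q : S2 σ M} {C : S3 σ M}

/-- Evaluation of a derivation at a point. -/
def r2_ev (M : Type) {σ L : Type} [Field M] [Field L] [Algebra M L] (y : σ → L) :
    Derivation M L L →ₗ[L] (σ → L) where
  toFun D := D ∘ y
  map_add' _ _ := rfl
  map_smul' _ _ := rfl

omit [DecidableEq σ] in
theorem r2_dim {y : σ → L} {E : Submodule L (σ → L)} (hE : E ≤ Tan M y) (h4 : 4 ≤ finrank L E)
    (t1 t2 : Derivation M L L →ₗ[L] L)
    (H : ∀ D : Derivation M L L, D ∘ y ∈ E → t1 D = 0 → t2 D = 0 → ∃ c : L, D ∘ y = c • y) :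
    False := by
  have h := cut (r2_ev M y ∘ₗ (E.comap (r2_ev M y)).subtype)
    (t1.prod t2 ∘ₗ (E.comap (r2_ev M y)).subtype)
  have e : LinearMap.range (r2_ev M y ∘ₗ (E.comap (r2_ev M y)).subtype) = E := by
    rw [LinearMap.range_comp, Submodule.range_subtype, Submodule.map_comap_eq, inf_eq_right]
    exact fun u hu => hE hu
  have h1 : finrank L ((LinearMap.ker (t1.prod t2 ∘ₗ (E.comap (r2_ev M y)).subtype)).map
      (r2_ev M y ∘ₗ (E.comap (r2_ev M y)).subtype)) ≤ 1 := by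
    refine (Submodule.finrank_mono (t := Submodule.span L {y}) ?_).trans
      ((finrank_span_le_card _).trans (by simp))
    rintro _ ⟨D, hD, rfl⟩
    have hD' : (t1 D.1, t2 D.1) = 0 := hD
    obtain ⟨c, hc⟩ := H D.1 D.2 (congrArg Prod.fst hD') (congrArg Prod.snd hD')
    exact Submodule.mem_span_singleton.2 ⟨c, hc.symm⟩
  have h2 := Submodule.finrank_le (LinearMap.range (t1.prod t2 ∘ₗ (E.comap (r2_ev M y)).subtype))
  rw [finrank_prod, finrank_self] at h2
  rw [e] at h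
  omega

theorem r2 [IsAlgClosed M] [CharZero M] (h : Sm Q C M) (hN : 7 ≤ Fintype.card σ) {L' : Type}
    [Field L'] [IsAlgClosed L'] [Algebra M L'] [Algebra L L'] [IsScalarTower M L L'] {y : σ → L}
    (hy : InV Q C y) (ht : Fintype.card σ ≤ finrank L (Tan M y) + 3) {w : σ → L'}
    (hw : Iso Q C (up L' y) w) (hr : ∀ u ∈ Hs Q C (up L' y), Q.T w u = 0 → u ∈ Tan L w)
    {η1 : σ → L} (h1 : η1 ∈ Tan M y) (h2 : Q.T (up L' η1) w ≠ 0) (μ : L') :
    ¬ ∀ η ∈ Tan M y, C.T (up L' y) (up L' η) w = μ * Q.T (up L' η) w := by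
  intro H
  have : CharZero L' := charZero_of_injective_algebraMap (algebraMap M L').injective
  have hy' : InV Q C (up L' y) :=
    ⟨up_ne_zero hy.ne, by rw [Q.T_up, hy.q, map_zero], by rw [C.T_up, hy.c, map_zero]⟩
  have hy0 : ∀ D : Derivation L L' L', D ∘ up L' y = 0 := fun D => der_up D D.map_algebraMap y
  obtain ⟨E, hE⟩ : ∃ E, E = Submodule.span L' (up L' '' (Tan M y : Set (σ → L))) := ⟨_, rfl⟩
  have hET : E ≤ Tan M (up L' y) := by
    rw [hE, Submodule.span_le]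
    rintro _ ⟨u, hu, rfl⟩
    exact tan_up y u hu
  have h4 : 4 ≤ finrank L' E := by rw [hE, finrank_span_up]; omega
  have hE1 : up L' η1 ∈ E := hE ▸ Submodule.subset_span ⟨η1, h1, rfl⟩
  have key : ∀ D : Derivation L L' L', ∀ η ∈ E,
      C.T (up L' y) (D ∘ w) η - μ * Q.T (D ∘ w) η = D μ * Q.T w η := by
    intro D η hη
    have hD : ∀ c : M, D (algebraMap M L' c) = 0 := fun c => by
      rw [IsScalarTower.algebraMap_apply M L L', D.map_algebraMap]
    have : E ≤ LinearMap.ker (C.L (up L' y) (D ∘ w) - μ • Q.L (D ∘ w) - D μ • Q.L w) := by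
      rw [hE, Submodule.span_le]
      rintro _ ⟨u, hu, rfl⟩
      have e := congrArg D (H u hu)
      rw [Derivation.leibniz, C.der' D hD, Q.der' D hD, hy0, der_up D D.map_algebraMap u, C.zero1,
        C.zero2, Q.zero1, smul_eq_mul, smul_eq_mul, C.T23, Q.T12, Q.T12 (up L' u)] at e
      change C.T _ _ _ - μ * Q.T _ _ - D μ * Q.T _ _ = 0
      linear_combination e
    have e : C.T _ _ _ - μ * Q.T _ _ - D μ * Q.T _ _ = 0 := this hη
    exact sub_eq_zero.1 e
  generalize up L' y = z at *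
  generalize up L' η1 = ζ at *
  obtain ⟨e1, e2, hd⟩ := (h.ext L').dual hy'
  have hζ : ζ ∈ Hs Q C z := tan_le_Hs hy' (hET hE1)
  have main : ∀ D : Derivation M L' L', D ∘ z ∈ E → Q.T w (D ∘ z) = 0 →
      C.T z ζ (D ∘ z) - μ * Q.T ζ (D ∘ z) = 0 →
      C.T z (D ∘ z) e1 - μ * Q.T (D ∘ z) e1 + 2 * μ * (C.T z (D ∘ z) e2 - μ * Q.T (D ∘ z) e2)
        - D μ = 0 → ∃ c : L', D ∘ z = c • z := by
    intro D hD k1 k2 k3
    have hl : ∀ u ∈ Hs Q C z, (C.L z (D ∘ z) - μ • Q.L (D ∘ z)) u = 0 := by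
      intro u hu
      obtain ⟨D', hD'⟩ := hr (u - (Q.T u w / Q.T ζ w) • ζ) (sub_mem hu (Submodule.smul_mem _ _ hζ))
        (by rw [Q.sub2, Q.smul2, Q.T12 w u, Q.T12 w ζ, div_mul_cancel₀ _ h2, sub_self])
      have e := key D' _ hD
      rw [hD', k1, C.sub2, C.smul2, Q.sub1, Q.smul1, C.T23 z u, Q.T12 u (D ∘ z)] at e
      change C.T _ _ _ - μ * Q.T _ _ = 0
      linear_combination e + Q.T u w / Q.T ζ w * k2
    refine fin h hy' D (a := -2 * μ) (b := 1)
      (k := 2 * (C.T z (D ∘ z) e2 - μ * Q.T (D ∘ z) e2)) (Or.inr one_ne_zero) fun i => ?_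
    have e : C.T _ _ _ - μ * Q.T _ _ = (C.T _ _ _ - μ * Q.T _ _) * _ + (C.T _ _ _ - μ * Q.T _ _) * _ :=
      hd.span _ hl (Pi.single i 1)
    have e0 : D ∘ (Pi.single i 1 : σ → L') = 0 := by
      rw [← up_single (A := M)]; exact der_up D D.map_algebraMap _
    have e2 : D (-2 * μ) = -2 * D μ := by
      rw [show -2 * μ = -(μ + μ) by ring, map_neg, map_add]; ring
    rw [one_mul, map_add, Derivation.leibniz, e2, Q.der, C.der, e0, Q.zero2, C.zero3, smul_eq_mul,
      smul_eq_mul, C.T12 (D ∘ z) z]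
    linear_combination 2 * e + 2 * Q.T z (Pi.single i 1) * k3
  let ev : Derivation M L' L' →ₗ[L'] L' :=
    { toFun := fun D => D μ, map_add' := fun _ _ => rfl, map_smul' := fun _ _ => rfl }
  by_cases hc : ∀ u ∈ Hs Q C z, Q.T w u = 0 → C.T z ζ u - μ * Q.T ζ u = 0
  · refine r2_dim hET h4 (Q.L w ∘ₗ r2_ev M z) (((C.L z e1 - μ • Q.L e1) +
      (2 * μ) • (C.L z e2 - μ • Q.L e2)) ∘ₗ r2_ev M z - ev) fun D hD k1 k3 =>
      main D hD k1 (hc _ (tan_le_Hs hy' (hET hD)) k1) ?_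
    have k : C.T z e1 (D ∘ z) - μ * Q.T e1 (D ∘ z) +
      2 * μ * (C.T z e2 (D ∘ z) - μ * Q.T e2 (D ∘ z)) - D μ = 0 := k3
    rwa [C.T23 z e1, C.T23 z e2, Q.T12 e1, Q.T12 e2] at k
  · push Not at hc
    obtain ⟨u, hu, hu1, hu2⟩ := hc
    obtain ⟨D1, rfl⟩ := hr u hu hu1
    have hμ : D1 μ ≠ 0 := fun h0 => hu2 (by
      have e := key D1 ζ hE1
      rwa [h0, zero_mul, C.T23, Q.T12] at e)
    refine r2_dim hET h4 (Q.L w ∘ₗ r2_ev M z) ((C.L z ζ - μ • Q.L ζ) ∘ₗ r2_ev M z)
      fun D hD k1 k2 => ?_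
    obtain ⟨t, ht⟩ : ∃ t, t = (C.T z (D ∘ z) e1 - μ * Q.T (D ∘ z) e1 +
      2 * μ * (C.T z (D ∘ z) e2 - μ * Q.T (D ∘ z) e2) - D μ) / D1 μ := ⟨_, rfl⟩
    have e : (D + t • D1.restrictScalars M) ∘ z = D ∘ z := funext fun i => by
      have := congrFun (hy0 D1) i
      change D (z i) + t * D1 (z i) = D (z i)
      rw [show D1 (z i) = 0 from this, mul_zero, add_zero]
    have := main (D + t • D1.restrictScalars M)
    rw [e] at this
    refine this hD k1 k2 ?_
    change _ - (D μ + t * D1 μ) = 0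
    rw [ht, div_mul_cancel₀ _ hμ]
    ring

end

section
variable {σ M L : Type} [Fintype σ] [DecidableEq σ] [Field M] [Field L] [Algebra M L]
  {Q : S2 σ M} {C : S3 σ M}

theorem rankv_rank {K U W : Type} [Field K] [AddCommGroup U] [Module K U] [AddCommGroup W]
    [Module K W] [FiniteDimensional K U] (T : Submodule K U) (G : U →ₗ[K] W) :
    finrank K (T.map G) + finrank K ↥(T ⊓ LinearMap.ker G) = finrank K T := by
  have h := (G.domRestrict T).finrank_range_add_finrank_ker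
  rw [LinearMap.range_domRestrict, LinearMap.ker_domRestrict,
    ← Submodule.finrank_map_subtype_eq, Submodule.map_comap_subtype] at h
  exact h

theorem rankv_cut {K U : Type} [Field K] [AddCommGroup U] [Module K U] [FiniteDimensional K U]
    (T : Submodule K U) (f : U →ₗ[K] K) :
    finrank K T ≤ finrank K ↥(T ⊓ LinearMap.ker f) + 1 := by
  have h := rankv_rank T f
  have h2 := (T.map f).finrank_le
  rw [finrank_self] at h2
  omega

theorem rankv_span {K U : Type} [Field K] [AddCommGroup U] [Module K U] (y : U) :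
    finrank K (K ∙ y) ≤ 1 := by
  by_cases h : y = 0
  · rw [h, Submodule.span_zero_singleton, finrank_bot]; omega
  · exact (finrank_span_singleton h).le

theorem rankv_sup {K U : Type} [Field K] [AddCommGroup U] [Module K U] [FiniteDimensional K U]
    {T S : Submodule K U} {y : U} (h : T ≤ S ⊔ K ∙ y) : finrank K T ≤ finrank K S + 1 :=
  (Submodule.finrank_mono h).trans <| (Submodule.finrank_add_le_finrank_add_finrank _ _).trans <|
    Nat.add_le_add_left (rankv_span y) _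

theorem rankv_der {ι R A : Type} [CommRing R] [CommRing A] [Algebra R A] (D : Derivation R A A)
    (w y : ι → A) (s : A) : D ∘ (w - s • y) = D ∘ w - D s • y - s • (D ∘ y) := by
  funext i; simp [Derivation.leibniz]; ring

theorem rankV [IsAlgClosed M] [CharZero M] [IsAlgClosed L] (h : Sm Q C M)
    (hN : 7 ≤ Fintype.card σ) {y : σ → L} (hy : InV Q C y) (hE : ¬ Eck Q C y) (r : ℕ)
    (hr : r = 0 ∨ (r = 1 ∧ 3 ≤ finrank L (Tan M y)) ∨
      (r = 2 ∧ Fintype.card σ ≤ finrank L (Tan M y) + 3)) :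
    ∃ (L' : Type) (_ : Field L') (_ : IsAlgClosed L') (_ : Algebra M L') (_ : Algebra L L')
      (_ : IsScalarTower M L L') (y' : σ → L'), Step Q C (up L' y) y' ∧
        Fintype.card σ + r ≤ finrank L' (Tan M y') + 4 := by
  obtain ⟨L', _, _, _, _, _, w, hw, hc, hT, hη⟩ := par_w h hN hy hE
  have : CharZero L' := charZero_of_injective_algebraMap (algebraMap M L').injective
  have hY : InV Q C (up L' y) :=
    ⟨up_ne_zero hy.ne, by rw [Q.T_up, hy.q, map_zero], by rw [C.T_up, hy.c, map_zero]⟩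
  have g4 : 3 ≤ finrank L (Tan M y) → ∃ η ∈ Tan M y, Q.T (up L' η) w ≠ 0 := fun h3 => by
    obtain ⟨η, h1, h2⟩ := (h.ext L).rad hy _ h3
    exact ⟨η, h1, hη η h2⟩
  have hD : ∀ v ∈ Hs Q C (up L' y), Q.T w v = 0 → ∃ D : Derivation M L' L',
      D ∘ up L' y = 0 ∧ D ∘ w = v := fun v hv h0 => by
    obtain ⟨D, hD⟩ := mem_Tan.1 (hT v hv h0)
    exact ⟨D.restrictScalars M, funext fun i => D.map_algebraMap (y i), hD⟩
  have g2 := fun hd η1 h1 h2 μ => r2 h hN hy hd hw hT (η1 := η1) h1 h2 μ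
  have hup : ∀ η ∈ Tan M y, up L' η ∈ Tan M (up L' y) := fun η => tan_up y η
  refine ⟨L', inferInstance, inferInstance, inferInstance, inferInstance, inferInstance,
    res3 C (up L' y) w, res3_step hY hw hc, ?_⟩
  rw [res3]
  generalize C.T w w w / (3 * C.T (up L' y) w w) = s
  clear hT hη
  generalize up L' y = Y at hw hc hY hD g2 hup ⊢
  have hYH : Y ∈ Hs Q C Y := (mem_Hs Q C).2 ⟨hY.q, hY.c⟩
  have hy'H : w - s • Y ∈ Hs Q C Y := sub_mem hw.h (Submodule.smul_mem _ _ hYH)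
  have q1 : ∀ η ∈ Hs Q C Y, Q.T η (w - s • Y) = Q.T η w := fun η hη => by
    rw [Q.sub2, Q.smul2, Q.T12 η Y, ((mem_Hs Q C).1 hη).1, mul_zero, sub_zero]
  have q2 : ∀ η ∈ Hs Q C Y, C.T Y η (w - s • Y) = C.T Y η w := fun η hη => by
    rw [C.sub3, C.smul3, C.T23 Y η Y, ((mem_Hs Q C).1 hη).2, mul_zero, sub_zero]
  let G : (σ → L') →ₗ[L'] L' × L' := (Q.L Y).prod (C.L Y Y)
  have hG : LinearMap.ker G = Hs Q C Y := LinearMap.ker_prod _ _
  have r1 := rankv_rank (Tan M (w - s • Y)) G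
  rw [hG] at r1
  have r0 : finrank L' ↥(Hs Q C Y ⊓ LinearMap.ker (Q.L w)) ≤
      finrank L' ↥(Tan M (w - s • Y) ⊓ Hs Q C Y) + 1 := rankv_sup (y := Y) fun v hv => by
    obtain ⟨D, d1, d3⟩ := hD v hv.1 hv.2
    have h1 : v - D s • Y ∈ Tan M (w - s • Y) :=
      mem_Tan.2 ⟨D, by rw [rankv_der, d1, d3, smul_zero, sub_zero]⟩
    have h2 := add_mem (Submodule.mem_sup_left (S := Tan M (w - s • Y) ⊓ Hs Q C Y) (T := L' ∙ Y)
      ⟨h1, sub_mem hv.1 (Submodule.smul_mem _ _ hYH)⟩) (Submodule.mem_sup_right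
        (Submodule.smul_mem _ (D s) (Submodule.mem_span_singleton_self Y)))
    rwa [sub_add_cancel] at h2
  have r3 := rankv_cut (Hs Q C Y) (Q.L w)
  have r4 := (h.ext L').finrank_Hs hY
  have hm : ∀ η ∈ Tan M y, (-Q.T (up L' η) w, -(2 * C.T Y (up L' η) w)) ∈
      (Tan M (w - s • Y)).map G := fun η hη => by
    have h1 := hup η hη
    have h2 := tan_le_Hs hY h1
    obtain ⟨D, hD⟩ := mem_Tan.1 h1
    rw [← hD] at h2 ⊢
    refine ⟨D ∘ (w - s • Y), mem_Tan.2 ⟨D, rfl⟩, Prod.ext ?_ ?_⟩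
    · have h3 := Q.der D Y (w - s • Y)
      rw [((mem_Hs Q C).1 hy'H).1, map_zero, q1 _ h2] at h3
      change Q.T Y _ = -Q.T _ w
      linear_combination -h3
    · have h3 := C.der D Y Y (w - s • Y)
      rw [((mem_Hs Q C).1 hy'H).2, map_zero, C.T12 (D ∘ Y), q2 _ h2] at h3
      change C.T Y Y _ = -(2 * C.T Y _ w)
      linear_combination -h3
  rcases hr with rfl | ⟨rfl, h3⟩ | ⟨rfl, h3⟩
  · omega
  · obtain ⟨η, hη, h4⟩ := g4 h3
    have h5 : finrank L' ((Tan M (w - s • Y)).map G) ≠ 0 := fun h0 => by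
      have h6 := hm η hη
      rw [Submodule.finrank_eq_zero.1 h0, Submodule.mem_bot] at h6
      exact h4 (neg_eq_zero.1 (congrArg Prod.fst h6))
    omega
  · obtain ⟨η1, hη1, h4⟩ := g4 (by omega)
    have hμ := g2 h3 η1 hη1 h4 (C.T Y (up L' η1) w / Q.T (up L' η1) w)
    push Not at hμ
    obtain ⟨η, hη, h5⟩ := hμ
    have m1 := hm η1 hη1
    have m2 := hm η hη
    generalize up L' η1 = a at h4 h5 m1
    generalize up L' η = b at h5 m2
    have h6 : C.T Y b w * Q.T a w - C.T Y a w * Q.T b w ≠ 0 := fun h0 => h5 (by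
      field_simp
      linear_combination h0)
    have h7 : (Tan M (w - s • Y)).map G = ⊤ := eq_top_iff.2 fun z _ => by
      obtain ⟨d, hd⟩ : ∃ d, d * (C.T Y b w * Q.T a w - C.T Y a w * Q.T b w) = 1 :=
        ⟨_, inv_mul_cancel₀ h6⟩
      have h8 := add_mem
        (Submodule.smul_mem _ ((z.2 * Q.T b w / 2 - z.1 * C.T Y b w) * d) m1)
        (Submodule.smul_mem _ ((z.1 * C.T Y a w - z.2 * Q.T a w / 2) * d) m2)
      convert h8 using 1
      refine Prod.ext ?_ ?_
      · simp only [Prod.fst_add, Prod.smul_fst, smul_eq_mul]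
        linear_combination (-z.1) * hd
      · simp only [Prod.snd_add, Prod.smul_snd, smul_eq_mul]
        linear_combination (-z.2) * hd
    rw [h7, finrank_top, finrank_prod, finrank_self] at r1
    omega

end

section
variable {σ M L : Type} [Fintype σ] [DecidableEq σ] [Field M] [Field L] [Algebra M L]
  {Q : S2 σ M} {C : S3 σ M}

theorem chainv_ne [IsAlgClosed M] [CharZero M] (h : Sm Q C M) (hN : 5 ≤ Fintype.card σ)
    {y : σ → L} (hy : InV Q C y) (hT : 2 ≤ finrank L (Tan M y)) : ¬ Eck Q C y := fun he => by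
  have h1 : Tan M y ≤ L ∙ y := by
    rintro _ ⟨D, rfl⟩
    obtain ⟨t, ht⟩ := eck h hN hy he D
    exact Submodule.mem_span_singleton.2 ⟨t, ht.symm⟩
  have h2 := Submodule.finrank_mono h1
  rw [finrank_span_singleton hy.ne] at h2
  omega

theorem chainV [IsAlgClosed M] [CharZero M] (h : Sm Q C M) (hN : 7 ≤ Fintype.card σ) {y0 : σ → M}
    (hy : InV Q C y0) (hE : ¬ Eck Q C y0) :
    ∃ (L : Type) (_ : Field L) (_ : IsAlgClosed L) (_ : Algebra M L) (y1 y2 y3 : σ → L),
      Step Q C (up L y0) y1 ∧ Step Q C y1 y2 ∧ Step Q C y2 y3 ∧ Hs Q C y3 ≤ Tan M y3 := by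
  obtain ⟨K1, _, _, A1, A1', T1, y1, s1, d1⟩ := rankV h hN hy hE 0 (Or.inl rfl)
  obtain rfl : A1' = A1 := Algebra.algebra_ext _ _ fun r =>
    (@IsScalarTower.algebraMap_apply M M K1 _ _ _ _ A1' A1 T1 r).symm
  obtain ⟨K2, _, _, _, _, _, y2, s2, d2⟩ := rankV h hN s1.inV
    (chainv_ne h (by omega) s1.inV (by omega)) 1 (Or.inr (Or.inl ⟨rfl, by omega⟩))
  obtain ⟨K3, _, _, _, _, _, y3, s3, d3⟩ := rankV h hN s2.inV
    (chainv_ne h (by omega) s2.inV (by omega)) 2 (Or.inr (Or.inr ⟨rfl, by omega⟩))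
  have : CharZero K3 := charZero_of_injective_algebraMap (algebraMap M K3).injective
  have d4 := (h.ext K3).finrank_Hs s3.inV
  have s1' := (s1.up (L' := K2)).up (L' := K3)
  rw [up_up y0, up_up y0] at s1'
  exact ⟨K3, inferInstance, inferInstance, inferInstance, _, _, y3, s1', s2.up, s3,
    (Submodule.eq_of_le_of_finrank_le (tan_le_Hs s3.inV) (by omega)).ge⟩

theorem genz [IsAlgClosed M] [CharZero M] (h : Sm Q C M) (hN : 7 ≤ Fintype.card σ) :
    ∃ (L : Type) (_ : Field L) (_ : IsAlgClosed L) (_ : Algebra M L) (z : σ → L),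
      InV Q C z ∧ Hs Q C z ≤ Tan M z := by
  obtain ⟨P, hP, hP'⟩ := ne_poly h (by omega)
  obtain ⟨l, hl⟩ : ∃ l : σ → M, eval l P ≠ 0 := by
    by_contra h0
    push Not at h0
    exact hP (MvPolynomial.funext fun x => by rw [h0, map_zero])
  obtain ⟨y0, hy, h0⟩ := zero_qc (L := M) Q C (κ := Unit)
    (fun _ => ∑ i, l i • LinearMap.proj i) (by rw [Fintype.card_unit]; omega)
  have h1 : l ⬝ᵥ y0 = 0 := by simpa [dotProduct] using h0 ()
  obtain ⟨L, _, _, _, y1, y2, y3, -, -, s3, h3⟩ :=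
    chainV h hN hy fun he => hl (hP' l y0 hy h1 he)
  exact ⟨L, inferInstance, inferInstance, inferInstance, y3, s3.inV, h3⟩

end

section
variable {σ M L : Type} [Fintype σ] [DecidableEq σ] [Field M] [Field L] [Algebra M L]
  {Q : S2 σ M} {C : S3 σ M}

theorem exe_q {A : Type} [CommRing A] [Algebra M A] {y : σ → A}
    (h : ∀ i, Q.T y (Pi.single i 1) = 0) (u : σ → A) : Q.T y u = 0 := by
  rw [Q.T_eq_sum]
  simp [h]

theorem exe_qc {A : Type} [CommRing A] [Algebra M A] {y : σ → A} {a b : A}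
    (h : ∀ i, a * Q.T y (Pi.single i 1) + b * C.T y y (Pi.single i 1) = 0) (u : σ → A) :
    a * Q.T y u + b * C.T y y u = 0 := by
  rw [Q.T_eq_sum, C.T_eq_sum, Finset.mul_sum, Finset.mul_sum, ← Finset.sum_add_distrib]
  exact Finset.sum_eq_zero fun i _ => by linear_combination u i * h i

omit [Fintype σ] in
theorem exe_pd (i : σ) : (pderiv i : Derivation M (MvPolynomial σ M) _) ∘ X = Pi.single i 1 :=
  funext fun j => pderiv_X i j

omit [Fintype σ] [DecidableEq σ] in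
theorem exe_pu (i : σ) (e : σ → M) :
    (pderiv i : Derivation M (MvPolynomial σ M) _) ∘ up (MvPolynomial σ M) e = 0 :=
  der_up _ (fun c => Derivation.map_algebraMap _ c) e

omit [Fintype σ] [DecidableEq σ] in
theorem exe_ev (y : σ → M) (p : MvPolynomial σ M) : eval y p = aeval y p := rfl

theorem exe_prime [IsAlgClosed M] [CharZero M] (h : Sm Q C M) (hN : 7 ≤ Fintype.card σ) :
    Prime (Q.T X X : MvPolynomial σ M) := by
  have k : ∀ y : σ → M, (∀ i, eval y (pderiv i (Q.T X X : MvPolynomial σ M)) = 0) → y = 0 :=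
    fun y hy => h.nd y (exe_q fun i => by
      have := hy i
      rw [exe_ev, S2.aeval_pderiv] at this
      exact (mul_eq_zero.1 this).resolve_left two_ne_zero)
  refine prime0 (κ := Empty) Q.hom two_pos (fun h0 => ?_) (fun j => j.elim) (by simp; omega)
    fun y _ _ hy => k y hy
  obtain ⟨i⟩ : Nonempty σ := Fintype.card_pos_iff.1 (by omega)
  exact one_ne_zero (congrFun (k 1 fun j => by simp [h0]) i)

theorem exe [IsAlgClosed M] [CharZero M] (h : Sm Q C M) (hN : 7 ≤ Fintype.card σ) {z0 : σ → M}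
    (hz : z0 ≠ 0) : ∃ e : σ → M, Q.T e e = 0 ∧ Q.T e z0 ≠ 0 ∧ C.T e e e ≠ 0 := by
  by_contra! H
  have hq := exe_prime h hN
  have h1 : (Q.T X (up _ z0) * C.T X X X : MvPolynomial σ M) ∈
      (Ideal.span {(Q.T X X : MvPolynomial σ M)}).radical := by
    rw [← vanishingIdeal_zeroLocus_eq_radical (K := M), mem_vanishingIdeal_iff]
    intro y hy
    have h2 := hy _ (Ideal.mem_span_singleton_self _)
    rw [Q.map, aeval_comp_X] at h2
    rw [map_mul, Q.map, C.map, aeval_comp_X, map_up, up_self, mul_eq_zero, or_iff_not_imp_left]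
    exact H y h2
  obtain ⟨k, hk⟩ := h1
  rcases hq.dvd_or_dvd (hq.dvd_of_dvd_pow (Ideal.mem_span_singleton.1 hk)) with ⟨m, hm⟩ | ⟨m, hm⟩
  · refine hz (h.nd _ (exe_q fun i => ?_))
    have h2 := congrArg (fun p => aeval (0 : σ → M) (pderiv i p)) hm
    simp only [Derivation.leibniz, smul_eq_mul, map_add, map_mul, S2.aeval_pderiv] at h2
    rw [Q.der, exe_pd, exe_pu, Q.zero2, add_zero, Q.map, Q.map, aeval_comp_X, map_up, up_self,
      H61.comp_single, Q.zero1, Q.zero1, Q.T12] at h2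
    rw [h2]
    ring
  · obtain ⟨y, hy, -⟩ := zero_qc (L := M) (κ := Empty) Q C (fun j => j.elim) (by simp; omega)
    refine three_ne_zero (h.sm y hy (-2 * aeval y m) 3 (exe_qc fun i => ?_)).2
    have h2 := congrArg (fun p => aeval y (pderiv i p)) hm
    simp only [Derivation.leibniz, smul_eq_mul, map_add, map_mul, S2.aeval_pderiv,
      S3.aeval_pderiv] at h2
    rw [Q.map, aeval_comp_X, hy.q] at h2
    linear_combination h2

end

section
variable {σ M L : Type} [Fintype σ] [DecidableEq σ] [Field M] [Field L] [Algebra M L]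
  {Q : S2 σ M} {C : S3 σ M}

theorem model_q {A : Type} [CommRing A] [Algebra M A] {y : σ → A}
    (h : ∀ i, Q.T y (Pi.single i 1) = 0) (u : σ → A) : Q.T y u = 0 := by
  rw [Q.T_eq_sum]
  simp [h]

theorem model_qc {A : Type} [CommRing A] [Algebra M A] {y : σ → A} {a b : A}
    (h : ∀ i, a * Q.T y (Pi.single i 1) + b * C.T y y (Pi.single i 1) = 0) (u : σ → A) :
    a * Q.T y u + b * C.T y y u = 0 := by
  rw [Q.T_eq_sum, C.T_eq_sum, Finset.mul_sum, Finset.mul_sum, ← Finset.sum_add_distrib]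
  exact Finset.sum_eq_zero fun i _ => by linear_combination u i * h i

omit [DecidableEq σ] in
theorem model_hq {a b : σ → MvPolynomial σ M} {m n : ℕ} (ha : ∀ i, (a i).IsHomogeneous m)
    (hb : ∀ i, (b i).IsHomogeneous n) : (Q.T a b).IsHomogeneous (m + n) :=
  IsHomogeneous.sum _ _ _ fun i _ => IsHomogeneous.sum _ _ _ fun j _ =>
    ((ha i).mul (hb j)).C_mul _

omit [DecidableEq σ] in
theorem model_hc {a : σ → MvPolynomial σ M} {m : ℕ} (ha : ∀ i, (a i).IsHomogeneous m) :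
    (C.T a a a).IsHomogeneous (m + m + m) :=
  IsHomogeneous.sum _ _ _ fun i _ => IsHomogeneous.sum _ _ _ fun j _ =>
    IsHomogeneous.sum _ _ _ fun k _ => (((ha i).mul (ha j)).mul (ha k)).C_mul _

omit [Fintype σ] [DecidableEq σ] in
theorem model_hu (e : σ → M) (i : σ) : (up (MvPolynomial σ M) e i).IsHomogeneous 0 :=
  isHomogeneous_C _ _

omit [Fintype σ] in
theorem model_d (i : σ) (l : MvPolynomial σ M) (e : σ → M) :
    (pderiv i : Derivation M (MvPolynomial σ M) _) ∘ (X - l • up _ e) =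
      Pi.single i 1 - pderiv i l • up _ e := funext fun j => by
  simp only [Function.comp, Pi.sub_apply, Pi.smul_apply, smul_eq_mul, map_sub, Derivation.leibniz,
    up_apply, Derivation.map_algebraMap, pderiv_X]
  ring

omit [Fintype σ] [DecidableEq σ] in
theorem model_m {A : Type} [CommRing A] [Algebra M A] (y : σ → A) (w : σ → MvPolynomial σ M)
    (l : MvPolynomial σ M) (e : σ → M) : (aeval y : MvPolynomial σ M →ₐ[M] A) ∘ (w - l • up _ e) =
      (aeval y : MvPolynomial σ M →ₐ[M] A) ∘ w - aeval y l • up A e := funext fun j => by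
  simp only [Function.comp, Pi.sub_apply, Pi.smul_apply, smul_eq_mul, map_sub, map_mul, up_apply,
    AlgHom.commutes]

omit [Fintype σ] [DecidableEq σ] in
theorem model_sub (a : MvPolynomial σ M) (z : σ → M) (G : MvPolynomial σ M) :
    a ∣ aeval (X - a • up (MvPolynomial σ M) z) G - G := by
  induction G using MvPolynomial.induction_on with
  | C c => simp
  | add p q hp hq => rw [map_add, add_sub_add_comm]; exact dvd_add hp hq
  | mul_X p i hp =>
    obtain ⟨s, hs⟩ := hp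
    refine ⟨s * (X i - a * up _ z i) - p * up _ z i, ?_⟩
    rw [map_mul, aeval_X, sub_eq_iff_eq_add.1 hs, Pi.sub_apply, Pi.smul_apply, smul_eq_mul]
    ring

theorem model_one [IsAlgClosed M] [CharZero M] (h : Sm Q C M) (hN : 7 ≤ Fintype.card σ)
    {e : σ → M} (he : Q.T e e = 0) (hc : C.T e e e ≠ 0) (l m : MvPolynomial σ M)
    (hm : 8 * C.T (X - l • up _ e) (X - l • up _ e) (X - l • up _ e) =
      Q.T (X - l • up _ e) (X - l • up _ e) * m) : False := by
  obtain ⟨k, hk⟩ : ∃ k, e k ≠ 0 := by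
    by_contra! H
    exact hc (by rw [show e = 0 from funext H, C.zero1])
  have ev : ∀ y : σ → M, (aeval y : MvPolynomial σ M →ₐ[M] M) ∘ (X - l • up _ e) =
      y - aeval y l • e := fun y => by rw [model_m, aeval_comp_X, up_self]
  have l0 : aeval (0 : σ → M) l = 0 := by
    have h1 := congrArg (aeval (0 : σ → M)) hm
    rw [map_mul, map_mul, C.map, Q.map, ev, map_ofNat, zero_sub, ← neg_smul, C.smul1, C.smul2,
      C.smul3, Q.smul1, Q.smul2, he] at h1
    have h2 : aeval (0 : σ → M) l ^ 3 * C.T e e e = 0 := by linear_combination -h1 / 8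
    exact pow_eq_zero_iff (by norm_num) |>.1 ((mul_eq_zero.1 h2).resolve_right hc)
  obtain ⟨y, hy0, hy⟩ := H61.exists_zero (F := M) ![Q.T (X - l • up _ e) (X - l • up _ e),
    24 * C.T (X - l • up _ e) (X - l • up _ e) (up _ e) - 2 * m * Q.T (X - l • up _ e) (up _ e),
    X k] (fun j => by
      change aeval (0 : σ → M) _ = 0
      fin_cases j
      · simp only [Fin.zero_eta, Matrix.cons_val_zero]
        rw [Q.map, ev, l0, zero_smul, sub_zero, Q.zero1]
      · simp only [Fin.mk_one, Matrix.cons_val_one, Matrix.cons_val_zero]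
        rw [map_sub, map_mul, map_mul _ (2 * m), Q.map, C.map, ev, l0, zero_smul, sub_zero, Q.zero1,
          C.zero1, mul_zero, mul_zero, sub_zero]
      · simp) (by simp; omega)
  have h0 : aeval y (Q.T (X - l • up _ e) (X - l • up _ e) : MvPolynomial σ M) = 0 := hy 0
  have h1 : aeval y (24 * C.T (X - l • up _ e) (X - l • up _ e) (up _ e) -
      2 * m * Q.T (X - l • up _ e) (up _ e) : MvPolynomial σ M) = 0 := hy 1
  have h2 : y k = 0 := by simpa using hy 2
  have h3 := congrArg (aeval y) hm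
  rw [map_mul, map_mul, h0, zero_mul, C.map, ev, map_ofNat] at h3
  rw [map_sub, map_mul, map_mul, map_mul, Q.map, C.map, ev, map_up, up_self, map_ofNat,
    map_ofNat] at h1
  have h4 := h0
  rw [Q.map, ev] at h4
  have hV : InV Q C (y - aeval y l • e) := ⟨fun h5 => hy0 (by
    have h6 := congrFun h5 k
    rw [Pi.sub_apply, h2, zero_sub, Pi.zero_apply, neg_eq_zero, Pi.smul_apply, smul_eq_mul] at h6
    rwa [(mul_eq_zero.1 h6).resolve_right hk, zero_smul, sub_zero] at h5), h4,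
      (mul_eq_zero.1 h3).resolve_left (by norm_num)⟩
  refine (by norm_num : (24 : M) ≠ 0) (h.sm _ hV (-2 * aeval y m) 24 (model_qc fun i => ?_)).2
  have h5 := congrArg (fun p => aeval y (pderiv i p)) hm
  simp only [Derivation.leibniz, smul_eq_mul, map_add, map_mul, h0] at h5
  rw [C.der, Q.der, model_d, show pderiv i (8 : MvPolynomial σ M) = 0 from
    Derivation.map_natCast _ 8] at h5
  simp only [map_add, Q.map (aeval y), C.map (aeval y), ev, map_ofNat, map_zero] at h5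
  rw [model_m, H61.comp_single, up_self] at h5
  generalize y - aeval y l • e = w at *
  rw [C.T12 _ w, C.T23 w _ w, Q.T12 _ w, C.sub3, Q.sub2, C.smul3, Q.smul2] at h5
  linear_combination h5 + aeval y (pderiv i l) * h1

theorem model [IsAlgClosed M] [CharZero M] (h : Sm Q C M) (hN : 7 ≤ Fintype.card σ)
    {e : σ → M} (he : Q.T e e = 0) (hc : C.T e e e ≠ 0) : Prime (Fm Q C e) := by
  obtain ⟨k, hk⟩ : ∃ k, e k ≠ 0 := by
    by_contra! H
    exact hc (by rw [show e = 0 from funext H, C.zero1])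
  obtain ⟨z, hz⟩ : ∃ z, Q.T e z = 1 := by
    by_contra! H
    refine hk (congrFun (h.nd e fun u => by_contra fun hu => H ((Q.T e u)⁻¹ • u) ?_) k)
    rw [Q.smul2, inv_mul_cancel₀ hu]
  obtain ⟨a, ha⟩ : ∃ a : MvPolynomial σ M, a = Q.T (up _ e) X := ⟨_, rfl⟩
  have ha1 : a.IsHomogeneous 1 := ha ▸ model_hq (model_hu e) (isHomogeneous_X M)
  have hav : ∀ y : σ → M, aeval y a = Q.T e y := fun y => by
    rw [ha, Q.map, map_up, up_self, aeval_comp_X]
  have had : ∀ (y : σ → M) i, aeval y (pderiv i a) = Q.T e (Pi.single i 1) := fun y i => by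
    rw [ha, Q.der, der_up _ (fun c => Derivation.map_algebraMap _ c), Q.zero1, zero_add,
      show (pderiv i : Derivation M (MvPolynomial σ M) _) ∘ X = Pi.single i 1 from
        funext fun j => pderiv_X i j, Q.map, map_up, up_self, H61.comp_single]
  have hap : Prime a := prime0 (κ := Empty) ha1 one_pos
    (fun h0 => one_ne_zero (α := M) (by rw [← hz, ← hav, h0, map_zero])) (fun j => j.elim)
    (by simp; omega) fun y _ _ hy => absurd (congrFun (h.nd e (model_q fun i => by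
      rw [← had y]; exact hy i)) k) hk
  obtain ⟨Y, hY⟩ : ∃ Y : σ → MvPolynomial σ M, Y = X - a • up _ z := ⟨_, rfl⟩
  have hY1 : ∀ i, (Y i).IsHomogeneous 1 := fun i => hY ▸
    (isHomogeneous_X M i).sub (ha1.mul (model_hu z i))
  have key : ∀ y : σ → M, Q.T e y = 0 → y k = 0 →
      (∀ i, aeval y (pderiv i (Q.T Y Y)) = 0) → y = 0 := fun y h1 h2 h3 => by
    have h4 : y - Q.T y z • e = 0 := h.nd _ (model_q fun i => by
      have h5 := h3 i
      rw [Q.der, hY, model_d, map_add, Q.map, Q.map, model_m, model_m, aeval_comp_X, hav, h1,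
        zero_smul, sub_zero, H61.comp_single, had, up_self, Q.T12 _ y, Q.sub2, Q.smul2] at h5
      rw [Q.sub1, Q.smul1]
      linear_combination h5 / 2)
    have h6 := congrFun h4 k
    rw [Pi.sub_apply, h2, zero_sub, Pi.zero_apply, neg_eq_zero, Pi.smul_apply, smul_eq_mul] at h6
    rwa [(mul_eq_zero.1 h6).resolve_right hk, zero_smul, sub_zero] at h4
  have hp : Prime (Q.T Y Y) := by
    refine prime0 (κ := Fin 2) (model_hq hY1 hY1) two_pos (fun h0 => ?_)
      ![Q.L e, LinearMap.proj k] (by simp; omega) fun y h1 _ h3 => key y (h1 0) (h1 1) h3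
    obtain ⟨y, hy, h1⟩ := zero_qc (L := M) Q C ![Q.L e, LinearMap.proj k] (by simp; omega)
    exact hy.ne (key y (h1 0) (h1 1) fun i => by simp [h0])
  have hφa : Q.T (up _ e) Y = 0 := by
    rw [hY, Q.sub2, Q.smul2, Q.T_up, hz, map_one, mul_one, ← ha, sub_self]
  have hφ : aeval Y (Fm Q C e) = algebraMap M _ (-C.T e e e) * Q.T Y Y ^ 3 := by
    rw [aeval_Fm, zt, hφa, mul_zero, zero_smul, zero_sub, ← neg_smul, C.smul1, C.smul2, C.smul3,
      C.T_up, map_neg]
    ring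
  have hu : IsUnit (algebraMap M (MvPolynomial σ M) (-C.T e e e)) :=
    (neg_ne_zero.2 hc).isUnit.map _
  have hF0 : Fm Q C e ≠ 0 := fun h0 => mul_ne_zero hu.ne_zero (pow_ne_zero 3 hp.ne_zero) (by
    rw [← hφ, h0, map_zero])
  have hz2 : ∀ i, (zt Q (up (MvPolynomial σ M) e) X i).IsHomogeneous 2 := fun i =>
    (((isHomogeneous_C σ (2 : M)).mul (ha ▸ ha1)).mul (isHomogeneous_X M i)).sub
      (Q.hom.mul (model_hu e i))
  have c0 : ∀ G G' b, Fm Q C e = G * G' → IsUnit b → aeval Y G = b * Q.T Y Y ^ 0 → IsUnit G := by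
    intro G G' b h1 h2 h3
    obtain ⟨s, hs⟩ := model_sub a z G
    have h4 := congrArg (aeval (0 : σ → M)) hs
    rw [← hY, h3, pow_zero, mul_one, map_mul, hav, Q.zero2, zero_mul, map_sub, sub_eq_zero] at h4
    have h5 : coeff 0 G ≠ 0 := fun h0 => (h2.map (aeval (0 : σ → M))).ne_zero (by
      rw [h4, aeval_zero, constantCoeff_eq, h0, map_zero])
    have h6 := homfac (model_hc hz2) hF0 h1 h5
    rw [map_zero] at h6
    rw [totalDegree_eq_zero_iff_eq_C.1 h6.symm]
    exact h5.isUnit.map _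
  have c1 : ∀ G b, G ∣ Fm Q C e → IsUnit b → aeval Y G = b * Q.T Y Y ^ 1 → False := by
    intro G b h1 hb h3
    obtain ⟨v, hv⟩ := hb.exists_left_inv
    have hv1 := IsUnit.of_mul_eq_one b hv
    obtain ⟨s, hs⟩ := model_sub a z G
    obtain ⟨t, ht⟩ := model_sub a z (Q.T X X)
    rw [← hY, Q.map, aeval_comp_X] at ht
    rw [← hY, h3, pow_one] at hs
    have h2 : (2 : MvPolynomial σ M) * algebraMap M _ 2⁻¹ = 1 := by
      rw [← map_ofNat (algebraMap M (MvPolynomial σ M)) 2, ← map_mul, mul_inv_cancel₀ two_ne_zero,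
        map_one]
    obtain ⟨l, hl⟩ : ∃ l : MvPolynomial σ M, v * G = Q.T X X - 2 * l * a :=
      ⟨algebraMap M _ 2⁻¹ * (v * s - t), by
        linear_combination -v * hs + ht + Q.T Y Y * hv + (v * s - t) * a * h2⟩
    have h4 : Q.T (X - l • up _ e) (X - l • up _ e) = v * G := by
      rw [hl, Q.sub1, Q.sub2, Q.sub2, Q.smul1, Q.smul1, Q.smul2, Q.smul2, Q.T_up, he, map_zero,
        Q.T12 X (up _ e), ← ha]
      ring
    have h5 : zt Q (up (MvPolynomial σ M) e) X = (2 * a) • (X - l • up _ e) - (v * G) • up _ e := by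
      rw [hl, zt, ← ha]
      module
    have h6 : ¬ a ∣ v * G := fun h0 => by
      obtain ⟨r, hr⟩ := hv1.dvd_mul_left.1 h0
      rw [hr, map_mul, ha, Q.map, map_up, aeval_comp_X, hφa, zero_mul, pow_one] at h3
      exact mul_ne_zero hb.ne_zero hp.ne_zero h3.symm
    have h7 : v * G ∣ Fm Q C e := hv1.mul_left_dvd.2 h1
    rw [Fm, h5] at h7
    generalize hw : (X - l • up _ e : σ → MvPolynomial σ M) = w at h4 h7
    generalize v * G = g at h4 h6 h7
    rw [C.sub1, C.smul1 g, dvd_sub_left (dvd_mul_right _ _), C.sub2, C.smul2 g,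
      dvd_sub_left (dvd_mul_right _ _), C.sub3, C.smul3 g, dvd_sub_left (dvd_mul_right _ _),
      C.smul1, C.smul2, C.smul3, show 2 * a * (2 * a * (2 * a * C.T w w w)) =
        a ^ 3 * (8 * C.T w w w) by ring] at h7
    obtain ⟨m, hm⟩ := (hap.irreducible.isRelPrime_iff_not_dvd.2 h6).symm.pow_right.dvd_of_dvd_mul_left
      h7
    subst hw
    exact model_one h hN he hc l m (by rw [hm, h4])
  refine UniqueFactorizationMonoid.irreducible_iff_prime.1 ⟨fun h0 => hp.not_isUnit ?_,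
    fun G G' hG => ?_⟩
  · have h1 := h0.map (aeval Y)
    rw [hφ] at h1
    exact (isUnit_pow_iff three_ne_zero).1 (isUnit_of_mul_isUnit_right h1)
  · obtain ⟨i, j, b, c, hij, hbc, h1, h2⟩ := mul_eq_mul_prime_pow hp
      (show aeval Y G * aeval Y G' = _ by rw [← map_mul, ← hG, hφ])
    rw [hbc] at hu
    have hb := isUnit_of_mul_isUnit_left hu
    have hc' := isUnit_of_mul_isUnit_right hu
    obtain rfl | rfl | rfl | rfl : i = 0 ∨ i = 1 ∨ j = 1 ∨ j = 0 := by omega
    · exact .inl (c0 G G' b hG hb h1)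
    · exact (c1 G b ⟨G', hG⟩ hb h1).elim
    · exact (c1 G' c ⟨G, hG.trans (mul_comm _ _)⟩ hc' h2).elim
    · exact .inr (c0 G' G c (hG.trans (mul_comm _ _)) hc' h2)

end

section
variable {σ M L : Type} [Fintype σ] [DecidableEq σ] [Field M] [Field L] [Algebra M L]
  {Q : S2 σ M} {C : S3 σ M}

omit [DecidableEq σ] in
theorem taug_zt {A : Type} [CommRing A] [Algebra M A] {y e : σ → A} (hy : Q.T y y = 0)
    (he : Q.T e e = 0) (s : A) :
    Q.T e (y + s • e) = Q.T e y ∧ zt Q e (y + s • e) = (2 * Q.T e y) • y := by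
  have h1 : Q.T e (y + s • e) = Q.T e y := by rw [Q.add2, Q.smul2, he, mul_zero, add_zero]
  have h2 : Q.T (y + s • e) (y + s • e) = s * (2 * Q.T e y) := by
    rw [Q.add1, Q.smul1, h1, Q.add2, Q.smul2, hy, Q.T12 y e]; ring
  refine ⟨h1, funext fun i => ?_⟩
  simp only [zt, h1, h2, Pi.sub_apply, Pi.smul_apply, Pi.add_apply, smul_eq_mul]
  ring

omit [DecidableEq σ] in
theorem taug_Fm {A : Type} [CommRing A] [Algebra M A] {y : σ → A} {e : σ → M} (hy : Q.T y y = 0)
    (hc : C.T y y y = 0) (he : Q.T e e = 0) (s : A) :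
    aeval (y + s • up A e) (Fm Q C e) = 0 := by
  have he' : Q.T (up A e) (up A e) = 0 := by rw [Q.T_up, he, map_zero]
  rw [aeval_Fm, (taug_zt hy he' s).2, C.smul1, C.smul2, C.smul3, hc]
  ring

theorem taug [IsAlgClosed M] [CharZero M] [IsAlgClosed L] (h : Sm Q C M)
    (hN : 7 ≤ Fintype.card σ) {e : σ → M} (he : Q.T e e = 0) (hc : C.T e e e ≠ 0) {y : σ → L}
    (hy : InV Q C y) (ht : Hs Q C y ≤ Tan M y) :
    ∃ (L' : Type) (_ : Field L') (_ : IsAlgClosed L') (_ : Algebra M L') (_ : Algebra L L')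
      (_ : IsScalarTower M L L') (s : L'), ∀ G : MvPolynomial σ M,
        aeval (up L' y + s • up L' e) G = 0 ↔ Fm Q C e ∣ G := by
  obtain ⟨L', _, _, _, _, _, x, hx⟩ := gen_ext M L Unit
  have hY : InV Q C (up L' y) :=
    ⟨up_ne_zero hy.ne, by rw [Q.T_up, hy.q, map_zero], by rw [C.T_up, hy.c, map_zero]⟩
  have hF := taug_Fm (C := C) hY.q hY.c he (x ())
  refine ⟨L', inferInstance, inferInstance, inferInstance, inferInstance, inferInstance, x (),
    fun G => ⟨fun hG => ?_, ?_⟩⟩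
  swap
  · rintro ⟨m, rfl⟩
    rw [map_mul, hF, zero_mul]
  have ha : Q.T (up L' y) (up L' e) ≠ 0 := by
    have hl : (fun i => Q.T e (Pi.single i 1) : σ → M) ≠ 0 := fun h0 => hc (by
      rw [h.nd e fun u => by
        rw [Q.T_eq_sum]
        exact Finset.sum_eq_zero fun i _ => by rw [show Q.T e (Pi.single i 1) = 0 from congrFun h0 i, mul_zero],
        C.zero1])
    have h1 := off_hyp h (by omega) hy ht hl
    rw [← up_up (B := L) e, Q.T_up, map_ne_zero, Q.T12, Q.T_eq_sum]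
    refine fun h0 => h1 (Eq.trans (Finset.sum_congr rfl fun i _ => ?_) h0)
    rw [up_apply, ← Q.T_up, up_single, mul_comm]
  have hD : ∀ (D0 : Derivation M L L) (c : L'),
      up L' (D0 ∘ y) + c • up L' e ∈ Tan M (up L' y + x () • up L' e) := fun D0 c => by
    obtain ⟨D, h1, h2⟩ := der_ext D0 x hx fun _ => c
    refine ⟨D, funext fun i => ?_⟩
    have h3 : D (x ()) = c := congrFun h2 ()
    simp only [Function.comp, Pi.add_apply, Pi.smul_apply, up_apply, map_add, h1, smul_eq_mul,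
      Derivation.leibniz, h3, Derivation.map_algebraMap]
    ring
  have hH : Hs Q C (up L' y) ≤ Tan M (up L' y + x () • up L' e) := by
    rw [← Submodule.eq_of_le_of_finrank_eq (S₁ := Submodule.span L' (up L' '' (Hs Q C y : Set (σ → L))))
      (S₂ := Hs Q C (up L' y)) ?_ ?_]
    · refine Submodule.span_le.2 ?_
      rintro _ ⟨u, hu, rfl⟩
      obtain ⟨D0, rfl⟩ := ht hu
      simpa only [zero_smul, add_zero, SetLike.mem_coe] using hD D0 0
    · refine Submodule.span_le.2 ?_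
      rintro _ ⟨u, hu, rfl⟩
      exact (mem_Hs Q C).2 ⟨by rw [Q.T_up, ((mem_Hs Q C).1 hu).1, map_zero],
        by rw [C.T_up, ((mem_Hs Q C).1 hu).2, map_zero]⟩
    · have h1 := (h.ext L).finrank_Hs hy
      have h2 := (h.ext L').finrank_Hs hY
      rw [finrank_span_up]; omega
  refine generic (model h hN he hc) _ hF ((-C.T (up L' y) (up L' y) (up L' e)) • Q.L (up L' y) +
    Q.T (up L' y) (up L' e) • C.L (up L' y) (up L' y)) (fun h0 => ha ((h.ext L').sm _ hY _ _
      fun u => LinearMap.congr_fun h0 u).2) (fun u hu => ?_) G hG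
  have hu' : -C.T (up L' y) (up L' y) (up L' e) * Q.T (up L' y) u +
      Q.T (up L' y) (up L' e) * C.T (up L' y) (up L' y) u = 0 := hu
  have h1 : u - (Q.T (up L' y) u / Q.T (up L' y) (up L' e)) • up L' e ∈ Hs Q C (up L' y) :=
    (mem_Hs Q C).2 ⟨by rw [Q.sub2, Q.smul2]; field_simp; ring,
      by rw [C.sub3, C.smul3]; field_simp; linear_combination hu'⟩
  have h2 := hD 0 (Q.T (up L' y) u / Q.T (up L' y) (up L' e))
  rw [show ((0 : Derivation M L L) ∘ y : σ → L) = 0 from rfl, up_zero, zero_add] at h2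
  simpa only [sub_add_cancel] using add_mem (hH h1) h2

omit [DecidableEq σ] in
theorem taug_clear (Q : S2 σ M) (e : σ → M) (Γ : MvPolynomial σ M) :
    ∃ (k : ℕ) (G : MvPolynomial σ M), ∀ (A : Type) [CommRing A] [Algebra M A] (τ z : σ → A),
      zt Q (up A e) τ = (2 * Q.T (up A e) τ) • z →
        aeval τ G = (2 * Q.T (up A e) τ) ^ k * aeval z Γ := by
  have ha : ∀ (A : Type) [CommRing A] [Algebra M A] (τ : σ → A),
      aeval τ (2 * Q.T (up _ e) X : MvPolynomial σ M) = 2 * Q.T (up A e) τ := fun A _ _ τ => by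
    rw [map_mul, map_ofNat, Q.map, map_up, aeval_comp_X]
  induction Γ using MvPolynomial.induction_on with
  | C c => exact ⟨0, MvPolynomial.C c, fun A _ _ τ z _ => by simp⟩
  | add p q hp hq =>
    obtain ⟨k, G, h1⟩ := hp
    obtain ⟨l, H, h2⟩ := hq
    refine ⟨k + l, (2 * Q.T (up _ e) X) ^ l * G + (2 * Q.T (up _ e) X) ^ k * H,
      fun A _ _ τ z hz => ?_⟩
    rw [map_add, map_mul _ _ G, map_mul _ _ H, map_pow, map_pow, ha, h1 A τ z hz, h2 A τ z hz,
      map_add]
    ring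
  | mul_X p i hp =>
    obtain ⟨k, G, h1⟩ := hp
    refine ⟨k + 1, G * zt Q (up _ e) X i, fun A _ _ τ z hz => ?_⟩
    have h2 := congrFun (map_zt Q (aeval τ : MvPolynomial σ M →ₐ[M] A) (up _ e) X) i
    rw [map_up, aeval_comp_X, hz] at h2
    rw [map_mul, h1 A τ z hz, map_mul, aeval_X, show aeval τ (zt Q (up _ e) X i) = _ from h2]
    simp only [Pi.smul_apply, smul_eq_mul]
    ring

theorem genV [IsAlgClosed M] [CharZero M] [IsAlgClosed L] (h : Sm Q C M)
    (hN : 7 ≤ Fintype.card σ) {y : σ → L} (hy : InV Q C y) (ht : Hs Q C y ≤ Tan M y)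
    (Γ : MvPolynomial σ M) (hΓ : aeval y Γ = 0) {e : σ → M} (he : Q.T e e = 0)
    (hc : C.T e e e ≠ 0) (A : Type) [CommRing A] [Algebra M A] (z : σ → A) (hq : Q.T z z = 0)
    (hz : C.T z z z = 0) (hu : IsUnit (Q.T (up A e) z)) : aeval z Γ = 0 := by
  obtain ⟨L', _, _, _, _, _, s, hs⟩ := taug h hN he hc hy ht
  obtain ⟨k, G, hG⟩ := taug_clear Q e Γ
  have h1 := taug_zt (Q := Q) (y := up L' y) (e := up L' e) (by rw [Q.T_up, hy.q, map_zero])
    (by rw [Q.T_up, he, map_zero]) s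
  have h2 := hG L' _ (up L' y) (by rw [h1.1, h1.2])
  have h3 : aeval (up L' y) Γ = 0 := by
    rw [show up L' y = fun i => IsScalarTower.toAlgHom M L L' (y i) from rfl, ← comp_aeval_apply, hΓ,
      map_zero]
  rw [h3, mul_zero, hs] at h2
  obtain ⟨m, rfl⟩ := h2
  have h4 := taug_zt (Q := Q) hq (e := up A e) (by rw [Q.T_up, he, map_zero]) 0
  have h5 := taug_Fm (C := C) hq hz he 0
  rw [zero_smul, add_zero] at h4 h5
  have h6 := hG A z z h4.2
  rw [map_mul, h5, zero_mul] at h6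
  have h7 : IsUnit (2 : A) := by
    simpa only [map_ofNat] using (Ne.isUnit (two_ne_zero (α := M))).map (algebraMap M A)
  exact ((h7.mul hu).pow k).mul_right_eq_zero.1 h6.symm

end

section
variable {σ M : Type} [Fintype σ] [CommRing M] (Q : S2 σ M) (C : S3 σ M)
  {A B : Type} [CommRing A] [Algebra M A] [CommRing B] [Algebra M B]

/-- Equations for one step. -/
def vgen_eq (y y' u : σ → A) (t : A) : Fin 8 → A :=
  ![Q.T y' y', C.T y' y' y', Q.T y y', C.T y y y', C.T y y' y' * t - 1, Q.T y u, C.T y y u,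
    Q.T y' u - 1]

theorem vgen_eq_map (φ : A →ₐ[M] B) (y y' u : σ → A) (t : A) (k : Fin 8) :
    φ (vgen_eq Q C y y' u t k) = vgen_eq Q C (φ ∘ y) (φ ∘ y') (φ ∘ u) (φ t) k := by
  fin_cases k <;> simp [vgen_eq, Q.map, C.map]

end

section
variable {σ M L : Type} [Fintype σ] [DecidableEq σ] [Field M] [Field L] [Algebra M L]
  {Q : S2 σ M} {C : S3 σ M}

omit [DecidableEq σ] in
theorem vgen_iff {y y' : σ → L} : Step Q C y y' ↔ ∃ u t, ∀ k, vgen_eq Q C y y' u t k = 0 := by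
  constructor
  · rintro ⟨⟨⟨a1, a2⟩, a3, e, ⟨a4, a5⟩, a6⟩, a7, a8⟩
    refine ⟨(Q.T y' e)⁻¹ • e, (C.T y y' y')⁻¹, fun k => ?_⟩
    replace a4 : Q.T y e = 0 := a4
    replace a5 : C.T y y e = 0 := a5
    fin_cases k
    exacts [a3, a7, a1, a2, sub_eq_zero.2 (mul_inv_cancel₀ a8), by simp [vgen_eq, Q.smul2, a4],
      by simp [vgen_eq, C.smul3, a5], by simp [vgen_eq, Q.smul2, a6]]
  · rintro ⟨u, t, h⟩
    have h4 : C.T y y' y' * t - 1 = 0 := h 4
    have h7 : Q.T y' u - 1 = 0 := h 7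
    exact ⟨⟨⟨h 2, h 3⟩, h 0, u, ⟨h 5, h 6⟩, fun h0 => by simp [h0] at h7⟩, h 1,
      fun h0 => by simp [h0] at h4⟩

theorem vgen [IsAlgClosed M] [CharZero M] (h : Sm Q C M) (hN : 7 ≤ Fintype.card σ) {y0 : σ → M}
    (hy : InV Q C y0) (hE : ¬ Eck Q C y0) {e : σ → M} (he : Q.T e e = 0) (hc : C.T e e e ≠ 0)
    {l : σ → M} (hl : l ≠ 0) : ∃ Δ : MvPolynomial σ M, ¬ Fm Q C e ∣ Δ ∧ ∀ τ : σ → M,
      aeval τ (Fm Q C e) = 0 → aeval τ Δ ≠ 0 → ∃ (y1 y2 y3 : σ → M) (s : M), Step Q C y0 y1 ∧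
        Step Q C y1 y2 ∧ Step Q C y2 y3 ∧ l ⬝ᵥ y3 ≠ 0 ∧ y3 + s • e = τ := by
  obtain ⟨K, _, _, _, y1, y2, y3, s1, s2, s3, hT⟩ := chainV h hN hy hE
  have h4 := off_hyp h (by omega) s3.inV hT hl
  obtain ⟨K', _, _, _, _, _, s, hs⟩ := taug h hN he hc s3.inV hT
  obtain ⟨u1, t1, e1⟩ := vgen_iff.1 s1
  obtain ⟨u2, t2, e2⟩ := vgen_iff.1 s2
  obtain ⟨u3, t3, e3⟩ := vgen_iff.1 s3
  let ι := (Fin 6 × σ) ⊕ Fin 5
  let Y : Fin 6 → σ → MvPolynomial ι M := fun a i => X (Sum.inl (a, i))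
  let T : Fin 5 → MvPolynomial ι M := fun a => X (Sum.inr a)
  let c : K →ₐ[M] K' := IsScalarTower.toAlgHom M K K'
  let w : ι → K' := Sum.elim (fun p => c (![y1, y2, y3, u1, u2, u3] p.1 p.2))
    ![c t1, c t2, c t3, c (up K l ⬝ᵥ y3)⁻¹, s]
  let r : Option (Fin 3 × Fin 8) → MvPolynomial ι M := fun o => o.elim
    ((up _ l ⬝ᵥ Y 2) * T 3 - 1) fun p => ![vgen_eq Q C (up _ y0) (Y 0) (Y 3) (T 0),
      vgen_eq Q C (Y 0) (Y 1) (Y 4) (T 1), vgen_eq Q C (Y 1) (Y 2) (Y 5) (T 2)] p.1 p.2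
  have hd : ∀ (A : Type) [CommRing A] [Algebra M A] (z : ι → A),
      aeval z (up _ l ⬝ᵥ Y 2) = up A l ⬝ᵥ (aeval z ∘ Y 2) := fun A _ _ z => by
    simp only [dotProduct, map_sum, map_mul, up_apply, AlgHom.commutes, Function.comp]
  have hY : ∀ a, aeval w ∘ Y a = c ∘ ![y1, y2, y3, u1, u2, u3] a := fun a => by
    funext i
    simp [Y, w]
  have hT' : ∀ a, aeval w (T a) = w (Sum.inr a) := fun a => aeval_X _ _
  obtain ⟨Δ, hΔ, H⟩ := gen r (fun i => Y 2 i + T 4 * algebraMap M _ (e i)) w (by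
    rintro (_ | ⟨a, k⟩)
    · change aeval w ((up _ l ⬝ᵥ Y 2) * T 3 - 1) = 0
      have h5 : up K' l ⬝ᵥ (c ∘ y3) = c (up K l ⬝ᵥ y3) := by
        simp only [dotProduct, map_sum, map_mul, up_apply, AlgHom.commutes, Function.comp]
      rw [map_sub, map_mul, hd, hY, hT', map_one]
      change up K' l ⬝ᵥ (c ∘ y3) * c (up K l ⬝ᵥ y3)⁻¹ - 1 = 0
      rw [h5, ← map_mul, mul_inv_cancel₀ h4, map_one, sub_self]
    · fin_cases a
      · refine (vgen_eq_map Q C _ _ _ _ _ k).trans ?_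
        rw [hY, hY, hT', map_up, ← map_up c]
        exact (vgen_eq_map Q C c _ y1 u1 t1 k).symm.trans (by rw [e1, map_zero])
      · refine (vgen_eq_map Q C _ _ _ _ _ k).trans ?_
        rw [hY, hY, hY, hT']
        exact (vgen_eq_map Q C c y1 y2 u2 t2 k).symm.trans (by rw [e2, map_zero])
      · refine (vgen_eq_map Q C _ _ _ _ _ k).trans ?_
        rw [hY, hY, hY, hT']
        exact (vgen_eq_map Q C c y2 y3 u3 t3 k).symm.trans (by rw [e3, map_zero]))
  have hw : (fun i => aeval w (Y 2 i + T 4 * algebraMap M _ (e i))) = up K' y3 + s • up K' e := by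
    funext i
    simp [Y, T, w, c, up_apply]
  rw [hw] at hΔ H
  refine ⟨Δ, fun hG => hΔ ((hs Δ).2 hG), fun τ h1 h2 => ?_⟩
  obtain ⟨z, hz, ho⟩ := H M τ (fun G hG => by
    obtain ⟨G', rfl⟩ := (hs G).1 hG
    rw [map_mul, h1, zero_mul]) h2
  refine ⟨aeval z ∘ Y 0, aeval z ∘ Y 1, aeval z ∘ Y 2, aeval z (T 4),
    vgen_iff.2 ⟨aeval z ∘ Y 3, aeval z (T 0), fun k => ?_⟩,
    vgen_iff.2 ⟨_, _, fun k => (vgen_eq_map Q C _ _ _ _ _ k).symm.trans (hz (some (1, k)))⟩,
    vgen_iff.2 ⟨_, _, fun k => (vgen_eq_map Q C _ _ _ _ _ k).symm.trans (hz (some (2, k)))⟩,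
    fun h0 => ?_, funext fun i => ?_⟩
  · have := (vgen_eq_map Q C _ _ _ _ _ k).symm.trans (hz (some (0, k)))
    rwa [map_up] at this
  · have h5 : aeval z ((up _ l ⬝ᵥ Y 2) * T 3 - 1) = 0 := hz none
    rw [map_sub, map_mul, hd, up_self, h0] at h5
    simp at h5
  · rw [← ho i]
    simp

end

section
variable {σ M L : Type} [Fintype σ] [DecidableEq σ] [Field M] [Field L] [Algebra M L]
  {Q : S2 σ M} {C : S3 σ M}

/-- The annihilator over a larger field of a subspace. -/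
def codim3_ann (L : Type) [Field L] [Algebra M L] (E : Submodule M (σ → M)) :
    Submodule L (σ → L) where
  carrier := {η | ∀ u ∈ E, ∑ i, η i * algebraMap M L (u i) = 0}
  add_mem' := fun {a b} ha hb u hu => by
    simp only [Pi.add_apply, add_mul, Finset.sum_add_distrib, ha u hu, hb u hu, add_zero]
  zero_mem' := fun u _ => by simp
  smul_mem' := fun c a ha u hu => by
    simp only [Pi.smul_apply, smul_eq_mul, mul_assoc, ← Finset.mul_sum, ha u hu, mul_zero]

theorem codim3_rk (E : Submodule M (σ → M)) :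
    finrank L (codim3_ann L E) + finrank M E ≤ Fintype.card σ := by
  let b := finBasis M E
  let c := finBasis L (codim3_ann L E)
  have h1 : LinearIndependent M fun i => (b i : σ → M) :=
    b.linearIndependent.map' E.subtype (Submodule.ker_subtype E)
  have h2 : LinearIndependent L fun i => algebraMap M L ∘ (b i : σ → M) :=
    linearIndependent_algebraMap_comp_iff.2 h1
  have h3 : LinearIndependent L fun i => (c i : σ → L) :=
    c.linearIndependent.map' (codim3_ann L E).subtype (Submodule.ker_subtype _)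
  have h4 : LinearMap.ker (dotProductBilin L L : (σ → L) →ₗ[L] (σ → L) →ₗ[L] L) = ⊥ := by
    refine LinearMap.ker_eq_bot'.2 fun v hv => funext fun i => ?_
    simpa using LinearMap.congr_fun hv (Pi.single i 1)
  have h5 := (H61.dim_count (h3.map' _ h4) h2 fun i j => (c i).2 _ (b j).2).1
  rwa [finrank_fintype_fun_eq_card] at h5

/-- The derivative of a fixed vector as a linear function of the derivation. -/
def codim3_tan (M : Type) [Field M] [Algebra M L] (y : σ → L) : Derivation M L L →ₗ[L] (σ → L) where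
  toFun D := D ∘ y
  map_add' _ _ := rfl
  map_smul' _ _ := rfl

theorem codim3 [IsAlgClosed M] [CharZero M] [IsAlgClosed L] (h : Sm Q C M)
    (hN : 7 ≤ Fintype.card σ) {z : σ → L} (hz : InV Q C z) (ht : Hs Q C z ≤ Tan M z)
    (E : Submodule M (σ → M)) (hE : Fintype.card σ ≤ finrank M E + 3) (a b : L)
    (hab : ∀ η ∈ E, a * Q.T z (up L η) + b * C.T z z (up L η) = 0) : a = 0 ∧ b = 0 := by
  by_contra h0
  let ξ : σ → L := fun i => a * Q.T z (Pi.single i 1) + b * C.T z z (Pi.single i 1)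
  have hs : ∀ w, a * Q.T z w + b * C.T z z w = ∑ i, ξ i * w i := fun w => by
    rw [Q.T_eq_sum, C.T_eq_sum, Finset.mul_sum, Finset.mul_sum, ← Finset.sum_add_distrib]
    exact Finset.sum_congr rfl fun i _ => by simp only [ξ]; ring
  have hξ : ξ ∈ codim3_ann L E := fun u hu => (hs _).symm.trans (hab u hu)
  obtain ⟨i0, hi⟩ : ∃ i, ξ i ≠ 0 := by
    by_contra! h1
    exact h0 ((h.ext L).sm z hz a b fun w => by simp [hs, h1])
  let θ : Derivation M L L →ₗ[L] (σ → L) :=
    ξ i0 • codim3_tan M ξ - ((LinearMap.proj i0).comp (codim3_tan M ξ)).smulRight ξ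
  have hθ : ∀ D, θ D = ξ i0 • (D ∘ ξ) - D (ξ i0) • ξ := fun D => rfl
  have h1 := cut (codim3_tan M z) θ
  have h2 : (LinearMap.ker θ).map (codim3_tan M z) ≤ Submodule.span L {z} := by
    rintro _ ⟨D, hD, rfl⟩
    have hD : θ D = 0 := hD
    obtain ⟨t, ht⟩ := fin h hz D (k := D (ξ i0) / ξ i0) (a := a) (b := b) (by tauto) fun i => by
      have := congrFun hD i
      simp only [hθ, Pi.sub_apply, Pi.smul_apply, smul_eq_mul, Function.comp, Pi.zero_apply] at this
      change D (ξ i) = D (ξ i0) / ξ i0 * ξ i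
      field_simp
      linear_combination this
    exact Submodule.mem_span_singleton.2 ⟨t, ht.symm⟩
  have h3 : LinearMap.range θ < codim3_ann L E := by
    refine lt_of_le_of_ne ?_ fun h4 => ?_
    · rintro _ ⟨D, rfl⟩
      rw [hθ]
      refine Submodule.sub_mem _ (Submodule.smul_mem _ _ fun u hu => ?_) (Submodule.smul_mem _ _ hξ)
      simpa [mul_comm] using congrArg D (hξ u hu)
    · rw [← h4] at hξ
      obtain ⟨D, hD⟩ := hξ
      have := congrFun hD i0
      simp only [hθ, Pi.sub_apply, Pi.smul_apply, smul_eq_mul, Function.comp] at this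
      exact hi (by linear_combination -this)
  have h5 := Submodule.finrank_lt_finrank_of_lt h3
  have h6 := codim3_rk (L := L) E
  have h7 := (Submodule.finrank_mono h2).trans (finrank_span_singleton hz.ne).le
  have h8 := (h.ext L).finrank_Hs hz
  have h9 : finrank L (Hs Q C z) ≤ finrank L (LinearMap.range (codim3_tan M z)) :=
    Submodule.finrank_mono ht
  omega

end

end Pool.Agent.MP_e0214e_ag.H64
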