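import Pool.Agent.MP_e0214e_ag.H64.Quint

/-! The surface through a point of a quintic. -/

set_option autoImplicit false

namespace Pool.Agent.MP_e0214e_ag.H64

open MvPolynomial Module Filter Topology

section
variable {σ Ω : Type} [Fintype σ] [DecidableEq σ] [NormedField Ω] [IsAlgClosed Ω] [Algebra ℂ Ω]
  {K : IntermediateField ℂ Ω} {q : S5 σ} {Δ : MvPolynomial σ ℂ}

omit [IsAlgClosed Ω] [Fintype σ] [DecidableEq σ] in
theorem xcv_cont_aeval (Δ : MvPolynomial σ ℂ) : Continuous fun p : σ → Ω => aeval p Δ := by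
  have : (fun p : σ → Ω => aeval p Δ) = fun p => eval p (map (algebraMap ℂ Ω) Δ) :=
    funext fun p => by rw [eval_map, aeval_def]
  rw [this]
  exact MvPolynomial.continuous_eval _

omit [IsAlgClosed Ω] in
theorem xcv_cont_Bj (i k : σ) (j : Ix i k) : Continuous fun p : σ → Ω => Bj q i k p j := by
  unfold Bj
  fun_prop

theorem xcv (hK : Fd K) (hΔ : Dl q Δ) (hN : 9 ≤ Fintype.card σ) {i k : σ} {p : σ → Ω}
    (h : Fr q i k p) (hp : q.T p p p p p = 0) (hd : aeval p Δ ≠ 0) {z : Ix i k → Ω}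
    (hz : InV (Qp q i k p) (Cp q i k p) z) {P : Set (σ → Ω)} (hP : p ∈ closure P) :
    (p, z) ∈ closure {x : (σ → Ω) × (Ix i k → Ω) | x.1 ∈ P ∧ Fr q i k x.1 ∧ aeval x.1 Δ ≠ 0 ∧
      InV (Qp q i k x.1) (Cp q i k x.1) x.2} := by
  have hsm := pull_sm h hp (hΔ.good Ω p hp hd).2
  have hc : 7 ≤ Fintype.card (Ix i k) := by have := h.card; omega
  have : (𝓝[P] p).NeBot := mem_closure_iff_nhdsWithin_neBot.1 hP
  have hid : Tendsto (fun n : σ → Ω => n) (𝓝[P] p) (𝓝 p) := tendsto_id'.2 nhdsWithin_le_nhds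
  have hB := fun j => xcv_cont_Bj (q := q) (Ω := Ω) i k j
  obtain ⟨z', hz1, hz2⟩ := cv hK hsm hc hz (l := 𝓝[P] p) (fun n => Qp q i k n)
    (fun n => Cp q i k n)
    (fun a b => ((q.cont continuous_id continuous_id continuous_id (hB a) (hB b)).tendsto p).comp
      hid)
    (fun a b c => ((q.cont continuous_id continuous_id (hB a) (hB b) (hB c)).tendsto p).comp hid)
  refine mem_closure_of_tendsto (hid.prodMk_nhds hz1) ?_
  have e1 : ∀ᶠ n in 𝓝[P] p, n i ≠ 0 :=
    hid.eventually (((continuous_apply i).tendsto p).eventually_ne h.pi)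
  have e2 : ∀ᶠ n in 𝓝[P] p, q.T n n n n (Pi.single k 1) ≠ 0 :=
    hid.eventually (((q.cont continuous_id continuous_id continuous_id continuous_id
      continuous_const).tendsto p).eventually_ne h.gk)
  have e3 : ∀ᶠ n in 𝓝[P] p, aeval n Δ ≠ 0 :=
    hid.eventually (((xcv_cont_aeval Δ).tendsto p).eventually_ne hd)
  filter_upwards [self_mem_nhdsWithin, e1, e2, e3, hz2] with n h0 h1 h2 h3 h4
  exact ⟨h0, ⟨h.ik, h1, h2⟩, h3, h4⟩

omit [IsAlgClosed Ω] [DecidableEq σ] in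
theorem xcv_T_mem {a b c d e : σ → Ω} (ha : In K a) (hb : In K b) (hc : In K c) (hd : In K d)
    (he : In K e) : q.T a b c d e ∈ K :=
  q.mem_subring K (fun _ _ _ _ _ => K.algebraMap_mem _) ha hb hc hd he

omit [IsAlgClosed Ω] [Fintype σ] in
theorem xcv_single_mem (k : σ) : In K (Pi.single k (1 : Ω) : σ → Ω) := fun j => by
  rw [Pi.single_apply]
  split_ifs
  exacts [one_mem _, zero_mem _]

omit [IsAlgClosed Ω] in
theorem xcv_Bj_mem (i k : σ) {p : σ → Ω} (hp : In K p) (j : Ix i k) : In K (Bj q i k p j) :=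
  fun a => sub_mem (mul_mem (xcv_T_mem hp hp hp hp (xcv_single_mem k)) (xcv_single_mem j.1 a))
    (mul_mem (xcv_T_mem hp hp hp hp (xcv_single_mem j.1)) (xcv_single_mem k a))

theorem inQ_pull (i k : σ) {p : σ → Ω} (hp : In K p) :
    InQ K (Qp q i k p) (Cp q i k p) ∧ ∀ z, In K z → In K (Bv q i k p z) := by
  have hB := xcv_Bj_mem (q := q) i k hp
  refine ⟨⟨fun a b => xcv_T_mem hp hp hp (hB a) (hB b),
    fun a b c => xcv_T_mem hp hp (hB a) (hB b) (hB c)⟩, fun z hz a => ?_⟩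
  rw [Bv, Finset.sum_apply]
  exact sum_mem fun j _ => mul_mem (hz j) (hB j a)

end

section
variable {σ L : Type} [Fintype σ] [DecidableEq σ] [Field L] [Algebra ℂ L] {q : S5 σ}

theorem xapp_Q (i k : σ) (p : σ → L) (a b : Ix i k → L) :
    (Qp q i k p).T a b = q.T p p p (Bv q i k p a) (Bv q i k p b) := Qp_T i k p a b

theorem xapp_C (i k : σ) (p : σ → L) (a b c : Ix i k → L) :
    (Cp q i k p).T a b c = q.T p p (Bv q i k p a) (Bv q i k p b) (Bv q i k p c) := Cp_T i k p a b c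

omit [DecidableEq σ] in
/-- The contact numbers of `v` in terms of those of `v + c p`. -/
theorem xapp_shift {p v : σ → L} {c : L} (z : q.T p p p p p = 0) (g1 : q.T p p p p v = 0)
    (g2 : q.T p p p (v + c • p) (v + c • p) = 0)
    (g3 : q.T p p (v + c • p) (v + c • p) (v + c • p) = 0) :
    q.T p p p v v = 0 ∧ q.T p p v v v = 0 ∧
      q.T p (v + c • p) (v + c • p) (v + c • p) (v + c • p) = q.T p v v v v ∧
      q.T (v + c • p) (v + c • p) (v + c • p) (v + c • p) (v + c • p) =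
        q.T v v v v v + 5 * c * q.T p v v v v := by
  have s1 : ∀ a b c d : σ → L, q.T v p a b c = q.T p v a b c := fun a b c _ => q.T12 _ _ _ _ _
  have s2 : ∀ a b c : σ → L, q.T a v p b c = q.T a p v b c := fun a b c => q.T23 _ _ _ _ _
  have s3 : ∀ a b c : σ → L, q.T a b v p c = q.T a b p v c := fun a b c => q.T34 _ _ _ _ _
  have s4 : ∀ a b c : σ → L, q.T a b c v p = q.T a b c p v := fun a b c => q.T45 _ _ _ _ _
  have s1' : ∀ a b c : σ → L, q.T v p a b c = q.T p v a b c := fun a b c => s1 a b c a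
  simp only [q.add1, q.add2, q.add3, q.add4, q.add5, q.smul1, q.smul2, q.smul3, q.smul4, q.smul5,
    s1', s2, s3, s4, z, g1] at g2 g3 ⊢
  have h2 : q.T p p p v v = 0 := by linear_combination g2
  simp only [h2] at g3 ⊢
  have h3 : q.T p p v v v = 0 := by linear_combination g3
  simp only [h3]
  refine ⟨trivial, trivial, by ring, by ring⟩

omit [DecidableEq σ] in
theorem xapp_res5_smul (p v : σ → L) (c : L) : res5 q p (c • v) = c ^ 5 • res5 q p v := by
  funext a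
  simp only [res5, q.smul1, q.smul2, q.smul3, q.smul4, q.smul5, Pi.sub_apply, Pi.smul_apply,
    smul_eq_mul]
  ring

theorem xapp_gv (i k : σ) (p : σ → L) (y w : Ix i k → L) (h : (Cp q i k p).T y w w ≠ 0) :
    gv q p (Bv q i k p y) (Bv q i k p w) =
      (-(3 * (Cp q i k p).T y w w)) • Bv q i k p (res3 (Cp q i k p) y w) := by
  have : CharZero L := charZero_of_injective_algebraMap (algebraMap ℂ L).injective
  obtain ⟨B, hB⟩ := Bv_lin (q := q) i k p
  rw [gv, ← xapp_C, ← xapp_C, res3, ← hB, ← hB, ← hB, map_sub, map_smul]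
  funext a
  simp only [Pi.sub_apply, Pi.smul_apply, smul_eq_mul]
  field_simp
  ring

end

section
variable {σ Ω : Type} [Fintype σ] [DecidableEq σ] [NormedField Ω] [IsAlgClosed Ω] [Algebra ℂ Ω]
  {K : IntermediateField ℂ Ω} {q : S5 σ} {Δ : MvPolynomial σ ℂ}

omit [IsAlgClosed Ω] in
theorem xapp_cont_Bv (i k : σ) :
    Continuous fun x : (σ → Ω) × (Ix i k → Ω) => Bv q i k x.1 x.2 := by
  unfold Bv Bj
  fun_prop

omit [IsAlgClosed Ω] [DecidableEq σ] in
theorem xapp_T_mem {a b c d e : σ → Ω} (ha : In K a) (hb : In K b) (hc : In K c) (hd : In K d)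
    (he : In K e) : q.T a b c d e ∈ K :=
  q.mem_subring K (fun _ _ _ _ _ => K.algebraMap_mem _) ha hb hc hd he

theorem xapp (hK : Fd K) (hs : q.Sm ℂ) (hΔ : Dl q Δ) (hN : 9 ≤ Fintype.card σ) {p p' : σ → Ω}
    (h : XStep q Δ p p') {P : Set (σ → Ω)} (hP : P ⊆ XK K q) (hp : p ∈ closure P)
    (lam : (σ → Ω) → σ → Ω) (hl : ∀ p1 ∈ P, q.T p1 p1 p1 p1 (lam p1) = 0 ∧ ∀ c : Ω, lam p1 ≠ c • p1)
    {U : Set (σ → Ω)} (hU : U ∈ 𝓝 p') :
    ∃ p1 ∈ P, ∃ y w d e : σ → Ω, In K y ∧ In K w ∧ In K d ∧ In K e ∧ Par q p1 y w d e ∧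
      q.T p1 p1 p1 (lam p1) (gv q p1 y w) ≠ 0 ∧
      ∃ s ∈ K, s • res5 q p1 (gv q p1 y w) ∈ U := by
  have : CharZero Ω := charZero_of_injective_algebraMap (algebraMap ℂ Ω).injective
  obtain ⟨i, k, hF⟩ := exists_Fr (hs.ext Ω) (hΔ.good Ω p h.z h.d).1 h.z
  obtain ⟨z, c, rfl⟩ := hF.surj h.z h.g1
  obtain ⟨v2, v3, v4, v5⟩ := xapp_shift h.z (Bv_tan i k p z) h.g2 h.g3
  have g4 := h.g4
  have g5 := h.g5
  rw [v4] at g4
  rw [v5] at g5
  obtain ⟨B, hB⟩ := Bv_lin (q := q) i k p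
  have hz : InV (Qp q i k p) (Cp q i k p) z := by
    refine ⟨fun h0 => g4 ?_, by rw [xapp_Q, v2], by rw [xapp_C, v3]⟩
    rw [h0, ← hB, map_zero, q.zero5]
  -- the residual point as a function of the pair
  set G : (σ → Ω) × (Ix i k → Ω) → Ω := fun x => q.T x.1 (Bv q i k x.1 x.2) (Bv q i k x.1 x.2)
    (Bv q i k x.1 x.2) (Bv q i k x.1 x.2) with hG
  set Φ : (σ → Ω) × (Ix i k → Ω) → σ → Ω := fun x =>
    (-(5 * G x))⁻¹ • res5 q x.1 (Bv q i k x.1 x.2) with hΦ
  have cB := xapp_cont_Bv (q := q) (Ω := Ω) i k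
  have cG : Continuous G := q.cont continuous_fst cB cB cB cB
  have cR : Continuous fun x : (σ → Ω) × (Ix i k → Ω) => res5 q x.1 (Bv q i k x.1 x.2) :=
    ((q.cont cB cB cB cB cB).smul continuous_fst).sub ((continuous_const.mul cG).smul cB)
  have G0 : G (p, z) ≠ 0 := g4
  have cΦ : ContinuousAt Φ (p, z) :=
    ((continuous_const.mul cG).neg.continuousAt.inv₀
      (neg_ne_zero.2 (mul_ne_zero (by norm_num) G0))).smul cR.continuousAt
  have Φ0 : Φ (p, z) = Bv q i k p z + c • p := by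
    funext a
    simp only [hΦ, hG, res5, Pi.smul_apply, Pi.sub_apply, Pi.add_apply, smul_eq_mul]
    rw [eq_neg_of_add_eq_zero_left g5]
    field_simp
    ring
  have hW : {x | Φ x ∈ U ∧ G x ≠ 0} ∈ 𝓝 (p, z) :=
    inter_mem (cΦ.preimage_mem_nhds (Φ0 ▸ hU)) ((cG.tendsto _).eventually_ne G0)
  obtain ⟨W, hW1, hW2, hW3⟩ := mem_nhds_iff.1 hW
  obtain ⟨⟨p1, z1⟩, hx1, hp1, hF1, hd1, hz1⟩ :=
    mem_closure_iff.1 (xcv hK hΔ hN hF h.z h.d hz hp) W hW2 hW3
  obtain ⟨pK, pz⟩ := hP hp1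
  have hsm := pull_sm hF1 pz (hΔ.good Ω p1 pz hd1).2
  have hc : 7 ≤ Fintype.card (Ix i k) := by have := hF.card; omega
  obtain ⟨hQ, hBK⟩ := inQ_pull (q := q) i k pK
  obtain ⟨B1, hB1⟩ := Bv_lin (q := q) i k p1
  obtain ⟨m, c1, hm⟩ := hF1.surj pz (hl p1 hp1).1
  have m0 : m ≠ 0 := fun h0 => (hl p1 hp1).2 c1 (by rw [hm, h0, ← hB1, map_zero, zero_add])
  have hdot : ∀ u, (fun j => (Qp q i k p1).T m (Pi.single j 1)) ⬝ᵥ u = (Qp q i k p1).T m u :=
    fun u => by rw [S2.T_eq_sum _ m u, dotProduct_comm]; rfl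
  have l0 : (fun j => (Qp q i k p1).T m (Pi.single j 1)) ≠ 0 := fun h0 =>
    m0 (hsm.nd m fun u => by rw [← hdot, h0, zero_dotProduct])
  obtain ⟨z2, hz2W, hz2, hz2l⟩ := mem_closure_iff.1 (dv hK hQ hsm hc hz1 l0)
    ((fun u => (p1, u)) ⁻¹' W) (hW2.preimage (by fun_prop)) hx1
  have z2K := (SK_sub hQ hz2).1
  obtain ⟨y, w, yK, wK, hy, hw, hyw, rfl⟩ := hz2
  obtain ⟨d, e, dK, eK, hd, he, ee, we, wd, ed, ind⟩ := exists_de hK hQ hsm hc hy yK hw wK
  obtain ⟨hU2, hG2⟩ := hW1 hz2W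
  have hgv := xapp_gv i k p1 y w hyw
  have κ0 : -(3 * (Cp q i k p1).T y w w) ≠ 0 := neg_ne_zero.2 (mul_ne_zero (by norm_num) hyw)
  have κK : -(3 * (Cp q i k p1).T y w w) ∈ K := by
    rw [xapp_C]
    exact neg_mem (mul_mem (ofNat_mem K 3) (xapp_T_mem pK pK (hBK y yK) (hBK w wK) (hBK w wK)))
  generalize -(3 * (Cp q i k p1).T y w w) = κ at hgv κ0 κK
  refine ⟨p1, hp1, Bv q i k p1 y, Bv q i k p1 w, Bv q i k p1 d, Bv q i k p1 e, hBK y yK, hBK w wK,
    hBK d dK, hBK e eK, ⟨pz, Bv_tan i k p1 y, Bv_tan i k p1 w, Bv_tan i k p1 d, Bv_tan i k p1 e,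
      (xapp_Q ..).symm.trans hy.q, (xapp_Q ..).symm.trans hw.h.1, (xapp_Q ..).symm.trans hd.1,
      (xapp_Q ..).symm.trans he.1, (xapp_C ..).symm.trans hy.c, (xapp_C ..).symm.trans hw.h.2,
      (xapp_C ..).symm.trans hd.2, (xapp_C ..).symm.trans he.2, (xapp_Q ..).symm.trans hw.q,
      (xapp_Q ..).symm.trans ee, (xapp_Q ..).symm.trans wd, (xapp_Q ..).symm.trans ed,
      (xapp_Q ..).symm.trans_ne we, (xapp_C ..).symm.trans_ne hyw, ?_, fun a b c c' h0 => ?_⟩, ?_,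
    (-(5 * G (p1, res3 (Cp q i k p1) y w)))⁻¹ * (κ ^ 5)⁻¹, ?_, ?_⟩
  · rw [hgv, q.smul2, q.smul3, q.smul4, q.smul5]
    exact mul_ne_zero κ0 (mul_ne_zero κ0 (mul_ne_zero κ0 (mul_ne_zero κ0 hG2)))
  · refine ind b c c' (hF1.inj (c := a) ?_).1
    rw [← h0, ← hB1, ← hB1, ← hB1, ← hB1, map_add, map_add, map_smul, map_smul, map_smul]
    abel
  · rw [hgv, q.smul5, hm, q.add4, q.smul4, Bv_tan, mul_zero, add_zero, ← xapp_Q, ← hdot]
    exact mul_ne_zero κ0 hz2l
  · have := hBK _ z2K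
    exact mul_mem (inv_mem (neg_mem (mul_mem (ofNat_mem K 5) (xapp_T_mem pK this this this this))))
      (inv_mem (pow_mem κK 5))
  · rw [hgv, xapp_res5_smul, smul_smul, mul_assoc, inv_mul_cancel₀ (pow_ne_zero 5 κ0), mul_one]
    exact hU2

end

section
variable {σ Ω : Type} [Fintype σ] [DecidableEq σ] [NormedField Ω] [IsAlgClosed Ω] [Algebra ℂ Ω]
  {K : IntermediateField ℂ Ω} {q : S5 σ} {Δ : MvPolynomial σ ℂ}

theorem xdense_step (hK : Fd K) (hs : q.Sm ℂ) (hΔ : Dl q Δ) (hN : 9 ≤ Fintype.card σ)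
    {p p' : σ → Ω} (h : XStep q Δ p p') (hp : p ∈ closure (XK K q)) : p' ∈ closure (XK K q) := by
  have H : ∀ p : σ → Ω, ∃ u, q.T p p p p u = 0 ∧ ∀ c : Ω, u ≠ c • p := fun p => by
    by_contra! H
    have h1 : LinearMap.ker (q.L p p p p) ≤ Submodule.span Ω {p} := fun u hu =>
      Submodule.mem_span_singleton.2 ((H u hu).imp fun _ => Eq.symm)
    have h2 := (Submodule.finrank_mono h1).trans (finrank_span_le_card _)
    have h3 := (q.L p p p p).finrank_range_add_finrank_ker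
    have h4 := Submodule.finrank_le (LinearMap.range (q.L p p p p))
    simp only [Set.toFinset_singleton, Finset.card_singleton, Module.finrank_self,
      Module.finrank_fintype_fun_eq_card] at h2 h3 h4
    omega
  choose lam hl using H
  refine mem_closure_iff_nhds.2 fun U hU => ?_
  obtain ⟨p1, h1, y, w, d, e, hy, hw, -, -, h2, -, s, h3, h4⟩ :=
    xapp hK hs hΔ hN h le_rfl hp lam (fun p _ => hl p) hU
  have hT : ∀ {a b c d e : σ → Ω}, In K a → In K b → In K c → In K d → In K e →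
      q.T a b c d e ∈ K := q.mem_subring K fun _ _ _ _ _ => algebraMap_mem K _
  have h5 : In K (gv q p1 y w) := fun i => sub_mem (mul_mem (hT h1.1 h1.1 hw hw hw) (hy i))
    (mul_mem (mul_mem (ofNat_mem K 3) (hT h1.1 h1.1 hy hw hw)) (hw i))
  refine ⟨_, h4, fun i => mul_mem h3 (sub_mem (mul_mem (hT h5 h5 h5 h5 h5) (h1.1 i))
    (mul_mem (mul_mem (ofNat_mem K 5) (hT h1.1 h5 h5 h5 h5)) (h5 i))), ?_⟩
  have h6 := (res5_step (Δ := 1) h2.z (by simp) (v := gv q p1 y w)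
    (by simp only [gv, q.sub5, q.smul5, h2.y1, h2.w1]; ring)
    (by simp only [gv, q.sub5, q.smul5, q.sub4, q.smul4, h2.yy, h2.yw, h2.ww, q.T45 p1 p1 p1 w y]
        ring)
    (by simp only [gv, q.sub5, q.smul5, q.sub4, q.smul4, q.sub3, q.smul3, q.T45 p1 p1 _ w y,
          q.T34 p1 p1 w y, h2.yyy, h2.yyw]
        ring) h2.g4).g5
  simp only [q.smul1, q.smul2, q.smul3, q.smul4, q.smul5, h6, mul_zero]

theorem xdense (hK : Fd K) (hs : q.Sm ℂ) (hN : 9 ≤ Fintype.card σ) {x : σ → Ω} (h0 : x ≠ 0)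
    (hx : q.T x x x x x = 0) : x ∈ closure (XK K q) := by
  have : CharZero Ω := charZero_of_injective_algebraMap (algebraMap ℂ Ω).injective
  obtain ⟨Δ, hΔ⟩ := exists_Dl hs (by omega)
  obtain ⟨p0, Δ', h1, h2⟩ := xgen hs hΔ hN
  obtain ⟨k, hk⟩ : ∃ k, aeval x (pderiv k q.f) ≠ 0 := by
    by_contra! H
    obtain ⟨w, hw⟩ := hs.ext Ω x h0 hx
    refine hw (q.T_eq_sum _ _ _ _ _ |>.trans (Finset.sum_eq_zero fun i _ => ?_))
    have h := H i
    rw [q.aeval_pderiv, mul_eq_zero, or_iff_right (by norm_num)] at h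
    simp [h]
  refine closure_minimal (fun y hy => ?_) isClosed_closure
    (hyp hK (hs.prime (by omega)) h1 ((q.aeval_f x).trans hx) hk)
  obtain ⟨p1, p2, h3, h4, h5⟩ := h2 Ω y ((q.aeval_f y).symm.trans hy.1) hy.2
  exact xdense_step hK hs hΔ hN h5 (xdense_step hK hs hΔ hN h4 (xdense_step hK hs hΔ hN h3
    (subset_closure ⟨fun i => algebraMap_mem K _, h3.z⟩)))

end

section
variable {σ Ω : Type} [Fintype σ] [DecidableEq σ] [NormedField Ω] [IsAlgClosed Ω] [Algebra ℂ Ω]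
  {K : IntermediateField ℂ Ω} {q : S5 σ} {Δ : MvPolynomial σ ℂ}

omit [IsAlgClosed Ω] in
theorem nc_norm (hK : Fd K) {c : ℂ} (hc : algebraMap ℂ Ω c ≠ 0) : 1 ≤ ‖algebraMap ℂ Ω c‖ := by
  have h1 := hK.c1 c⁻¹
  rw [map_inv₀, norm_inv] at h1
  exact (inv_le_one₀ (norm_pos_iff.2 hc)).1 h1

theorem nc_open (hK : Fd K) : IsOpen (NC : Set (σ → Ω)) := by
  have hcl : IsClosed (Set.range (algebraMap ℂ Ω)) := by
    refine Metric.isClosed_of_pairwise_le_dist one_pos ?_
    rintro _ ⟨a, rfl⟩ _ ⟨b, rfl⟩ hab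
    rw [dist_eq_norm, ← map_sub]
    exact nc_norm hK (by rw [map_sub]; exact sub_ne_zero.2 hab)
  have he : (NC : Set (σ → Ω)) = ⋃ i, ⋃ j, {p : σ → Ω | p j ≠ 0} ∩
      (fun p : σ → Ω => p i / p j) ⁻¹' (Set.range (algebraMap ℂ Ω))ᶜ := by
    ext p
    simp only [NC, Set.mem_ofPred_eq, Set.mem_iUnion, Set.mem_inter_iff, Set.mem_preimage,
      Set.mem_compl_iff, Set.mem_range, not_exists]
    refine exists_congr fun i => exists_congr fun j => and_congr_right fun hj =>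
      forall_congr' fun c => not_congr ?_
    rw [eq_div_iff hj, eq_comm]
  rw [he]
  refine isOpen_iUnion fun i => isOpen_iUnion fun j => ?_
  refine ContinuousOn.isOpen_inter_preimage ?_ (isOpen_ne_fun (continuous_apply j) continuous_const)
    hcl.isOpen_compl
  exact (continuous_apply i).continuousOn.div (continuous_apply j).continuousOn fun p hp => hp

theorem nc_dense (hK : Fd K) (hs : q.Sm ℂ) (hN : 9 ≤ Fintype.card σ) {x : σ → Ω} (h0 : x ≠ 0)
    (hx : q.T x x x x x = 0) : x ∈ closure (NC ∩ {p | q.T p p p p p = 0}) := by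
  by_cases hn : x ∈ (NC : Set (σ → Ω))
  · exact subset_closure ⟨hn, hx⟩
  have : CharZero Ω := charZero_of_injective_algebraMap (algebraMap ℂ Ω).injective
  have := hK.nb
  obtain ⟨w, hw⟩ := hs.ext Ω x h0 hx
  obtain ⟨k, hk⟩ : ∃ k, q.T x x x x (Pi.single k 1) ≠ 0 := by
    by_contra h
    push Not at h
    exact hw (by rw [q.T_eq_sum]; simp [h])
  obtain ⟨j, hjk, hj⟩ : ∃ j, j ≠ k ∧ x j ≠ 0 := by
    by_contra h
    push Not at h
    have hxe : x = x k • (Pi.single k 1 : σ → Ω) := funext fun m => by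
      by_cases hm : m = k
      · simp [hm]
      · simp [hm, h m hm]
    have h5 := q.smul5 (x k) x x x x (Pi.single k 1)
    rw [← hxe, hx] at h5
    rcases mul_eq_zero.1 h5.symm with h6 | h6
    · exact h0 (by rw [hxe, h6, zero_smul])
    · exact hk h6
  obtain ⟨i, hi⟩ : ∃ i, i ∉ ({j, k} : Finset σ) := by
    by_contra h
    push Not at h
    have h1 := Finset.card_le_card (s := Finset.univ) fun m _ => h m
    have h2 := Finset.card_le_two (a := j) (b := k)
    rw [Finset.card_univ] at h1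
    omega
  rw [Finset.mem_insert, Finset.mem_singleton, not_or] at hi
  obtain ⟨c, hc⟩ : ∃ c : ℂ, x i = algebraMap ℂ Ω c * x j := by
    by_contra h
    push Not at h
    exact hn ⟨i, j, hj, h⟩
  obtain ⟨v, hv⟩ : ∃ v : σ → Ω, v = Pi.single k 1 := ⟨_, rfl⟩
  obtain ⟨y, hy⟩ : ∃ y : Ω → σ → Ω, y = fun ε => x + ε • (Pi.single i 1 : σ → Ω) := ⟨_, rfl⟩
  rw [← hv] at hk
  have hyc : Continuous y := by rw [hy]; fun_prop
  have hy0 : y 0 = x := by simp [hy]
  have lim : ∀ {Y : Type} [TopologicalSpace Y] {g : Ω → Y}, Continuous g →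
      Tendsto g (𝓝[≠] 0) (𝓝 (g 0)) := fun hg => (hg.tendsto 0).mono_left nhdsWithin_le_nhds
  obtain ⟨s, hs0, hs1⟩ := root_lim hK (l := 𝓝[≠] (0 : Ω)) (a := 5 * q.T x x x x v)
    (fun ε => Polynomial.C (q.T (y ε) (y ε) (y ε) (y ε) (y ε))
      + Polynomial.C (5 * q.T (y ε) (y ε) (y ε) (y ε) v) * Polynomial.X
      + Polynomial.C (10 * q.T (y ε) (y ε) (y ε) v v) * Polynomial.X ^ 2
      + Polynomial.C (10 * q.T (y ε) (y ε) v v v) * Polynomial.X ^ 3
      + Polynomial.C (5 * q.T (y ε) v v v v) * Polynomial.X ^ 4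
      + Polynomial.C (q.T v v v v v) * Polynomial.X ^ 5)
    (by
      have h := lim (g := fun ε => q.T (y ε) (y ε) (y ε) (y ε) (y ε)) (by fun_prop)
      rw [hy0, hx] at h
      simpa using h)
    (by
      have h := lim (g := fun ε => 5 * q.T (y ε) (y ε) (y ε) (y ε) v) (by fun_prop)
      rw [hy0] at h
      simpa using h)
    (mul_ne_zero (by norm_num) hk)
  have hp : Tendsto (fun ε => (1 : Ω) • y ε + s ε • v) (𝓝[≠] 0) (𝓝 x) := by
    have h := ((lim hyc).const_smul (1 : Ω)).add (hs0.smul_const v)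
    rwa [hy0, one_smul, zero_smul, add_zero] at h
  refine mem_closure_of_tendsto hp ?_
  have hsm : ∀ᶠ ε in 𝓝[≠] (0 : Ω), ‖ε‖ < ‖x j‖ := by
    have h := lim (g := fun ε : Ω => ‖ε‖) continuous_norm
    rw [norm_zero] at h
    exact h.eventually_lt_const (norm_pos_iff.2 hj)
  filter_upwards [hs1, hsm, self_mem_nhdsWithin] with ε h1 h2 h3
  have e1 : ((1 : Ω) • y ε + s ε • v) j = x j := by simp [hy, hv, hjk, Ne.symm hi.1]
  have e2 : ((1 : Ω) • y ε + s ε • v) i = x i + ε := by simp [hy, hv, hi.2]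
  refine ⟨⟨i, j, by rwa [e1], fun c' hc' => ?_⟩, ?_⟩
  · rw [e1, e2, hc] at hc'
    have h4 : ε = algebraMap ℂ Ω (c' - c) * x j := by rw [map_sub]; linear_combination hc'
    have h5 : algebraMap ℂ Ω (c' - c) ≠ 0 := fun h => h3 (by rw [h4, h, zero_mul]; rfl)
    have h6 := nc_norm hK h5
    rw [h4, norm_mul] at h2
    nlinarith [norm_nonneg (x j)]
  · rw [Set.mem_ofPred_eq, q.expand]
    simp only [Polynomial.eval_add, Polynomial.eval_mul, Polynomial.eval_C, Polynomial.eval_pow,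
      Polynomial.eval_X] at h1
    linear_combination h1

end

section
variable {σ : Type} [Fintype σ] [DecidableEq σ]

theorem concl_of_aff {f : MvPolynomial σ ℂ} {n' : ℕ} (hf : f.IsHomogeneous n') {x : σ → ℂ}
    (g : σ → MvPolynomial (Fin 2) ℂ) (h1 : ∀ a b c : MvPolynomial (Fin 2) ℂ,
      a • g + b • pderiv 0 ∘ g + c • pderiv 1 ∘ g = 0 → a = 0 ∧ b = 0 ∧ c = 0)
    (h2 : aeval g f = 0) (h3 : ∀ h : MvPolynomial σ ℂ,
      aeval ((X 0 : MvPolynomial (Fin 3) ℂ) • rename Fin.succ ∘ g) h = 0 → eval x h = 0) :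
    Concl f x := by
  obtain ⟨n, hn⟩ : ∃ n, ∀ i, (g i).totalDegree ≤ n :=
    ⟨Finset.univ.sup fun i => (g i).totalDegree, fun i =>
      Finset.le_sup (f := fun i => (g i).totalDegree) (Finset.mem_univ i)⟩
  let r : MvPolynomial (Fin 2) ℂ →ₐ[ℂ] MvPolynomial (Fin 3) ℂ := rename Fin.succ
  let G : σ → MvPolynomial (Fin 3) ℂ := fun i =>
    ∑ k ∈ Finset.range (n + 2), X 0 ^ (n + 1 - k) * r (homogeneousComponent k (g i))
  let φ : MvPolynomial (Fin 3) ℂ →ₐ[ℂ] MvPolynomial (Fin 3) ℂ :=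
    aeval (Fin.cons (X 0) fun j => X 0 * X j.succ)
  have h4 : φ ∘ G = (X 0 ^ (n + 1) : MvPolynomial (Fin 3) ℂ) • r ∘ g := funext fun i => by
    have : g i = ∑ k ∈ Finset.range (n + 2), homogeneousComponent k (g i) := by
      conv_lhs => rw [← sum_homogeneousComponent (g i)]
      refine Finset.sum_subset (Finset.range_subset_range.2 (by have := hn i; omega))
        fun k _ hk => homogeneousComponent_eq_zero _ _ (by simpa using hk)
    simp only [Function.comp, G, map_sum, Pi.smul_apply, smul_eq_mul]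
    conv_rhs => rw [this, map_sum, Finset.mul_sum]
    refine Finset.sum_congr rfl fun k hk => ?_
    rw [map_mul, map_pow, aeval_X, aeval_rename]
    change _ * aeval (fun j : Fin 2 => X 0 * X j.succ) _ = _
    rw [aeval_mul_homog (homogeneousComponent_isHomogeneous k _), ← mul_assoc, Fin.cons_zero,
      ← pow_add, Nat.sub_add_cancel (by simpa [Nat.lt_succ_iff] using hk)]
    exact congrArg _ (AlgHom.congr_fun (rename_eq_aeval Fin.succ) _).symm
  have h5 : ∀ p, φ p = 0 → p = 0 := fun p hp => by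
    refine (mul_eq_zero.1 (MvPolynomial.funext fun y => ?_ : p * X 0 = 0)).resolve_right
      (X_ne_zero 0)
    by_cases hy : y 0 = 0
    · simp [hy]
    have := congrArg (eval (Fin.cons (y 0) fun j => y j.succ / y 0)) hp
    rw [eval_aeval', map_zero] at this
    rw [map_mul, map_zero, ← zero_mul (eval y (X 0)), ← this]
    congr 3
    funext i
    refine Fin.cases ?_ (fun i => ?_) i
    · simp
    · simp; field_simp
  obtain ⟨a, b, c, h6⟩ := H61.minor h1
  refine ⟨n + 1, G, fun i => IsHomogeneous.sum _ _ _ fun k hk => ?_, ⟨a, b, c, .of_comp φ ?_⟩,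
    h5 _ ?_, fun h hh => h3 h (MvPolynomial.funext fun y => ?_)⟩
  · have := (isHomogeneous_X_pow (R := ℂ) (0 : Fin 3) (n + 1 - k)).mul
      ((homogeneousComponent_isHomogeneous k (g i)).rename_isHomogeneous (f := Fin.succ))
    rwa [Nat.sub_add_cancel (by simpa [Nat.lt_succ_iff] using hk)] at this
  · obtain ⟨P, hP, h7⟩ : ∃ P : Fin 3 → MvPolynomial (Fin 3) ℂ, φ ∘ ![G a, G b, G c] = P ∧
        ∀ l, P l = X 0 ^ (n + 1) * r (g (![a, b, c] l)) :=
      ⟨_, rfl, fun l => by fin_cases l; exacts [congrFun h4 a, congrFun h4 b, congrFun h4 c]⟩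
    rw [hP, algebraicIndependent_iff]
    refine eq_zero_of_pderiv_closed (RingHom.ker (aeval P : MvPolynomial (Fin 3) ℂ →ₐ[ℂ] _))
      (RingHom.ker_ne_top _) fun i H hH => ?_
    have d0 : ∀ p, pderiv 0 (X 0 ^ (n + 1) * r p) =
        ((n : MvPolynomial (Fin 3) ℂ) + 1) * X 0 ^ n * r p := fun p => by
      rw [Derivation.leibniz, pderiv_eq_zero_of_notMem_vars (f := r p) fun h => by
        obtain ⟨j, -, hj⟩ := mem_vars_rename _ _ h
        exact Fin.succ_ne_zero _ hj]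
      simp [mul_comm]
    have d1 : ∀ (j : Fin 2) p, pderiv j.succ (X 0 ^ (n + 1) * r p) =
        X 0 ^ (n + 1) * r (pderiv j p) := fun j p => by
      rw [Derivation.leibniz, pderiv_rename (Fin.succ_injective _), pderiv_pow,
        pderiv_X_of_ne (Fin.succ_ne_zero j).symm]
      simp [r]
    have h8 := Matrix.eq_zero_of_mulVec_eq_zero (M := .of fun k l => pderiv k (P l))
      (v := fun l => aeval P (pderiv l H)) (fun h0 => ?_) (funext fun k => ?_)
    · exact congrFun h8 i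
    · have e1 := d1 0
      have e2 := d1 1
      simp only [Matrix.det_fin_three, Matrix.of_apply, h7, Matrix.cons_val, d0,
        Fin.succ_zero_eq_one, Fin.succ_one_eq_two] at h0 e1 e2
      simp only [e1, e2] at h0
      refine mul_ne_zero (mul_ne_zero (mul_ne_zero (Nat.cast_add_one_ne_zero n) (pow_ne_zero n
        (X_ne_zero 0))) (pow_ne_zero 2 (pow_ne_zero (n + 1) (X_ne_zero 0))))
          ((map_ne_zero_iff r (rename_injective _ (Fin.succ_injective _))).2 h6) ?_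
      simp only [map_add, map_sub, map_mul, Function.comp]
      linear_combination h0
    · have := pderiv_aeval P k H
      rw [show aeval P H = 0 from hH, map_zero] at this
      simp only [Matrix.mulVec, dotProduct, Matrix.of_apply, Pi.zero_apply, this, mul_comm]
  · have e : (fun i => φ (G i)) = fun i => X 0 ^ (n + 1) * r (g i) := h4
    rw [comp_aeval_apply, e, aeval_mul_homog hf, ← comp_aeval_apply, h2, map_zero, mul_zero]
  · obtain ⟨s, hs⟩ := IsAlgClosed.exists_pow_nat_eq (y 0) n.succ_pos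
    have := congrArg (eval (Fin.cons s (Fin.tail y)) ∘ φ) hh
    simp only [Function.comp, comp_aeval_apply, map_zero] at this
    rw [eval_aeval'] at this ⊢
    rw [map_zero, ← this]
    congr 2
    funext i
    rw [show φ (G i) = _ from congrFun h4 i]
    simp only [Pi.smul_apply, smul_eq_mul, map_mul, map_pow, eval_X, Function.comp, r,
      eval_rename, Fin.cons_zero, hs]
    rfl

end

section
variable {σ A B : Type} [Fintype σ] [CommRing A] [Algebra ℂ A] [CommRing B] [Algebra ℂ B]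
  (q : S5 σ)

theorem surf_map_gw (φ : A →ₐ[ℂ] B) (p w d e : σ → A) (u : A) :
    φ ∘ gw q p w d e u = gw q (φ ∘ p) (φ ∘ w) (φ ∘ d) (φ ∘ e) (φ u) := funext fun i => by
  simp [gw, q.map φ, map_ofNat]

theorem surf_map_gv (φ : A →ₐ[ℂ] B) (p y w : σ → A) :
    φ ∘ gv q p y w = gv q (φ ∘ p) (φ ∘ y) (φ ∘ w) := funext fun i => by
  simp [gv, q.map φ, map_ofNat]

theorem surf_map_res5 (φ : A →ₐ[ℂ] B) (p v : σ → A) :
    φ ∘ res5 q p v = res5 q (φ ∘ p) (φ ∘ v) := funext fun i => by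
  simp [res5, q.map φ, map_ofNat]

theorem surf_gv_smul (r s t : A) (p y w : σ → A) :
    gv q (r • p) (s • y) (t • w) = (r ^ 2 * s * t ^ 3) • gv q p y w := funext fun i => by
  simp only [gv, q.smul1, q.smul2, q.smul3, q.smul4, q.smul5, Pi.sub_apply, Pi.smul_apply,
    smul_eq_mul]
  ring

theorem surf_res5_smul (r s : A) (p v : σ → A) :
    res5 q (r • p) (s • v) = (r * s ^ 5) • res5 q p v := funext fun i => by
  simp only [res5, q.smul1, q.smul2, q.smul3, q.smul4, q.smul5, Pi.sub_apply, Pi.smul_apply,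
    smul_eq_mul]
  ring

theorem surf_gw_zero (p w d e : σ → A) : gw q p w d e 0 = (2 * q.T p p p w e) • w := by simp [gw]

variable {q} {p y w d e v : σ → A}

theorem surf_gv1 (y1 : q.T p p p p y = 0) (w1 : q.T p p p p w = 0) : q.T p p p p (gv q p y w) = 0 := by
  rw [gv, q.sub5, q.smul5, q.smul5, y1, w1]; ring

theorem surf_gv2 (yy : q.T p p p y y = 0) (yw : q.T p p p y w = 0) (ww : q.T p p p w w = 0) :
    q.T p p p (gv q p y w) (gv q p y w) = 0 := by
  simp only [gv, q.sub4, q.sub5, q.smul4, q.smul5, yy, yw, ww, q.T45 p p p w y]; ring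

theorem surf_gv3 (yyy : q.T p p y y y = 0) (yyw : q.T p p y y w = 0) :
    q.T p p (gv q p y w) (gv q p y w) (gv q p y w) = 0 := by
  have e1 : q.T p p y w y = 0 := by rw [q.T45, yyw]
  have e2 : q.T p p w y y = 0 := by rw [q.T34, e1]
  have e3 : q.T p p w y w = q.T p p y w w := q.T34 _ _ _ _ _
  have e4 : q.T p p w w y = q.T p p y w w := by rw [q.T45, e3]
  simp only [gv, q.sub3, q.sub4, q.sub5, q.smul3, q.smul4, q.smul5, yyy, yyw, e1, e2, e3, e4]
  ring

theorem surf_res5_z [DecidableEq σ] (z : q.T p p p p p = 0) (g1 : q.T p p p p v = 0)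
    (g2 : q.T p p p v v = 0) (g3 : q.T p p v v v = 0) :
    q.T (res5 q p v) (res5 q p v) (res5 q p v) (res5 q p v) (res5 q p v) = 0 := by
  rw [res5, sub_eq_add_neg, ← neg_smul, q.expand, z, g1, g2, g3]; ring

theorem surf_der_comb {R : Type} [CommRing R] [Algebra R A] (D : Derivation R A A) (a b : A)
    (x z : σ → A) :
    D ∘ (a • x - b • z) = D a • x + a • D ∘ x - (D b • z + b • D ∘ z) := funext fun i => by
  simp only [Function.comp, Pi.sub_apply, Pi.add_apply, Pi.smul_apply, smul_eq_mul, map_sub,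
    Derivation.leibniz]
  ring

theorem surf_of_minor [IsDomain A] {u v w : σ → A} {i j k : σ}
    (h : (v i * w j - v j * w i) * u k - (u i * w j - u j * w i) * v k
      + (u i * v j - u j * v i) * w k ≠ 0) (a b c : A) (H : a • u + b • v + c • w = 0) :
    a = 0 ∧ b = 0 ∧ c = 0 := by
  have h1 := congrFun H i
  have h2 := congrFun H j
  have h3 := congrFun H k
  simp only [Pi.add_apply, Pi.smul_apply, smul_eq_mul, Pi.zero_apply] at h1 h2 h3
  exact ⟨(mul_eq_zero.1 (by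
      linear_combination (v j * w k - v k * w j) * h1 - (v i * w k - v k * w i) * h2
        + (v i * w j - v j * w i) * h3)).resolve_right h,
    (mul_eq_zero.1 (by
      linear_combination -(u j * w k - u k * w j) * h1 + (u i * w k - u k * w i) * h2
        - (u i * w j - u j * w i) * h3)).resolve_right h,
    (mul_eq_zero.1 (by
      linear_combination (u j * v k - u k * v j) * h1 - (u i * v k - u k * v i) * h2
        + (u i * v j - u j * v i) * h3)).resolve_right h⟩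

/-- The derivative of the residual point along the curve leaves the tangent space. -/
theorem surf_der_res5 (D : Derivation ℂ A A) (z : q.T p p p p p = 0) (g1 : q.T p p p p v = 0) :
    5 * q.T p p p p (D ∘ res5 q p v) = 100 * q.T p v v v v * q.T p p p (D ∘ p) v := by
  have s1 : ∀ a b : σ → A, q.T a p p p b = q.T p p p a b := fun a b => by
    rw [q.T12, q.T23, q.T34]
  have s2 : ∀ a b : σ → A, q.T p a p p b = q.T p p p a b := fun a b => by rw [q.T23, q.T34]
  have h0 := q.der D p p p p p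
  rw [z, map_zero, s1, s2, q.T34 p p (D ∘ p), ← q.T45 p p p (D ∘ p)] at h0
  have h1 : q.T p p p p (res5 q p v) = 0 := by rw [res5, q.sub5, q.smul5, q.smul5, z, g1]; ring
  have h2 := q.der D p p p p (res5 q p v)
  rw [h1, map_zero, s1, s2, q.T34 p p (D ∘ p)] at h2
  have h3 : q.T p p p (D ∘ p) (res5 q p v) = q.T v v v v v * q.T p p p (D ∘ p) p -
      5 * q.T p v v v v * q.T p p p (D ∘ p) v := by rw [res5, q.sub5, q.smul5, q.smul5]
  linear_combination -5 * h2 - 20 * h3 + 4 * q.T v v v v v * h0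

end

theorem surf_ev_d0 (F : MvPolynomial (Fin 2) ℂ) :
    aeval ![Polynomial.X, 0] (pderiv 0 F) =
      Polynomial.derivative (aeval ![(Polynomial.X : Polynomial ℂ), 0] F) := by
  induction F using MvPolynomial.induction_on with
  | C c => rw [pderiv_C, map_zero, aeval_C, Polynomial.algebraMap_eq, Polynomial.derivative_C]
  | add a b ha hb => simp only [map_add, ha, hb]
  | mul_X a i ha =>
    rw [pderiv_mul, map_add, map_mul, map_mul, map_mul, Polynomial.derivative_mul, ha]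
    fin_cases i <;> simp

theorem surf_exists_ev : ∃ (ι : Polynomial ℂ →ₐ[ℂ] MvPolynomial (Fin 2) ℂ)
    (ev : MvPolynomial (Fin 2) ℂ →ₐ[ℂ] Polynomial ℂ), (∀ a, ev (ι a) = a) ∧
      ev (X 0) = Polynomial.X ∧ ev (X 1) = 0 ∧ (∀ a, pderiv 1 (ι a) = 0) ∧
        ∀ F, ev (pderiv 0 F) = Polynomial.derivative (ev F) :=
  ⟨Polynomial.aeval (X 0), aeval ![Polynomial.X, 0], fun a => by
    rw [← Polynomial.aeval_algHom_apply]; simp, by simp, by simp, fun a => by simp, surf_ev_d0⟩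

section
variable {σ Ω : Type} [Fintype σ] [DecidableEq σ] [NormedField Ω] [IsAlgClosed Ω] [Algebra ℂ Ω]
  {K : IntermediateField ℂ Ω} {q : S5 σ} {Δ : MvPolynomial σ ℂ}

theorem surf {p y w d e : σ → Polynomial ℂ} (h : Par q p y w d e)
    (h' : q.T p p p (Polynomial.derivative ∘ p) (gv q p y w) ≠ 0) {x : σ → ℂ}
    (hx : ∀ H : MvPolynomial σ ℂ, (∀ (A : Type) [CommRing A] [Algebra ℂ A]
      (ψ : Polynomial ℂ →ₐ[ℂ] A) (t : A),
        aeval (t • ψ ∘ ((2 * q.T p p p w e) ^ 15 • res5 q p (gv q p y w))) H = 0) → eval x H = 0) :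
    Concl q.f x := by
  obtain ⟨ι, ev, e3, e4, e1, d2, d0⟩ := surf_exists_ev
  have e0 : ∀ a : σ → Polynomial ℂ, ev ∘ ι ∘ a = a := fun a => funext fun i => e3 (a i)
  have d1 : ∀ a : σ → Polynomial ℂ, pderiv 1 ∘ ι ∘ a = 0 := fun a => funext fun i => d2 (a i)
  have m : ∀ {a b c d e : σ → Polynomial ℂ}, q.T a b c d e = 0 →
      q.T (ι ∘ a) (ι ∘ b) (ι ∘ c) (ι ∘ d) (ι ∘ e) = 0 := fun h => by rw [← q.map ι, h, map_zero]
  have hκ : 2 * q.T p p p w e ≠ 0 := mul_ne_zero two_ne_zero h.we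
  obtain ⟨W, hW⟩ : ∃ W, W = gw q (ι ∘ p) (ι ∘ w) (ι ∘ d) (ι ∘ e) (X 1) := ⟨_, rfl⟩
  have w0 : ev ∘ W = (2 * q.T p p p w e) • w := by
    rw [hW, surf_map_gw, e0, e0, e0, e0, e1, surf_gw_zero]
  have w1 : ev ∘ pderiv 1 ∘ W = (2 * q.T p p p w e) • d := by
    have n1 : pderiv 1 (2 * q.T (ι ∘ p) (ι ∘ p) (ι ∘ p) (ι ∘ w) (ι ∘ e)) = 0 := by
      rw [← q.map ι, ← map_ofNat ι 2, ← map_mul, d2]
    have n2 : pderiv 1 ∘ (ι ∘ w + (X 1 : MvPolynomial (Fin 2) ℂ) • ι ∘ d) = ι ∘ d :=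
      funext fun i => by simp [d2]
    have n3 : ev (pderiv 1 (X 1 ^ 2 * q.T (ι ∘ p) (ι ∘ p) (ι ∘ p) (ι ∘ d) (ι ∘ d))) = 0 := by
      rw [pow_two, (pderiv 1).leibniz, (pderiv 1).leibniz]
      simp only [smul_eq_mul, map_add, map_mul, e1]
      ring
    rw [hW, gw, surf_der_comb, n1, n2, d1]
    funext i
    have := congrFun (e0 d) i
    simp only [Function.comp, Pi.sub_apply, Pi.add_apply, Pi.smul_apply, smul_eq_mul, map_sub,
      map_add, map_mul, n3, Pi.zero_apply, map_zero, map_ofNat, q.map ev] at this ⊢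
    have e2 : ∀ a : σ → Polynomial ℂ, (fun x => ev (ι (a x))) = a := e0
    simp only [Function.comp_def, e2, this]
    ring
  have t1 : q.T (ι ∘ p) (ι ∘ p) (ι ∘ p) (ι ∘ p) W = 0 := by
    simp only [hW, gw, q.sub5, q.smul5, q.add5, m h.w1, m h.d1, m h.e1]; ring
  have t2 : q.T (ι ∘ p) (ι ∘ p) (ι ∘ p) (ι ∘ y) W = 0 := by
    simp only [hW, gw, q.sub5, q.smul5, q.add5, m h.yw, m h.yd, m h.ye]; ring
  have t3 : q.T (ι ∘ p) (ι ∘ p) (ι ∘ y) (ι ∘ y) W = 0 := by
    simp only [hW, gw, q.sub5, q.smul5, q.add5, m h.yyw, m h.yyd, m h.yye]; ring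
  have t4 : q.T (ι ∘ p) (ι ∘ p) (ι ∘ p) W W = 0 := by
    simp only [hW, gw, q.sub4, q.smul4, q.add4, q.sub5, q.smul5, q.add5, m h.ww, m h.ee, m h.wd,
      m h.ed, q.T45 _ _ _ (ι ∘ d) (ι ∘ w), q.T45 _ _ _ (ι ∘ d) (ι ∘ e),
      q.T45 _ _ _ (ι ∘ e) (ι ∘ w)]
    ring
  obtain ⟨κ, hk⟩ : ∃ κ, κ = 2 * q.T p p p w e := ⟨_, rfl⟩
  rw [← hk] at hx hκ w0 w1
  obtain ⟨V, hV⟩ : ∃ V, V = gv q (ι ∘ p) (ι ∘ y) W := ⟨_, rfl⟩
  have v0 : ev ∘ V = κ ^ 3 • gv q p y w := by
    have := surf_gv_smul q 1 1 κ p y w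
    rw [one_smul, one_smul] at this
    rw [hV, surf_map_gv, e0, e0, w0, this]; simp
  have g0 : ev ∘ res5 q (ι ∘ p) V = res5 q p (κ ^ 3 • gv q p y w) := by
    rw [surf_map_res5, e0, v0]
  have g0' : res5 q p (κ ^ 3 • gv q p y w) = κ ^ 15 • res5 q p (gv q p y w) := by
    have := surf_res5_smul q 1 (κ ^ 3) p (gv q p y w)
    rwa [one_smul, one_mul, ← pow_mul] at this
  have u1 := surf_gv1 h.y1 h.w1
  obtain ⟨a1, b1, c1, c2, hc, g1⟩ : ∃ a b c c' : Polynomial ℂ, c' ≠ 0 ∧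
      ev ∘ pderiv 1 ∘ res5 q (ι ∘ p) V = a • p + b • y + c • w + c' • d := by
    have l : ∀ (a b : MvPolynomial (Fin 2) ℂ) (x z : σ → MvPolynomial (Fin 2) ℂ),
        pderiv 1 ∘ x = 0 → ev ∘ pderiv 1 ∘ (a • x - b • z) = ev (pderiv 1 a) • ev ∘ x -
          (ev (pderiv 1 b) • ev ∘ z + ev b • ev ∘ pderiv 1 ∘ z) := fun a b x z hx => by
      rw [surf_der_comb, hx]
      funext i
      simp
    have l1 := l (q.T (ι ∘ p) (ι ∘ p) W W W) (3 * q.T (ι ∘ p) (ι ∘ p) (ι ∘ y) W W) _ W (d1 y)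
    have l2 := l (q.T V V V V V) (5 * q.T (ι ∘ p) V V V V) _ V (d1 p)
    rw [← gv, ← hV, e0, w0, w1] at l1
    rw [← res5, e0, v0, l1, gv] at l2
    have n1 : ev (3 * q.T (ι ∘ p) (ι ∘ p) (ι ∘ y) W W) ≠ 0 := by
      rw [map_mul, map_ofNat, q.map ev, e0, e0, w0, q.smul4, q.smul5]
      exact mul_ne_zero (by norm_num) (mul_ne_zero hκ (mul_ne_zero hκ h.yww))
    have n2 : ev (5 * q.T (ι ∘ p) V V V V) ≠ 0 := by
      have := pow_ne_zero 3 hκ
      rw [map_mul, map_ofNat, q.map ev, e0, v0, q.smul2, q.smul3, q.smul4, q.smul5]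
      exact mul_ne_zero (by norm_num) (mul_ne_zero this (mul_ne_zero this (mul_ne_zero this
        (mul_ne_zero this h.g4))))
    generalize ev (3 * q.T (ι ∘ p) (ι ∘ p) (ι ∘ y) W W) = b, ev (5 * q.T (ι ∘ p) V V V V) = η,
      ev (pderiv 1 (q.T (ι ∘ p) (ι ∘ p) W W W)) = a', ev (pderiv 1 (q.T V V V V V)) = α,
      ev (pderiv 1 (3 * q.T (ι ∘ p) (ι ∘ p) (ι ∘ y) W W)) = b',
      ev (pderiv 1 (5 * q.T (ι ∘ p) V V V V)) = η' at l2 n1 n2
    refine ⟨α, -(η' * κ ^ 3 * q.T p p w w w) - η * a',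
      η' * κ ^ 3 * (3 * q.T p p y w w) + η * b' * κ, η * b * κ,
      mul_ne_zero (mul_ne_zero n2 n1) hκ, l2.trans (funext fun i => ?_)⟩
    simp only [Pi.sub_apply, Pi.add_apply, Pi.smul_apply, smul_eq_mul]
    ring
  obtain ⟨a0, b0, c0, g2⟩ : ∃ a b c : Polynomial ℂ,
      res5 q p (κ ^ 3 • gv q p y w) = a • p + b • y + c • w := by
    rw [res5]
    generalize q.T (κ ^ 3 • gv q p y w) _ _ _ _ = a, 5 * q.T p (κ ^ 3 • gv q p y w) _ _ _ = b
    refine ⟨a, -(b * κ ^ 3 * q.T p p w w w), b * κ ^ 3 * (3 * q.T p p y w w), funext fun i => ?_⟩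
    simp only [gv, Pi.sub_apply, Pi.add_apply, Pi.smul_apply, smul_eq_mul]
    ring
  have k1 := surf_der_res5 (q := q) (v := κ ^ 3 • gv q p y w) Polynomial.derivative' h.z
    (by rw [q.smul5, u1, mul_zero])
  have k2 : q.T p p p p (Polynomial.derivative ∘ res5 q p (κ ^ 3 • gv q p y w)) ≠ 0 := fun h0 => by
    change 5 * q.T p p p p (Polynomial.derivative ∘ _) =
      100 * _ * q.T p p p (Polynomial.derivative ∘ p) _ at k1
    have := pow_ne_zero 3 hκ
    rw [h0, mul_zero, q.smul2, q.smul3, q.smul4, q.smul5, q.smul5] at k1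
    exact mul_ne_zero (mul_ne_zero (by norm_num) (mul_ne_zero this (mul_ne_zero this (mul_ne_zero
      this (mul_ne_zero this h.g4))))) (mul_ne_zero this h') k1.symm
  obtain ⟨i, j, k, hm⟩ := H61.minor (u := res5 q p (κ ^ 3 • gv q p y w))
    (v := Polynomial.derivative ∘ res5 q p (κ ^ 3 • gv q p y w))
    (w := a1 • p + b1 • y + c1 • w + c2 • d) fun α β γ H => by
      have l := congrArg (q.T p p p p) H
      rw [q.add5, q.add5, q.smul5, q.smul5, q.smul5, q.zero5] at l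
      have l0 : q.T p p p p (res5 q p (κ ^ 3 • gv q p y w)) = 0 := by
        simp only [g2, q.add5, q.smul5, h.z, h.y1, h.w1]; ring
      have l1 : q.T p p p p (a1 • p + b1 • y + c1 • w + c2 • d) = 0 := by
        simp only [q.add5, q.smul5, h.z, h.y1, h.w1, h.d1]; ring
      obtain rfl : β = 0 := (mul_eq_zero.1 (by
        linear_combination l - α * l0 - γ * l1)).resolve_right k2
      obtain rfl : γ = 0 := (mul_eq_zero.1 (h.ind (α * a0 + γ * a1) (α * b0 + γ * b1)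
        (α * c0 + γ * c1) (γ * c2) (funext fun i => by
          have := congrFun H i
          simp only [g2, Pi.add_apply, Pi.smul_apply, smul_eq_mul, Pi.zero_apply] at this ⊢
          linear_combination this)).1).resolve_right hc
      refine ⟨by_contra fun hα => k2 ?_, rfl, rfl⟩
      rw [zero_smul, zero_smul, add_zero, add_zero] at H
      rw [(smul_eq_zero.1 H).resolve_left hα]
      exact (congrArg _ (_root_.funext fun _ => map_zero _)).trans (q.zero5 p p p p)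
  refine concl_of_aff q.isHomogeneous_f (res5 q (ι ∘ p) V) (surf_of_minor (i := i) (j := j) (k := k)
    fun h0 => hm ?_) ?_ fun H hH => hx H fun A _ _ ψ t => ?_
  · have := congrArg ev h0
    have f0 := congrFun g0
    have f1 := congrFun g1
    simp only [Function.comp] at f0 f1
    simp only [Function.comp, map_add, map_sub, map_mul, map_zero, d0, f0, f1] at this
    exact this
  · rw [q.aeval_f, hV]
    exact surf_res5_z (m h.z) (surf_gv1 (m h.y1) t1) (surf_gv2 (m h.yy) t2 t4) (surf_gv3 (m h.yyy) t3)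
  · have := congrArg (aeval ![t, ψ Polynomial.X, 0]) hH
    rw [map_zero, comp_aeval_apply] at this
    refine (congrArg (aeval · H) (funext fun i => ?_)).trans this
    have e2 : ∀ F : MvPolynomial (Fin 2) ℂ,
        aeval ![t, ψ Polynomial.X, 0] (rename Fin.succ F) = ψ (ev F) := fun F =>
      AlgHom.congr_fun (MvPolynomial.algHom_ext fun i => by fin_cases i <;> simp [e4, e1] :
        (aeval ![t, ψ Polynomial.X, 0]).comp (rename Fin.succ) = ψ.comp ev) F
    rw [← g0', ← g0]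
    simp only [Pi.smul_apply, smul_eq_mul, map_mul, aeval_X, Matrix.cons_val, Function.comp, e2]

end

section
variable {σ A B : Type} [Fintype σ] [CommRing A] [Algebra ℂ A] [CommRing B] [Algebra ℂ B]
  (q : S5 σ)

theorem final_map_gv (φ : A →ₐ[ℂ] B) (p y w : σ → A) :
    φ ∘ gv q p y w = gv q (φ ∘ p) (φ ∘ y) (φ ∘ w) := funext fun i => by
  simp [gv, q.map φ, map_ofNat]

theorem final_map_res5 (φ : A →ₐ[ℂ] B) (p v : σ → A) :
    φ ∘ res5 q p v = res5 q (φ ∘ p) (φ ∘ v) := funext fun i => by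
  simp [res5, q.map φ, map_ofNat]

theorem final_gv_smul (r s t : A) (p y w : σ → A) :
    gv q (r • p) (s • y) (t • w) = (r ^ 2 * s * t ^ 3) • gv q p y w := funext fun i => by
  simp only [gv, q.smul1, q.smul2, q.smul3, q.smul4, q.smul5, Pi.sub_apply, Pi.smul_apply,
    smul_eq_mul]
  ring

theorem final_res5_smul (r s : A) (p v : σ → A) :
    res5 q (r • p) (s • v) = (r * s ^ 5) • res5 q p v := funext fun i => by
  simp only [res5, q.smul1, q.smul2, q.smul3, q.smul4, q.smul5, Pi.sub_apply, Pi.smul_apply,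
    smul_eq_mul]
  ring

variable {q} {p y w : σ → A}

theorem final_gv1 (y1 : q.T p p p p y = 0) (w1 : q.T p p p p w = 0) : q.T p p p p (gv q p y w) = 0 := by
  rw [gv, q.sub5, q.smul5, q.smul5, y1, w1]; ring

end

section
variable {σ Ω : Type} [Fintype σ] [DecidableEq σ] [NormedField Ω] [IsAlgClosed Ω] [Algebra ℂ Ω]
  {K : IntermediateField ℂ Ω} {q : S5 σ} {Δ : MvPolynomial σ ℂ}

theorem final (hK : Fd K) {p y w d e : σ → Ω} (hp : In K p) (hy : In K y) (hw : In K w)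
    (hd : In K d) (he : In K e) (h : Par q p y w d e) (D : Derivation ℂ Ω Ω)
    (h' : q.T p p p (D ∘ p) (gv q p y w) ≠ 0) {x : σ → ℂ} {s : Ω}
    (hx : ‖s • res5 q p (gv q p y w) - up Ω x‖ < 1) : Concl q.f x := by
  obtain ⟨ρ, -, hρ, b, hb, P, hP⟩ := hK.fin (Fin 5 × σ) (fun a => ![p, y, w, d, e] a.1 a.2)
    fun a => by
      obtain ⟨a, i⟩ := a
      fin_cases a
      exacts [hp i, hy i, hw i, hd i, he i]
  obtain ⟨φ, hφ⟩ : ∃ φ : Polynomial ℂ →ₐ[ℂ] Ω, φ = Polynomial.aeval ρ := ⟨_, rfl⟩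
  rw [← hφ] at hρ hP
  have hβ : φ b ≠ 0 := (map_ne_zero_iff _ hρ).2 hb
  generalize φ b = β at hP hβ
  obtain ⟨p', f0⟩ : ∃ a : σ → Polynomial ℂ, φ ∘ a = β • p := ⟨_, funext fun i => hP (0, i)⟩
  obtain ⟨y', f1⟩ : ∃ a : σ → Polynomial ℂ, φ ∘ a = β • y := ⟨_, funext fun i => hP (1, i)⟩
  obtain ⟨w', f2⟩ : ∃ a : σ → Polynomial ℂ, φ ∘ a = β • w := ⟨_, funext fun i => hP (2, i)⟩
  obtain ⟨d', f3⟩ : ∃ a : σ → Polynomial ℂ, φ ∘ a = β • d := ⟨_, funext fun i => hP (3, i)⟩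
  obtain ⟨e', f4⟩ : ∃ a : σ → Polynomial ℂ, φ ∘ a = β • e := ⟨_, funext fun i => hP (4, i)⟩
  have f5 : φ ∘ gv q p' y' w' = β ^ 6 • gv q p y w := by
    rw [final_map_gv, f0, f1, f2, final_gv_smul]; congr 1; ring
  have m : ∀ {a b c d e : σ → Polynomial ℂ} {a' b' c' d' e' : σ → Ω} {r s t u v : Ω},
      φ ∘ a = r • a' → φ ∘ b = s • b' → φ ∘ c = t • c' → φ ∘ d = u • d' → φ ∘ e = v • e' →
      φ (q.T a b c d e) = r * s * t * u * v * q.T a' b' c' d' e' := fun h1 h2 h3 h4 h5 => by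
    rw [q.map, h1, h2, h3, h4, h5, q.smul1, q.smul2, q.smul3, q.smul4, q.smul5]; ring
  have z : ∀ {a : Polynomial ℂ} {r t : Ω}, φ a = r * t → t = 0 → a = 0 := fun h1 h2 =>
    hρ (by rw [h1, h2, mul_zero, map_zero])
  have n : ∀ {a : Polynomial ℂ} {r t : Ω}, φ a = r * t → r ≠ 0 → t ≠ 0 → a ≠ 0 :=
    fun h1 h2 h3 h4 => mul_ne_zero h2 h3 (by rw [← h1, h4, map_zero])
  refine surf (p := p') (y := y') (w := w') (d := d') (e := e')
    ⟨z (m f0 f0 f0 f0 f0) h.z, z (m f0 f0 f0 f0 f1) h.y1, z (m f0 f0 f0 f0 f2) h.w1,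
      z (m f0 f0 f0 f0 f3) h.d1, z (m f0 f0 f0 f0 f4) h.e1, z (m f0 f0 f0 f1 f1) h.yy,
      z (m f0 f0 f0 f1 f2) h.yw, z (m f0 f0 f0 f1 f3) h.yd, z (m f0 f0 f0 f1 f4) h.ye,
      z (m f0 f0 f1 f1 f1) h.yyy, z (m f0 f0 f1 f1 f2) h.yyw, z (m f0 f0 f1 f1 f3) h.yyd,
      z (m f0 f0 f1 f1 f4) h.yye, z (m f0 f0 f0 f2 f2) h.ww, z (m f0 f0 f0 f4 f4) h.ee,
      z (m f0 f0 f0 f2 f3) h.wd, z (m f0 f0 f0 f4 f3) h.ed,
      n (m f0 f0 f0 f2 f4) (by simp [hβ]) h.we, n (m f0 f0 f1 f2 f2) (by simp [hβ]) h.yww,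
      n (m f0 f5 f5 f5 f5) (by simp [hβ]) h.g4, fun a b c c' H => ?_⟩ (fun h0 => h' ?_)
    fun H hH => near hK hx H ?_
  · have := h.ind (φ a * β) (φ b * β) (φ c * β) (φ c' * β) (funext fun i => by
      have := congrArg φ (congrFun H i)
      have g0 := congrFun f0 i
      have g1 := congrFun f1 i
      have g2 := congrFun f2 i
      have g3 := congrFun f3 i
      simp only [Function.comp, Pi.add_apply, Pi.smul_apply, smul_eq_mul, Pi.zero_apply, map_add,
        map_mul, map_zero] at this g0 g1 g2 g3 ⊢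
      rw [g0, g1, g2, g3] at this
      linear_combination this)
    simp only [mul_eq_zero, hβ, or_false, map_eq_zero_iff φ hρ] at this
    exact this
  · have g0 : D ρ • φ ∘ Polynomial.derivative ∘ p' = D β • p + β • D ∘ p := funext fun i => by
      have := congrArg D (congrFun f0 i)
      simp only [Function.comp, Pi.add_apply, Pi.smul_apply, smul_eq_mul, D.leibniz, hφ,
        Derivation.map_aeval] at this ⊢
      linear_combination this
    have g1 := congrArg (fun a => q.T p p p a (gv q p y w)) g0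
    have g2 := m f0 f0 f0 (one_smul Ω (φ ∘ Polynomial.derivative ∘ p')).symm f5
    rw [h0, map_zero] at g2
    simp only [q.add4, q.smul4, final_gv1 h.y1 h.w1] at g1
    exact (mul_eq_zero.1 (by
      linear_combination -β ^ 9 * g1 - D ρ * g2 : β ^ 10 * _ = 0)).resolve_left (pow_ne_zero _ hβ)
  · have g0 : φ (2 * q.T p' p' p' w' e') ≠ 0 := by
      rw [map_mul, map_ofNat, m f0 f0 f0 f2 f4]
      have : CharZero Ω := charZero_of_injective_algebraMap (algebraMap ℂ Ω).injective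
      simp [hβ, h.we]
    have := hH Ω φ (s / (φ (2 * q.T p' p' p' w' e') ^ 15 * (β * (β ^ 6) ^ 5)))
    refine (congrArg (aeval · H) (funext fun i => ?_)).trans this
    have g1 := congrFun (final_map_res5 q φ p' (gv q p' y' w')) i
    rw [f0, f5, final_res5_smul] at g1
    simp only [Function.comp, Pi.smul_apply, smul_eq_mul, map_mul φ _ (res5 _ _ _ _), map_pow] at g1 ⊢
    rw [g1]
    field_simp

end

section

theorem quintic (n : ℕ) (f : MvPolynomial (Fin (n + 1)) ℂ) (hn : 8 ≤ n) (hf : f.IsHomogeneous 5)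
    (hs : ∀ v : Fin (n + 1) → ℂ, v ≠ 0 → eval v f = 0 → ∃ i, eval v (pderiv i f) ≠ 0)
    (v : Fin (n + 1) → ℂ) (h0 : v ≠ 0) (hv : eval v f = 0) : Concl f v := by
  obtain ⟨q, rfl⟩ := exists_S5 hf
  have hq : q.Sm ℂ := fun y hy hz => by
    obtain ⟨i, hi⟩ := hs y hy ((q.aeval_f y).trans hz)
    exact ⟨Pi.single i 1, fun h => hi ((q.aeval_pderiv y i).trans (by rw [h, mul_zero]))⟩
  have hN : 9 ≤ Fintype.card (Fin (n + 1)) := by rw [Fintype.card_fin]; omega
  obtain ⟨Ω, _, _, _, K, hK⟩ := exists_field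
  have : CharZero Ω := charZero_of_injective_algebraMap (algebraMap ℂ Ω).injective
  obtain ⟨Δ, hΔ⟩ := exists_Dl hq (by omega)
  obtain ⟨p0, Δ', h1, h2⟩ := xgen hq hΔ hN
  obtain ⟨k, hk⟩ := hs v h0 hv
  have h3 : ∀ g : MvPolynomial (Fin (n + 1)) ℂ, aeval (up Ω v) g = algebraMap ℂ Ω (eval v g) :=
    fun g => aeval_algebraMap_apply Ω v g
  obtain ⟨x, ⟨h4, h5⟩, h6⟩ := Metric.mem_closure_iff.1 (hyp hK (hq.prime (by omega)) h1
    (x := up Ω v) (by rw [h3, hv, map_zero]) (k := k) (by rwa [h3, _root_.map_ne_zero])) 1 one_pos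
  obtain ⟨p1, p, -, -, h7⟩ := h2 Ω x ((q.aeval_f x).symm.trans h4) h5
  have h8 : p ∈ closure (NC ∩ XK K q) := closure_minimal
    (fun y hy => (nc_open hK).inter_closure ⟨hy.1, xdense hK hq hN (by
      obtain ⟨⟨i, j, h, -⟩, -⟩ := hy
      exact fun h' => h (congrFun h' j)) hy.2⟩) isClosed_closure
    (nc_dense hK hq hN (hΔ.good Ω p h7.z h7.d).1 h7.z)
  obtain ⟨D, hD⟩ := hK.der
  obtain ⟨p1, h9, y, w, d, e, hy, hw, hd, he, h10, h11, s, -, h12⟩ := xapp hK hq hΔ hN h7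
    Set.inter_subset_right h8 (fun p => D ∘ p) (fun p ⟨⟨i, j, hj, hi⟩, hp, hz⟩ => ⟨by
      have h := q.der D p p p p p
      rw [hz, map_zero, q.T12 (D ∘ p), q.T23 p (D ∘ p), q.T34 p p (D ∘ p), q.T45 p p p (D ∘ p)] at h
      exact mul_left_cancel₀ (by norm_num : (5 : Ω) ≠ 0) (by linear_combination -h),
      fun c hc => by
        have h : ∀ i, D (p i) = c * p i := congrFun hc
        obtain ⟨a, ha⟩ := hD (p i / p j) (div_mem (hp i) (hp j)) (by
          rw [Derivation.leibniz_div, h, h]; simp only [smul_eq_mul]; ring)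
        exact hi a (by rw [← ha, div_mul_cancel₀ _ hj])⟩)
    (Metric.isOpen_ball.mem_nhds (Metric.mem_ball'.2 h6))
  exact final hK h9.2.1 hy hw hd he h10 D h11 (by rwa [Metric.mem_ball, dist_eq_norm] at h12)

end

end Pool.Agent.MP_e0214e_ag.H64
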