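import Pool.Agent.MP_e0214e_ag.H64.Val

/-! Contact lines of a quintic. -/

set_option autoImplicit false

namespace Pool.Agent.MP_e0214e_ag.H64

open MvPolynomial Module Filter Topology

section
variable {σ L : Type} [Fintype σ] [DecidableEq σ] [Field L] [Algebra ℂ L] {q : S5 σ}

theorem exists_S5 {g : MvPolynomial σ ℂ} (hg : g.IsHomogeneous 5) : ∃ q : S5 σ, q.f = g := by
  have e : ∀ {n : ℕ} {p : MvPolynomial σ ℂ}, p.IsHomogeneous (n + 1) →
      p = C ((n + 1 : ℂ)⁻¹) * ∑ i, X i * pderiv i p := fun {n p} hp => by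
    have h0 : (n + 1 : ℂ) ≠ 0 := Nat.cast_add_one_ne_zero n
    rw [hp.sum_X_mul_pderiv, nsmul_eq_mul, ← mul_assoc, ← map_natCast C, ← map_mul]
    push_cast
    rw [inv_mul_cancel₀ h0, map_one, one_mul]
  refine ⟨⟨fun i j k l m =>
      coeff 0 (pderiv m (pderiv l (pderiv k (pderiv j (pderiv i g))))) / 120,
    fun i j k l m => by rw [H61.pderiv_comm' j i], fun i j k l m => by rw [H61.pderiv_comm' k j],
    fun i j k l m => by rw [H61.pderiv_comm' l k], fun i j k l m => by rw [H61.pderiv_comm' m l]⟩,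
    ?_⟩
  have h1 : ∀ i, (pderiv i g).IsHomogeneous 4 := fun i => hg.pderiv
  have h2 : ∀ i j, (pderiv j (pderiv i g)).IsHomogeneous 3 := fun i j => (h1 i).pderiv
  have h3 : ∀ i j k, (pderiv k (pderiv j (pderiv i g))).IsHomogeneous 2 :=
    fun i j k => (h2 i j).pderiv
  have h4 : ∀ i j k l, (pderiv l (pderiv k (pderiv j (pderiv i g)))).IsHomogeneous 1 :=
    fun i j k l => (h3 i j k).pderiv
  have h5 : ∀ i j k l m, pderiv m (pderiv l (pderiv k (pderiv j (pderiv i g)))) =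
      C (coeff 0 (pderiv m (pderiv l (pderiv k (pderiv j (pderiv i g)))))) := fun i j k l m =>
    totalDegree_eq_zero_iff_eq_C.1 (Nat.le_zero.1
      (IsHomogeneous.totalDegree_le (n := 0) (h4 i j k l).pderiv))
  symm
  conv_lhs => rw [e (n := 4) hg]
  rw [S5.f, S5.T, Finset.mul_sum]
  refine Finset.sum_congr rfl fun i _ => ?_
  conv_lhs => rw [e (n := 3) (h1 i)]
  simp only [Finset.mul_sum]
  refine Finset.sum_congr rfl fun j _ => ?_
  conv_lhs => rw [e (n := 2) (h2 i j)]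
  simp only [Finset.mul_sum]
  refine Finset.sum_congr rfl fun k _ => ?_
  conv_lhs => rw [e (n := 1) (h3 i j k)]
  simp only [Finset.mul_sum]
  refine Finset.sum_congr rfl fun l _ => ?_
  conv_lhs => rw [e (n := 0) (h4 i j k l)]
  simp only [Finset.mul_sum]
  refine Finset.sum_congr rfl fun m _ => ?_
  conv_lhs => rw [h5]
  generalize coeff 0 (pderiv m (pderiv l (pderiv k (pderiv j (pderiv i g))))) = c
  have : c / 120 = ((4 : ℕ) + 1 : ℂ)⁻¹ * ((3 : ℕ) + 1 : ℂ)⁻¹ * ((2 : ℕ) + 1 : ℂ)⁻¹ *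
      ((1 : ℕ) + 1 : ℂ)⁻¹ * ((0 : ℕ) + 1 : ℂ)⁻¹ * c := by push_cast; ring
  rw [algebraMap_eq, this]
  simp only [map_mul]
  ring

theorem S5.isHomogeneous_f (q : S5 σ) : q.f.IsHomogeneous 5 := by
  unfold S5.f S5.T
  refine IsHomogeneous.sum _ _ _ fun i _ => IsHomogeneous.sum _ _ _ fun j _ =>
    IsHomogeneous.sum _ _ _ fun k _ => IsHomogeneous.sum _ _ _ fun l _ =>
    IsHomogeneous.sum _ _ _ fun m _ => ?_
  exact (isHomogeneous_C _ _).mul (((((isHomogeneous_X _ i).mul (isHomogeneous_X _ j)).mul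
    (isHomogeneous_X _ k)).mul (isHomogeneous_X _ l)).mul (isHomogeneous_X _ m))

theorem S5.aeval_pderiv (q : S5 σ) {A : Type} [CommRing A] [Algebra ℂ A] (y : σ → A) (i : σ) :
    aeval y (pderiv i q.f) = 5 * q.T y y y y (Pi.single i 1) := by
  have h1 : (pderiv i : Derivation ℂ (MvPolynomial σ ℂ) (MvPolynomial σ ℂ)) ∘ X =
      Pi.single i 1 := by
    funext j
    simp only [Function.comp, pderiv_X, Pi.single_apply]
  have h2 : pderiv i q.f = 5 * q.T X X X X (Pi.single i 1) := by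
    rw [S5.f, q.der, h1, q.T12 (Pi.single i 1), q.T23 X (Pi.single i 1),
      q.T34 X X (Pi.single i 1), q.T45 X X X (Pi.single i 1)]
    ring
  rw [h2, map_mul, q.map, aeval_comp_X, H61.comp_single, map_ofNat]

theorem S5.expand (q : S5 σ) {A : Type} [CommRing A] [Algebra ℂ A] (p v : σ → A) (r s : A) :
    q.T (r • p + s • v) (r • p + s • v) (r • p + s • v) (r • p + s • v) (r • p + s • v) =
      r ^ 5 * q.T p p p p p + 5 * r ^ 4 * s * q.T p p p p v + 10 * r ^ 3 * s ^ 2 * q.T p p p v v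
        + 10 * r ^ 2 * s ^ 3 * q.T p p v v v + 5 * r * s ^ 4 * q.T p v v v v
        + s ^ 5 * q.T v v v v v := by
  simp only [q.add1, q.add2, q.add3, q.add4, q.add5, q.smul1, q.smul2, q.smul3, q.smul4, q.smul5,
    q.T12 v p, q.T23 _ v p, q.T34 _ _ v p, q.T45 _ _ _ v p]
  ring

theorem S5.Sm.ext (h : q.Sm ℂ) (K : Type) [Field K] [Algebra ℂ K] : q.Sm K := by
  intro y hy h0
  by_contra! H
  refine hy (funext fun i => ?_)
  have := H61.null (F := ℂ) (K := K) (fun l => q.T X X X X (Pi.single l 1)) (X i)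
    (fun z hz => ?_) y fun l => ?_
  · simpa using this
  · have h1 : ∀ w, q.T z z z z w = 0 := fun w => by
      rw [S5.T_eq_sum]
      refine Finset.sum_eq_zero fun l _ => ?_
      have := hz l
      rw [← aeval_eq_eval, q.map, aeval_comp_X, H61.comp_single] at this
      rw [this, mul_zero]
    by_contra hz0
    obtain ⟨w, hw⟩ := h z (fun h => hz0 (by simp [h])) (h1 z)
    exact hw (h1 w)
  · rw [q.map, aeval_comp_X, H61.comp_single, H]

theorem s5_sing (h : q.Sm ℂ) (y : σ → ℂ) (H : ∀ i, eval y (pderiv i q.f) = 0) : y = 0 := by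
  by_contra hy
  have h1 : ∀ w, q.T y y y y w = 0 := fun w => by
    rw [S5.T_eq_sum]
    refine Finset.sum_eq_zero fun l _ => ?_
    have := H l
    rw [← aeval_eq_eval, q.aeval_pderiv] at this
    rw [(mul_eq_zero.1 this).resolve_left (by norm_num), mul_zero]
  obtain ⟨w, hw⟩ := h y hy (h1 y)
  exact hw (h1 w)

theorem S5.Sm.prime (h : q.Sm ℂ) (hc : 2 < Fintype.card σ) : Prime q.f := by
  have hf0 : q.f ≠ 0 := fun h0 => by
    obtain ⟨i⟩ : Nonempty σ := Fintype.card_pos_iff.1 (by omega)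
    simpa using congrFun (s5_sing h (Pi.single i 1) fun j => by simp [h0]) i
  exact prime0 (κ := Empty) q.isHomogeneous_f (by norm_num) hf0 (fun j => j.elim) (by simpa)
    fun y _ _ H => s5_sing h y H

theorem res5_step {Δ : MvPolynomial σ ℂ} {p v : σ → L} (z : q.T p p p p p = 0)
    (d : aeval p Δ ≠ 0) (g1 : q.T p p p p v = 0) (g2 : q.T p p p v v = 0) (g3 : q.T p p v v v = 0)
    (g4 : q.T p v v v v ≠ 0) : XStep q Δ p (res5 q p v) := by
  have h5 : (5 : L) ≠ 0 := by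
    rw [← map_ofNat (algebraMap ℂ L) 5]
    exact (map_ne_zero _).2 (by norm_num)
  have e : res5 q p v = q.T v v v v v • p + (-(5 * q.T p v v v v)) • v := by
    rw [res5, neg_smul, sub_eq_add_neg]
  have e5 := q.expand p v (q.T v v v v v) (-(5 * q.T p v v v v))
  have hs : -(5 * q.T p v v v v) ≠ 0 := neg_ne_zero.2 (mul_ne_zero h5 g4)
  rw [e]
  refine ⟨z, d, ?_, ?_, ?_, ?_, by rw [e5, z, g1, g2, g3]; ring⟩ <;>
    generalize q.T v v v v v = r <;> generalize -(5 * q.T p v v v v) = s at hs ⊢ <;>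
    simp only [q.add2, q.add3, q.add4, q.add5, q.smul2, q.smul3, q.smul4, q.smul5,
      q.T23 _ v p, q.T34 _ _ v p, q.T45 _ _ _ v p, z, g1, g2, g3, mul_zero, add_zero, zero_add]
  exact mul_ne_zero hs (mul_ne_zero hs (mul_ne_zero hs (mul_ne_zero hs g4)))

theorem XStep.up {Δ : MvPolynomial σ ℂ} {L' : Type} [Field L'] [Algebra ℂ L'] [Algebra L L']
    [IsScalarTower ℂ L L'] {p p' : σ → L} (h : XStep q Δ p p') :
    XStep q Δ (H64.up L' p) (H64.up L' p') := by
  refine ⟨by rw [q.T_up, h.z, map_zero], ?_, by rw [q.T_up, h.g1, map_zero],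
    by rw [q.T_up, h.g2, map_zero], by rw [q.T_up, h.g3, map_zero],
    by rw [q.T_up]; exact (map_ne_zero _).2 h.g4, by rw [q.T_up, h.g5, map_zero]⟩
  rw [H64.up, aeval_algebraMap_apply]
  exact (map_ne_zero _).2 h.d

end

section
variable {σ L : Type} [Fintype σ] [DecidableEq σ] [Field L] [Algebra ℂ L] {q : S5 σ}

theorem forms_one {K : Type} [Field K] [IsAlgClosed K] (I : Submodule K (Polynomial K))
    (h1 : ∀ p ∈ I, p.eval 0 = 0 → ∃ r ∈ I, p = Polynomial.X * r)
    (h2 : ∀ s : K, ∃ p ∈ I, p.eval s ≠ 0) : (1 : Polynomial K) ∈ I := by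
  classical
  have hex : ∃ n, ∃ p ∈ I, p ≠ 0 ∧ p.natDegree = n := by
    obtain ⟨p, hp, h⟩ := h2 0
    exact ⟨_, p, hp, fun h0 => h (by simp [h0]), rfl⟩
  obtain ⟨p0, hp0, h0, hd⟩ := Nat.find_spec hex
  have hmin : ∀ p ∈ I, p ≠ 0 → p0.natDegree ≤ p.natDegree := fun p hp h =>
    hd ▸ Nat.find_min' hex ⟨p, hp, h, rfl⟩
  have he : p0.eval 0 ≠ 0 := fun h => by
    obtain ⟨r, hr, e⟩ := h1 p0 hp0 h
    have hr0 : r ≠ 0 := fun h => h0 (by rw [e, h, mul_zero])
    have := hmin r hr hr0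
    rw [e, Polynomial.natDegree_X_mul hr0] at this
    omega
  have hdvd : ∀ n, ∀ p ∈ I, p.natDegree = n → p0 ∣ p := fun n => by
    induction n using Nat.strong_induction_on with
    | _ n ih =>
      intro p hp hn
      by_cases h : p = 0
      · simp [h]
      obtain ⟨r, hr, e⟩ := h1 (p - (p.eval 0 / p0.eval 0) • p0) (I.sub_mem hp (I.smul_mem _ hp0))
        (by simp [he])
      have e' : p = Polynomial.X * r + (p.eval 0 / p0.eval 0) • p0 := by rw [← e]; simp
      have hr' : p0 ∣ r := by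
        by_cases hr0 : r = 0
        · simp [hr0]
        refine ih _ ?_ r hr rfl
        have h3 := Polynomial.natDegree_sub_le p ((p.eval 0 / p0.eval 0) • p0)
        have h4 := Polynomial.natDegree_smul_le (p.eval 0 / p0.eval 0) p0
        have h5 := hmin p hp h
        rw [e, Polynomial.natDegree_X_mul hr0] at h3
        omega
      rw [e']
      exact dvd_add (hr'.mul_left _) (dvd_smul_of_dvd _ dvd_rfl)
  have hdeg : p0.degree = 0 := by
    by_contra h
    obtain ⟨s, hs⟩ := IsAlgClosed.exists_root p0 h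
    obtain ⟨p, hp, h3⟩ := h2 s
    exact h3 (hs.dvd (hdvd _ p hp rfl))
  have h3 := Polynomial.eq_C_of_degree_eq_zero hdeg
  have h4 : p0.coeff 0 ≠ 0 := fun h => h0 (by rw [h3, h, map_zero])
  have h5 := I.smul_mem (p0.coeff 0)⁻¹ hp0
  rwa [h3, Polynomial.coeff_C_zero, Polynomial.smul_C, smul_eq_mul, inv_mul_cancel₀ h4,
    map_one] at h5

theorem forms5 {K V : Type} [Field K] [IsAlgClosed K] [CharZero K] [AddCommGroup V] [Module K V]
    (g0 g1 g2 g3 g4 : V →ₗ[K] K)
    (hd : ∀ w, g0 w = 0 → ∃ w', 4 * g1 w + g0 w' = 0 ∧ 3 * g2 w + 2 * g1 w' = 0 ∧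
      2 * g3 w + 3 * g2 w' = 0 ∧ g4 w + 4 * g3 w' = 0 ∧ g4 w' = 0)
    (hb : ∀ s : K, ∃ u, g0 u + 4 * s * g1 u + 6 * s ^ 2 * g2 u + 4 * s ^ 3 * g3 u
      + s ^ 4 * g4 u ≠ 0) (h4 : ∃ u, g4 u ≠ 0) :
    ∃ u, g0 u = 0 ∧ g1 u = 0 ∧ g2 u = 0 ∧ g3 u = 0 ∧ g4 u ≠ 0 := by
  let P : V →ₗ[K] Polynomial K := (Polynomial.monomial 0).comp g0 +
    (Polynomial.monomial 1).comp ((4 : K) • g1) + (Polynomial.monomial 2).comp ((6 : K) • g2) +
    (Polynomial.monomial 3).comp ((4 : K) • g3) + (Polynomial.monomial 4).comp g4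
  have hP : ∀ u, P u = Polynomial.C (g0 u) + Polynomial.C (4 * g1 u) * Polynomial.X +
      Polynomial.C (6 * g2 u) * Polynomial.X ^ 2 + Polynomial.C (4 * g3 u) * Polynomial.X ^ 3 +
      Polynomial.C (g4 u) * Polynomial.X ^ 4 := fun u => by
    simp only [P, LinearMap.add_apply, LinearMap.comp_apply, LinearMap.smul_apply, smul_eq_mul,
      ← Polynomial.C_mul_X_pow_eq_monomial, pow_zero, pow_one, mul_one]
  obtain ⟨u0, h0⟩ := forms_one (LinearMap.range P) (by
    rintro _ ⟨w, rfl⟩ hw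
    obtain ⟨w', a, b, c, d, e⟩ := hd w (by simpa [hP] using hw)
    refine ⟨P (-w'), ⟨_, rfl⟩, ?_⟩
    have hw' : g0 w = 0 := by simpa [hP] using hw
    rw [hP, hP, hw', show g0 (-w') = 4 * g1 w by rw [map_neg]; linear_combination -a,
      show 4 * g1 (-w') = 6 * g2 w by rw [map_neg]; linear_combination -2 * b,
      show 6 * g2 (-w') = 4 * g3 w by rw [map_neg]; linear_combination -2 * c,
      show 4 * g3 (-w') = g4 w by rw [map_neg]; linear_combination -d,
      show g4 (-w') = 0 by rw [map_neg, e, neg_zero], map_zero]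
    ring) fun s => by
      obtain ⟨u, hu⟩ := hb s
      refine ⟨P u, ⟨_, rfl⟩, fun h => hu ?_⟩
      simp only [hP, Polynomial.eval_add, Polynomial.eval_mul, Polynomial.eval_C,
        Polynomial.eval_pow, Polynomial.eval_X] at h
      linear_combination h
  rw [hP] at h0
  have a0 : g0 u0 = 1 := by simpa using congrArg (Polynomial.coeff · 0) h0
  have a1 : g1 u0 = 0 := by
    simpa [Polynomial.coeff_one, Polynomial.coeff_X, -map_mul] using
      congrArg (Polynomial.coeff · 1) h0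
  have a2 : g2 u0 = 0 := by
    simpa [Polynomial.coeff_one, Polynomial.coeff_X, -map_mul] using
      congrArg (Polynomial.coeff · 2) h0
  have a3 : g3 u0 = 0 := by
    simpa [Polynomial.coeff_one, Polynomial.coeff_X, -map_mul] using
      congrArg (Polynomial.coeff · 3) h0
  have a4 : g4 u0 = 0 := by
    simpa [Polynomial.coeff_one, Polynomial.coeff_X, -map_mul] using
      congrArg (Polynomial.coeff · 4) h0
  have sh : ∀ w, ∃ w', 3 * g2 w + 2 * g1 w' = 0 ∧ 2 * g3 w + 3 * g2 w' = 0 ∧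
      g4 w + 4 * g3 w' = 0 ∧ g4 w' = 0 := fun w => by
    obtain ⟨w', -, h⟩ := hd (w - g0 w • u0) (by simp [a0])
    exact ⟨w', by simpa [a2, a3, a4] using h⟩
  obtain ⟨u4, e4⟩ := h4
  obtain ⟨u3, -, -, b3, b4⟩ := sh u4
  obtain ⟨u2, -, c2, c3, c4⟩ := sh u3
  obtain ⟨u1, d1, d2, d3, d4⟩ := sh u2
  have e3 : g3 u3 ≠ 0 := fun h => e4 (by linear_combination b3 - 4 * h)
  have c3' : g3 u2 = 0 := by linear_combination (c3 - b4) / 4
  have e2 : g2 u2 ≠ 0 := fun h => e3 (by linear_combination (c2 - 3 * h) / 2)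
  have d3' : g3 u1 = 0 := by linear_combination (d3 - c4) / 4
  have d2' : g2 u1 = 0 := by linear_combination (d2 - 2 * c3') / 3
  have e1 : g1 u1 ≠ 0 := fun h => e2 (by linear_combination (d1 - 2 * h) / 3)
  obtain ⟨v3, x3, y3⟩ : ∃ v, g3 v = 0 ∧ g4 v ≠ 0 :=
    ⟨u4 - (g3 u4 / g3 u3) • u3, by simp [e3], by simpa [b4] using e4⟩
  obtain ⟨v2, x2, y2, z2⟩ : ∃ v, g2 v = 0 ∧ g3 v = 0 ∧ g4 v ≠ 0 :=
    ⟨v3 - (g2 v3 / g2 u2) • u2, by simp [e2], by simp [x3, c3'], by simpa [c4] using y3⟩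
  obtain ⟨v1, x1, y1, z1, t1⟩ : ∃ v, g1 v = 0 ∧ g2 v = 0 ∧ g3 v = 0 ∧ g4 v ≠ 0 :=
    ⟨v2 - (g1 v2 / g1 u1) • u1, by simp [e1], by simp [x2, d2'], by simp [y2, d3'],
      by simpa [d4] using z2⟩
  exact ⟨v1 - g0 v1 • u0, by simp [a0], by simp [x1, a1], by simp [y1, a2], by simp [z1, a3],
    by simpa [a4] using t1⟩

end

section
variable {σ L : Type} [Fintype σ] [DecidableEq σ] [Field L] [Algebra ℂ L] {q : S5 σ}

omit [DecidableEq σ] in
theorem good_d [CharZero L] {ξ : σ → L} (ht : ∀ w, q.T ξ ξ ξ ξ w = 0 → w ∈ Tan ℂ ξ) (z w : σ → L)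
    (hw : q.T ξ ξ ξ ξ w = 0) : ∃ z',
    (q.T ξ ξ ξ ξ z = 0 → 4 * q.T ξ ξ ξ z w + q.T ξ ξ ξ ξ z' = 0) ∧
    (q.T ξ ξ ξ z z = 0 → 3 * q.T ξ ξ z z w + 2 * q.T ξ ξ ξ z z' = 0) ∧
    (q.T ξ ξ z z z = 0 → 2 * q.T ξ z z z w + 3 * q.T ξ ξ z z z' = 0) ∧
    (q.T ξ z z z z = 0 → q.T z z z z w + 4 * q.T ξ z z z z' = 0) ∧
    (q.T z z z z z = 0 → q.T z z z z z' = 0) := by
  obtain ⟨D, hD⟩ := ht w hw
  refine ⟨D ∘ z, fun h1 => ?_, fun h1 => ?_, fun h1 => ?_, fun h1 => ?_, fun h1 => ?_⟩ <;>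
    have h2 := congrArg D h1 <;> rw [q.der, map_zero] at h2
  · rw [hD, q.T12 w, q.T23 _ w, q.T34 _ _ w, q.T45 _ _ _ w] at h2
    linear_combination h2
  · rw [hD, q.T12 w, q.T23 _ w, q.T34 _ _ w, q.T45 _ _ _ w, q.T45 _ _ _ (D ∘ z)] at h2
    linear_combination h2
  · rw [hD, q.T12 w, q.T23 _ w, q.T34 _ _ w, q.T45 _ _ _ w, q.T34 _ _ (D ∘ z),
      q.T45 _ _ _ (D ∘ z)] at h2
    linear_combination h2
  · rw [hD, q.T12 w, q.T23 _ w, q.T34 _ _ w, q.T45 _ _ _ w, q.T23 _ (D ∘ z), q.T34 _ _ (D ∘ z),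
      q.T45 _ _ _ (D ∘ z)] at h2
    linear_combination h2
  · rw [q.T12 (D ∘ z), q.T23 _ (D ∘ z), q.T34 _ _ (D ∘ z), q.T45 _ _ _ (D ∘ z)] at h2
    linear_combination h2 / 5

theorem good_gen [IsAlgClosed L] (hs : q.Sm L) {ξ : σ → L} (h0 : ξ ≠ 0) (hz : q.T ξ ξ ξ ξ ξ = 0)
    (ht : ∀ w, q.T ξ ξ ξ ξ w = 0 → w ∈ Tan ℂ ξ) : Good q ξ := by
  have : CharZero L := charZero_of_injective_algebraMap (algebraMap ℂ L).injective
  have k4 : ∀ z, (∀ c : L, z ≠ c • ξ) → q.T ξ ξ ξ ξ z = 0 → q.T ξ ξ ξ z z = 0 →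
      q.T ξ ξ z z z = 0 → q.T ξ z z z z = 0 → ¬ ∀ w, q.T ξ ξ ξ ξ w = 0 → q.T ξ ξ ξ z w = 0 →
        q.T ξ ξ z z w = 0 → q.T ξ z z z w = 0 → q.T z z z z w = 0 := by
    intro z hz0 v1 v2 v3 v4 H
    have v5 := H z v1 v2 v3 v4
    obtain ⟨u, a0, a1, a2, a3, a4⟩ := forms5 (q.L ξ ξ ξ ξ) (q.L ξ ξ ξ z) (q.L ξ ξ z z)
      (q.L ξ z z z) (q.L z z z z) (fun w hw => by
        obtain ⟨z', a, b, c, d, e⟩ := good_d ht z w hw
        exact ⟨z', a v1, b v2, c v3, d v4, e v5⟩) (fun s => by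
        obtain ⟨u, hu⟩ := hs ((1 : L) • ξ + s • z) (fun h => by
          by_cases hs0 : s = 0
          · exact h0 (by simpa [hs0] using h)
          · refine hz0 (-s⁻¹) ?_
            rw [one_smul, add_eq_zero_iff_eq_neg] at h
            rw [h, neg_smul, smul_neg, neg_neg, smul_smul, inv_mul_cancel₀ hs0, one_smul])
          (by rw [q.expand, hz, v1, v2, v3, v4, v5]; ring)
        refine ⟨u, fun h => hu ?_⟩
        simp only [q.L_apply] at h
        simp only [one_smul, q.add1, q.add2, q.add3, q.add4, q.smul1, q.smul2, q.smul3, q.smul4,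
          q.T12 z ξ, q.T23 _ z ξ, q.T34 _ _ z ξ]
        linear_combination h) (hs z (fun h => hz0 0 (by simp [h])) v5)
    exact a4 (H u a0 a1 a2 a3)
  have k3 : ∀ z, (∀ c : L, z ≠ c • ξ) → q.T ξ ξ ξ ξ z = 0 → q.T ξ ξ ξ z z = 0 →
      q.T ξ ξ z z z = 0 → ¬ ∀ w, q.T ξ ξ ξ ξ w = 0 → q.T ξ ξ ξ z w = 0 →
        q.T ξ ξ z z w = 0 → q.T ξ z z z w = 0 := by
    intro z hz0 v1 v2 v3 H
    have v4 := H z v1 v2 v3
    refine k4 z hz0 v1 v2 v3 v4 fun w w0 w1 w2 w3 => ?_
    obtain ⟨z', a, b, c, d, -⟩ := good_d ht z w w0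
    linear_combination d v4 - 4 * H z' (by linear_combination a v1 - 4 * w1)
      (by linear_combination (b v2 - 3 * w2) / 2) (by linear_combination (c v3 - 2 * w3) / 3)
  have k2 : ∀ z, (∀ c : L, z ≠ c • ξ) → q.T ξ ξ ξ ξ z = 0 → q.T ξ ξ ξ z z = 0 →
      ¬ ∀ w, q.T ξ ξ ξ ξ w = 0 → q.T ξ ξ ξ z w = 0 → q.T ξ ξ z z w = 0 := by
    intro z hz0 v1 v2 H
    have v3 := H z v1 v2
    refine k3 z hz0 v1 v2 v3 fun w w0 w1 w2 => ?_
    obtain ⟨z', a, b, c, -⟩ := good_d ht z w w0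
    linear_combination (c v3 - 3 * H z' (by linear_combination a v1 - 4 * w1)
      (by linear_combination (b v2 - 3 * w2) / 2)) / 2
  have k1 : ∀ z, (∀ c : L, z ≠ c • ξ) → q.T ξ ξ ξ ξ z = 0 →
      ¬ ∀ w, q.T ξ ξ ξ ξ w = 0 → q.T ξ ξ ξ z w = 0 := by
    intro z hz0 v1 H
    have v2 := H z v1
    refine k2 z hz0 v1 v2 fun w w0 w1 => ?_
    obtain ⟨z', a, b, -⟩ := good_d ht z w w0
    linear_combination (b v2 - 2 * H z' (by linear_combination a v1 - 4 * w1)) / 3
  exact ⟨fun z hz0 v1 a0 H => k1 z hz0 v1 fun w w0 => by rw [H, w0]; ring,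
    fun z hz0 v1 v2 a0 a1 H => k2 z hz0 v1 v2 fun w w0 w1 => by rw [H, w0, w1]; ring,
    fun z hz0 v1 v2 v3 a0 a1 a2 H => k3 z hz0 v1 v2 v3 fun w w0 w1 w2 => by
      rw [H, w0, w1, w2]; ring,
    fun z hz0 v1 v2 v3 v4 a0 a1 a2 a3 H => k4 z hz0 v1 v2 v3 v4 fun w w0 w1 w2 w3 => by
      rw [H, w0, w1, w2, w3]; ring⟩

end

section
variable {σ L : Type} [Fintype σ] [DecidableEq σ] [Field L] [Algebra ℂ L] {q : S5 σ}

/-- A combination of the five contact forms. -/
def dlS (q : S5 σ) {A : Type} [CommRing A] [Algebra ℂ A] (p z : σ → A) (c : Fin 5 → A)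
    (u : σ → A) : A :=
  c 0 * q.T p p p p u + c 1 * q.T p p p z u + c 2 * q.T p p z z u + c 3 * q.T p z z z u
    + c 4 * q.T z z z z u

/-- The scalar equations of the four degenerations. -/
def dlF (q : S5 σ) (m : Fin 4) {A : Type} [CommRing A] [Algebra ℂ A] (p z : σ → A)
    (c : Fin 5 → A) : Fin 5 → A :=
  ![![q.T p p p p z, c 1 + 1, c 2, c 3, c 4], ![q.T p p p p z, q.T p p p z z, c 2 + 1, c 3, c 4],
    ![q.T p p p p z, q.T p p p z z, q.T p p z z z, c 3 + 1, c 4],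
    ![q.T p p p p z, q.T p p p z z, q.T p p z z z, q.T p z z z z, c 4 + 1]] m

/-- The whole system. -/
def dlE (q : S5 σ) (i : σ) (m : Fin 4) {A : Type} [CommRing A] [Algebra ℂ A] (p : σ → A)
    (a : σ ⊕ σ ⊕ Fin 5 → A) : Option (σ ⊕ Fin 5) → A
  | none => ∑ j, a (.inr (.inl j)) * (p i * a (.inl j) - p j * a (.inl i)) - 1
  | some (.inl j) => dlS q p (a ∘ .inl) (a ∘ .inr ∘ .inr) (Pi.single j 1)
  | some (.inr k) => dlF q m p (a ∘ .inl) (a ∘ .inr ∘ .inr) k

theorem dl_map (i : σ) (m : Fin 4) {A B : Type} [CommRing A] [Algebra ℂ A] [CommRing B]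
    [Algebra ℂ B] (φ : A →ₐ[ℂ] B) (p : σ → A) (a : σ ⊕ σ ⊕ Fin 5 → A) (j : Option (σ ⊕ Fin 5)) :
    φ (dlE q i m p a j) = dlE q i m (φ ∘ p) (φ ∘ a) j := by
  rcases j with _ | j | k
  · simp [dlE]
  · simp only [dlE, dlS, map_add, map_mul, q.map φ, H61.comp_single]
    rfl
  · fin_cases m <;> fin_cases k <;> simp [dlE, dlF, q.map φ, Function.comp_assoc]

theorem dl_sum (p z : σ → L) (c : Fin 5 → L) (h : ∀ j, dlS q p z c (Pi.single j 1) = 0)
    (u : σ → L) : dlS q p z c u = 0 := by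
  have : dlS q p z c u = ∑ j, u j * dlS q p z c (Pi.single j 1) := by
    simp only [dlS, q.T_eq_sum _ _ _ _ u, Finset.mul_sum, ← Finset.sum_add_distrib]
    exact Finset.sum_congr rfl fun j _ => by ring
  simp [this, h]

theorem dl_of_good {p : σ → L} (h : Good q p) (i : σ) (m : Fin 4) :
    ¬ ∃ a, ∀ j, dlE q i m p a j = 0 := by
  rintro ⟨a, ha⟩
  have hz : ∀ r : L, a ∘ .inl ≠ r • p := fun r e => by
    have h1 : ∀ j, a (.inl j) = r * p j := congrFun e
    have h2 := ha none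
    simp only [dlE, h1, mul_left_comm (p _) r, mul_comm (p i), sub_self, mul_zero,
      Finset.sum_const_zero, zero_sub, neg_eq_zero, one_ne_zero] at h2
  have hS := dl_sum _ _ _ fun j => ha (some (.inl j))
  have f0 := ha (some (.inr 0))
  have f1 := ha (some (.inr 1))
  have f2 := ha (some (.inr 2))
  have f3 := ha (some (.inr 3))
  have f4 := ha (some (.inr 4))
  simp only [dlE] at f0 f1 f2 f3 f4
  generalize a ∘ Sum.inl = z at *
  generalize a ∘ Sum.inr ∘ Sum.inr = c at *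
  have key : ∀ u, c 0 * q.T p p p p u + c 1 * q.T p p p z u + c 2 * q.T p p z z u
    + c 3 * q.T p z z z u + c 4 * q.T z z z z u = 0 := hS
  fin_cases m
  · change c 1 + 1 = 0 at f1; change c 2 = 0 at f2; change c 3 = 0 at f3; change c 4 = 0 at f4
    exact h.b1 z hz f0 (c 0) fun u => by
      linear_combination -key u + q.T p p p z u * f1 + q.T p p z z u * f2 + q.T p z z z u * f3
        + q.T z z z z u * f4
  · change c 2 + 1 = 0 at f2; change c 3 = 0 at f3; change c 4 = 0 at f4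
    exact h.b2 z hz f0 f1 (c 0) (c 1) fun u => by
      linear_combination -key u + q.T p p z z u * f2 + q.T p z z z u * f3 + q.T z z z z u * f4
  · change c 3 + 1 = 0 at f3; change c 4 = 0 at f4
    exact h.b3 z hz f0 f1 f2 (c 0) (c 1) (c 2) fun u => by
      linear_combination -key u + q.T p z z z u * f3 + q.T z z z z u * f4
  · change c 4 + 1 = 0 at f4
    exact h.b4 z hz f0 f1 f2 f3 (c 0) (c 1) (c 2) (c 3) fun u => by
      linear_combination -key u + q.T z z z z u * f4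

theorem dl_good {p : σ → L} {i : σ} (hi : p i ≠ 0) (h : ∀ m, ¬ ∃ a, ∀ j, dlE q i m p a j = 0) :
    Good q p := by
  have key : ∀ m z c, (∀ r : L, z ≠ r • p) → (∀ k, dlF q m p z c k = 0) →
      ¬ ∀ u, dlS q p z c u = 0 := fun m z c hz hF hS => by
    obtain ⟨j, hj⟩ := Function.ne_iff.1 (hz (z i / p i))
    have h1 : p i * z j - p j * z i ≠ 0 := fun e => hj (by
      rw [Pi.smul_apply, smul_eq_mul, div_mul_eq_mul_div, eq_div_iff hi]
      linear_combination e)
    refine h m ⟨Sum.elim z (Sum.elim (Pi.single j (p i * z j - p j * z i)⁻¹) c), ?_⟩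
    rintro (_ | j' | k)
    · simp only [dlE, Sum.elim_inl, Sum.elim_inr]
      rw [Finset.sum_eq_single j (fun l _ hl => by simp [hl]) (by simp), Pi.single_eq_same,
        inv_mul_cancel₀ h1, sub_self]
    · exact hS _
    · exact hF k
  refine ⟨fun z hz g0 a0 hu => key 0 z ![a0, -1, 0, 0, 0] hz ?_ fun u => ?_,
    fun z hz g0 g1 a0 a1 hu => key 1 z ![a0, a1, -1, 0, 0] hz ?_ fun u => ?_,
    fun z hz g0 g1 g2 a0 a1 a2 hu => key 2 z ![a0, a1, a2, -1, 0] hz ?_ fun u => ?_,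
    fun z hz g0 g1 g2 g3 a0 a1 a2 a3 hu => key 3 z ![a0, a1, a2, a3, -1] hz ?_ fun u => ?_⟩
  all_goals first
    | (intro k; fin_cases k <;> simp [dlF, *])
    | simp [dlS, hu u]

theorem exists_Dl (hs : q.Sm ℂ) (hc : 2 < Fintype.card σ) : ∃ Δ, Dl q Δ := by
  have hf := hs.prime hc
  obtain ⟨K, _, _, _, ξ, hξ, ht⟩ := gpt hf
  obtain ⟨i⟩ : Nonempty σ := Fintype.card_pos_iff.1 (by omega)
  have hX : ¬ q.f ∣ X i := by
    rintro ⟨g, hg⟩
    have := congrArg (fun h => aeval (0 : σ → ℂ) (pderiv i h)) hg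
    simp only [pderiv_X_self, Derivation.leibniz, smul_eq_mul, map_add, map_mul, map_one,
      q.aeval_f, q.aeval_pderiv, q.zero1, mul_zero, zero_mul, add_zero, one_ne_zero] at this
  have hi : ξ i ≠ 0 := fun h => hX ((hξ _).1 ((aeval_X _ _).trans h))
  have hg : Good q ξ := good_gen (hs.ext K) (fun h => hi (congrFun h i))
    ((q.aeval_f ξ).symm.trans ((hξ _).2 dvd_rfl)) fun w hw => ht w (by
      rw [q.T_eq_sum] at hw
      simp only [q.aeval_pderiv, mul_assoc, ← Finset.mul_sum, mul_comm (q.T _ _ _ _ _), hw,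
        mul_zero])
  have ev : ∀ (m : Fin 4) (A : Type) [CommRing A] [Algebra ℂ A] (p : σ → A) a j,
      aeval (Sum.elim p a) (dlE q i m (X ∘ .inl) (X ∘ .inr) j : MvPolynomial _ ℂ) =
        dlE q i m p a j := fun m A _ _ p a j => by
    rw [dl_map, ← Function.comp_assoc, ← Function.comp_assoc, aeval_comp_X]
    rfl
  choose Δ h1 h2 using fun m : Fin 4 => bad (M := ℂ) (dlE q i m (X ∘ .inl) (X ∘ .inr)) ξ
    (by simpa only [ev] using dl_of_good hg i m)
  refine ⟨X i * ∏ m, Δ m, fun h => ?_, fun L _ _ p hp hd => ?_⟩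
  · have := (hξ _).2 h
    rw [map_mul, map_prod, aeval_X] at this
    exact mul_ne_zero hi (Finset.prod_ne_zero_iff.2 fun m _ => h1 m) this
  · rw [map_mul, map_prod, aeval_X] at hd
    have hp' : p i ≠ 0 := left_ne_zero_of_mul hd
    refine ⟨fun h => hp' (congrFun h i), dl_good hp' fun m ⟨a, ha⟩ => ?_⟩
    refine Finset.prod_ne_zero_iff.1 (right_ne_zero_of_mul hd) m (Finset.mem_univ _)
      (h2 m L p a (fun h hh => ?_) fun j => (ev m L p a j).trans (ha j))
    obtain ⟨g, rfl⟩ := (hξ h).1 hh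
    rw [map_mul, q.aeval_f, hp, zero_mul]

end

section
variable {σ L : Type} [Fintype σ] [DecidableEq σ] [Field L] [Algebra ℂ L] {q : S5 σ}

section
variable {A B : Type} [CommRing A] [Algebra ℂ A] [CommRing B] [Algebra ℂ B]

omit [DecidableEq σ] in
theorem frame_sum5 {τ : Type} [Fintype τ] (a b c d : σ → A) (r : τ → A) (v : τ → σ → A) :
    q.T a b c d (∑ j, r j • v j) = ∑ j, r j * q.T a b c d (v j) := by
  rw [q.sum_last]
  simp only [q.smul5]

omit [DecidableEq σ] in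
theorem frame_sum4 {τ : Type} [Fintype τ] (a b c e : σ → A) (r : τ → A) (v : τ → σ → A) :
    q.T a b c (∑ j, r j • v j) e = ∑ j, r j * q.T a b c (v j) e := by
  simp only [q.T45 a b c _ e, frame_sum5]

omit [DecidableEq σ] in
theorem frame_sum3 {τ : Type} [Fintype τ] (a b d e : σ → A) (r : τ → A) (v : τ → σ → A) :
    q.T a b (∑ j, r j • v j) d e = ∑ j, r j * q.T a b (v j) d e := by
  simp only [q.T34 a b _ d e, frame_sum4]

theorem frame_map_Bj (i k : σ) {F : Type} [FunLike F A B] [AlgHomClass F ℂ A B] (φ : F) (p : σ → A)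
    (j : Ix i k) : φ ∘ Bj q i k p j = Bj q i k (φ ∘ p) j := by
  funext s
  simp only [Bj, Function.comp, Pi.sub_apply, Pi.smul_apply, smul_eq_mul, map_sub, map_mul, q.map φ,
    H61.comp_single, Pi.single_apply, apply_ite φ, map_one, map_zero]

theorem frame_up_Bj (i k : σ) [Algebra A B] [IsScalarTower ℂ A B] (p : σ → A) (j : Ix i k) :
    up B (Bj q i k p j) = Bj q i k (up B p) j :=
  frame_map_Bj i k (IsScalarTower.toAlgHom ℂ A B) p j

theorem frame_Bj_tan (i k : σ) (p : σ → A) (j : Ix i k) : q.T p p p p (Bj q i k p j) = 0 := by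
  rw [Bj, q.sub5, q.smul5, q.smul5]; ring

theorem frame_Bv_single (i k : σ) (p : σ → A) (j : Ix i k) :
    Bv q i k p (Pi.single j 1) = Bj q i k p j := by
  rw [Bv, Finset.sum_eq_single j]
  · simp
  · intro l _ hl; simp [hl]
  · simp

theorem frame_Bv_i {i k : σ} (h : i ≠ k) (p : σ → A) (z : Ix i k → A) : Bv q i k p z i = 0 := by
  rw [Bv, Finset.sum_apply]
  refine Finset.sum_eq_zero fun j _ => ?_
  simp [Bj, h, j.2.1.symm]

theorem frame_Bv_ix (i k : σ) (p : σ → A) (z : Ix i k → A) (j : Ix i k) :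
    Bv q i k p z j.1 = q.T p p p p (Pi.single k 1) * z j := by
  rw [Bv, Finset.sum_apply, Finset.sum_eq_single j]
  · simp [Bj, j.2.2, mul_comm]
  · intro l _ hl
    have : j.1 ≠ l.1 := fun h => hl (Subtype.ext h.symm)
    simp [Bj, j.2.2, this]
  · simp

theorem frame_Bv_add (i k : σ) (p : σ → A) (z z' : Ix i k → A) :
    Bv q i k p (z + z') = Bv q i k p z + Bv q i k p z' := by
  simp only [Bv, Pi.add_apply, add_smul, Finset.sum_add_distrib]

theorem frame_Bv_smul (i k : σ) (p : σ → A) (r : A) (z : Ix i k → A) :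
    Bv q i k p (r • z) = r • Bv q i k p z := by
  simp only [Bv, Pi.smul_apply, smul_eq_mul, mul_smul, Finset.smul_sum]

end

theorem Qp_T (i k : σ) {A B : Type} [CommRing A] [Algebra ℂ A] [CommRing B] [Algebra ℂ B]
    [Algebra A B] [IsScalarTower ℂ A B] (p : σ → A) (a b : Ix i k → B) :
    (Qp q i k p).T a b = q.T (up B p) (up B p) (up B p) (Bv q i k (up B p) a)
      (Bv q i k (up B p) b) := by
  rw [Bv, Bv, frame_sum4, S2.T]
  refine Finset.sum_congr rfl fun j _ => ?_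
  rw [frame_sum5, Finset.mul_sum]
  refine Finset.sum_congr rfl fun l _ => ?_
  rw [← frame_up_Bj, ← frame_up_Bj, q.T_up]
  change algebraMap A B (q.T _ _ _ _ _) * _ = _
  ring

theorem Cp_T (i k : σ) {A B : Type} [CommRing A] [Algebra ℂ A] [CommRing B] [Algebra ℂ B]
    [Algebra A B] [IsScalarTower ℂ A B] (p : σ → A) (a b c : Ix i k → B) :
    (Cp q i k p).T a b c = q.T (up B p) (up B p) (Bv q i k (up B p) a) (Bv q i k (up B p) b)
      (Bv q i k (up B p) c) := by
  rw [Bv, Bv, Bv, frame_sum3, S3.T]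
  refine Finset.sum_congr rfl fun j _ => ?_
  rw [frame_sum4, Finset.mul_sum]
  refine Finset.sum_congr rfl fun l _ => ?_
  rw [frame_sum5, Finset.mul_sum, Finset.mul_sum]
  refine Finset.sum_congr rfl fun m _ => ?_
  rw [← frame_up_Bj, ← frame_up_Bj, ← frame_up_Bj, q.T_up]
  change algebraMap A B (q.T _ _ _ _ _) * _ = _
  ring

theorem Bv_tan (i k : σ) {A : Type} [CommRing A] [Algebra ℂ A] (p : σ → A) (z : Ix i k → A) :
    q.T p p p p (Bv q i k p z) = 0 := by
  rw [Bv, frame_sum5]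
  simp only [frame_Bj_tan, mul_zero, Finset.sum_const_zero]

theorem Bv_lin (i k : σ) {A : Type} [CommRing A] [Algebra ℂ A] (p : σ → A) :
    ∃ B : (Ix i k → A) →ₗ[A] (σ → A), ∀ z, B z = Bv q i k p z :=
  ⟨{ toFun := Bv q i k p, map_add' := frame_Bv_add i k p, map_smul' := frame_Bv_smul i k p }, fun _ => rfl⟩

theorem map_Bv (i k : σ) {A B F : Type} [CommRing A] [Algebra ℂ A] [CommRing B] [Algebra ℂ B]
    [FunLike F A B] [AlgHomClass F ℂ A B] (φ : F) (p : σ → A) (z : Ix i k → A) :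
    φ ∘ Bv q i k p z = Bv q i k (φ ∘ p) (φ ∘ z) := by
  funext s
  simp only [Bv, Function.comp_apply, Finset.sum_apply, Pi.smul_apply, smul_eq_mul, map_sum,
    map_mul, ← frame_map_Bj]

theorem der_Bv (i k : σ) {L' : Type} [Field L'] [Algebra ℂ L'] [Algebra L L']
    [IsScalarTower ℂ L L'] (D : Derivation L L' L') (p : σ → L) (z : Ix i k → L') :
    D ∘ Bv q i k (up L' p) z = Bv q i k (up L' p) (D ∘ z) := by
  funext s
  simp only [Bv, Function.comp_apply, Finset.sum_apply, Pi.smul_apply, smul_eq_mul, map_sum,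
    ← frame_up_Bj, up_apply, Derivation.leibniz, Derivation.map_algebraMap, mul_zero, zero_add, mul_comm]

theorem Fr.inj {i k : σ} {p : σ → L} (h : Fr q i k p) {z : Ix i k → L} {c : L}
    (hz : Bv q i k p z + c • p = 0) : z = 0 ∧ c = 0 := by
  have h1 := congrFun hz i
  rw [Pi.add_apply, frame_Bv_i h.ik, Pi.smul_apply, smul_eq_mul, zero_add] at h1
  have h2 : c = 0 := (mul_eq_zero.1 h1).resolve_right h.pi
  refine ⟨funext fun j => ?_, h2⟩
  have h3 := congrFun hz j.1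
  rw [h2, zero_smul, add_zero, frame_Bv_ix] at h3
  exact (mul_eq_zero.1 h3).resolve_left h.gk

theorem Fr.surj {i k : σ} {p : σ → L} (h : Fr q i k p) (hp : q.T p p p p p = 0) {u : σ → L}
    (hu : q.T p p p p u = 0) : ∃ (z : Ix i k → L) (c : L), u = Bv q i k p z + c • p := by
  have h0 := h.pi
  have h1 := h.gk
  let c := u i / p i
  let z : Ix i k → L := fun j => (u j.1 - c * p j.1) / q.T p p p p (Pi.single k 1)
  refine ⟨z, c, ?_⟩
  let v := u - (Bv q i k p z + c • p)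
  have u1 : ∀ s, s ≠ k → v s = 0 := fun s hs => by
    by_cases e : s = i
    · subst e
      simp only [v, Pi.sub_apply, Pi.add_apply, Pi.smul_apply, smul_eq_mul, frame_Bv_i h.ik, c]
      field_simp
      ring
    · have := frame_Bv_ix (q := q) i k p z ⟨s, e, hs⟩
      simp only [v, Pi.sub_apply, Pi.add_apply, Pi.smul_apply, smul_eq_mul] at this ⊢
      rw [this]
      simp only [z]
      field_simp
      ring
  have u2 : q.T p p p p v = 0 := by
    simp only [v, q.sub5, q.add5, q.smul5, hu, hp, Bv_tan]; ring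
  rw [q.T_eq_sum, Finset.sum_eq_single k (fun s _ hs => by rw [u1 s hs, zero_mul]) (by simp)] at u2
  have u3 : v = 0 := funext fun s => by
    by_cases e : s = k
    · rw [e]; exact (mul_eq_zero.1 u2).resolve_right h1
    · exact u1 s e
  exact sub_eq_zero.1 u3

theorem Fr.up {i k : σ} {p : σ → L} (h : Fr q i k p) (L' : Type) [Field L'] [Algebra ℂ L']
    [Algebra L L'] [IsScalarTower ℂ L L'] : Fr q i k (H64.up L' p) :=
  ⟨h.ik, (map_ne_zero _).2 h.pi, by
    rw [← up_single (A := L) (B := L') k, q.T_up]; exact (map_ne_zero _).2 h.gk⟩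

omit [Field L] [Algebra ℂ L] in
theorem frame_card_Ix {i k : σ} (h : i ≠ k) : Fintype.card (Ix i k) + 2 = Fintype.card σ := by
  have h1 : Fintype.card (Ix i k) = ((Finset.univ.erase i).erase k).card := by
    rw [Fintype.card_subtype]
    congr 1
    ext j
    simp [and_comm]
  have h2 : k ∈ (Finset.univ : Finset σ).erase i := by simp [h.symm]
  have h3 := Finset.card_erase_add_one h2
  have h4 := Finset.card_erase_add_one (Finset.mem_univ i)
  rw [Finset.card_univ] at h4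
  omega

theorem Fr.card {i k : σ} {p : σ → L} (h : Fr q i k p) :
    Fintype.card (Ix i k) + 2 = Fintype.card σ := frame_card_Ix h.ik

theorem exists_Fr (hs : q.Sm L) {p : σ → L} (h0 : p ≠ 0) (hp : q.T p p p p p = 0) :
    ∃ i k, Fr q i k p := by
  obtain ⟨w, hw⟩ := hs p h0 hp
  obtain ⟨k, h1⟩ : ∃ i, q.T p p p p (Pi.single i 1) ≠ 0 := by
    by_contra! H
    exact hw (by rw [q.T_eq_sum]; simp [H])
  obtain ⟨i, hi⟩ := Function.ne_iff.1 h0
  by_cases e : i = k
  · subst e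
    by_contra! H
    rw [q.T_eq_sum, Finset.sum_eq_single i] at hp
    · exact mul_ne_zero hi h1 hp
    · intro j _ hj
      by_contra h3
      exact H i j ⟨hj.symm, hi, right_ne_zero_of_mul h3⟩
    · simp
  · exact ⟨i, k, e, hi, h1⟩

end

section
variable {σ L : Type} [Fintype σ] [DecidableEq σ] [Field L] [Algebra ℂ L] {q : S5 σ}

theorem pull_ne {i k : σ} {p : σ → L} (h : Fr q i k p) {z : Ix i k → L} (hz : z ≠ 0) (c : L) :
    Bv q i k p z ≠ c • p := fun e =>
  hz (h.inj (c := -c) (by rw [e, neg_smul, add_neg_cancel])).1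

/-- A linear form killing `p` and the frame is a multiple of the gradient. -/
theorem pull_mult {i k : σ} {p : σ → L} (h : Fr q i k p) (hp : q.T p p p p p = 0)
    (l : (σ → L) →ₗ[L] L) (h1 : l p = 0) (h2 : ∀ z, l (Bv q i k p z) = 0) :
    ∃ a : L, ∀ u, l u = a * q.T p p p p u := by
  have hk := h.gk
  refine ⟨l (Pi.single k 1) / q.T p p p p (Pi.single k 1), fun u => ?_⟩
  obtain ⟨z, c, e⟩ := h.surj hp (u := q.T p p p p (Pi.single k 1) • u -
    q.T p p p p u • Pi.single k 1) (by rw [q.sub5, q.smul5, q.smul5]; ring)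
  have h3 := congrArg l e
  rw [map_add, h2, map_smul, h1, map_sub, map_smul, map_smul] at h3
  simp only [smul_eq_mul, mul_zero, add_zero] at h3
  field_simp
  linear_combination h3

theorem pull_sm {i k : σ} {p : σ → L} (h : Fr q i k p) (hp : q.T p p p p p = 0) (hg : Good q p) :
    Sm (Qp q i k p) (Cp q i k p) L := by
  have hQ : ∀ a b : Ix i k → L, (Qp q i k p).T a b = q.T p p p (Bv q i k p a) (Bv q i k p b) :=
    Qp_T i k p
  have hC : ∀ a b c : Ix i k → L, (Cp q i k p).T a b c =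
      q.T p p (Bv q i k p a) (Bv q i k p b) (Bv q i k p c) := Cp_T i k p
  have nd : ∀ u : Ix i k → L, (∀ w, (Qp q i k p).T u w = 0) → u = 0 := fun u hu => by
    by_contra h0
    obtain ⟨a, ha⟩ := pull_mult h hp (q.L p p p (Bv q i k p u))
      (by rw [q.L_apply, q.T45, Bv_tan]) fun z => by rw [q.L_apply, ← hQ, hu]
    exact hg.b1 _ (pull_ne h h0) (Bv_tan i k p u) a ha
  refine ⟨nd, fun y hy a b hab => ?_⟩
  have hb : b = 0 := by
    by_contra hb
    have y2 := hy.q
    rw [hQ] at y2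
    obtain ⟨c, hc⟩ := pull_mult h hp (a • q.L p p p (Bv q i k p y) +
      b • q.L p p (Bv q i k p y) (Bv q i k p y)) (by
        simp only [LinearMap.add_apply, LinearMap.smul_apply, q.L_apply, smul_eq_mul]
        rw [q.T45 p p p, Bv_tan, q.T45 p p _ _ p, q.T34 p p _ p, y2]; ring) fun z => by
        simp only [LinearMap.add_apply, LinearMap.smul_apply, q.L_apply, smul_eq_mul]
        rw [← hQ, ← hC, hab]
    refine hg.b2 _ (pull_ne h hy.ne) (Bv_tan i k p y) y2 (c / b) (-a / b) fun u => ?_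
    have := hc u
    simp only [LinearMap.add_apply, LinearMap.smul_apply, q.L_apply, smul_eq_mul] at this
    field_simp
    linear_combination this
  refine ⟨?_, hb⟩
  by_contra ha
  refine hy.ne (nd y fun w => ?_)
  have h2 := hab w
  rw [hb, zero_mul, add_zero] at h2
  exact (mul_eq_zero.1 h2).resolve_left ha

end

section
variable {σ L : Type} [Fintype σ] [DecidableEq σ] [Field L] [Algebra ℂ L] {q : S5 σ}

/-- A common zero on a generic linear section moves in many directions. -/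
theorem z0_gen_sec {L σ κ : Type} [Field L] [CharZero L] [Fintype σ] [Fintype κ]
    (r : κ → MvPolynomial σ L) (h0 : ∀ j, eval 0 (r j) = 0) (m : ℕ)
    (hc : Fintype.card κ + m < Fintype.card σ) :
    ∃ (L' : Type) (_ : Field L') (_ : IsAlgClosed L') (_ : Algebra L L') (z : σ → L'), z ≠ 0 ∧
      (∀ j, aeval z (r j) = 0) ∧
      ∀ W : Submodule L' (σ → L'), Tan L z ≤ W → z ∈ W → m + 1 ≤ finrank L' W := by
  classical
  obtain ⟨L', _, _, _, _, _, a, ha⟩ := gen_ext ℚ L (Fin m × σ)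
  obtain ⟨z, hz, h1⟩ := H61.exists_zero (F := L') (σ := σ) (κ := κ ⊕ Fin m)
    (Sum.elim (fun j => map (algebraMap L L') (r j)) fun k => ∑ i, C (a (k, i)) * X i)
    (by
      rintro (j | k)
      · have := h0 j
        rw [eval_zero] at this
        simp only [Sum.elim_inl, eval_zero, constantCoeff_map, this, map_zero]
      · simp)
    (by simpa using hc)
  have h2 : ∀ k, ∑ i, a (k, i) * z i = 0 := fun k => by simpa using h1 (.inr k)
  refine ⟨L', inferInstance, inferInstance, inferInstance, z, hz, fun j => ?_, fun W hW hzW => ?_⟩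
  · simpa only [Sum.elim_inl, eval_map, ← aeval_def] using h1 (.inl j)
  let A : (σ → L') →ₗ[L'] (Fin m → L') := Matrix.mulVecLin (Matrix.of fun k i => a (k, i))
  have hA : ∀ u k, A u k = ∑ i, a (k, i) * u i := fun u k => rfl
  obtain ⟨i0, hi⟩ := Function.ne_iff.1 hz
  have hi : z i0 ≠ 0 := hi
  have h3 : LinearMap.range (A.domRestrict W) = ⊤ := by
    refine eq_top_iff.2 fun w _ => ?_
    obtain ⟨D0, hD0, hD⟩ := der_ext (M := ℚ) (0 : Derivation ℚ L L) a ha
      fun x => if x.2 = i0 then -w x.1 / z i0 else 0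
    let D : Derivation L L' L' := Derivation.mk'
      { toFun := D0
        map_add' := map_add D0
        map_smul' := fun c x => by simp [Algebra.smul_def, hD0] } fun x y => D0.leibniz x y
    have hD : ∀ x, D (a x) = if x.2 = i0 then -w x.1 / z i0 else 0 := congrFun hD
    refine ⟨⟨D ∘ z, hW (mem_Tan.2 ⟨D, rfl⟩)⟩, funext fun k => ?_⟩
    have h4 := congrArg D (h2 k)
    simp only [map_sum, Derivation.leibniz, hD, smul_eq_mul, Finset.sum_add_distrib, mul_ite,
      mul_zero, Finset.sum_ite_eq', Finset.mem_univ, if_true, map_zero] at h4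
    rw [LinearMap.domRestrict_apply, hA]
    simp only [Function.comp]
    field_simp at h4
    linear_combination h4
  have h5 := (A.domRestrict W).finrank_range_add_finrank_ker
  rw [h3, finrank_top, finrank_fintype_fun_eq_card, Fintype.card_fin] at h5
  have h6 : 0 < finrank L' (LinearMap.ker (A.domRestrict W)) := by
    refine Nat.pos_of_ne_zero fun h7 => hz ?_
    have h8 : (⟨z, hzW⟩ : W) ∈ LinearMap.ker (A.domRestrict W) := funext fun k => h2 k
    rw [Submodule.finrank_eq_zero.1 h7] at h8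
    exact congrArg Subtype.val (Submodule.mem_bot _ |>.1 h8)
  omega


/-- The four forms of a contact direction are independent on the frame. -/
theorem z0_ind {i k : σ} {p : σ → L} (h : Fr q i k p) (hp : q.T p p p p p = 0) (hg : Good q p)
    {z : Ix i k → L} (hz : z ≠ 0) {v : σ → L} (hv : Bv q i k p z = v) (g2 : q.T p p p v v = 0)
    (g3 : q.T p p v v v = 0) (g4 : q.T p v v v v = 0) (c : Fin 4 → L)
    (hc : ∀ u, c 0 * q.T p p p v (Bv q i k p u) + c 1 * q.T p p v v (Bv q i k p u)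
      + c 2 * q.T p v v v (Bv q i k p u) + c 3 * q.T v v v v (Bv q i k p u) = 0) : c = 0 := by
  have g1 : q.T p p p p v = 0 := hv ▸ Bv_tan i k p z
  have hn : ∀ a : L, v ≠ a • p := fun a ha =>
    hz (h.inj (c := -a) (by rw [hv, ha, neg_smul, add_neg_cancel])).1
  let l := c 0 • q.L p p p v + c 1 • q.L p p v v + c 2 • q.L p v v v + c 3 • q.L v v v v
  have hl : ∀ u, l u = c 0 * q.T p p p v u + c 1 * q.T p p v v u + c 2 * q.T p v v v u
      + c 3 * q.T v v v v u := fun u => rfl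
  have h1 : l p = 0 := by
    rw [hl, q.T45 p p p v p, q.T45 p p v v p, q.T34 p p v p v, q.T45 p v v v p, q.T34 p v v p v,
      q.T23 p v p v v, q.T45 v v v v p, q.T34 v v v p v, q.T23 v v p v v, q.T12 v p v v v,
      g1, g2, g3, g4]
    ring
  have h2 : ∀ u, q.T p p p p u = 0 → l u = 0 := fun u hu => by
    obtain ⟨w, a, rfl⟩ := h.surj hp hu
    rw [map_add, map_smul, h1, hl, hc, smul_zero, add_zero]
  obtain ⟨a, ha⟩ : ∃ a, ∀ u, l u = a * q.T p p p p u := by
    refine ⟨l (Pi.single k 1) / q.T p p p p (Pi.single k 1), fun u => ?_⟩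
    have hk := h.gk
    have h3 := h2 (u - (q.T p p p p u / q.T p p p p (Pi.single k 1)) • Pi.single k 1)
      (by rw [q.sub5, q.smul5]; field_simp; ring)
    rw [map_sub, map_smul, smul_eq_mul] at h3
    field_simp at h3 ⊢
    linear_combination h3
  simp only [hl] at ha
  have c3 : c 3 = 0 := by
    by_contra c3
    exact hg.b4 v hn g1 g2 g3 g4 (a / c 3) (-c 0 / c 3) (-c 1 / c 3) (-c 2 / c 3) fun u => by
      field_simp
      linear_combination ha u
  have c2 : c 2 = 0 := by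
    by_contra c2
    exact hg.b3 v hn g1 g2 g3 (a / c 2) (-c 0 / c 2) (-c 1 / c 2) fun u => by
      field_simp
      linear_combination ha u - q.T v v v v u * c3
  have c1 : c 1 = 0 := by
    by_contra c1
    exact hg.b2 v hn g1 g2 (a / c 1) (-c 0 / c 1) fun u => by
      field_simp
      linear_combination ha u - q.T v v v v u * c3 - q.T p v v v u * c2
  have c0 : c 0 = 0 := by
    by_contra c0
    exact hg.b1 v hn g1 (a / c 0) fun u => by
      field_simp
      linear_combination ha u - q.T v v v v u * c3 - q.T p v v v u * c2 - q.T p p v v u * c1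
  funext j
  fin_cases j <;> assumption

/-- Evaluation of the forms in the frame coordinates. -/
theorem z0_ev {i k : σ} (p : σ → L) {A : Type} [CommRing A] [Algebra ℂ A] [Algebra L A]
    [IsScalarTower ℂ L A] (z : Ix i k → A) (a b c d e : σ → MvPolynomial (Ix i k) L) :
    aeval z (q.T a b c d e) = q.T (aeval z ∘ a) (aeval z ∘ b) (aeval z ∘ c) (aeval z ∘ d)
      (aeval z ∘ e) ∧ aeval z ∘ up (MvPolynomial (Ix i k) L) p = up A p ∧
      aeval z ∘ Bv q i k (up (MvPolynomial (Ix i k) L) p) X = Bv q i k (up A p) z := by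
  let φ := (aeval z : MvPolynomial (Ix i k) L →ₐ[L] A).restrictScalars ℂ
  have h1 : aeval z ∘ up (MvPolynomial (Ix i k) L) p = up A p := map_up _ p
  refine ⟨q.map φ a b c d e, h1, (map_Bv i k φ _ _).trans ?_⟩
  exact congrArg₂ _ h1 (aeval_comp_X z)

theorem exists_z0 [IsAlgClosed L] {Δ : MvPolynomial σ ℂ} (hΔ : Dl q Δ) (hN : 9 ≤ Fintype.card σ)
    {i k : σ} {p : σ → L} (h : Fr q i k p) (hp : q.T p p p p p = 0) (hd : aeval p Δ ≠ 0) :
    ∃ z : Ix i k → L, InV (Qp q i k p) (Cp q i k p) z ∧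
      q.T p (Bv q i k p z) (Bv q i k p z) (Bv q i k p z) (Bv q i k p z) = 0 ∧
      q.T (Bv q i k p z) (Bv q i k p z) (Bv q i k p z) (Bv q i k p z) (Bv q i k p z) ≠ 0 := by
  by_contra! H
  have : CharZero L := charZero_of_injective_algebraMap (algebraMap ℂ L).injective
  let P := up (MvPolynomial (Ix i k) L) p
  let V := Bv q i k P X
  let r : Fin 3 → MvPolynomial (Ix i k) L := ![q.T P P P V V, q.T P P V V V, q.T P V V V V]
  have ev : ∀ (A : Type) [CommRing A] [Algebra ℂ A] [Algebra L A] [IsScalarTower ℂ L A]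
      (z : Ix i k → A) (v : σ → A), Bv q i k (up A p) z = v →
      aeval z (r 0) = q.T (up A p) (up A p) (up A p) v v ∧
      aeval z (r 1) = q.T (up A p) (up A p) v v v ∧ aeval z (r 2) = q.T (up A p) v v v v ∧
      aeval z (q.T V V V V V) = q.T v v v v v := by
    intro A _ _ _ _ z v hv
    obtain ⟨-, e1, e2⟩ := z0_ev (q := q) p z 0 0 0 0 0
    refine ⟨?_, ?_, ?_, ?_⟩ <;> refine (z0_ev p z _ _ _ _ _).1.trans ?_ <;>
      simp only [P, V, e1, e2, hv]
  have b0 : Bv q i k p 0 = 0 := by simp [Bv]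
  have hc := h.card
  obtain ⟨L', _, _, _, z, hz, hr, hW⟩ := z0_gen_sec r (fun j => by
    obtain ⟨e0, e1, e2, -⟩ := ev L 0 0 b0
    rw [← coe_aeval_eq_eval]
    fin_cases j
    exacts [e0.trans (q.zero5 ..), e1.trans (q.zero5 ..), e2.trans (q.zero5 ..)])
    (Fintype.card (Ix i k) - 4) (by rw [Fintype.card_fin]; omega)
  let _ : Algebra ℂ L' := ((algebraMap L L').comp (algebraMap ℂ L)).toAlgebra
  have : IsScalarTower ℂ L L' := .of_algebraMap_eq fun _ => rfl
  have : CharZero L' := charZero_of_injective_algebraMap (algebraMap ℂ L').injective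
  obtain ⟨v, hv⟩ : ∃ v, Bv q i k (up L' p) z = v := ⟨_, rfl⟩
  obtain ⟨g2, g3, g4, g5⟩ := ev L' z v hv
  rw [hr] at g2 g3 g4
  rw [H61.null r _ (fun y hy => ?_) z hr] at g5
  swap
  · obtain ⟨e0, e1, e2, e3⟩ := ev L y _ rfl
    refine e3.trans ?_
    by_cases hy0 : y = 0
    · rw [hy0, up_self, b0, q.zero5]
    · exact H y ⟨hy0, (Qp_T ..).trans (e0.symm.trans (hy 0)),
        (Cp_T ..).trans (e1.symm.trans (hy 1))⟩ (e2.symm.trans (hy 2))
  have hp' : q.T (up L' p) (up L' p) (up L' p) (up L' p) (up L' p) = 0 := by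
    rw [q.T_up, hp, map_zero]
  have hg := (hΔ.good L' (up L' p) hp' (by
    rw [show aeval (up L' p) Δ = algebraMap L L' (aeval p Δ) from aeval_algebraMap_apply L' p Δ]
    exact (map_ne_zero _).2 hd)).2
  obtain ⟨B, hB⟩ := Bv_lin (q := q) i k (up L' p)
  set p' := up L' p with hp''
  let φ : (Ix i k → L') →ₗ[L'] Fin 4 → L' :=
    (LinearMap.pi ![q.L p' p' p' v, q.L p' p' v v, q.L p' v v v, q.L v v v v]).comp B
  have hφ : ∀ u, φ u = ![q.T p' p' p' v (Bv q i k p' u), q.T p' p' v v (Bv q i k p' u),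
      q.T p' v v v (Bv q i k p' u), q.T v v v v (Bv q i k p' u)] := fun u => by
    funext j
    rw [← hB]
    fin_cases j <;> rfl
  have h1 := hW (LinearMap.ker φ) ?_ (by
    rw [LinearMap.mem_ker, hφ, hv, ← g2, ← g3, ← g4, ← g5]
    funext j
    fin_cases j <;> rfl)
  · have h2 := φ.finrank_range_add_finrank_ker
    rw [finrank_fintype_fun_eq_card] at h2
    obtain ⟨c, hc0, hc1⟩ := exists_dep φ ⊤ (by rw [Submodule.map_top]; omega)
    refine hc0 (z0_ind (h.up L') hp' hg hz hv g2.symm g3.symm g4.symm c fun u => ?_)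
    simpa [hφ, Fin.sum_univ_four] using hc1 u trivial
  · rintro _ ⟨D, rfl⟩
    have d0 : D ∘ p' = 0 := der_up D D.map_algebraMap p
    have d1 : Bv q i k p' (D ∘ z) = D ∘ v := by rw [← hv, der_Bv]
    have dT := q.der' D fun c => D.map_algebraMap (algebraMap ℂ L c)
    have e2 := dT p' p' p' v v
    have e3 := dT p' p' v v v
    have e4 := dT p' v v v v
    have e5 := dT v v v v v
    rw [LinearMap.mem_ker, hφ, d1]
    generalize D ∘ v = w at *
    simp only [← g2, ← g3, ← g4, ← g5, d0, map_zero, q.zero1, q.zero2, q.zero3, q.T12 w,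
      q.T23 _ w, q.T34 _ _ w, q.T45 _ _ _ w] at e2 e3 e4 e5
    funext j
    fin_cases j
    · exact (by linear_combination -e2 / 2 : q.T p' p' p' v w = 0)
    · exact (by linear_combination -e3 / 3 : q.T p' p' v v w = 0)
    · exact (by linear_combination -e4 / 4 : q.T p' v v v w = 0)
    · exact (by linear_combination -e5 / 5 : q.T v v v v w = 0)

end

section
variable {σ L : Type} [Fintype σ] [DecidableEq σ] [Field L] [Algebra ℂ L] {q : S5 σ}

section
variable [IsAlgClosed L] {Δ : MvPolynomial σ ℂ} {i k : σ} {p : σ → L} {L' : Type} [Field L']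
  [IsAlgClosed L'] [Algebra ℂ L'] [Algebra L L'] [IsScalarTower ℂ L L'] {z : Ix i k → L'}

theorem xg4 (hΔ : Dl q Δ) (h : Fr q i k p) (hp : q.T p p p p p = 0) (hd : aeval p Δ ≠ 0)
    (hz : InV (Qp q i k p) (Cp q i k p) z) (ht : Hs (Qp q i k p) (Cp q i k p) z ≤ Tan L z) :
    q.T (up L' p) (Bv q i k (up L' p) z) (Bv q i k (up L' p) z) (Bv q i k (up L' p) z)
      (Bv q i k (up L' p) z) ≠ 0 := by
  intro g4
  have : CharZero L' := charZero_of_injective_algebraMap (algebraMap ℂ L').injective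
  have hp' : q.T (up L' p) (up L' p) (up L' p) (up L' p) (up L' p) = 0 := by
    rw [q.T_up, hp, map_zero]
  have hg := (hΔ.good L' (up L' p) hp' (by
    rw [show aeval (up L' p) Δ = algebraMap L L' (aeval p Δ) from aeval_algebraMap_apply L' p Δ]
    exact (map_ne_zero _).2 hd)).2
  obtain ⟨e1, e2, hD⟩ := ((pull_sm h hp (hΔ.good L p hp hd).2).ext L').dual hz
  obtain ⟨B, hB⟩ := Bv_lin (q := q) i k (up L' p)
  have hF := h.up L'
  have g2 := (Qp_T ..).symm.trans hz.q
  have g3 := (Cp_T ..).symm.trans hz.c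
  have g1 := Bv_tan (q := q) i k (up L' p) z
  have hQ := fun u => Qp_T (q := q) i k p z u
  have hC := fun u => Cp_T (q := q) i k p z z u
  have hdv := fun D : Derivation L L' L' => der_Bv (q := q) i k D p z
  have d0 := fun D : Derivation L L' L' => der_up D D.map_algebraMap p
  have hv : ∀ c : L', Bv q i k (up L' p) z ≠ c • up L' p := fun c hc =>
    hz.ne (hF.inj (c := -c) (by rw [hc, neg_smul, add_neg_cancel])).1
  generalize up L' p = p' at *
  generalize Bv q i k p' z = v at *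
  have hl := hD.span ((q.L p' v v v).comp B) (fun u hu => by
    obtain ⟨D, rfl⟩ := ht hu
    have e4 := q.der' D (fun c => D.map_algebraMap (algebraMap ℂ L c) |> fun h => by
      rwa [← IsScalarTower.algebraMap_apply] at h) p' v v v v
    rw [LinearMap.comp_apply, hB, ← hdv, S5.L_apply]
    generalize D ∘ v = w at *
    simp only [g4, d0, map_zero, q.zero1, q.T23 _ w, q.T34 _ _ w, q.T45 _ _ _ w] at e4
    linear_combination -e4 / 4)
  generalize ((q.L p' v v v).comp B) e1 = a at hl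
  generalize ((q.L p' v v v).comp B) e2 = b at hl
  have key : ∀ u, q.T p' p' p' p' u = 0 →
      q.T p' v v v u = a * q.T p' p' p' v u + b * q.T p' p' v v u := fun u hu => by
    obtain ⟨η, c, rfl⟩ := hF.surj hp' hu
    have := hl η
    rw [LinearMap.comp_apply, hB, S5.L_apply, hQ, hC] at this
    simp only [q.add5, q.smul5, this, q.T45 _ _ _ v p', q.T34 _ _ v p', q.T23 _ v p', g1, g2, g3]
    ring
  set e : σ → L' := Pi.single k 1
  refine hg.b3 v hv g1 g2 g3 ((q.T p' v v v e - a * q.T p' p' p' v e - b * q.T p' p' v v e) /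
    q.T p' p' p' p' e) a b fun u => ?_
  have hk : q.T p' p' p' p' e ≠ 0 := hF.gk
  have := key (q.T p' p' p' p' e • u - q.T p' p' p' p' u • e) (by
    rw [q.sub5, q.smul5, q.smul5]; ring)
  simp only [q.sub5, q.smul5] at this
  field_simp
  linear_combination this

theorem xd (hΔ : Dl q Δ) (hN : 9 ≤ Fintype.card σ) (h : Fr q i k p) (hp : q.T p p p p p = 0)
    (hd : aeval p Δ ≠ 0) (hz : InV (Qp q i k p) (Cp q i k p) z)
    (ht : Hs (Qp q i k p) (Cp q i k p) z ≤ Tan L z) :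
    aeval (res5 q (up L' p) (Bv q i k (up L' p) z)) Δ ≠ 0 := by
  intro h0
  have : CharZero L := charZero_of_injective_algebraMap (algebraMap ℂ L).injective
  have hs := pull_sm h hp (hΔ.good L p hp hd).2
  have hN' : 7 ≤ Fintype.card (Ix i k) := by have := h.card; omega
  obtain ⟨z0, hz0, g4, g5⟩ := exists_z0 hΔ hN h hp hd
  obtain ⟨e, he, he0, hc⟩ := exe hs hN' hz0.ne
  have ev : ∀ (A : Type) [CommRing A] [Algebra ℂ A] [Algebra L A] [IsScalarTower ℂ L A]
      (y : Ix i k → A), aeval y (aeval (res5 q (up (MvPolynomial (Ix i k) L) p)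
        (Bv q i k (up (MvPolynomial (Ix i k) L) p) X)) Δ) =
      aeval (res5 q (up A p) (Bv q i k (up A p) y)) Δ := fun A _ _ _ _ y => by
    let φ : MvPolynomial (Ix i k) L →ₐ[ℂ] A := (aeval y).restrictScalars ℂ
    have h1 : φ ∘ up (MvPolynomial (Ix i k) L) p = up A p := map_up (aeval y) p
    have h2 : φ ∘ X = y := aeval_comp_X y
    refine (comp_aeval_apply _ φ Δ).trans (congrArg (fun t => aeval t Δ) ?_)
    rw [← h1, ← h2, ← map_Bv, res5, res5, ← q.map, ← q.map]
    funext j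
    simp only [Function.comp, Pi.sub_apply, Pi.smul_apply, smul_eq_mul, map_sub, map_mul, map_ofNat]
  obtain ⟨s, hs5⟩ := IsAlgClosed.exists_pow_nat_eq (q.T (Bv q i k p z0) (Bv q i k p z0)
    (Bv q i k p z0) (Bv q i k p z0) (Bv q i k p z0))⁻¹ (by norm_num : 0 < 5)
  have hs0 : s ≠ 0 := fun h1 => inv_ne_zero g5 (by rw [← hs5, h1]; norm_num)
  have h1 := genV hs hN' hz ht _ ((ev L' z).trans h0) he hc L (s • z0)
    (by rw [S2.smul1, S2.smul2, hz0.q]; ring) (by rw [S3.smul1, S3.smul2, S3.smul3, hz0.c]; ring)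
    (by rw [S2.smul2]; exact (mul_ne_zero hs0 he0).isUnit)
  obtain ⟨B, hB⟩ := Bv_lin (q := q) i k p
  rw [ev L, up_self, ← hB, map_smul, hB, res5] at h1
  simp only [q.smul1, q.smul2, q.smul3, q.smul4, q.smul5, g4, mul_zero, zero_smul, sub_zero] at h1
  refine hd (by rwa [show ∀ t : L, s * (s * (s * (s * (s * t)))) = s ^ 5 * t from fun t => by ring,
    hs5, inv_mul_cancel₀ g5, one_smul] at h1)

end

end

section
variable {σ L : Type} [Fintype σ] [DecidableEq σ] [Field L] [Algebra ℂ L] {q : S5 σ}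

theorem x3_bad {i k : σ} {p : σ → L} (h : Fr q i k p) (hp : q.T p p p p p = 0) (hg : Good q p)
    {z : Ix i k → L} (hz : InV (Qp q i k p) (Cp q i k p) z)
    (H : ∀ u ∈ Hs (Qp q i k p) (Cp q i k p) z,
      q.T p (Bv q i k p z) (Bv q i k p z) (Bv q i k p z) (Bv q i k p u) = 0) : False := by
  obtain ⟨e1, e2, hd⟩ := (pull_sm h hp hg).dual hz
  obtain ⟨B, hB⟩ := Bv_lin (q := q) i k p
  have hQ : ∀ a b, (Qp q i k p).T a b = q.T p p p (Bv q i k p a) (Bv q i k p b) := Qp_T i k p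
  have hC : ∀ a b c, (Cp q i k p).T a b c =
    q.T p p (Bv q i k p a) (Bv q i k p b) (Bv q i k p c) := Cp_T i k p
  have h1 := hz.q
  have h2 := hz.c
  have h3 := Bv_tan (q := q) i k p z
  have h4 := hd.span ((q.L p (B z) (B z) (B z)).comp B) fun u hu => by
    simpa only [LinearMap.comp_apply, S5.L_apply, hB] using H u hu
  simp only [LinearMap.comp_apply, S5.L_apply, hB, hQ, hC] at h1 h2 h4
  generalize hv : Bv q i k p z = v at *
  generalize q.T p v v v (Bv q i k p e1) = α at h4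
  generalize q.T p v v v (Bv q i k p e2) = β at h4
  refine hg.b3 v (fun c hc => hz.ne (h.inj (c := -c) (by rw [hv, hc]; simp)).1) h3 h1 h2
    ((q.T p v v v (Pi.single k 1) - α * q.T p p p v (Pi.single k 1)
      - β * q.T p p v v (Pi.single k 1)) / q.T p p p p (Pi.single k 1)) α β fun u => ?_
  obtain ⟨ζ, c, h5⟩ := h.surj hp
    (u := u - (q.T p p p p u / q.T p p p p (Pi.single k 1)) • (Pi.single k 1 : σ → L))
    (by rw [q.sub5, q.smul5, div_mul_cancel₀ _ h.gk, sub_self])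
  have h6 := congrArg (fun w => q.T p v v v w - α * q.T p p p v w - β * q.T p p v v w) h5
  simp only [q.sub5, q.add5, q.smul5, h4, q.T45 p _ _ v p, q.T34 p _ v p, q.T23 p v p, h1, h2,
    h3] at h6
  linear_combination h6

theorem x3_ev (i k : σ) (p : σ → L) {A : Type} [CommRing A] [Algebra ℂ A] [Algebra L A]
    [IsScalarTower ℂ L A] (w : Ix i k → A) (l : Ix i k → L) (κ : L) :
    aeval w (q.T (up _ p) (Bv q i k (up _ p) X) (Bv q i k (up _ p) X) (Bv q i k (up _ p) X)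
      (Bv q i k (up _ p) X) - C κ * (up _ l ⬝ᵥ X) ^ 4 : MvPolynomial (Ix i k) L) =
    q.T (up A p) (Bv q i k (up A p) w) (Bv q i k (up A p) w) (Bv q i k (up A p) w)
      (Bv q i k (up A p) w) - algebraMap L A κ * (up A l ⬝ᵥ w) ^ 4 := by
  let φ := (aeval w : MvPolynomial (Ix i k) L →ₐ[L] A).restrictScalars ℂ
  have h1 : φ ∘ up _ p = up A p := map_up (aeval w) p
  have h2 : φ ∘ X = w := aeval_comp_X w
  rw [map_sub, map_mul, map_pow, aeval_C]
  congr 1
  · exact (q.map φ _ _ _ _ _).trans (by rw [map_Bv, h1, h2])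
  · simp [dotProduct, up_apply]

section
variable [IsAlgClosed L] {Δ : MvPolynomial σ ℂ} {i k : σ} {p : σ → L} {L' : Type} [Field L']
  [IsAlgClosed L'] [Algebra ℂ L'] [Algebra L L'] [IsScalarTower ℂ L L'] {z : Ix i k → L'}

theorem x3 (hΔ : Dl q Δ) (hN : 9 ≤ Fintype.card σ) (h : Fr q i k p) (hp : q.T p p p p p = 0)
    (hd : aeval p Δ ≠ 0) (hz : InV (Qp q i k p) (Cp q i k p) z)
    (ht : Hs (Qp q i k p) (Cp q i k p) z ≤ Tan L z) (E : Submodule L (Ix i k → L))
    (hE : Fintype.card (Ix i k) ≤ finrank L E + 1) (a b : L') :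
    ¬ ∀ η ∈ E, q.T (up L' p) (Bv q i k (up L' p) z) (Bv q i k (up L' p) z) (Bv q i k (up L' p) z)
      (Bv q i k (up L' p) (up L' η)) =
        a * (Qp q i k p).T z (up L' η) + b * (Cp q i k p).T z z (up L' η) := by
  intro H
  have : CharZero L := charZero_of_injective_algebraMap (algebraMap ℂ L).injective
  have : CharZero L' := charZero_of_injective_algebraMap (algebraMap ℂ L').injective
  have hc := h.card
  have hg := (hΔ.good L p hp hd).2
  have hs := pull_sm h hp hg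
  have h4 := xg4 hΔ h hp hd hz ht
  obtain ⟨f, hf, hfE⟩ : ∃ f : (Ix i k → L) →ₗ[L] L, f ≠ 0 ∧ LinearMap.ker f ≤ E := by
    rcases eq_or_ne E ⊤ with rfl | hE'
    · obtain ⟨j⟩ : Nonempty (Ix i k) := Fintype.card_pos_iff.1 (by omega)
      exact ⟨LinearMap.proj j, fun h => by simpa using LinearMap.congr_fun h 1, le_top⟩
    · obtain ⟨f, hf, h1⟩ := E.exists_le_ker_of_lt_top hE'.lt_top
      have h2 := Submodule.finrank_lt (mt LinearMap.ker_eq_top.1 hf)
      rw [Module.finrank_fintype_fun_eq_card] at h2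
      exact ⟨f, hf, (Submodule.eq_of_le_of_finrank_le h1 (by omega)).ge⟩
  let l : Ix i k → L := fun j => f (Pi.single j 1)
  have hl : ∀ y, f y = l ⬝ᵥ y := lin_eq_dot f
  obtain ⟨j, hj⟩ : ∃ j, l j ≠ 0 := by
    by_contra! h0
    exact hf (LinearMap.ext fun y => by simp [hl, dotProduct, h0])
  obtain ⟨B, hB⟩ := Bv_lin (q := q) i k (up L' p)
  let g := (q.L (up L' p) (B z) (B z) (B z)).comp B - a • (Qp q i k p).L z - b • (Cp q i k p).L z z
  have h5 : ∀ u, g u = q.T (up L' p) (Bv q i k (up L' p) z) (Bv q i k (up L' p) z)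
      (Bv q i k (up L' p) z) (Bv q i k (up L' p) u) - a * (Qp q i k p).T z u
        - b * (Cp q i k p).T z z u := fun u => by
    simp only [← hB]; rfl
  obtain ⟨c, h6⟩ : ∃ c, ∀ u, g u = c * (up L' l ⬝ᵥ u) := ⟨g (Pi.single j 1) / up L' l j, fun u => by
    rw [lin_eq_dot g, dotProduct, dotProduct, Finset.mul_sum]
    refine Finset.sum_congr rfl fun m _ => ?_
    have h7 : g (up L' (l j • Pi.single m 1 - l m • Pi.single j 1)) = 0 := by
      rw [h5, H _ (hfE (by simp [l, mul_comm]))]; ring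
    rw [up_sub, up_smul, up_smul, up_single, up_single, map_sub, map_smul, map_smul] at h7
    have h8 : up L' l j ≠ 0 := (_root_.map_ne_zero _).2 hj
    simp only [smul_eq_mul, ← up_apply] at h7
    field_simp
    linear_combination u m * h7⟩
  have h7 := (h5 z).symm.trans (h6 z)
  rw [hz.q, hz.c, mul_zero, mul_zero, sub_zero, sub_zero] at h7
  have h8 : up L' l ⬝ᵥ z ≠ 0 := fun h0 => h4 (by rw [h7, h0, mul_zero])
  obtain ⟨κ, hκ⟩ := der_const (M := L) (q.T (up L' p) (Bv q i k (up L' p) z) (Bv q i k (up L' p) z)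
      (Bv q i k (up L' p) z) (Bv q i k (up L' p) z) / (up L' l ⬝ᵥ z) ^ 4) fun D => by
    obtain ⟨h9, h10⟩ := (mem_Hs _ _).1 (tan_le_Hs hz ⟨D, rfl⟩)
    have h11 := (h5 (D ∘ z)).symm.trans (h6 _)
    have h12 : D (up L' l ⬝ᵥ z) = up L' l ⬝ᵥ D ∘ z := by simp [dotProduct, up_apply]
    rw [h9, h10, mul_zero, mul_zero, sub_zero, sub_zero] at h11
    rw [Derivation.leibniz_div, q.der' D fun c => by
      rw [IsScalarTower.algebraMap_apply ℂ L L', D.map_algebraMap], der_up D D.map_algebraMap,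
      der_Bv, q.zero1, q.T23 _ (Bv q i k (up L' p) (D ∘ z)), q.T34 _ _ (Bv q i k (up L' p) (D ∘ z)),
      q.T45 _ _ _ (Bv q i k (up L' p) (D ∘ z)), h11, h7, Derivation.leibniz_pow, h12]
    simp only [smul_eq_mul, nsmul_eq_mul]
    ring
  obtain ⟨y, hy, hy0⟩ := zero_qc (L := L) (Qp q i k p) (Cp q i k p) (fun _ : Unit => f)
    (by simp only [Fintype.card_unique]; omega)
  obtain ⟨e, he1, he2, he3⟩ := exe hs (by omega) hy.ne
  refine x3_bad h hp hg hy fun u hu => ?_
  obtain ⟨h9, h10⟩ := (mem_Hs _ _).1 hu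
  let A := DualNumber L
  let ε : A := DualNumber.eps
  have hε : ε * ε = 0 := DualNumber.eps_mul_eps
  have hA : ∀ x y : L, (algebraMap L A x + ε * algebraMap L A y).fst = x ∧
      (algebraMap L A x + ε * algebraMap L A y).snd = y := fun x y => by
    simp [A, ε, TrivSqZeroExt.algebraMap_eq_inl]
  have h11 := genV hs (by omega) hz ht _ ((x3_ev i k p z l κ).trans (by
    rw [hκ, div_mul_cancel₀ _ (pow_ne_zero 4 h8), sub_self])) he1 he3 A (up A y + ε • up A u)
    (by simp only [S2.add1, S2.add2, S2.smul1, S2.smul2, S2.T_up, S2.T12 _ u y, hy.q, h9, map_zero]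
        linear_combination algebraMap L A _ * hε)
    (by simp only [S3.add1, S3.add2, S3.add3, S3.smul1, S3.smul2, S3.smul3, S3.T_up,
          S3.T12 _ u y, S3.T23 _ _ u y, hy.c, h10, map_zero]
        linear_combination (3 * algebraMap L A ((Cp q i k p).T y u u)
          + ε * algebraMap L A ((Cp q i k p).T u u u)) * hε)
    (by rw [S2.add2, S2.smul2, S2.T_up, S2.T_up, TrivSqZeroExt.isUnit_iff_isUnit_fst, (hA _ _).1]
        exact he2.isUnit)
  obtain ⟨B', hB'⟩ := Bv_lin (q := q) i k (up A p)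
  have h12 : ∀ w, B' (up A w) = up A (Bv q i k p w) := fun w =>
    (hB' _).trans (map_Bv i k (IsScalarTower.toAlgHom ℂ L A) p w).symm
  have h13 : ∀ w, up A l ⬝ᵥ up A w = algebraMap L A (f w) := fun w => by
    simp [hl, dotProduct, up_apply]
  rw [x3_ev, ← hB', map_add, map_smul, h12, h12, dotProduct_add, dotProduct_smul, h13, h13,
    hy0 (), map_zero, zero_add] at h11
  generalize Bv q i k p y = v at *
  generalize Bv q i k p u = w at *
  simp only [S5.add2, S5.add3, S5.add4, S5.add5, S5.smul2, S5.smul3, S5.smul4, S5.smul5, S5.T_up,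
    q.T23 p w v, q.T34 p _ w v, q.T45 p _ _ w v, smul_eq_mul] at h11
  have h14 : algebraMap L A (q.T p v v v v) + ε * algebraMap L A (4 * q.T p v v v w) = 0 := by
    rw [map_mul, map_ofNat]
    linear_combination h11 - (6 * algebraMap L A (q.T p v v w w)
      + 4 * ε * algebraMap L A (q.T p v w w w) + ε ^ 2 * algebraMap L A (q.T p w w w w)
      - algebraMap L A κ * ε ^ 2 * algebraMap L A (f u) ^ 4) * hε
  simpa using (hA _ _).2.symm.trans (congrArg TrivSqZeroExt.snd h14)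

end

end

section
variable {σ L : Type} [Fintype σ] [DecidableEq σ] [Field L] [Algebra ℂ L] {q : S5 σ}

omit [Algebra ℂ L] in
theorem rankX_dim {V : Type} [AddCommGroup V] [Module L V] [FiniteDimensional L V]
    {W U : Submodule L V} {m : ℕ} (g : Fin m → V →ₗ[L] L) (hU : U ≤ W)
    (hk : ∀ u ∈ U, ∀ j, g j u = 0)
    (hi : ∀ c : Fin m → L, (∀ w ∈ W, ∑ j, c j * g j w = 0) → c = 0) :
    finrank L U + m ≤ finrank L W := by
  have h1 : m ≤ finrank L (W.map (LinearMap.pi g)) := by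
    by_contra! h
    obtain ⟨c, h2, h3⟩ := exists_dep (LinearMap.pi g) W h
    exact h2 (hi c h3)
  have h2 := ((LinearMap.pi g).domRestrict W).finrank_range_add_finrank_ker
  rw [LinearMap.range_domRestrict] at h2
  have h3 : U.comap W.subtype ≤ LinearMap.ker ((LinearMap.pi g).domRestrict W) :=
    fun u hu => funext fun j => hk u hu j
  have h4 := Submodule.finrank_mono h3
  rw [(Submodule.comapSubtypeEquivOfLe hU).finrank_eq] at h4
  omega

omit [DecidableEq σ] in
theorem rankX_res {R : Type} [CommRing R] [Algebra R L] (D : Derivation R L L) (P v : σ → L) :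
    D ∘ res5 q P v = D (q.T v v v v v) • P + q.T v v v v v • (D ∘ P)
      - (5 * D (q.T P v v v v)) • v - (5 * q.T P v v v v) • (D ∘ v) := by
  have h5 : D 5 = 0 := by simpa using D.map_natCast 5
  funext x
  simp only [res5, Function.comp, Pi.sub_apply, Pi.add_apply, Pi.smul_apply, smul_eq_mul, map_sub,
    Derivation.leibniz, h5]
  ring

omit [DecidableEq σ] in
theorem rankX_der (D : Derivation ℂ L L) {P v : σ → L} (g0 : q.T P P P P P = 0)
    (g1 : q.T P P P P v = 0) (g2 : q.T P P P v v = 0) (g3 : q.T P P v v v = 0) :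
    q.T P P P P (D ∘ P) = 0 ∧
    q.T P P P P (D ∘ res5 q P v) = 20 * q.T P v v v v * q.T P P P v (D ∘ P) ∧
    q.T P P P v (D ∘ res5 q P v) = q.T v v v v v * q.T P P P v (D ∘ P)
      + 15 / 2 * q.T P v v v v * q.T P P v v (D ∘ P) ∧
    q.T P P v v (D ∘ res5 q P v) = q.T v v v v v * q.T P P v v (D ∘ P)
      + 10 / 3 * q.T P v v v v * q.T P v v v (D ∘ P) := by
  have : CharZero L := charZero_of_injective_algebraMap (algebraMap ℂ L).injective
  have h0 := q.der D P P P P P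
  have h1 := q.der D P P P P v
  have h2 := q.der D P P P v v
  have h3 := q.der D P P v v v
  rw [rankX_res]
  generalize D ∘ P = a at *
  generalize D ∘ v = b at *
  simp only [g0, g1, g2, g3, map_zero, q.T12 a, q.T23 _ a, q.T34 _ _ a, q.T45 _ _ _ a, q.T34 _ _ b,
    q.T45 _ _ _ b] at h0 h1 h2 h3
  simp only [q.add5, q.sub5, q.smul5, q.T45 _ _ _ v P, q.T34 _ _ v P, g0, g1, g2, g3]
  refine ⟨?_, ?_, ?_, ?_⟩
  · linear_combination (-1 / 5 : L) * h0
  · linear_combination (-1 / 5 * q.T v v v v v) * h0 + 5 * q.T P v v v v * h1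
  · linear_combination 5 / 2 * q.T P v v v v * h2
  · linear_combination 5 / 3 * q.T P v v v v * h3

/-- The derivative of a fixed vector as a linear function of the derivation. -/
def rankX_tan (M : Type) {τ K : Type} [Field M] [Field K] [Algebra M K] (y : τ → K) :
    Derivation M K K →ₗ[K] (τ → K) where
  toFun D := D ∘ y
  map_add' _ _ := rfl
  map_smul' _ _ := rfl

theorem rankX_vert {i k : σ} {p : σ → L} {L' : Type} [Field L'] [Algebra ℂ L'] [Algebra L L']
    [IsScalarTower ℂ L L'] {z : Ix i k → L'} (h : Fr q i k p)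
    (g4 : q.T (up L' p) (Bv q i k (up L' p) z) (Bv q i k (up L' p) z) (Bv q i k (up L' p) z)
      (Bv q i k (up L' p) z) ≠ 0) :
    finrank L' (Tan L z) ≤ finrank L' (Tan L (res5 q (up L' p) (Bv q i k (up L' p) z))) := by
  have : CharZero L' := charZero_of_injective_algebraMap (algebraMap ℂ L').injective
  have h1 := cut (rankX_tan L z) (rankX_tan L (res5 q (up L' p) (Bv q i k (up L' p) z)))
  suffices h2 : (LinearMap.ker (rankX_tan L (res5 q (up L' p) (Bv q i k (up L' p) z)))).map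
      (rankX_tan L z) = ⊥ by
    rw [h2, finrank_bot, zero_add] at h1
    exact h1
  refine eq_bot_iff.2 ?_
  rintro _ ⟨D, hD, rfl⟩
  have hD : D ∘ res5 q (up L' p) (Bv q i k (up L' p) z) = 0 := hD
  have hp : D ∘ up L' p = 0 := der_up D D.map_algebraMap p
  have h4 := q.der (D.restrictScalars ℂ) (up L' p) (Bv q i k (up L' p) z) (Bv q i k (up L' p) z)
    (Bv q i k (up L' p) z) (Bv q i k (up L' p) z)
  rw [Derivation.coe_restrictScalars, hp, der_Bv] at h4
  rw [rankX_res, hp, der_Bv] at hD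
  obtain ⟨B, hB⟩ := Bv_lin (q := q) i k (up L' p)
  simp only [← hB] at hD h4 g4
  generalize hG : q.T (up L' p) (B z) (B z) (B z) (B z) = G at *
  have h5 := ((h.up L').inj (z := -((5 * D G) • z + (5 * G) • (D ∘ z)))
    (c := D (q.T (B z) (B z) (B z) (B z) (B z))) (by
      rw [← hB, map_neg, map_add, map_smul, map_smul, ← hD]; module)).1
  have h6 := congrArg (fun u => q.T (up L' p) (B z) (B z) (B z) (B u)) (neg_eq_zero.1 h5)
  simp only [map_add, map_smul, map_zero, q.add5, q.smul5, q.zero5, hG] at h6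
  generalize B (D ∘ z) = b at *
  simp only [q.zero1, q.T23 _ b, q.T34 _ _ b, q.T45 _ _ _ b] at h4
  have h7 : D G = 0 := mul_left_cancel₀ g4 (by linear_combination 1 / 5 * G * h4 + 4 / 25 * h6)
  rw [h7, mul_zero, zero_smul, zero_add, neg_eq_zero, smul_eq_zero] at h5
  exact h5.resolve_left (mul_ne_zero (by norm_num) g4)

theorem rankX [IsAlgClosed L] (hs : q.Sm ℂ) {Δ : MvPolynomial σ ℂ} (hΔ : Dl q Δ)
    (hN : 9 ≤ Fintype.card σ) {p : σ → L} (hp : q.T p p p p p = 0) (hd : aeval p Δ ≠ 0) (r : ℕ)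
    (hr : r = 0 ∨ (r = 2 ∧ Fintype.card σ ≤ finrank L (Tan ℂ p) + 4) ∨
      (r = 3 ∧ Fintype.card σ ≤ finrank L (Tan ℂ p) + 2)) :
    ∃ (L' : Type) (_ : Field L') (_ : IsAlgClosed L') (_ : Algebra ℂ L') (_ : Algebra L L')
      (_ : IsScalarTower ℂ L L') (p' : σ → L'), XStep q Δ (up L' p) p' ∧ aeval p' Δ ≠ 0 ∧
        Fintype.card σ + r ≤ finrank L' (Tan ℂ p') + 4 := by
  have : CharZero L := charZero_of_injective_algebraMap (algebraMap ℂ L).injective
  obtain ⟨p0, hg⟩ := hΔ.good L p hp hd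
  obtain ⟨i, k, h⟩ := exists_Fr (hs.ext L) p0 hp
  have hS := pull_sm h hp hg
  have hc := h.card
  obtain ⟨L', _, _, _, z, hz, ht⟩ := genz hS (by omega)
  let _ : Algebra ℂ L' := ((algebraMap L L').comp (algebraMap ℂ L)).toAlgebra
  have : IsScalarTower ℂ L L' := .of_algebraMap_eq fun _ => rfl
  have : CharZero L' := charZero_of_injective_algebraMap (algebraMap ℂ L').injective
  have g4 := xg4 hΔ h hp hd hz ht
  have g0 : q.T (up L' p) (up L' p) (up L' p) (up L' p) (up L' p) = 0 := by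
    rw [q.T_up, hp, map_zero]
  have g1 := Bv_tan (q := q) i k (up L' p) z
  have g2 := (Qp_T i k p z z).symm.trans hz.q
  have g3 := (Cp_T i k p z z z).symm.trans hz.c
  refine ⟨L', inferInstance, inferInstance, inferInstance, inferInstance, inferInstance, _,
    res5_step g0 ?_ g1 g2 g3 g4, xd hΔ hN h hp hd hz ht, ?_⟩
  · rw [up, aeval_algebraMap_apply]
    exact (map_ne_zero _).2 hd
  have h1 := (Submodule.finrank_mono ht).trans (rankX_vert h g4)
  have h2 := (hS.ext L').finrank_Hs hz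
  obtain ⟨B, hB⟩ := Bv_lin (q := q) i k p
  let E := (Tan ℂ p ⊔ Submodule.span L {p}).comap B
  have h3 : finrank L (Tan ℂ p) ≤ finrank L E + 1 := by
    have h4 : Tan ℂ p ≤ E.map B ⊔ Submodule.span L {p} := by
      rintro _ ⟨D, rfl⟩
      obtain ⟨y, c, hy⟩ := h.surj hp (rankX_der D hp (q.zero5 _ _ _ _) (q.zero5 _ _ _ _)
        (q.zero5 _ _ _ _)).1
      have h5 : c • p ∈ Submodule.span L {p} := Submodule.mem_span_singleton.2 ⟨c, rfl⟩
      rw [hy, ← hB]
      refine Submodule.add_mem_sup ⟨y, ?_, rfl⟩ h5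
      change B y ∈ Tan ℂ p ⊔ Submodule.span L {p}
      rw [hB, eq_sub_of_add_eq hy.symm]
      exact Submodule.sub_mem _ (Submodule.mem_sup_left ⟨D, rfl⟩) (Submodule.mem_sup_right h5)
    have h5 := (Submodule.finrank_mono h4).trans (Submodule.finrank_add_le_finrank_add_finrank _ _)
    have h6 := Submodule.finrank_map_le B E
    rw [finrank_span_singleton p0] at h5
    omega
  have hx := x3 hΔ hN h hp hd hz ht E
  have hy := codim3 hS (by omega) hz ht E
  have hQ := Qp_T (q := q) i k p z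
  have hC := Cp_T (q := q) i k p z z
  have hu : ∀ η, Bv q i k (up L' p) (up L' η) = up L' (B η) := fun η => by
    rw [hB]; exact (map_Bv i k (IsScalarTower.toAlgHom ℂ L L') p η).symm
  generalize Bv q i k (up L' p) z = v at *
  have key : ∀ η ∈ E, ∃ w ∈ Tan ℂ (res5 q (up L' p) v),
      q.T (up L' p) (up L' p) (up L' p) (up L' p) w =
        20 * q.T (up L' p) v v v v * (Qp q i k p).T z (up L' η) ∧
      q.T (up L' p) (up L' p) (up L' p) v w = q.T v v v v v * (Qp q i k p).T z (up L' η)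
        + 15 / 2 * q.T (up L' p) v v v v * (Cp q i k p).T z z (up L' η) ∧
      q.T (up L' p) (up L' p) v v w = q.T v v v v v * (Cp q i k p).T z z (up L' η)
        + 10 / 3 * q.T (up L' p) v v v v *
          q.T (up L' p) v v v (Bv q i k (up L' p) (up L' η)) := by
    intro η hη
    obtain ⟨a, ha, b, hb, hab⟩ := Submodule.mem_sup.1 hη
    obtain ⟨c, rfl⟩ := Submodule.mem_span_singleton.1 hb
    obtain ⟨D, hD⟩ := tan_up (L' := L') p a ha
    refine ⟨_, ⟨D, rfl⟩, ?_⟩
    have h4 := (rankX_der D g0 g1 g2 g3).2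
    simp only [hQ, hC, hu, ← hab, up_add, up_smul, q.add5, q.smul5, q.T45 _ _ _ v (up L' p),
      q.T34 _ _ v (up L' p), q.T23 _ v (up L' p), g1, g2, g3, mul_zero, add_zero, ← hD]
    exact h4
  have hk : ∀ u ∈ Tan L (res5 q (up L' p) v), q.T (up L' p) (up L' p) (up L' p) (up L' p) u = 0 ∧
      q.T (up L' p) (up L' p) (up L' p) v u = 0 ∧ q.T (up L' p) (up L' p) v v u = 0 := by
    rintro _ ⟨D, rfl⟩
    have h4 := (rankX_der (D.restrictScalars ℂ) g0 g1 g2 g3).2
    rw [Derivation.coe_restrictScalars, der_up D D.map_algebraMap p] at h4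
    simpa only [q.zero5, mul_zero, add_zero] using h4
  have hT := tan_le (M := ℂ) (L := L) (res5 q (up L' p) v)
  rcases hr with rfl | ⟨rfl, hr⟩ | ⟨rfl, hr⟩
  · have := Submodule.finrank_mono hT
    omega
  · have := rankX_dim ![q.L (up L' p) (up L' p) (up L' p) (up L' p),
      q.L (up L' p) (up L' p) (up L' p) v] hT (fun u hu j => by
        fin_cases j
        exacts [(hk u hu).1, (hk u hu).2.1]) fun c hc => by
      obtain ⟨h4, h5⟩ := hy (by omega) (c 0 * 20 * q.T (up L' p) v v v v + c 1 * q.T v v v v v)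
        (c 1 * (15 / 2 * q.T (up L' p) v v v v)) fun η hη => by
          obtain ⟨w, hw, k0, k1, -⟩ := key η hη
          have := hc w hw
          simp only [Fin.sum_univ_two, Matrix.cons_val, q.L_apply, k0, k1] at this
          linear_combination this
      have c1 : c 1 = 0 := by simpa [g4] using h5
      have c0 : c 0 = 0 := by simpa [g4, c1] using h4
      funext j
      fin_cases j
      exacts [c0, c1]
    omega
  · have := rankX_dim ![q.L (up L' p) (up L' p) (up L' p) (up L' p),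
      q.L (up L' p) (up L' p) (up L' p) v, q.L (up L' p) (up L' p) v v] hT (fun u hu j => by
        fin_cases j
        exacts [(hk u hu).1, (hk u hu).2.1, (hk u hu).2.2]) fun c hc => by
      have h6 : ∀ η ∈ E, (c 0 * 20 * q.T (up L' p) v v v v + c 1 * q.T v v v v v) *
          (Qp q i k p).T z (up L' η) + (c 1 * (15 / 2 * q.T (up L' p) v v v v)
            + c 2 * q.T v v v v v) * (Cp q i k p).T z z (up L' η) + c 2 * (10 / 3) *
              q.T (up L' p) v v v v * q.T (up L' p) v v v (Bv q i k (up L' p) (up L' η)) = 0 := by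
        intro η hη
        obtain ⟨w, hw, k0, k1, k2⟩ := key η hη
        have := hc w hw
        simp only [Fin.sum_univ_three, Matrix.cons_val, q.L_apply, k0, k1, k2] at this
        linear_combination this
      have c2 : c 2 = 0 := by
        by_contra c2
        have h7 : c 2 * (10 / 3) * q.T (up L' p) v v v v ≠ 0 := by simp [c2, g4]
        exact hx (by omega) _ _ fun η hη => by
          have := h6 η hη
          rw [add_comm, ← eq_neg_iff_add_eq_zero, mul_comm, ← eq_div_iff h7, neg_add, add_div,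
            ← neg_mul, ← neg_mul, mul_div_right_comm, mul_div_right_comm] at this
          exact this
      obtain ⟨h4, h5⟩ := hy (by omega) _ _ fun η hη => by
        simpa only [c2, zero_mul, add_zero] using h6 η hη
      have c1 : c 1 = 0 := by simpa [g4] using h5
      have c0 : c 0 = 0 := by simpa [g4, c1] using h4
      funext j
      fin_cases j
      exacts [c0, c1, c2]
    omega

end

section
variable {σ L : Type} [Fintype σ] [DecidableEq σ] [Field L] [Algebra ℂ L] {q : S5 σ}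

omit [DecidableEq σ] in
theorem chainX_hyp {f : MvPolynomial σ ℂ} (hf : Prime f) (ξ : σ → L) (h0 : aeval ξ f = 0)
    (hN : 0 < Fintype.card σ) (ht : Fintype.card σ ≤ finrank L (Tan ℂ ξ) + 1)
    (h : MvPolynomial σ ℂ) : aeval ξ h = 0 ↔ f ∣ h := by
  refine ⟨fun hh => ?_, fun ⟨c, hc⟩ => by rw [hc, map_mul, h0, zero_mul]⟩
  obtain ⟨i⟩ : Nonempty σ := Fintype.card_pos_iff.1 hN
  rcases (le_top : Tan ℂ ξ ≤ ⊤).eq_or_lt with h1 | h1
  · exact generic hf ξ h0 (LinearMap.proj i) (fun h2 => one_ne_zero (LinearMap.congr_fun h2 1))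
      (h1 ▸ le_top) h hh
  · obtain ⟨l, hl, h2⟩ := Submodule.exists_dual_map_eq_bot_of_lt_top h1 inferInstance
    have h3 := Submodule.finrank_lt (mt LinearMap.ker_eq_top.1 hl)
    rw [finrank_fintype_fun_eq_card] at h3
    exact generic hf ξ h0 l hl (Submodule.eq_of_le_of_finrank_le
      (LinearMap.le_ker_iff_map.2 h2) (by omega)).ge h hh

theorem chainX (hs : q.Sm ℂ) {Δ : MvPolynomial σ ℂ} (hΔ : Dl q Δ) (hN : 9 ≤ Fintype.card σ) :
    ∃ (p0 : σ → ℂ) (L : Type) (_ : Field L) (_ : IsAlgClosed L) (_ : Algebra ℂ L)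
      (p1 p2 p3 : σ → L), XStep q Δ (up L p0) p1 ∧ XStep q Δ p1 p2 ∧ XStep q Δ p2 p3 ∧
        ∀ h : MvPolynomial σ ℂ, aeval p3 h = 0 ↔ q.f ∣ h := by
  have hf := hs.prime (by omega)
  obtain ⟨p0, h0, hd⟩ : ∃ p0 : σ → ℂ, q.T p0 p0 p0 p0 p0 = 0 ∧ aeval p0 Δ ≠ 0 := by
    by_contra! H
    have h1 : Δ ∈ (Ideal.span {q.f}).radical := by
      rw [← vanishingIdeal_zeroLocus_eq_radical (K := ℂ), mem_vanishingIdeal_iff]
      exact fun y hy => H y ((q.aeval_f y).symm.trans (hy _ (Ideal.mem_span_singleton_self _)))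
    obtain ⟨k, hk⟩ := h1
    exact hΔ.nd (hf.dvd_of_dvd_pow (Ideal.mem_span_singleton.1 hk))
  obtain ⟨L1, _, _, A1, A2, T1, p1, s1, d1, r1⟩ := rankX hs hΔ hN h0 hd 0 (.inl rfl)
  obtain rfl : A1 = A2 := Algebra.algebra_ext _ _ fun c =>
    @IsScalarTower.algebraMap_apply ℂ ℂ L1 _ _ _ _ A2 A1 T1 c
  obtain ⟨L2, _, _, _, _, _, p2, s2, d2, r2⟩ := rankX hs hΔ hN s1.g5 d1 2 (.inr (.inl ⟨rfl, r1⟩))
  obtain ⟨L3, _, _, _, _, _, p3, s3, -, r3⟩ :=
    rankX hs hΔ hN s2.g5 d2 3 (.inr (.inr ⟨rfl, by omega⟩))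
  have s4 := (s1.up (L' := L2)).up (L' := L3)
  rw [up_up p0, up_up p0] at s4
  exact ⟨p0, L3, _, ‹_›, _, _, _, p3, s4, s2.up, s3,
    chainX_hyp hf p3 ((q.aeval_f p3).trans s3.g5) (by omega) (by omega)⟩

end

section
variable {σ L : Type} [Fintype σ] [DecidableEq σ] [Field L] [Algebra ℂ L] {q : S5 σ}

/-- The equations of one step, with inverses for the two inequalities. -/
noncomputable def xgenE (q : S5 σ) (Δ : MvPolynomial σ ℂ) {A : Type} [CommRing A] [Algebra ℂ A]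
    (a b : σ → A) (u v : A) : ℕ → A
  | 0 => q.T a a a a a
  | 1 => aeval a Δ * u - 1
  | 2 => q.T a a a a b
  | 3 => q.T a a a b b
  | 4 => q.T a a b b b
  | 5 => q.T a b b b b * v - 1
  | _ + 6 => q.T b b b b b

omit [DecidableEq σ] in
theorem xgen_map (Δ : MvPolynomial σ ℂ) {A B : Type} [CommRing A] [Algebra ℂ A] [CommRing B]
    [Algebra ℂ B] (φ : A →ₐ[ℂ] B) (a b : σ → A) (u v : A) (m : ℕ) :
    φ (xgenE q Δ a b u v m) = xgenE q Δ (φ ∘ a) (φ ∘ b) (φ u) (φ v) m := by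
  have h : φ (aeval a Δ) = aeval (φ ∘ a) Δ := comp_aeval_apply _ _ _
  rcases m with _ | _ | _ | _ | _ | _ | m <;>
    simp only [xgenE, q.map φ, h, map_sub, map_mul, map_one]

omit [DecidableEq σ] in
theorem xgen_iff {Δ : MvPolynomial σ ℂ} {a b : σ → L} :
    XStep q Δ a b ↔ ∃ u v, ∀ m, xgenE q Δ a b u v m = 0 := by
  refine ⟨fun h => ⟨(aeval a Δ)⁻¹, (q.T a b b b b)⁻¹, fun m => ?_⟩, fun ⟨u, v, h⟩ =>
    ⟨h 0, fun h0 => ?_, h 2, h 3, h 4, fun h0 => ?_, h 6⟩⟩
  · rcases m with _ | _ | _ | _ | _ | _ | m <;>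
      simp only [xgenE, h.z, h.g1, h.g2, h.g3, h.g5, mul_inv_cancel₀ h.d, mul_inv_cancel₀ h.g4,
        sub_self]
  · simpa only [xgenE, h0, zero_mul, zero_sub, neg_eq_zero, one_ne_zero] using h 1
  · simpa only [xgenE, h0, zero_mul, zero_sub, neg_eq_zero, one_ne_zero] using h 5

theorem xgen (hs : q.Sm ℂ) {Δ : MvPolynomial σ ℂ} (hΔ : Dl q Δ) (hN : 9 ≤ Fintype.card σ) :
    ∃ (p0 : σ → ℂ) (Δ' : MvPolynomial σ ℂ), ¬ q.f ∣ Δ' ∧
      ∀ (Ω : Type) [Field Ω] [IsAlgClosed Ω] [Algebra ℂ Ω] (x : σ → Ω), q.T x x x x x = 0 →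
        aeval x Δ' ≠ 0 → ∃ p1 p2 : σ → Ω, XStep q Δ (up Ω p0) p1 ∧ XStep q Δ p1 p2 ∧
          XStep q Δ p2 x := by
  obtain ⟨p0, L, _, _, _, p1, p2, p3, s1, s2, s3, hg⟩ := chainX hs hΔ hN
  obtain ⟨u1, v1, s1⟩ := xgen_iff.1 s1
  obtain ⟨u2, v2, s2⟩ := xgen_iff.1 s2
  obtain ⟨u3, v3, s3⟩ := xgen_iff.1 s3
  obtain ⟨P, hP⟩ : ∃ P : Fin 3 → σ → MvPolynomial (Fin 3 × (σ ⊕ Bool)) ℂ,
      ∀ (A : Type) [CommRing A] [Algebra ℂ A] (y : Fin 3 × (σ ⊕ Bool) → A) (j : Fin 3),
        (aeval y : MvPolynomial (Fin 3 × (σ ⊕ Bool)) ℂ →ₐ[ℂ] A) ∘ P j = fun i => y (j, .inl i) :=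
    ⟨fun j i => X (j, .inl i), fun A _ _ y j => _root_.funext fun i => aeval_X _ _⟩
  obtain ⟨r, hr⟩ : ∃ r : Fin 3 × ℕ → MvPolynomial (Fin 3 × (σ ⊕ Bool)) ℂ,
      ∀ (A : Type) [CommRing A] [Algebra ℂ A] (y : Fin 3 × (σ ⊕ Bool) → A) (j : Fin 3) (m : ℕ),
        aeval y (r (j, m)) = xgenE q Δ
          (![up A p0, fun i => y (0, .inl i), fun i => y (1, .inl i)] j) (fun i => y (j, .inl i))
          (y (j, .inr true)) (y (j, .inr false)) m := by
    refine ⟨fun j => xgenE q Δ (![up _ p0, P 0, P 1] j.1) (P j.1) (X (j.1, .inr true))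
      (X (j.1, .inr false)) j.2, fun A _ _ y j m => ?_⟩
    have h : (aeval y : MvPolynomial (Fin 3 × (σ ⊕ Bool)) ℂ →ₐ[ℂ] A) ∘ ![up _ p0, P 0, P 1] j =
        ![up A p0, fun i => y (0, .inl i), fun i => y (1, .inl i)] j := by
      fin_cases j
      exacts [map_up _ _, hP A y 0, hP A y 1]
    beta_reduce
    rw [xgen_map, hP, aeval_X, aeval_X, h]
  obtain ⟨y0, ho, hy⟩ : ∃ y0 : Fin 3 × (σ ⊕ Bool) → L, (fun i => aeval y0 (P 2 i)) = p3 ∧
      ∀ j, aeval y0 (r j) = 0 := by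
    refine ⟨fun j => Sum.elim (![p1, p2, p3] j.1)
      (fun b => if b then ![u1, u2, u3] j.1 else ![v1, v2, v3] j.1) j.2, hP _ _ 2, fun ⟨j, m⟩ => ?_⟩
    rw [hr]
    fin_cases j
    exacts [s1 m, s2 m, s3 m]
  obtain ⟨Δ', h1, h2⟩ := gen r (P 2) y0 hy
  rw [ho] at h1 h2
  refine ⟨p0, Δ', fun h => h1 ((hg _).2 h), fun Ω _ _ _ x hx hd => ?_⟩
  obtain ⟨y, h3, h4⟩ := h2 Ω x (fun h hh => by
    obtain ⟨g, rfl⟩ := (hg h).1 hh
    rw [map_mul, q.aeval_f, hx, zero_mul]) hd
  obtain rfl : (fun i => y (2, .inl i)) = x := (hP Ω y 2).symm.trans (_root_.funext h4)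
  exact ⟨fun i => y (0, .inl i), fun i => y (1, .inl i),
    xgen_iff.2 ⟨_, _, fun m => (hr Ω y 0 m).symm.trans (h3 _)⟩,
    xgen_iff.2 ⟨_, _, fun m => (hr Ω y 1 m).symm.trans (h3 _)⟩,
    xgen_iff.2 ⟨_, _, fun m => (hr Ω y 2 m).symm.trans (h3 _)⟩⟩

end

end Pool.Agent.MP_e0214e_ag.H64
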