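import Pool.Agent.MP_e0214e_ag.H64.Inter

/-! Approximation over a valued field. -/

set_option autoImplicit false

namespace Pool.Agent.MP_e0214e_ag.H64

open MvPolynomial Module Filter Topology

section
open H61 IntermediateField
open scoped Polynomial

theorem fld_loc_complete {E : Type} [NormedField E] [Algebra ℂ E] {π : E} (L : Loc π) :
    ∃ (F : Type) (_ : NormedField F) (_ : CompleteSpace F) (_ : Algebra ℂ F) (p : F), Loc p := by
  let F := UniformSpace.Completion E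
  let _ : Algebra ℂ F :=
    ((UniformSpace.Completion.coeRingHom : E →+* F).comp (algebraMap ℂ E)).toAlgebra
  have h0 : ∀ c : ℂ, algebraMap ℂ F c = ((algebraMap ℂ E c : E) : F) := fun _ => rfl
  have na : ∀ a b : F, ‖a + b‖ ≤ max ‖a‖ ‖b‖ := fun a b => by
    induction a, b using UniformSpace.Completion.induction_on₂ with
    | hp => exact isClosed_le (by fun_prop) (by fun_prop)
    | ih a b =>
      rw [← UniformSpace.Completion.coe_add, UniformSpace.Completion.norm_coe,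
        UniformSpace.Completion.norm_coe, UniformSpace.Completion.norm_coe]
      exact L.na a b
  have hπ : ‖(π : F)‖ = ‖π‖ := UniformSpace.Completion.norm_coe π
  have h1 := norm_pos_iff.2 L.π0
  refine ⟨F, inferInstance, inferInstance, inferInstance, (π : F), na, fun c => ?_, ?_, ?_,
    fun a ha => ?_⟩
  · rw [h0, UniformSpace.Completion.norm_coe]; exact L.c1 c
  · rw [← norm_pos_iff, hπ]; exact h1
  · rw [hπ]; exact L.π1
  · obtain ⟨b, hb⟩ := (UniformSpace.Completion.denseRange_coe (α := E)).exists_dist_lt a h1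
    rw [dist_eq_norm] at hb
    have h2 : ‖b‖ ≤ 1 := by
      rw [← UniformSpace.Completion.norm_coe, show (b : F) = a + -(a - b) by ring]
      exact (na _ _).trans (max_le ha (by rw [norm_neg]; exact (hb.trans L.π1).le))
    obtain ⟨c, hc⟩ := L.res b h2
    refine ⟨c, ?_⟩
    rw [hπ, h0, ← sub_add_sub_cancel a (b : F)]
    refine (na _ _).trans (max_le hb.le ?_)
    rwa [← UniformSpace.Completion.coe_sub, UniformSpace.Completion.norm_coe]

theorem fld_loc_val {F : Type} [NormedField F] [Algebra ℂ F] {π : F} (L : Loc π) {f : F}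
    (hf : f ≠ 0) : ∃ k : ℤ, ‖f‖ = ‖π‖ ^ k := by
  have h0 := norm_pos_iff.2 L.π0
  have h1 : ∀ g : F, ‖g‖ < 1 → ‖g‖ ≤ ‖π‖ := fun g hg => by
    obtain ⟨c, hc⟩ := L.res g hg.le
    have : c = 0 := L.disc c (by
      rw [show algebraMap ℂ F c = g + -(g - algebraMap ℂ F c) by ring]
      exact (L.na _ _).trans_lt (max_lt hg (by rw [norm_neg]; exact hc.trans_lt L.π1)))
    simpa [this] using hc
  obtain ⟨n, h2, h3⟩ := exists_mem_Ico_zpow (norm_pos_iff.2 hf) ((one_lt_inv₀ h0).2 L.π1)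
  rw [inv_zpow'] at h2 h3
  refine ⟨-n, le_antisymm ?_ h2⟩
  have h4 := h1 (f * π ^ (n + 1)) (by
    rw [norm_mul, norm_zpow, ← lt_div_iff₀ (zpow_pos h0 _), one_div, ← zpow_neg]; exact h3)
  rw [norm_mul, norm_zpow, ← le_div_iff₀ (zpow_pos h0 _), zpow_add_one₀ h0.ne'] at h4
  refine h4.trans_eq ?_
  rw [zpow_neg]; field_simp

theorem fld_mem_range_of_isIntegral {Ω : Type} [Field Ω] [Algebra ℂ Ω] {u : Ω} (h : IsIntegral ℂ u) :
    u ∈ (algebraMap ℂ Ω).range :=
  minpoly.mem_range_of_degree_eq_one ℂ u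
    (IsAlgClosed.degree_eq_one_of_irreducible ℂ (minpoly.irreducible h))

/-- The union of the fields generated by the roots of `t`. -/
noncomputable def Pui {Ω : Type} [Field Ω] [Algebra ℂ Ω] (t : Ω) : IntermediateField ℂ Ω :=
  ⨆ ρ : {ρ : Ω // ∃ n, 0 < n ∧ ρ ^ n = t}, adjoin ℂ {ρ.1}

section
variable {Ω : Type} [Field Ω] [Algebra ℂ Ω] [IsAlgClosed Ω] {t : Ω}

theorem pui_dir (ht : t ≠ 0) : Directed (· ≤ ·)
    fun ρ : {ρ : Ω // ∃ n, 0 < n ∧ ρ ^ n = t} => adjoin ℂ {ρ.1} := by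
  have key : ∀ (τ ρ : Ω) (n k : ℕ), 0 < n → τ ^ n = t → ρ ^ (k * n) = t →
      adjoin ℂ {τ} ≤ adjoin ℂ {ρ} := fun τ ρ n k hn h1 h2 => by
    have h3 : ρ ^ k ≠ 0 := fun h => ht (by rw [← h2, pow_mul, h, zero_pow hn.ne'])
    obtain ⟨c, hc⟩ := fld_mem_range_of_isIntegral (IsIntegral.of_pow hn (show IsIntegral ℂ
      ((τ / ρ ^ k) ^ n) by rw [div_pow, ← pow_mul, h1, h2, div_self ht]; exact isIntegral_one))
    rw [adjoin_simple_le_iff, ← div_mul_cancel₀ τ h3, ← hc]
    exact mul_mem (_root_.algebraMap_mem _ c) (pow_mem (mem_adjoin_simple_self ℂ ρ) k)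
  rintro ⟨a, n, hn, ha⟩ ⟨b, m, hm, hb⟩
  obtain ⟨ρ, hρ⟩ := IsAlgClosed.exists_pow_nat_eq t (Nat.mul_pos hm hn)
  exact ⟨⟨ρ, _, Nat.mul_pos hm hn, hρ⟩, key a ρ n m hn ha hρ,
    key b ρ m n hm hb (by rwa [mul_comm])⟩

theorem pui_fin (ht : t ≠ 0) (s : Finset Ω) (hs : ∀ a ∈ s, a ∈ Pui t) :
    ∃ (ρ : Ω) (n : ℕ), 0 < n ∧ ρ ^ n = t ∧ ∀ a ∈ s, a ∈ adjoin ℂ {ρ} := by
  have : Nonempty {ρ : Ω // ∃ n, 0 < n ∧ ρ ^ n = t} := ⟨⟨t, 1, one_pos, pow_one t⟩⟩
  obtain ⟨⟨ρ, n, hn, h⟩, h2⟩ := Directed.exists_mem_subset_of_finset_subset_biUnion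
    (f := fun ρ : {ρ : Ω // ∃ n, 0 < n ∧ ρ ^ n = t} => (adjoin ℂ {ρ.1} : Set Ω)) (pui_dir ht)
    (s := s) (by rw [← coe_iSup_of_directed (pui_dir ht)]; exact hs)
  exact ⟨ρ, n, hn, h, h2⟩

omit [IsAlgClosed Ω] in
theorem pui_le {ρ : Ω} {n : ℕ} (hn : 0 < n) (h : ρ ^ n = t) : adjoin ℂ {ρ} ≤ Pui t :=
  le_iSup (fun ρ : {ρ : Ω // ∃ n, 0 < n ∧ ρ ^ n = t} => adjoin ℂ {ρ.1}) ⟨ρ, n, hn, h⟩

omit [IsAlgClosed Ω] in
theorem pui_mem {ρ : Ω} {n : ℕ} (hn : 0 < n) (h : ρ ^ n = t) : ρ ∈ Pui t :=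
  pui_le hn h (mem_adjoin_simple_self ℂ ρ)

omit [IsAlgClosed Ω] in
theorem fld_root_transc (ht : Transcendental ℂ t) {ρ : Ω} {n : ℕ} (h : ρ ^ n = t) :
    Transcendental ℂ ρ := fun h1 => ht (h ▸ h1.pow n)

theorem pui_const (ht : Transcendental ℂ t) (D : Derivation ℂ Ω Ω) (hD : D t ≠ 0) {a : Ω}
    (ha : a ∈ Pui t) (h0 : D a = 0) : a ∈ (algebraMap ℂ Ω).range := by
  obtain ⟨ρ, n, -, h1, h2⟩ := pui_fin (t := t) (fun h => ht (h ▸ isAlgebraic_zero)) {a} (by simpa)
  obtain ⟨r, s, rfl⟩ := (mem_adjoin_simple_iff ℂ a).1 (h2 a (by simp))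
  have h3 := transcendental_iff_injective.1 (fld_root_transc ht h1)
  have h4 : D ρ ≠ 0 := fun h => hD (by simp [← h1, h])
  rcases eq_or_ne s 0 with rfl | hs
  · simp
  have h5 : Polynomial.aeval ρ s ≠ 0 := (map_ne_zero_iff _ h3).2 hs
  rw [Derivation.leibniz_div, Derivation.map_aeval, Derivation.map_aeval] at h0
  obtain ⟨c, rfl⟩ := wron (r := r) hs (h3 (by
    simp only [smul_eq_mul, mul_eq_zero, pow_eq_zero_iff two_ne_zero, inv_eq_zero, h5,
      false_or] at h0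
    rw [map_mul, map_mul]
    exact mul_right_cancel₀ h4 (by linear_combination h0)))
  exact ⟨c, by rw [map_mul, Polynomial.aeval_C, mul_div_cancel_left₀ _ h5]⟩

end

section
variable {F Ω : Type} [NormedField F] [NormedField Ω] [Algebra ℂ F] [Algebra ℂ Ω] [Algebra F Ω]
  [IsScalarTower ℂ F Ω] [IsAlgClosed Ω] [Algebra.IsAlgebraic F Ω] {π : F}

omit [IsAlgClosed Ω] [Algebra.IsAlgebraic F Ω] in
theorem fld_norm_c (L : Loc π) (hext : ∀ f, ‖algebraMap F Ω f‖ = ‖f‖) {c : ℂ} (hc : c ≠ 0) :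
    ‖algebraMap ℂ Ω c‖ = 1 := by
  rw [IsScalarTower.algebraMap_apply ℂ F Ω, hext]
  exact le_antisymm (L.c1 c) (not_lt.1 fun h => hc (L.disc c h))

theorem pui_approx (L : Loc π) (hext : ∀ f, ‖algebraMap F Ω f‖ = ‖f‖)
    (na : ∀ a b : Ω, ‖a + b‖ ≤ max ‖a‖ ‖b‖)
    (hval : ∀ x : Ω, ‖x‖ ^ (minpoly F x).natDegree = ‖(minpoly F x).coeff 0‖)
    (hint : ∀ x : Ω, ‖x‖ ≤ 1 → ∀ i, ‖(minpoly F x).coeff i‖ ≤ 1) {x : Ω} (hx : x ≠ 0) :
    ∃ e ∈ Pui (algebraMap F Ω π), ‖x - e‖ < ‖x‖ := by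
  have : IsUltrametricDist Ω := IsUltrametricDist.isUltrametricDist_of_forall_norm_add_le_max_norm na
  have hi : ∀ y : Ω, IsIntegral F y := fun y => Algebra.IsIntegral.isIntegral y
  have hn := minpoly.natDegree_pos (hi x)
  obtain ⟨k, hk⟩ := fld_loc_val L (minpoly.coeff_zero_ne_zero (hi x) hx)
  obtain ⟨τ, hτ⟩ := IsAlgClosed.exists_pow_nat_eq (algebraMap F Ω π) hn
  have h1 : ‖τ ^ k‖ = ‖x‖ := (pow_left_inj₀ (norm_nonneg _) (norm_nonneg _) hn.ne').1 (by
    rw [hval, hk, ← hext, ← hτ, norm_zpow, norm_pow, ← zpow_natCast, ← zpow_natCast, ← zpow_mul,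
      ← zpow_mul, mul_comm])
  have h2 : 0 < ‖τ ^ k‖ := h1 ▸ norm_pos_iff.2 hx
  have h3 : ‖x / τ ^ k‖ = 1 := by rw [norm_div, ← h1, div_self h2.ne']
  set y := x / τ ^ k with hy
  choose c hc using fun i => L.res _ (hint y h3.le i)
  let p : ℂ[X] := ∑ i ∈ Finset.range ((minpoly F y).natDegree + 1), Polynomial.monomial i (c i)
  have h4 : p ≠ 0 := fun h => by
    have h5 := congrArg (Polynomial.coeff · (minpoly F y).natDegree) h
    simp only [p, Polynomial.finsetSum_coeff, Polynomial.coeff_monomial, Finset.sum_ite_eq', Finset.mem_range,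
      Nat.lt_succ_self, if_true, Polynomial.coeff_zero] at h5
    have h6 := hc (minpoly F y).natDegree
    rw [h5, map_zero, sub_zero, Polynomial.coeff_natDegree, (minpoly.monic (hi y)).leadingCoeff,
      norm_one] at h6
    exact absurd L.π1 h6.not_gt
  have h5 : ‖Polynomial.aeval y p‖ < 1 := by
    rw [← norm_neg, ← zero_sub, ← minpoly.aeval F y, Polynomial.aeval_eq_sum_range, map_sum,
      ← Finset.sum_sub_distrib]
    refine (IsUltrametricDist.norm_sum_le_of_forall_le_of_nonneg (norm_nonneg π)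
      fun i _ => ?_).trans_lt L.π1
    rw [Polynomial.aeval_monomial, Algebra.smul_def, ← sub_mul, norm_mul, norm_pow, h3, one_pow, mul_one,
      IsScalarTower.algebraMap_apply ℂ F Ω, ← map_sub, hext]
    exact hc i
  obtain ⟨r, hr⟩ : ∃ r : ℂ, ‖y - algebraMap ℂ Ω r‖ < 1 := by
    by_contra! H
    have h6 : ∀ s : Multiset ℂ, 1 ≤ ‖Polynomial.aeval y (s.map fun a => Polynomial.X - Polynomial.C a).prod‖ := fun s => by
      induction s using Multiset.induction_on with
      | empty => simp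
      | cons a s ih =>
        rw [Multiset.map_cons, Multiset.prod_cons, map_mul, norm_mul, map_sub, Polynomial.aeval_X, Polynomial.aeval_C]
        exact one_le_mul_of_one_le_of_one_le (H a) ih
    rw [(IsAlgClosed.splits p).eq_prod_roots, map_mul, norm_mul, Polynomial.aeval_C,
      fld_norm_c L hext (Polynomial.leadingCoeff_ne_zero.2 h4), one_mul] at h5
    exact absurd h5 (h6 _).not_gt
  refine ⟨algebraMap ℂ Ω r * τ ^ k, mul_mem (_root_.algebraMap_mem _ r)
    (zpow_mem (pui_mem hn hτ) k), ?_⟩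
  rw [show x - algebraMap ℂ Ω r * τ ^ k = (y - algebraMap ℂ Ω r) * τ ^ k by
    rw [hy, sub_mul, div_mul_cancel₀ _ (norm_pos_iff.1 h2)], norm_mul, ← h1]
  exact mul_lt_of_lt_one_left h2 hr

theorem pui_dense (L : Loc π) (hext : ∀ f, ‖algebraMap F Ω f‖ = ‖f‖)
    (na : ∀ a b : Ω, ‖a + b‖ ≤ max ‖a‖ ‖b‖) (hσ : ∀ (σ : Ω ≃ₐ[F] Ω) x, ‖σ x‖ = ‖x‖)
    (happ : ∀ x : Ω, x ≠ 0 → ∃ e ∈ Pui (algebraMap F Ω π), ‖x - e‖ < ‖x‖) :
    Dense (Pui (algebraMap F Ω π) : Set Ω) := by
  set K := Pui (algebraMap F Ω π)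
  have hπ : algebraMap F Ω π ∈ K := pui_mem one_pos (pow_one _)
  have h1 : ∀ f, algebraMap F Ω f ∈ K.toSubfield.topologicalClosure := fun f => by
    obtain ⟨S, h2, h3⟩ := L.ap
    refine map_mem_closure (AddMonoidHomClass.isometry_of_norm _ hext).continuous (h2.dense f)
      fun s hs => ?_
    obtain ⟨d, h4, a, h5⟩ := h3 ![s, 1, 0, 0, 0] fun i => by
      fin_cases i <;> simp [show s ∈ S from hs]
    have h6 : Polynomial.aeval π (a 0) = d * s := congrFun h5 0
    have h7 : Polynomial.aeval π (a 1) = d * 1 := congrFun h5 1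
    have h8 : ∀ p : ℂ[X], algebraMap F Ω (Polynomial.aeval π p) ∈ K := fun p => by
      rw [← Polynomial.aeval_algebraMap_apply]
      exact (Polynomial.aeval_algHom_apply K.val ⟨_, hπ⟩ p).symm ▸ Subtype.prop _
    rw [show s = Polynomial.aeval π (a 0) / Polynomial.aeval π (a 1) by rw [h6, h7]; field_simp, map_div₀]
    exact div_mem (h8 _) (h8 _)
  let K' : IntermediateField F Ω := K.toSubfield.topologicalClosure.toIntermediateField h1
  intro a
  change a ∈ K'
  have : IsAlgClosure K' Ω := ⟨inferInstance, inferInstance⟩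
  have hi : IsIntegral K' a := Algebra.IsIntegral.isIntegral a
  have hm := (minpoly.monic hi).map (algebraMap K' Ω)
  let R := ((minpoly K' a).map (algebraMap K' Ω)).roots
  have hn : R.card ≠ 0 := by
    rw [← (IsAlgClosed.splits _).natDegree_eq_card_roots,
      (minpoly.monic hi).natDegree_map]
    exact (minpoly.natDegree_pos hi).ne'
  have h2 : ‖(R.card : Ω)‖ = 1 := by
    rw [← map_natCast (algebraMap ℂ Ω)]
    exact fld_norm_c L hext (Nat.cast_ne_zero.2 hn)
  have h3 : (R.card : Ω) ≠ 0 := norm_pos_iff.1 (h2 ▸ one_pos)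
  have h4 : R.sum / R.card ∈ K' := by
    refine div_mem ?_ (_root_.natCast_mem _ _)
    have := (IsAlgClosed.splits _).nextCoeff_eq_neg_sum_roots_of_monic hm
    rw [Polynomial.nextCoeff_map (algebraMap K' Ω).injective, ← neg_eq_iff_eq_neg] at this
    rw [← this]
    exact neg_mem (Subtype.prop _)
  set m := R.sum / R.card with hm'
  by_contra h5
  obtain ⟨e, h6, h7⟩ := happ (a - m) (sub_ne_zero.2 fun h => h5 (h ▸ h4))
  have h8 : m + e ∈ K' := add_mem h4 (subset_closure h6)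
  have h9 : ∀ s : Multiset Ω, (∀ b ∈ s, ‖b - (m + e)‖ ≤ ‖a - m - e‖) →
      ‖s.sum - s.card * (m + e)‖ ≤ ‖a - m - e‖ := fun s => by
    induction s using Multiset.induction_on with
    | empty => simp
    | cons b s ih =>
      intro h
      rw [Multiset.sum_cons, Multiset.card_cons, show b + s.sum - ((s.card + 1 : ℕ) : Ω) * (m + e)
        = (b - (m + e)) + (s.sum - s.card * (m + e)) by push_cast; ring]
      exact (na _ _).trans (max_le (h b (by simp)) (ih fun c hc => h c (by simp [hc])))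
  have h10 := h9 R fun b hb => by
    obtain ⟨σ, h⟩ := ((isConjRoot_iff_mem_minpoly_aroots hi).2 hb).exists_algEquiv
    rw [← hσ (σ.restrictScalars F), sub_sub, ← h, map_sub]
    exact (congrArg (‖σ b - ·‖) (σ.commutes ⟨_, h8⟩)).le
  rw [show R.sum - R.card * (m + e) = -(R.card * e) by rw [hm']; field_simp; ring, norm_neg,
    norm_mul, h2, one_mul] at h10
  have h11 := na (a - m - e) e
  rw [sub_add_cancel] at h11
  exact absurd h7 (h11.trans (max_le le_rfl h10)).not_gt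

end

theorem exists_field : ∃ (Ω : Type) (_ : NormedField Ω) (_ : IsAlgClosed Ω) (_ : Algebra ℂ Ω)
    (K : IntermediateField ℂ Ω), Fd K := by
  obtain ⟨N, π0, L0, -⟩ := place (RatFunc ℂ)
  obtain ⟨F, _, _, _, π, L⟩ := @fld_loc_complete _ N.toNormedField _ _ L0
  have h0 := norm_pos_iff.2 L.π0
  let _ : NontriviallyNormedField F :=
    ⟨π⁻¹, by rw [norm_inv]; exact (one_lt_inv₀ h0).2 L.π1⟩
  have : IsUltrametricDist F :=
    IsUltrametricDist.isUltrametricDist_of_forall_norm_add_le_max_norm L.na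
  let Ω := AlgebraicClosure F
  let _ : NormedField Ω := spectralNorm.normedField F Ω
  have hext : ∀ f, ‖algebraMap F Ω f‖ = ‖f‖ := spectralNorm_extends
  have na : ∀ a b : Ω, ‖a + b‖ ≤ max ‖a‖ ‖b‖ := isNonarchimedean_spectralNorm (K := F)
  have h1 : algebraMap F Ω π ≠ 0 := (_root_.map_ne_zero _).2 L.π0
  have h2 : ‖algebraMap F Ω π‖ < 1 := (hext π).trans_lt L.π1
  have ht : Transcendental ℂ (algebraMap F Ω π) :=
    (transcendental_algebraMap_iff (algebraMap F Ω).injective).2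
      (transcendental_iff_injective.2 L.inj)
  obtain ⟨D, hD⟩ : ∃ D : Derivation ℂ Ω Ω, D (algebraMap F Ω π) ≠ 0 := by
    by_contra! H
    obtain ⟨c, hc⟩ := der_const _ H
    exact ht (hc ▸ isAlgebraic_algebraMap c)
  refine ⟨Ω, inferInstance, inferInstance, inferInstance, Pui (algebraMap F Ω π), na,
    fun c => (hext _).trans_le (L.c1 c), ?_,
    pui_dense L hext na (fun σ x => (spectralNorm_eq_of_equiv σ x).symm)
      fun x => pui_approx L hext na (fun x => ?_) fun x hx => ?_, fun ι _ a ha => ?_,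
    D, fun r hr h => (pui_const ht D hD hr h).imp fun _ h => h.symm⟩
  · exact mem_closure_iff_nhdsWithin_neBot.1 (mem_closure_of_tendsto
      (tendsto_pow_atTop_nhds_zero_of_norm_lt_one h2) (.of_forall fun n => pow_ne_zero n h1))
  · have hn := minpoly.natDegree_pos (Algebra.IsIntegral.isIntegral (R := F) x)
    change spectralNorm F Ω x ^ _ = _
    rw [spectralNorm.spectralNorm_eq_norm_coeff_zero_rpow, one_div,
      Real.rpow_inv_natCast_pow (norm_nonneg _) hn.ne']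
  · exact (spectralValue_le_one_iff (minpoly.monic (Algebra.IsIntegral.isIntegral x))).1 hx
  · classical
    have := Fintype.ofFinite ι
    obtain ⟨ρ, n, hn, h3, h4⟩ := pui_fin h1 (Finset.univ.image a) (by simpa using ha)
    have h5 := transcendental_iff_injective.1 (fld_root_transc ht h3)
    have h6 : ∀ i, ∃ r s : ℂ[X], s ≠ 0 ∧ Polynomial.aeval ρ r = a i * Polynomial.aeval ρ s := by
      intro i
      obtain ⟨r, s, h⟩ := (mem_adjoin_simple_iff ℂ (a i)).1 (h4 _ (by simp))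
      rcases eq_or_ne s 0 with rfl | hs
      · exact ⟨0, 1, one_ne_zero, by simp [h]⟩
      · exact ⟨r, s, hs, by rw [h, div_mul_cancel₀ _ ((map_ne_zero_iff _ h5).2 hs)]⟩
    choose r s h7 h8 using h6
    refine ⟨ρ, pui_mem hn h3, h5, ∏ i, s i, Finset.prod_ne_zero_iff.2 fun i _ => h7 i,
      fun i => r i * ∏ j ∈ Finset.univ.erase i, s j, fun i => ?_⟩
    rw [← Finset.mul_prod_erase _ s (Finset.mem_univ i), map_mul, map_mul, h8]
    ring

end

section
open scoped Polynomial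

theorem tsen_rat {F σ κ : Type} [Field F] [IsAlgClosed F] [Fintype σ] [Fintype κ]
    (p : κ → MvPolynomial σ (RatFunc F)) (d : κ → ℕ) (hd : ∀ j, (p j).totalDegree ≤ d j)
    (h0 : ∀ j, MvPolynomial.eval 0 (p j) = 0) (hs : ∑ j, d j < Fintype.card σ) :
    ∃ y : σ → RatFunc F, y ≠ 0 ∧ ∀ j, MvPolynomial.eval y (p j) = 0 := by
  classical
  have H : ∀ j, ∃ b : nonZeroDivisors F[X], ∀ u ∈ (p j).support,
      IsLocalization.IsInteger F[X] ((b : F[X]) • (p j).coeff u) := fun j =>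
    IsLocalization.exist_integer_multiples (nonZeroDivisors F[X]) (p j).support
      fun u => (p j).coeff u
  choose b hb using H
  choose! P hP using hb
  obtain ⟨m, hm⟩ : ∃ m, ∀ j, ∀ u ∈ (p j).support, (P j u).natDegree ≤ m :=
    ⟨Finset.univ.sup fun j => (p j).support.sup fun u => (P j u).natDegree, fun j u hu =>
      (Finset.le_sup (f := fun u => (P j u).natDegree) hu).trans
        (Finset.le_sup (f := fun j => (p j).support.sup fun u => (P j u).natDegree)
          (Finset.mem_univ j))⟩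
  obtain ⟨s, hsdef⟩ : ∃ s, s = Fintype.card κ * (m + 1) := ⟨_, rfl⟩
  let c : ∀ {R : Type} [CommRing R], (σ × Fin (s + 1) → R) → σ → R[X] :=
    fun y i => ∑ k : Fin (s + 1), Polynomial.monomial k (y (i, k))
  let S : κ → (MvPolynomial (σ × Fin (s + 1)) F)[X] := fun j =>
    ∑ u ∈ (p j).support, (P j u).map MvPolynomial.C * ∏ i, c MvPolynomial.X i ^ u i
  have hS : ∀ j, ∀ y : σ × Fin (s + 1) → F, (S j).map (MvPolynomial.eval y) =
      ∑ u ∈ (p j).support, P j u * ∏ i, c y i ^ u i := fun j y => by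
    have : (MvPolynomial.eval y).comp MvPolynomial.C = RingHom.id F := by ext; simp
    simp only [S, c, Polynomial.map_sum, Polynomial.map_mul, Polynomial.map_map, this,
      Polynomial.map_id, Polynomial.map_monomial, MvPolynomial.eval_X, Polynomial.map_prod,
      Polynomial.map_pow]
  have hinj := IsFractionRing.injective F[X] (RatFunc F)
  have hb0 : ∀ j, algebraMap F[X] (RatFunc F) (b j) ≠ 0 := fun j =>
    (map_ne_zero_iff _ hinj).2 (nonZeroDivisors.coe_ne_zero (b j))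
  have key : ∀ j, ∀ z : σ → F[X], algebraMap F[X] (RatFunc F)
      (∑ u ∈ (p j).support, P j u * ∏ i, z i ^ u i) =
      algebraMap F[X] (RatFunc F) (b j) *
        MvPolynomial.eval (fun i => algebraMap F[X] (RatFunc F) (z i)) (p j) := fun j z => by
    rw [MvPolynomial.eval_eq', Finset.mul_sum, map_sum]
    refine Finset.sum_congr rfl fun u hu => ?_
    rw [map_mul, hP j u hu, Algebra.smul_def, map_prod, mul_assoc]
    simp only [map_pow]
  obtain ⟨y, hy0, hy⟩ := H61.exists_zero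
    (fun k : (Σ j, Fin (m + d j * s + 1)) => (S k.1).coeff k.2) (fun k => by
      rw [← Polynomial.coeff_map, hS]
      have h1 := key k.1 (c 0)
      have h2 : (fun i => algebraMap F[X] (RatFunc F) (c (0 : σ × Fin (s + 1) → F) i)) = 0 := by
        funext i; simp [c]
      rw [h2, h0, mul_zero, map_eq_zero_iff _ hinj] at h1
      rw [h1, Polynomial.coeff_zero]) (by
      have h1 : ∑ j, (m + d j * s + 1) = s + (∑ j, d j) * s := by
        rw [Finset.sum_mul, Finset.sum_congr rfl fun j _ => add_right_comm m (d j * s) 1,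
          Finset.sum_add_distrib, Finset.sum_const, Finset.card_univ, smul_eq_mul, ← hsdef]
      have h2 : (∑ j, d j + 1) * (s + 1) ≤ Fintype.card σ * (s + 1) :=
        Nat.mul_le_mul_right _ hs
      simp only [Fintype.card_sigma, Fintype.card_fin, Fintype.card_prod, h1]
      have h3 : (∑ j, d j + 1) * (s + 1) = s + (∑ j, d j) * s + (∑ j, d j + 1) := by ring
      omega)
  have hc : ∀ i, (c y i).natDegree ≤ s := fun i =>
    Polynomial.natDegree_sum_le_of_forall_le _ _ fun k _ => (Polynomial.natDegree_monomial_le _).trans (by omega)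
  have h1 : ∀ j, ∑ u ∈ (p j).support, P j u * ∏ i, c y i ^ u i = 0 := fun j => by
    have hdeg : (∑ u ∈ (p j).support, P j u * ∏ i, c y i ^ u i).natDegree ≤ m + d j * s := by
      refine Polynomial.natDegree_sum_le_of_forall_le _ _ fun u hu =>
        Polynomial.natDegree_mul_le.trans (add_le_add (hm j u hu) ((Polynomial.natDegree_prod_le _ _).trans ?_))
      have h3 : ∑ i, u i ≤ d j := by
        have := (MvPolynomial.le_totalDegree hu).trans (hd j)
        rwa [Finsupp.sum_fintype _ _ (fun _ => rfl)] at this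
      calc ∑ i, (c y i ^ u i).natDegree ≤ ∑ i, u i * s :=
            Finset.sum_le_sum fun i _ => Polynomial.natDegree_pow_le.trans (Nat.mul_le_mul_left _ (hc i))
        _ = (∑ i, u i) * s := (Finset.sum_mul _ _ _).symm
        _ ≤ d j * s := Nat.mul_le_mul_right _ h3
    ext k
    by_cases hk : k < m + d j * s + 1
    · rw [← hS, Polynomial.coeff_map]; exact hy ⟨j, ⟨k, hk⟩⟩
    · exact Polynomial.coeff_eq_zero_of_natDegree_lt (by omega)
  refine ⟨fun i => algebraMap F[X] _ (c y i), fun h => hy0 (funext fun ⟨i, k⟩ => ?_), fun j => ?_⟩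
  · have h2 : c y i = 0 := hinj (by rw [map_zero]; exact congrFun h i)
    have h3 := congrArg (fun q => Polynomial.coeff q k) h2
    simpa [c, Polynomial.coeff_monomial, Fin.val_inj] using h3
  · have h2 := key j (c y)
    rw [h1, map_zero] at h2
    exact (mul_eq_zero.1 h2.symm).resolve_left (hb0 j)

variable {Ω : Type} [NormedField Ω] [IsAlgClosed Ω] [Algebra ℂ Ω]

variable {K : IntermediateField ℂ Ω}

theorem tsen (hK : Fd K) {σ κ : Type} [Fintype σ] [Fintype κ] (p : κ → MvPolynomial σ Ω)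
    (d : κ → ℕ) (hp : ∀ j, (p j).IsHomogeneous (d j)) (hd : ∀ j, 0 < d j)
    (hc : ∀ j m, coeff m (p j) ∈ K) (hs : ∑ j, d j < Fintype.card σ) :
    ∃ y : σ → Ω, y ≠ 0 ∧ In K y ∧ ∀ j, eval y (p j) = 0 := by
  classical
  obtain ⟨ρ, hρ, h1, e, he, P, hP⟩ := hK.fin (Σ j, (p j).support)
    (fun x => coeff x.2.1 (p x.1)) fun x => hc _ _
  let ψ : RatFunc ℂ →ₐ[ℂ] Ω := RatFunc.liftAlgHom (Polynomial.aeval ρ)
    (nonZeroDivisors_le_comap_nonZeroDivisors_of_injective _ h1)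
  let φ := ψ.toRingHom
  have h2 : ∀ q, φ (algebraMap (Polynomial ℂ) _ q) = Polynomial.aeval ρ q :=
    fun q => RatFunc.liftRingHom_algebraMap _ _ q
  have h3 : ∀ q : Polynomial ℂ, Polynomial.aeval ρ q ∈ K := fun q =>
    (Polynomial.aeval_algHom_apply K.val ⟨_, hρ⟩ q).symm ▸ Subtype.prop _
  have H : ∀ j, ∃ q : MvPolynomial σ (RatFunc ℂ), map φ q = p j := fun j =>
    mem_range_map_iff_coeffs_subset.2 fun a ha => by
      obtain ⟨m, hm, rfl⟩ := mem_coeffs_iff.1 ha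
      exact ⟨algebraMap _ _ (P ⟨j, m, hm⟩) / algebraMap _ _ e, by
        rw [map_div₀, h2, h2, hP, mul_div_cancel_left₀ _ ((map_ne_zero_iff _ h1).2 he)]⟩
  choose q hq using H
  have hev : ∀ j (y : σ → RatFunc ℂ), eval (φ ∘ y) (p j) = φ (eval y (q j)) := fun j y => by
    rw [← hq, map_eval]
  obtain ⟨y, hy0, hy⟩ := tsen_rat q d (fun j => by
      have h4 := (hp j).totalDegree_le
      rwa [← hq, totalDegree, support_map_of_injective _ φ.injective] at h4) (fun j => by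
      have h4 := hev j 0
      rw [show φ ∘ (0 : σ → RatFunc ℂ) = 0 from funext fun _ => map_zero φ, eval_zero,
        constantCoeff_eq, (hp j).coeff_eq_zero (by simpa using (hd j).ne)] at h4
      exact φ.injective (by rw [← h4, map_zero])) hs
  refine ⟨φ ∘ y, fun h => hy0 (funext fun i => φ.injective ?_), fun i => ?_,
    fun j => by rw [hev, hy, map_zero]⟩
  · rw [Pi.zero_apply, map_zero]; exact congrFun h i
  · rw [Function.comp, ← RatFunc.num_div_denom (y i), map_div₀, h2, h2]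
    exact div_mem (h3 _) (h3 _)

end

section

variable {Ω : Type} [NormedField Ω] [IsAlgClosed Ω] [Algebra ℂ Ω]

variable {K : IntermediateField ℂ Ω}

omit [IsAlgClosed Ω] in
theorem ts_C {σ : Type} {a : Ω} (ha : a ∈ K) : algebraMap Ω (MvPolynomial σ Ω) a ∈
    (map (algebraMap K Ω) : MvPolynomial σ K →+* MvPolynomial σ Ω).range :=
  ⟨C ⟨a, ha⟩, map_C _ _⟩

omit [IsAlgClosed Ω] in
theorem ts_X {σ : Type} (i : σ) : (X i : MvPolynomial σ Ω) ∈
    (map (algebraMap K Ω) : MvPolynomial σ K →+* MvPolynomial σ Ω).range := ⟨X i, map_X _ _⟩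

theorem ts_sum (hK : Fd K) {σ κ ι : Type} [Fintype σ] [Fintype κ] [Fintype ι] (l : κ → σ → Ω)
    (hl : ∀ j, In K (l j)) (p : ι → MvPolynomial σ Ω) (d : ι → ℕ)
    (hp : ∀ j, (p j).IsHomogeneous (d j)) (hd : ∀ j, 0 < d j)
    (hc : ∀ j, p j ∈ (map (algebraMap K Ω) : MvPolynomial σ K →+* MvPolynomial σ Ω).range)
    (hs : Fintype.card κ + ∑ j, d j < Fintype.card σ) :
    ∃ y : σ → Ω, y ≠ 0 ∧ In K y ∧ (∀ j, l j ⬝ᵥ y = 0) ∧ ∀ j, aeval y (p j) = 0 := by
  classical
  obtain ⟨y, h0, h1, h2⟩ := tsen hK (Sum.elim (fun j => up (MvPolynomial σ Ω) (l j) ⬝ᵥ X) p)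
    (Sum.elim (fun _ => 1) d) (by rintro (j | j); exacts [hom_dot _, hp j])
    (by rintro (j | j); exacts [one_pos, hd j]) (fun j m => by
      have : Sum.elim (fun j => up (MvPolynomial σ Ω) (l j) ⬝ᵥ X) p j ∈
          (map (algebraMap K Ω) : MvPolynomial σ K →+* MvPolynomial σ Ω).range := by
        rcases j with j | j
        exacts [sum_mem fun i _ => mul_mem (ts_C (hl j i)) (ts_X i), hc j]
      obtain ⟨r, hr⟩ := this
      rw [← hr, coeff_map]
      exact (coeff m r).2) (by simpa using hs)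
  exact ⟨y, h0, h1, fun j => by simpa [dotProduct, up] using h2 (.inl j), fun j => h2 (.inr j)⟩

theorem ts_lin (hK : Fd K) {σ κ : Type} [Fintype σ] [Fintype κ] (l : κ → σ → Ω)
    (hl : ∀ j, In K (l j)) (hs : Fintype.card κ < Fintype.card σ) :
    ∃ y : σ → Ω, y ≠ 0 ∧ In K y ∧ ∀ j, l j ⬝ᵥ y = 0 := by
  obtain ⟨y, h0, h1, h2, -⟩ := ts_sum hK l hl (ι := Empty) Empty.elim Empty.elim
    (fun j => j.elim) (fun j => j.elim) (fun j => j.elim) (by simpa using hs)
  exact ⟨y, h0, h1, h2⟩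

theorem ts_q (hK : Fd K) {σ κ : Type} [Fintype σ] [Fintype κ] {Q : S2 σ Ω} {C : S3 σ Ω}
    (hQ : InQ K Q C) (l : κ → σ → Ω) (hl : ∀ j, In K (l j))
    (hs : Fintype.card κ + 2 < Fintype.card σ) :
    ∃ y : σ → Ω, y ≠ 0 ∧ In K y ∧ Q.T y y = 0 ∧ ∀ j, l j ⬝ᵥ y = 0 := by
  classical
  obtain ⟨y, h0, h1, h2, h3⟩ := ts_sum hK l hl (ι := Unit) (fun _ => Q.T X X) (fun _ => 2)
    (fun _ => Q.hom) (fun _ => two_pos)
    (fun _ => Q.mem_subring _ (fun i j => ts_C (hQ.q i j)) ts_X ts_X) (by simpa using hs)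
  refine ⟨y, h0, h1, ?_, h2⟩
  simpa only [Q.map (aeval y), aeval_comp_X] using h3 ()

theorem ts_ne (hK : Fd K) {σ : Type} [Fintype σ] [DecidableEq σ] {Q : S2 σ Ω} {C : S3 σ Ω}
    (hQ : InQ K Q C) (h : Sm Q C Ω) (hN : 7 ≤ Fintype.card σ) :
    ∃ y : σ → Ω, In K y ∧ InV Q C y ∧ ¬ Eck Q C y := by
  have : CharZero Ω := charZero_of_injective_algebraMap (algebraMap ℂ Ω).injective
  obtain ⟨G, hG, H⟩ := ne_poly h (by omega)
  by_contra! h1
  refine hG (MvPolynomial.funext_set (fun _ => (K : Set Ω)) (fun _ => ?_) fun l hl => ?_)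
  · exact Set.infinite_of_injective_forall_mem (f := fun n : ℕ => (n : Ω)) Nat.cast_injective
      fun n => natCast_mem K n
  obtain ⟨y, h0, hy, h2, h3⟩ := ts_sum hK (κ := Unit) (fun _ => l) (fun _ i => hl i trivial)
    (ι := Bool) (fun b => cond b (Q.T X X) (C.T X X X)) (fun b => cond b 2 3)
    (by rintro (_ | _); exacts [C.hom, Q.hom]) (by rintro (_ | _) <;> simp)
    (by
      rintro (_ | _)
      exacts [C.mem_subring _ (fun i j k => ts_C (hQ.c i j k)) ts_X ts_X ts_X,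
        Q.mem_subring _ (fun i j => ts_C (hQ.q i j)) ts_X ts_X]) (by simp; omega)
  have hV : InV Q C y := ⟨h0, by simpa only [cond, Q.map (aeval y), aeval_comp_X] using h3 true,
    by simpa only [cond, C.map (aeval y), aeval_comp_X] using h3 false⟩
  simpa using H l y hV (h2 ()) (h1 y hy hV)

end

section
variable {Ω : Type} [NormedField Ω] [IsAlgClosed Ω] [Algebra ℂ Ω]

variable {K : IntermediateField ℂ Ω}

theorem root_line {M σ : Type} [Field M] [Fintype σ] {A : Type} [CommRing A] [Algebra M A] (P : MvPolynomial σ M)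
    (x v : σ → A) : ∃ p : Polynomial A, (∀ s, p.eval s = aeval (x + s • v) P) ∧
      p.coeff 0 = aeval x P ∧ p.coeff 1 = ∑ i, aeval x (pderiv i P) * v i := by
  classical
  let q : MvPolynomial σ M →ₐ[M] Polynomial A :=
    aeval fun i => Polynomial.C (x i) + Polynomial.C (v i) * Polynomial.X
  refine ⟨q P, ?_⟩
  induction P using MvPolynomial.induction_on with
  | C c => simp [q, Polynomial.coeff_C]
  | add p r hp hr =>
    refine ⟨fun s => ?_, ?_, ?_⟩
    · simp only [map_add, Polynomial.eval_add, hp.1, hr.1]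
    · simp only [map_add, Polynomial.coeff_add, hp.2.1, hr.2.1]
    · simp only [map_add, Polynomial.coeff_add, hp.2.2, hr.2.2, add_mul, Finset.sum_add_distrib]
  | mul_X p j hp =>
    have h1 : q (X j) = Polynomial.C (x j) + Polynomial.C (v j) * Polynomial.X := aeval_X _ _
    refine ⟨fun s => ?_, ?_, ?_⟩
    · simp only [map_mul, Polynomial.eval_mul, hp.1, h1, aeval_X, Polynomial.eval_add,
        Polynomial.eval_C, Polynomial.eval_X, Pi.add_apply, Pi.smul_apply, smul_eq_mul]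
      ring
    · rw [map_mul, h1, Polynomial.mul_coeff_zero, hp.2.1, map_mul, aeval_X]
      simp
    · rw [map_mul, h1, mul_add, ← mul_assoc, Polynomial.coeff_add, Polynomial.coeff_mul_X,
        Polynomial.coeff_mul_C, Polynomial.coeff_mul_C, hp.2.1, hp.2.2]
      simp only [Derivation.leibniz, smul_eq_mul, pderiv_X, map_add, map_mul, aeval_X,
        Pi.single_apply, add_mul, Finset.sum_add_distrib, Finset.sum_mul]
      rw [add_comm]
      congr 1
      · rw [Finset.sum_eq_single j]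
        · simp
        · intro b _ hb
          simp [Ne.symm hb]
        · simp
      · refine Finset.sum_congr rfl fun l _ => by ring

omit [Algebra ℂ Ω] in
theorem root_one [IsUltrametricDist Ω] (p : Polynomial Ω)
    (h : p.coeff 1 ≠ 0) : ∃ s, p.eval s = 0 ∧ ‖s‖ * ‖p.coeff 1‖ ≤ ‖p.coeff 0‖ := by
  classical
  have key : ∀ (m : Multiset Ω) (c : Ω) (t : ℝ), 0 ≤ t → (∀ r ∈ m, t ≤ ‖r‖) →
      t * ‖(Polynomial.C c * (m.map fun a => Polynomial.X - Polynomial.C a).prod).coeff 1‖ ≤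
        ‖(Polynomial.C c * (m.map fun a => Polynomial.X - Polynomial.C a).prod).coeff 0‖ := by
    intro m c t ht
    induction m using Multiset.induction_on with
    | empty => simp [Polynomial.coeff_C]
    | cons r m ih =>
      intro h
      have h1 := ih fun a ha => h a (Multiset.mem_cons_of_mem ha)
      have h2 := h r (Multiset.mem_cons_self _ _)
      rw [Multiset.map_cons, Multiset.prod_cons, mul_comm (Polynomial.X - _), ← mul_assoc]
      generalize Polynomial.C c * (m.map fun a => Polynomial.X - Polynomial.C a).prod = Q at h1 ⊢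
      rw [Polynomial.coeff_mul_X_sub_C, Polynomial.mul_coeff_zero, norm_mul, sub_eq_add_neg]
      simp only [Polynomial.coeff_sub, Polynomial.coeff_X_zero, Polynomial.coeff_C_zero, zero_sub,
        norm_neg]
      refine (mul_le_mul_of_nonneg_left (IsUltrametricDist.norm_add_le_max _ _) ht).trans ?_
      rw [mul_max_of_nonneg _ _ ht, norm_neg, norm_mul]
      refine max_le ?_ ?_
      · rw [mul_comm]; exact mul_le_mul_of_nonneg_left h2 (norm_nonneg _)
      · rw [← mul_assoc]; exact mul_le_mul_of_nonneg_right h1 (norm_nonneg _)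
  have hp : p ≠ 0 := fun h0 => h (by simp [h0])
  have hd : p.degree ≠ 0 := fun h0 => h (by
    rw [Polynomial.eq_C_of_degree_eq_zero h0]; simp)
  obtain ⟨r, hr⟩ := IsAlgClosed.exists_root p hd
  obtain ⟨s, hs, hm⟩ := p.roots.toFinset.exists_min_image (fun a => ‖a‖)
    ⟨r, Multiset.mem_toFinset.2 ((Polynomial.mem_roots hp).2 hr)⟩
  refine ⟨s, (Polynomial.mem_roots hp).1 (Multiset.mem_toFinset.1 hs), ?_⟩
  have h1 := key p.roots p.leadingCoeff ‖s‖ (norm_nonneg _) fun a ha =>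
    hm a (Multiset.mem_toFinset.2 ha)
  rwa [← (IsAlgClosed.splits p).eq_prod_roots] at h1

theorem root_lim (hK : Fd K) {ι : Type} {l : Filter ι} (P : ι → Polynomial Ω) {a : Ω}
    (h0 : Tendsto (fun i => (P i).eval 0) l (𝓝 0))
    (h1 : Tendsto (fun i => (Polynomial.derivative (P i)).eval 0) l (𝓝 a)) (ha : a ≠ 0) :
    ∃ s : ι → Ω, Tendsto s l (𝓝 0) ∧ ∀ᶠ i in l, (P i).eval (s i) = 0 := by
  have := IsUltrametricDist.isUltrametricDist_of_forall_norm_add_le_max_norm hK.na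
  simp only [← Polynomial.coeff_zero_eq_eval_zero, Polynomial.coeff_derivative, zero_add,
    Nat.cast_zero, mul_one] at h0 h1
  have h2 : ∀ i, ∃ s, (P i).coeff 1 ≠ 0 →
      (P i).eval s = 0 ∧ ‖s‖ ≤ ‖(P i).coeff 0‖ / ‖(P i).coeff 1‖ := fun i => by
    by_cases h : (P i).coeff 1 = 0
    · exact ⟨0, fun h' => absurd h h'⟩
    · obtain ⟨s, hs, hn⟩ := root_one (P i) h
      exact ⟨s, fun _ => ⟨hs, (le_div_iff₀ (norm_pos_iff.2 h)).2 hn⟩⟩
  choose s hs using h2
  have h3 := h1.eventually_ne ha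
  refine ⟨s, ?_, h3.mono fun i hi => (hs i hi).1⟩
  refine squeeze_zero_norm' (h3.mono fun i hi => (hs i hi).2) ?_
  have h4 := h0.norm.div h1.norm (norm_ne_zero_iff.2 ha)
  rwa [norm_zero, zero_div] at h4

theorem dense_ne (hK : Fd K) {σ : Type} [Fintype σ] (H : MvPolynomial σ Ω) (hH : H ≠ 0) :
    Dense {y : σ → Ω | eval y H ≠ 0} := by
  intro x
  have := hK.nb
  obtain ⟨v, hv⟩ : ∃ v : σ → Ω, eval v H ≠ 0 := by
    by_contra! h
    exact hH (MvPolynomial.funext fun v => by rw [h, map_zero])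
  obtain ⟨p, hp, -⟩ := root_line H x (v - x)
  have hp0 : p ≠ 0 := fun h => hv (by simpa [h] using (hp 1).symm)
  have h1 : Tendsto (fun s : Ω => x + s • (v - x)) (𝓝[≠] 0) (𝓝 x) := by
    have : Continuous fun s : Ω => x + s • (v - x) := by fun_prop
    simpa using (this.tendsto 0).mono_left nhdsWithin_le_nhds
  refine mem_closure_of_tendsto h1 ?_
  refine ((Polynomial.finite_setOfPred_isRoot hp0).eventually_cofinite_notMem.filter_mono
    (nhdsNE_le_cofinite 0)).mono fun s hs => ?_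
  exact fun h => hs ((hp s).trans h)

omit [IsAlgClosed Ω] in
theorem root_disc (hK : Fd K) (c : ℂ) (h : ‖algebraMap ℂ Ω c‖ < 1) : c = 0 := by
  by_contra h0
  have := mul_lt_one_of_nonneg_of_lt_one_left (norm_nonneg _) h (hK.c1 c⁻¹)
  rw [← norm_mul, ← map_mul, mul_inv_cancel₀ h0, map_one, norm_one] at this
  exact lt_irrefl _ this

theorem near (hK : Fd K) {σ : Type} [Fintype σ] {y : σ → Ω} {x : σ → ℂ} (h : ‖y - up Ω x‖ < 1)
    (p : MvPolynomial σ ℂ) (hp : aeval y p = 0) : eval x p = 0 := by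
  have h1 : ∀ p, ‖aeval y p - algebraMap ℂ Ω (eval x p)‖ < 1 := by
    intro p
    induction p using MvPolynomial.induction_on with
    | C c => simp
    | add p q hp hq =>
      rw [map_add, map_add, map_add, add_sub_add_comm]
      exact (hK.na _ _).trans_lt (max_lt hp hq)
    | mul_X p i hp =>
      have h2 : ‖y i - algebraMap ℂ Ω (x i)‖ < 1 := (norm_le_pi_norm _ i).trans_lt h
      have h3 : ‖y i‖ ≤ 1 := by
        rw [← sub_add_cancel (y i) (algebraMap ℂ Ω (x i))]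
        exact (hK.na _ _).trans (max_le h2.le (hK.c1 _))
      rw [map_mul, map_mul, map_mul, aeval_X, eval_X]
      generalize aeval y p = a at hp ⊢
      rw [show a * y i - algebraMap ℂ Ω (eval x p) * algebraMap ℂ Ω (x i) =
        (a - algebraMap ℂ Ω (eval x p)) * y i + (y i - algebraMap ℂ Ω (x i)) *
          algebraMap ℂ Ω (eval x p) by ring]
      refine (hK.na _ _).trans_lt (max_lt ?_ ?_) <;> rw [norm_mul]
      exacts [mul_lt_one_of_nonneg_of_lt_one_left (norm_nonneg _) hp h3,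
        mul_lt_one_of_nonneg_of_lt_one_left (norm_nonneg _) h2 (hK.c1 _)]
  exact root_disc hK _ (by simpa [hp] using h1 p)

end

section
variable {Ω : Type} [NormedField Ω] [IsAlgClosed Ω] [Algebra ℂ Ω]

variable {K : IntermediateField ℂ Ω}

theorem hyp_line {M σ : Type} [Field M] [Fintype σ] {A : Type} [CommRing A] [Algebra M A] (P : MvPolynomial σ M)
    (x v : σ → A) : ∃ p : Polynomial A, (∀ s, p.eval s = aeval (x + s • v) P) ∧
      p.coeff 0 = aeval x P ∧ p.coeff 1 = ∑ i, aeval x (pderiv i P) * v i := by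
  classical
  let q : MvPolynomial σ M →ₐ[M] Polynomial A :=
    aeval fun i => Polynomial.C (x i) + Polynomial.C (v i) * Polynomial.X
  refine ⟨q P, ?_⟩
  induction P using MvPolynomial.induction_on with
  | C c => simp [q, Polynomial.coeff_C]
  | add p r hp hr =>
    refine ⟨fun s => ?_, ?_, ?_⟩
    · simp only [map_add, Polynomial.eval_add, hp.1, hr.1]
    · simp only [map_add, Polynomial.coeff_add, hp.2.1, hr.2.1]
    · simp only [map_add, Polynomial.coeff_add, hp.2.2, hr.2.2, add_mul, Finset.sum_add_distrib]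
  | mul_X p j hp =>
    have h1 : q (X j) = Polynomial.C (x j) + Polynomial.C (v j) * Polynomial.X := aeval_X _ _
    refine ⟨fun s => ?_, ?_, ?_⟩
    · simp only [map_mul, Polynomial.eval_mul, hp.1, h1, aeval_X, Polynomial.eval_add,
        Polynomial.eval_C, Polynomial.eval_X, Pi.add_apply, Pi.smul_apply, smul_eq_mul]
      ring
    · rw [map_mul, h1, Polynomial.mul_coeff_zero, hp.2.1, map_mul, aeval_X]
      simp
    · rw [map_mul, h1, mul_add, ← mul_assoc, Polynomial.coeff_add, Polynomial.coeff_mul_X,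
        Polynomial.coeff_mul_C, Polynomial.coeff_mul_C, hp.2.1, hp.2.2]
      simp only [Derivation.leibniz, smul_eq_mul, pderiv_X, map_add, map_mul, aeval_X,
        Pi.single_apply, add_mul, Finset.sum_add_distrib, Finset.sum_mul]
      rw [add_comm]
      congr 1
      · rw [Finset.sum_eq_single j]
        · simp
        · intro b _ hb
          simp [Ne.symm hb]
        · simp
      · refine Finset.sum_congr rfl fun l _ => by ring

omit [IsAlgClosed Ω] [Algebra ℂ Ω] in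
theorem hyp_cont {M σ : Type} [Field M] [Algebra M Ω] (P : MvPolynomial σ M) :
    Continuous fun z : σ → Ω => aeval z P := by
  induction P using MvPolynomial.induction_on with
  | C c => simpa using continuous_const
  | add p q hp hq => simp only [map_add]; exact hp.add hq
  | mul_X p j hp => simp only [map_mul, aeval_X]; exact hp.mul (continuous_apply j)

theorem hyp (hK : Fd K) {M σ : Type} [Field M] [Algebra M Ω] [Fintype σ] {f Δ : MvPolynomial σ M}
    (hf : Prime f) (hΔ : ¬ f ∣ Δ) {x : σ → Ω} (hx : aeval x f = 0) {k : σ}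
    (hk : aeval x (pderiv k f) ≠ 0) : x ∈ closure {y | aeval y f = 0 ∧ aeval y Δ ≠ 0} := by
  classical
  obtain ⟨H, hH, a, b, h⟩ := elim hf hΔ k
  have hH' : map (algebraMap M Ω) (rename Subtype.val H) ≠ 0 := fun h0 =>
    hH (rename_injective _ Subtype.val_injective
      (map_injective _ (algebraMap M Ω).injective (by rw [h0, map_zero, map_zero])))
  have := mem_closure_iff_nhdsWithin_neBot.1 (dense_ne hK _ hH' x)
  set l := 𝓝[{z : σ → Ω | eval z (map (algebraMap M Ω) (rename Subtype.val H)) ≠ 0}] x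
  choose p hp hp0 hp1 using fun z : σ → Ω => hyp_line f z (Pi.single k 1)
  have hl : l ≤ 𝓝 x := nhdsWithin_le_nhds
  obtain ⟨s, hs, he⟩ := root_lim hK (l := l) p (by
      simpa [← Polynomial.coeff_zero_eq_eval_zero, hp0, hx] using
        ((hyp_cont f).tendsto x).mono_left hl) (by
      simpa [← Polynomial.coeff_zero_eq_eval_zero, Polynomial.coeff_derivative, hp1,
        Pi.single_apply] using ((hyp_cont (pderiv k f)).tendsto x).mono_left hl) hk
  have h1 : Tendsto (fun z => z + s z • (Pi.single k 1 : σ → Ω)) l (𝓝 x) := by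
    simpa using (tendsto_id'.2 hl).add (hs.smul_const (Pi.single k 1 : σ → Ω))
  refine mem_closure_of_tendsto h1 ?_
  filter_upwards [he, self_mem_nhdsWithin] with z h2 h3
  rw [hp] at h2
  refine ⟨h2, fun h4 => h3 ?_⟩
  have h5 := congrArg (aeval (z + s z • (Pi.single k 1 : σ → Ω))) h
  rw [map_add, map_mul, map_mul, h2, h4, mul_zero, mul_zero, add_zero, aeval_rename] at h5
  rw [eval_map, ← aeval_def, aeval_rename, ← h5]
  congr 2
  funext i
  simp [i.2]

end

section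
variable {Ω : Type} [NormedField Ω] [IsAlgClosed Ω] [Algebra ℂ Ω]

variable {K : IntermediateField ℂ Ω}

variable {σ : Type} [Fintype σ] [DecidableEq σ] {Q : S2 σ Ω} {C : S3 σ Ω}

section
variable {g h : (σ → Ω) →ₗ[Ω] Ω} {a b : σ → Ω}

/-- The projection along `a, b` to the common kernel of two forms. -/
def dq_pr (g h : (σ → Ω) →ₗ[Ω] Ω) (a b z : σ → Ω) : σ → Ω :=
  z - ((g z * h b - h z * g b) / (g a * h b - g b * h a)) • a -
    ((h z * g a - g z * h a) / (g a * h b - g b * h a)) • b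

omit [IsAlgClosed Ω] [Algebra ℂ Ω] [Fintype σ] [DecidableEq σ] in
theorem dq_pr1 (m : g a * h b - g b * h a ≠ 0) (z : σ → Ω) :
    g (dq_pr g h a b z) = 0 ∧ h (dq_pr g h a b z) = 0 := by
  simp only [dq_pr, map_sub, map_smul, smul_eq_mul, div_eq_mul_inv]
  constructor
  · linear_combination (-g z) * mul_inv_cancel₀ m
  · linear_combination (-h z) * mul_inv_cancel₀ m

omit [IsAlgClosed Ω] [Algebra ℂ Ω] in
theorem dq_minor (H : ∀ a b : Ω, (∀ u, a * g u + b * h u = 0) → a = 0 ∧ b = 0) : ∃ i j : σ,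
    g (Pi.single i 1) * h (Pi.single j 1) - g (Pi.single j 1) * h (Pi.single i 1) ≠ 0 := by
  by_contra! hc
  refine one_ne_zero (H 1 0 fun u => ?_).1
  rw [one_mul, zero_mul, add_zero, lin_eq_dot]
  refine Finset.sum_eq_zero fun i _ => mul_eq_zero_of_left ?_ _
  refine (H (-h (Pi.single i 1)) (g (Pi.single i 1)) fun u => ?_).2
  rw [lin_eq_dot g u, lin_eq_dot h u, dotProduct, dotProduct, Finset.mul_sum, Finset.mul_sum,
    ← Finset.sum_add_distrib]
  exact Finset.sum_eq_zero fun j _ => by linear_combination u j * hc i j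

omit [IsAlgClosed Ω] [Fintype σ] [DecidableEq σ] in
theorem dq_sub (ha : In K a) (hb : In K b) {r : Ω} (hr : r ∈ K) : In K (a - r • b) :=
  fun i => K.sub_mem (ha i) (K.mul_mem hr (hb i))

omit [IsAlgClosed Ω] [Fintype σ] in
theorem dq_single (K : IntermediateField ℂ Ω) (i : σ) : In K (Pi.single i (1 : Ω)) := fun j => by
  rw [Pi.single_apply]
  split_ifs
  exacts [K.one_mem, K.zero_mem]

end

omit [IsAlgClosed Ω] in
theorem dq_dense (hK : Fd K) (hQ : InQ K Q C) (h : Sm Q C Ω) {y z : σ → Ω} (hy : InV Q C y)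
    (yK : In K y) (hz : z ∈ Hs Q C y) : z ∈ closure {x | In K x ∧ x ∈ Hs Q C y} := by
  obtain ⟨i, j, m⟩ := dq_minor (g := Q.L y) (h := C.L y y) (h.sm y hy)
  have t : Continuous (dq_pr (Q.L y) (C.L y y) (Pi.single i 1) (Pi.single j 1)) := by
    unfold dq_pr
    simp only [S2.L_apply, S3.L_apply]
    fun_prop
  have h1 := map_mem_closure t (dense_pi Set.univ (fun _ _ => hK.dense) z)
    (t := {x | In K x ∧ x ∈ Hs Q C y}) fun x hx => ⟨?_, dq_pr1 m x⟩
  · simpa [dq_pr, S2.L_apply, S3.L_apply, (mem_Hs Q C).1 hz] using h1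
  have g := fun z : σ → Ω => Q.mem_subring K hQ.q (b := z) yK
  have g' := fun z : σ → Ω => C.mem_subring K hQ.c (c := z) yK yK
  have ha := dq_single K i
  have hb := dq_single K j
  have hz : In K x := fun k => hx k trivial
  have m := K.sub_mem (K.mul_mem (g _ ha) (g' _ hb)) (K.mul_mem (g _ hb) (g' _ ha))
  exact dq_sub (dq_sub hz ha (K.div_mem (K.sub_mem (K.mul_mem (g _ hz) (g' _ hb))
    (K.mul_mem (g' _ hz) (g _ hb))) m)) hb (K.div_mem (K.sub_mem
      (K.mul_mem (g' _ hz) (g _ ha)) (K.mul_mem (g _ hz) (g' _ ha))) m)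

theorem dq_exe (hK : Fd K) (hQ : InQ K Q C) (h : Sm Q C Ω) (hN : 7 ≤ Fintype.card σ)
    {y w u : σ → Ω} (hy : InV Q C y) (yK : In K y) (hu : u ∈ Hs Q C y) (hwu : Q.T w u ≠ 0) :
    ∃ e ∈ Hs Q C y, In K e ∧ Q.T e e = 0 ∧ Q.T e w ≠ 0 := by
  have : CharZero Ω := charZero_of_injective_algebraMap (algebraMap ℂ Ω).injective
  obtain ⟨i, j, m⟩ := dq_minor (g := Q.L y) (h := C.L y y) (h.sm y hy)
  obtain ⟨e, e0, eK, ee, e1⟩ := ts_q hK hQ (fun (k : Fin 4) s => ![Q.L y, C.L y y,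
    Q.L (Pi.single i 1), Q.L (Pi.single j 1)] k (Pi.single s 1)) (fun k s => by
      fin_cases k
      exacts [Q.mem_subring K hQ.q yK (dq_single K s), C.mem_subring K hQ.c yK yK (dq_single K s),
        Q.mem_subring K hQ.q (dq_single K i) (dq_single K s),
        Q.mem_subring K hQ.q (dq_single K j) (dq_single K s)]) (by simp; omega)
  simp only [← lin_eq_dot] at e1
  have eH : e ∈ Hs Q C y := ⟨e1 0, e1 1⟩
  by_cases hew : Q.T e w = 0
  swap
  · exact ⟨e, eH, eK, ee, hew⟩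
  obtain ⟨v, hv, hev⟩ : ∃ v ∈ Hs Q C y, Q.T e v ≠ 0 := by
    by_contra! hc
    refine e0 (h.nd e fun z => ?_)
    have h1 := hc _ (dq_pr1 m z)
    have h2 : Q.T (Pi.single i 1) e = 0 := e1 2
    have h3 : Q.T (Pi.single j 1) e = 0 := e1 3
    rwa [dq_pr, Q.sub2, Q.sub2, Q.smul2, Q.smul2, Q.T12 e (Pi.single i 1), Q.T12 e (Pi.single j 1),
      h2, h3, mul_zero, mul_zero, sub_zero, sub_zero] at h1
  obtain ⟨t, ht, h1, h2⟩ : ∃ t ∈ Hs Q C y, Q.T e t ≠ 0 ∧ Q.T w t ≠ 0 := by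
    by_cases h1 : Q.T e u = 0
    · by_cases h2 : Q.T w v = 0
      · exact ⟨u + v, add_mem hu hv, by rwa [Q.add2, h1, zero_add], by rwa [Q.add2, h2, add_zero]⟩
      · exact ⟨v, hv, hev, h2⟩
    · exact ⟨u, hu, h1, hwu⟩
  have tc : ∀ a : σ → Ω, Continuous fun x => Q.T a x := fun a => by fun_prop
  obtain ⟨s, ⟨sK, sH⟩, h3, h4⟩ := ((mem_closure_iff_frequently.1 (dq_dense hK hQ h hy yK ht)
    ).and_eventually ((((tc e).tendsto t).eventually_ne h1).and
      (((tc w).tendsto t).eventually_ne h2))).exists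
  refine ⟨zt Q e s, sub_mem (Submodule.smul_mem _ _ sH) (Submodule.smul_mem _ _ eH), dq_sub
    (fun k => K.mul_mem (K.mul_mem (ofNat_mem K 2) (Q.mem_subring K hQ.q eK sK)) (sK k)) eK
      (Q.mem_subring K hQ.q sK sK), zt_iso Q ee s, ?_⟩
  simp [zt, Q.sub1, Q.smul1, hew, Q.T12 s w, h3, h4]

theorem dq (hK : Fd K) (hQ : InQ K Q C) (h : Sm Q C Ω) (hN : 7 ≤ Fintype.card σ) {y w : σ → Ω}
    (hy : InV Q C y) (hyK : In K y) (hw : Iso Q C y w) :
    w ∈ closure {w' | In K w' ∧ w' ∈ Hs Q C y ∧ Q.T w' w' = 0} := by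
  have : CharZero Ω := charZero_of_injective_algebraMap (algebraMap ℂ Ω).injective
  obtain ⟨u, hu, hwu⟩ := hw.nr
  obtain ⟨e, eH, eK, ee, ew⟩ := dq_exe hK hQ h hN hy hyK hu hwu
  have := mem_closure_iff_nhdsWithin_neBot.1 (dq_dense hK hQ h hy hyK hw.h)
  have t : Tendsto id (𝓝[{x | In K x ∧ x ∈ Hs Q C y}] w) (𝓝 w) := nhdsWithin_le_nhds
  have t1 := ((by fun_prop : Continuous fun x => Q.T e x).tendsto w).comp t
  have t2 := t.sub (((((by fun_prop : Continuous fun x => Q.T x x).tendsto w).comp t).div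
    (t1.const_mul 2) (mul_ne_zero two_ne_zero ew)).smul_const e)
  rw [hw.q, zero_div, zero_smul, sub_zero] at t2
  refine mem_closure_of_tendsto t2 ?_
  filter_upwards [self_mem_nhdsWithin, t1.eventually_ne ew] with x ⟨xK, xH⟩ hx
  refine ⟨dq_sub xK eK (K.div_mem (Q.mem_subring K hQ.q xK xK) (K.mul_mem (ofNat_mem K 2)
    (Q.mem_subring K hQ.q eK xK))), sub_mem xH (Submodule.smul_mem _ _ eH), ?_⟩
  simp only [id, Function.comp, Pi.div_apply, Q.sub1, Q.sub2, Q.smul1, Q.smul2, ee,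
    Q.T12 x e] at hx ⊢
  field_simp
  ring

end

section
variable {Ω : Type} [NormedField Ω] [IsAlgClosed Ω] [Algebra ℂ Ω]

variable {K : IntermediateField ℂ Ω}

variable {σ : Type} [Fintype σ] [DecidableEq σ] {Q : S2 σ Ω} {C : S3 σ Ω}

theorem cq_root (hK : Fd K) {ι : Type} {l : Filter ι} (c0 c1 : ι → Ω) (R : ι → Polynomial Ω)
    {a : Ω} (h0 : Tendsto c0 l (𝓝 0)) (h1 : Tendsto c1 l (𝓝 a)) (ha : a ≠ 0) :
    ∃ s : ι → Ω, Tendsto s l (𝓝 0) ∧
      ∀ᶠ i in l, c0 i + c1 i * s i + s i ^ 2 * (R i).eval (s i) = 0 := by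
  obtain ⟨s, hs, hs'⟩ := root_lim hK (l := l) (a := a) (fun i => Polynomial.C (c0 i) +
    Polynomial.C (c1 i) * Polynomial.X + Polynomial.X ^ 2 * R i) (by simpa using h0)
    (by simpa using h1) ha
  exact ⟨s, hs, hs'.mono fun i hi => by simpa using hi⟩

/-- The projection to the tangent space without denominators. -/
def cq_pr (Q : S2 σ Ω) (C : S3 σ Ω) (e1 e2 y u : σ → Ω) : σ → Ω :=
  (Q.T y e1 * C.T y y e2 - Q.T y e2 * C.T y y e1) • u -
    (C.T y y e2 * Q.T y u - Q.T y e2 * C.T y y u) • e1 -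
    (Q.T y e1 * C.T y y u - C.T y y e1 * Q.T y u) • e2

omit [IsAlgClosed Ω] [Algebra ℂ Ω] [DecidableEq σ] in
theorem cq_mem (e1 e2 y u : σ → Ω) : cq_pr Q C e1 e2 y u ∈ Hs Q C y := by
  rw [mem_Hs]
  simp only [cq_pr, Q.sub2, Q.smul2, C.sub3, C.smul3]
  constructor <;> ring

omit [IsAlgClosed Ω] [Algebra ℂ Ω] [DecidableEq σ] in
theorem cq_tend {e1 e2 y u : σ → Ω} (h : Dual Q C y e1 e2) (hu : u ∈ Hs Q C y) (P : Set (σ → Ω)) :
    Tendsto (fun y' => cq_pr Q C e1 e2 y' u) (𝓝[P] y) (𝓝 u) := by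
  have hc : Continuous fun y' => cq_pr Q C e1 e2 y' u := by
    unfold cq_pr
    fun_prop
  have he : cq_pr Q C e1 e2 y u = u := by
    simp [cq_pr, h.q1, h.q2, h.c1, h.c2, ((mem_Hs Q C).1 hu).1, ((mem_Hs Q C).1 hu).2]
  simpa only [he] using (hc.tendsto y).mono_left (nhdsWithin_le_nhds (s := P))

omit [IsAlgClosed Ω] [Algebra ℂ Ω] [DecidableEq σ] in
theorem cq_tq {ι : Type} {l : Filter ι} {Q' : ι → S2 σ Ω}
    (hQ : ∀ a b, Tendsto (fun n => (Q' n).t a b) l (𝓝 (Q.t a b))) {a b : ι → σ → Ω}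
    {a0 b0 : σ → Ω} (ha : Tendsto a l (𝓝 a0)) (hb : Tendsto b l (𝓝 b0)) :
    Tendsto (fun n => (Q' n).T (a n) (b n)) l (𝓝 (Q.T a0 b0)) :=
  tendsto_finsetSum _ fun i _ => tendsto_finsetSum _ fun j _ =>
    (hQ i j).mul ((tendsto_pi_nhds.1 ha i).mul (tendsto_pi_nhds.1 hb j))

theorem cq (hK : Fd K) (h : Sm Q C Ω) {y w : σ → Ω} (hy : InV Q C y) (hw : Iso Q C y w)
    {P : Set (σ → Ω)} (hp : y ∈ closure P) :
    (y, w) ∈ closure {x : (σ → Ω) × (σ → Ω) | x.1 ∈ P ∧ Iso Q C x.1 x.2} := by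
  have : CharZero Ω := charZero_of_injective_algebraMap (algebraMap ℂ Ω).injective
  have : (𝓝[P] y).NeBot := mem_closure_iff_nhdsWithin_neBot.1 hp
  obtain ⟨e1, e2, hd⟩ := h.dual hy
  obtain ⟨u, hu, hwu⟩ := hw.nr
  have tw := cq_tend hd hw.h P
  have tu := cq_tend hd hu P
  have tq : ∀ a b, Tendsto (fun _ : σ → Ω => Q.t a b) (𝓝[P] y) (𝓝 (Q.t a b)) :=
    fun _ _ => tendsto_const_nhds
  obtain ⟨s, hs, hs'⟩ := cq_root hK (l := 𝓝[P] y) _ _
    (fun y' => Polynomial.C (Q.T (cq_pr Q C e1 e2 y' u) (cq_pr Q C e1 e2 y' u)))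
    (by simpa only [hw.q] using cq_tq tq tw tw) ((cq_tq tq tw tu).const_mul 2)
    (mul_ne_zero two_ne_zero hwu)
  have tw' : Tendsto (fun y' => cq_pr Q C e1 e2 y' w + s y' • cq_pr Q C e1 e2 y' u) (𝓝[P] y)
      (𝓝 w) := by simpa using tw.add (hs.smul tu)
  refine mem_closure_of_tendsto ((tendsto_id.mono_left nhdsWithin_le_nhds).prodMk_nhds tw') ?_
  filter_upwards [self_mem_nhdsWithin, hs', (cq_tq tq tw' tu).eventually_ne hwu] with y' h1 h2 h3
  refine ⟨h1, Submodule.add_mem _ (cq_mem _ _ _ _) (Submodule.smul_mem _ _ (cq_mem _ _ _ _)), ?_,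
    _, cq_mem _ _ _ _, h3⟩
  simp only [Polynomial.eval_C] at h2
  simp only [Q.add1, Q.add2, Q.smul1, Q.smul2, Q.T12 (cq_pr Q C e1 e2 y' u) (cq_pr Q C e1 e2 y' w)]
  linear_combination h2

end

section
variable {Ω : Type} [NormedField Ω] [IsAlgClosed Ω] [Algebra ℂ Ω]

variable {K : IntermediateField ℂ Ω}

variable {σ : Type} [Fintype σ] [DecidableEq σ] {Q : S2 σ Ω} {C : S3 σ Ω}

theorem step_app (hK : Fd K) (hQ : InQ K Q C) (h : Sm Q C Ω) (hN : 7 ≤ Fintype.card σ)
    {y y' : σ → Ω} (hy : InV Q C y) (hs : Step Q C y y')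
    (hp : y ∈ closure {z | In K z ∧ InV Q C z}) : y' ∈ closure (SK K Q C) := by
  have : CharZero Ω := charZero_of_injective_algebraMap (algebraMap ℂ Ω).injective
  have h1 : (y, y') ∈ closure {x : (σ → Ω) × (σ → Ω) | In K x.1 ∧ In K x.2 ∧ InV Q C x.1 ∧
      Iso Q C x.1 x.2} := by
    refine closure_minimal ?_ isClosed_closure (cq hK h hy hs.iso hp)
    rintro ⟨η, x⟩ ⟨⟨a, b⟩, c⟩
    obtain ⟨u, hu, d⟩ := c.nr
    have := mem_closure_iff_nhdsWithin_neBot.1 (dq hK hQ h hN b a c)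
    have t : Tendsto id (𝓝[{w | In K w ∧ w ∈ Hs Q C η ∧ Q.T w w = 0}] x) (𝓝 x) :=
      nhdsWithin_le_nhds
    refine mem_closure_of_tendsto (tendsto_const_nhds.prodMk_nhds t) ?_
    filter_upwards [self_mem_nhdsWithin, nhdsWithin_le_nhds
      (((by fun_prop : Continuous fun z => Q.T z u).tendsto x).eventually_ne d)]
      with z ⟨z1, z2, z3⟩ z4
    exact ⟨a, z1, b, z2, z3, u, hu, z4⟩
  have := mem_closure_iff_nhdsWithin_neBot.1 h1
  have t1 := (by fun_prop : Continuous fun x : (σ → Ω) × (σ → Ω) => C.T x.1 x.2 x.2).tendsto (y, y')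
  have t3 := (continuous_snd.tendsto (y, y')).sub ((((by fun_prop : Continuous
    fun x : (σ → Ω) × (σ → Ω) => C.T x.2 x.2 x.2).tendsto (y, y')).div (t1.const_mul 3)
      (mul_ne_zero three_ne_zero hs.ne)).smul (continuous_fst.tendsto (y, y')))
  rw [hs.c, zero_div, zero_smul, sub_zero] at t3
  refine mem_closure_of_tendsto (t3.mono_left (nhdsWithin_le_nhds (s := {x : (σ → Ω) × (σ → Ω) |
    In K x.1 ∧ In K x.2 ∧ InV Q C x.1 ∧ Iso Q C x.1 x.2}))) ?_
  filter_upwards [self_mem_nhdsWithin, nhdsWithin_le_nhds (t1.eventually_ne hs.ne)]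
    with x ⟨a, b, c, d⟩ g
  exact ⟨x.1, x.2, a, b, c, d, g, rfl⟩

theorem SK_sub {z : σ → Ω} (hQ : InQ K Q C) (hz : z ∈ SK K Q C) : In K z ∧ InV Q C z := by
  have : CharZero Ω := charZero_of_injective_algebraMap (algebraMap ℂ Ω).injective
  obtain ⟨y, w, yK, wK, hy, hw, hc, rfl⟩ := hz
  exact ⟨fun i => K.sub_mem (wK i) (K.mul_mem (K.div_mem (C.mem_subring K hQ.c wK wK wK)
    (K.mul_mem (ofNat_mem K 3) (C.mem_subring K hQ.c yK wK wK))) (yK i)),
      (res3_step hy hw hc).inV⟩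

end

section
variable {σ M : Type} [Fintype σ] [DecidableEq σ] [Field M] {Q : S2 σ M} {C : S3 σ M}

theorem dv_smooth [CharZero M] (h : Sm Q C M) {e z : σ → M} (hz : InV Q C z) (hu : Q.T e z ≠ 0) :
    aeval z (Fm Q C e) = 0 ∧ ∃ k, aeval z (pderiv k (Fm Q C e)) ≠ 0 := by
  have h1 : zt Q e z = (2 * Q.T e z) • z := by simp [zt, hz.q]
  have h0 : (aeval z : MvPolynomial σ M →ₐ[M] M) ∘ zt Q (up _ e) X = (2 * Q.T e z) • z := by
    rw [map_zt, map_up, aeval_comp_X, up_self, h1]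
  refine ⟨by rw [aeval_Fm, up_self, h1, C.smul1, C.smul2, C.smul3, hz.c]; ring, ?_⟩
  by_contra! H
  have h2 : ∀ k, (2 * Q.T e z) * C.T z z (Pi.single k 1) =
      2 * C.T z z e * Q.T z (Pi.single k 1) := fun k => by
    have hX : (pderiv k : MvPolynomial σ M → _) ∘ X = Pi.single k 1 := funext fun i => by
      simp [pderiv_X, Pi.single_apply, eq_comm]
    have he : (pderiv k : MvPolynomial σ M → _) ∘ up _ e = 0 := funext fun i => by
      simp [up_apply]
    have hs : (aeval z : MvPolynomial σ M →ₐ[M] M) ∘ Pi.single k 1 = Pi.single k 1 :=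
      funext fun j => by by_cases h : j = k <;> simp [h]
    have h3 : (aeval z : MvPolynomial σ M →ₐ[M] M) ∘ (pderiv k ∘ zt Q (up _ e) X) =
        (2 * Q.T e z) • Pi.single k 1 + (2 * Q.T e (Pi.single k 1)) • z -
          (2 * Q.T z (Pi.single k 1)) • e := funext fun i => by
      have a1 : pderiv k (up (MvPolynomial σ M) e i) = 0 := congrFun he i
      have a2 : pderiv k (X i : MvPolynomial σ M) = Pi.single (M := fun _ => _) k 1 i :=
        congrFun hX i
      have a3 : aeval z (Pi.single (M := fun _ => MvPolynomial σ M) k 1 i) =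
        Pi.single (M := fun _ => M) k 1 i := congrFun hs i
      have a4 : aeval z (up (MvPolynomial σ M) e i) = e i := by simp [up_apply]
      have a5 : pderiv k (2 : MvPolynomial σ M) = 0 := (pderiv k).map_natCast 2
      simp only [Function.comp, zt, Pi.sub_apply, Pi.add_apply, Pi.smul_apply, smul_eq_mul, map_sub,
        Derivation.leibniz, Q.der, hX, he, a1, a2, a5, map_add, map_mul, map_ofNat, map_zero, a3,
        a4, aeval_X, Q.zero1]
      simp only [Q.map, aeval_comp_X, map_up, hs, up_self, Q.T12 (Pi.single k 1) z]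
      ring
    have h4 := H k
    rw [Fm, C.der] at h4
    simp only [map_add, C.map, h0, h3] at h4
    rw [C.T12 (_ - _), C.T23 _ (_ - _)] at h4
    simp only [C.smul1, C.smul2, C.smul3, C.add3, C.sub3, hz.c] at h4
    refine mul_left_cancel₀ (a := 3 * (2 * Q.T e z) ^ 2) (by simpa using hu) ?_
    linear_combination h4
  refine mul_ne_zero two_ne_zero hu (h.sm z hz (-(2 * C.T z z e)) _ fun u => ?_).2
  rw [Q.T_eq_sum z u, C.T_eq_sum z z u, Finset.mul_sum, Finset.mul_sum, ← Finset.sum_add_distrib]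
  exact Finset.sum_eq_zero fun k _ => by linear_combination u k * h2 k

end

section
variable {Ω : Type} [NormedField Ω] [IsAlgClosed Ω] [Algebra ℂ Ω]

variable {K : IntermediateField ℂ Ω}

variable {σ : Type} [Fintype σ] [DecidableEq σ] {Q : S2 σ Ω} {C : S3 σ Ω}

theorem dv (hK : Fd K) (hQ : InQ K Q C) (h : Sm Q C Ω) (hN : 7 ≤ Fintype.card σ) {z l : σ → Ω}
    (hz : InV Q C z) (hl : l ≠ 0) : z ∈ closure (SK K Q C ∩ {z | l ⬝ᵥ z ≠ 0}) := by
  have : CharZero Ω := charZero_of_injective_algebraMap (algebraMap ℂ Ω).injective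
  obtain ⟨y0, b0, hy, hE⟩ := ts_ne hK hQ h hN
  obtain ⟨e, he, hu, hc⟩ := exe h hN hz.ne
  obtain ⟨Δ, hΔ, H⟩ := vgen h hN hy hE he hc hl
  obtain ⟨h0, k, hk⟩ := dv_smooth h hz hu
  have h1 := hyp hK (model h hN he hc) hΔ h0 hk
  have c1 : Continuous fun τ : σ → Ω => Q.T e τ := by unfold S2.T; fun_prop
  have c2 : Continuous fun τ : σ → Ω => Q.T τ τ := by unfold S2.T; fun_prop
  let π : (σ → Ω) → σ → Ω := fun τ => τ - (Q.T τ τ / (2 * Q.T e τ)) • e
  have hπ : ContinuousAt π z := continuousAt_id.sub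
    ((c2.continuousAt.div (continuousAt_const.mul c1.continuousAt)
      (mul_ne_zero two_ne_zero hu)).smul continuousAt_const)
  have h2 : π z = z := by simp [π, hz.q]
  have h3 := (isOpen_ne_fun c1 continuous_const).inter_closure
    (⟨hu, h1⟩ : z ∈ {τ | Q.T e τ ≠ 0} ∩ _)
  rw [← h2, ← closure_closure]
  refine closure_mono ?_ (hπ.continuousWithinAt.mem_closure_image h3)
  rintro _ ⟨τ, ⟨a1, a2, a3⟩, rfl⟩
  obtain ⟨y1, y2, y3, s, s1, s2, s3, b, rfl⟩ := H τ a2 a3
  have h4 : Q.T e (y3 + s • e) = Q.T e y3 := by rw [Q.add2, Q.smul2, he, mul_zero, add_zero]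
  have h5 : π (y3 + s • e) = y3 := by
    have h6 : Q.T e y3 ≠ 0 := h4 ▸ a1
    have h7 : Q.T (y3 + s • e) (y3 + s • e) / (2 * Q.T e (y3 + s • e)) = s := by
      rw [Q.add1, Q.smul1, h4, Q.add2, Q.smul2, s3.inV.q, Q.T12 y3 e]
      field_simp
      ring
    simp only [π, h7, add_sub_cancel_right]
  have hS : closure (SK K Q C) ⊆ closure {z | In K z ∧ InV Q C z} :=
    closure_mono fun _ => SK_sub hQ
  have h8 : IsOpen {x : σ → Ω | l ⬝ᵥ x ≠ 0} := isOpen_ne_fun (by fun_prop) continuous_const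
  rw [h5]
  exact h8.closure_inter ⟨step_app hK hQ h hN s2.inV s3 (hS (step_app hK hQ h hN s1.inV s2
    (hS (step_app hK hQ h hN hy s1 (subset_closure ⟨b0, hy⟩))))), b⟩

end

section
variable {Ω : Type} [NormedField Ω] [IsAlgClosed Ω] [Algebra ℂ Ω]

variable {K : IntermediateField ℂ Ω}

variable {σ : Type} [Fintype σ] [DecidableEq σ] {Q : S2 σ Ω} {C : S3 σ Ω}

theorem cv_root (hK : Fd K) {ι : Type} {l : Filter ι} (c0 c1 : ι → Ω) (R : ι → Polynomial Ω)
    {a : Ω} (h0 : Tendsto c0 l (𝓝 0)) (h1 : Tendsto c1 l (𝓝 a)) (ha : a ≠ 0) :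
    ∃ s : ι → Ω, Tendsto s l (𝓝 0) ∧
      ∀ᶠ i in l, c0 i + c1 i * s i + s i ^ 2 * (R i).eval (s i) = 0 := by
  obtain ⟨s, hs, hs'⟩ := root_lim hK (l := l) (a := a) (fun i => Polynomial.C (c0 i) +
    Polynomial.C (c1 i) * Polynomial.X + Polynomial.X ^ 2 * R i) (by simpa using h0)
    (by simpa using h1) ha
  exact ⟨s, hs, hs'.mono fun i hi => by simpa using hi⟩

omit [IsAlgClosed Ω] [Algebra ℂ Ω] [DecidableEq σ] in
theorem cv_tq {ι : Type} {l : Filter ι} {Q' : ι → S2 σ Ω}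
    (hQ : ∀ a b, Tendsto (fun n => (Q' n).t a b) l (𝓝 (Q.t a b))) {a b : ι → σ → Ω}
    {a0 b0 : σ → Ω} (ha : Tendsto a l (𝓝 a0)) (hb : Tendsto b l (𝓝 b0)) :
    Tendsto (fun n => (Q' n).T (a n) (b n)) l (𝓝 (Q.T a0 b0)) :=
  tendsto_finsetSum _ fun i _ => tendsto_finsetSum _ fun j _ =>
    (hQ i j).mul ((tendsto_pi_nhds.1 ha i).mul (tendsto_pi_nhds.1 hb j))

omit [IsAlgClosed Ω] [Algebra ℂ Ω] [DecidableEq σ] in
theorem cv_tc {ι : Type} {l : Filter ι} {C' : ι → S3 σ Ω}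
    (hC : ∀ a b c, Tendsto (fun n => (C' n).t a b c) l (𝓝 (C.t a b c))) {a b c : ι → σ → Ω}
    {a0 b0 c0 : σ → Ω} (ha : Tendsto a l (𝓝 a0)) (hb : Tendsto b l (𝓝 b0))
    (hc : Tendsto c l (𝓝 c0)) :
    Tendsto (fun n => (C' n).T (a n) (b n) (c n)) l (𝓝 (C.T a0 b0 c0)) :=
  tendsto_finsetSum _ fun i _ => tendsto_finsetSum _ fun j _ => tendsto_finsetSum _ fun k _ =>
    (hC i j k).mul (((tendsto_pi_nhds.1 ha i).mul (tendsto_pi_nhds.1 hb j)).mul
      (tendsto_pi_nhds.1 hc k))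

omit [IsAlgClosed Ω] [Algebra ℂ Ω] [DecidableEq σ] in
theorem cv_exp (C : S3 σ Ω) (A B D : σ → Ω) : ∃ R : Polynomial Ω, ∀ s : Ω,
    C.T (A + s • B + s ^ 2 • D) (A + s • B + s ^ 2 • D) (A + s • B + s ^ 2 • D) =
      C.T A A A + 3 * C.T A A B * s + s ^ 2 * R.eval s := by
  refine ⟨Polynomial.C (C.T D A A + C.T A D A + C.T A A D + C.T B B A + C.T B A B + C.T A B B) +
    Polynomial.C (C.T A B D + C.T A D B + C.T B A D + C.T B D A + C.T D A B + C.T D B A +
      C.T B B B) * Polynomial.X +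
    Polynomial.C (C.T A D D + C.T D A D + C.T D D A + C.T B B D + C.T B D B + C.T D B B) *
      Polynomial.X ^ 2 + Polynomial.C (C.T B D D + C.T D B D + C.T D D B) * Polynomial.X ^ 3 +
    Polynomial.C (C.T D D D) * Polynomial.X ^ 4, fun s => ?_⟩
  have h1 : C.T A B A = C.T A A B := C.T23 _ _ _
  have h2 : C.T B A A = C.T A A B := (C.T12 _ _ _).trans h1
  simp only [C.add1, C.add2, C.add3, C.smul1, C.smul2, C.smul3, Polynomial.eval_add,
    Polynomial.eval_mul, Polynomial.eval_C, Polynomial.eval_X, Polynomial.eval_pow, h1, h2]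
  ring

theorem cv (hK : Fd K) (h : Sm Q C Ω) (hN : 7 ≤ Fintype.card σ) {z : σ → Ω} (hz : InV Q C z)
    {ι : Type} {l : Filter ι} (Q' : ι → S2 σ Ω) (C' : ι → S3 σ Ω)
    (hQ : ∀ a b, Tendsto (fun n => (Q' n).t a b) l (𝓝 (Q.t a b)))
    (hC : ∀ a b c, Tendsto (fun n => (C' n).t a b c) l (𝓝 (C.t a b c))) :
    ∃ z' : ι → σ → Ω, Tendsto z' l (𝓝 z) ∧ ∀ᶠ n in l, InV (Q' n) (C' n) (z' n) := by
  have : CharZero Ω := charZero_of_injective_algebraMap (algebraMap ℂ Ω).injective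
  obtain ⟨e, hee, hez, -⟩ := exe h hN hz.ne
  obtain ⟨-, d, -, -, hd1, hd2⟩ := h.dual hz
  have k : ∀ v : σ → Ω, Tendsto (fun _ : ι => v) l (𝓝 v) := fun _ => tendsto_const_nhds
  have ha : 2 * Q.T e z ≠ 0 := mul_ne_zero two_ne_zero hez
  obtain ⟨r, hr, hr'⟩ := cv_root hK (l := l) _ _ (fun n => Polynomial.C ((Q' n).T z z))
    (by simpa only [hee] using cv_tq hQ (k e) (k e)) ((cv_tq hQ (k e) (k z)).const_mul 2) ha
  have te : Tendsto (fun n => e + r n • z) l (𝓝 e) := by simpa using (k e).add (hr.smul (k z))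
  generalize hE : (fun n => e + r n • z) = E at te
  have hE' : ∀ᶠ n in l, (Q' n).T (E n) (E n) = 0 := hr'.mono fun n hn => by
    simp only [Polynomial.eval_C] at hn
    simp only [← hE, S2.add1, S2.add2, S2.smul1, S2.smul2, (Q' n).T12 z e]
    linear_combination hn
  have tA : Tendsto (fun n => (2 * (Q' n).T (E n) z) • z - (Q' n).T z z • E n) l
      (𝓝 ((2 * Q.T e z) • z)) := by
    simpa only [hz.q, zero_smul, sub_zero] using
      (((cv_tq hQ te (k z)).const_mul 2).smul (k z)).sub ((cv_tq hQ (k z) (k z)).smul te)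
  have tB : Tendsto (fun n => (2 * (Q' n).T (E n) d) • z + (2 * (Q' n).T (E n) z) • d -
      (2 * (Q' n).T z d) • E n) l (𝓝 ((2 * Q.T e d) • z + (2 * Q.T e z) • d)) := by
    simpa only [hd1, mul_zero, zero_smul, sub_zero] using
      ((((cv_tq hQ te (k d)).const_mul 2).smul (k z)).add
        (((cv_tq hQ te (k z)).const_mul 2).smul (k d))).sub
        (((cv_tq hQ (k z) (k d)).const_mul 2).smul te)
  have tD := (((cv_tq hQ te (k d)).const_mul 2).smul (k d)).sub ((cv_tq hQ (k d) (k d)).smul te)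
  choose R hR using fun n => cv_exp (C' n) ((2 * (Q' n).T (E n) z) • z - (Q' n).T z z • E n)
    ((2 * (Q' n).T (E n) d) • z + (2 * (Q' n).T (E n) z) • d - (2 * (Q' n).T z d) • E n)
    ((2 * (Q' n).T (E n) d) • d - (Q' n).T d d • E n)
  obtain ⟨s, hs, hs'⟩ := cv_root hK (l := l) _ _ R
    (by simpa only [C.smul1, C.smul2, C.smul3, hz.c, mul_zero] using cv_tc hC tA tA tA)
    ((cv_tc hC tA tA tB).const_mul 3) (by
      simp only [C.smul1, C.smul2, C.smul3, C.add3, hz.c, hd2, mul_zero, zero_add, mul_one]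
      exact mul_ne_zero three_ne_zero (mul_ne_zero ha (mul_ne_zero ha ha)))
  have tz : Tendsto (fun n => (2 * Q.T e z)⁻¹ • zt (Q' n) (E n) (z + s n • d)) l (𝓝 z) := by
    have := (((tA.add (hs.smul tB)).add ((hs.pow 2).smul tD)).const_smul (2 * Q.T e z)⁻¹)
    simp only [zero_smul, add_zero, ne_eq, OfNat.ofNat_ne_zero, not_false_eq_true, zero_pow,
      inv_smul_smul₀ ha] at this
    refine this.congr fun n => ?_
    congr 1
    simp only [zt, S2.add1, S2.add2, S2.smul1, S2.smul2, (Q' n).T12 d z]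
    module
  refine ⟨_, tz, ?_⟩
  filter_upwards [hE', hs', tz.eventually_ne hz.ne] with n h1 h2 h3
  refine ⟨h3, by rw [S2.smul1, S2.smul2, zt_iso _ h1, mul_zero, mul_zero], ?_⟩
  have e1 : zt (Q' n) (E n) (z + s n • d) = (2 * (Q' n).T (E n) z) • z - (Q' n).T z z • E n +
      s n • ((2 * (Q' n).T (E n) d) • z + (2 * (Q' n).T (E n) z) • d - (2 * (Q' n).T z d) • E n) +
      s n ^ 2 • ((2 * (Q' n).T (E n) d) • d - (Q' n).T d d • E n) := by
    simp only [zt, S2.add1, S2.add2, S2.smul1, S2.smul2, (Q' n).T12 d z]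
    module
  rw [S3.smul1, S3.smul2, S3.smul3, e1, hR, h2, mul_zero, mul_zero, mul_zero]

end

section

variable {Ω : Type} [NormedField Ω] [IsAlgClosed Ω] [Algebra ℂ Ω]

variable {K : IntermediateField ℂ Ω}

variable {σ : Type} [Fintype σ] [DecidableEq σ] {Q : S2 σ Ω} {C : S3 σ Ω}

omit [IsAlgClosed Ω] in
theorem de_desc {κ : Type} [Fintype κ] (l : κ → σ → Ω) (hl : ∀ j, In K (l j)) {l0 u : σ → Ω}
    (h0 : In K l0) (hu : ∀ j, l j ⬝ᵥ u = 0) (hu0 : l0 ⬝ᵥ u ≠ 0) :
    ∃ v, In K v ∧ (∀ j, l j ⬝ᵥ v = 0) ∧ l0 ⬝ᵥ v ≠ 0 := by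
  by_contra! H
  let φ : (σ → K) → (σ → K) →ₗ[K] K := fun a => dotProductBilin K K a
  have e : ∀ (a : σ → Ω) (ha : In K a) (v : σ → K),
      ((φ (fun i => ⟨a i, ha i⟩) v : K) : Ω) = a ⬝ᵥ fun i => (v i : Ω) := fun a ha v => by
    simp [φ, dotProduct]
  have h1 : φ (fun i => ⟨l0 i, h0 i⟩) ∈
      Submodule.span K (Set.range fun j => φ fun i => ⟨l j i, hl j i⟩) :=
    mem_span_of_iInf_ker_le_ker fun v hv => Subtype.ext ((e l0 h0 v).trans (H _ (fun i => (v i).2)
      fun j => (e _ (hl j) v).symm.trans (congrArg Subtype.val ((Submodule.mem_iInf _).1 hv j))))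
  obtain ⟨c, hc⟩ := (Submodule.mem_span_range_iff_exists_fun K).1 h1
  have h2 : l0 = ∑ j, (c j : Ω) • l j := _root_.funext fun i => by
    simpa [φ] using (congrArg Subtype.val (LinearMap.congr_fun hc (Pi.single i 1))).symm
  exact hu0 (by simp [h2, sum_dotProduct, hu])

omit [IsAlgClosed Ω] [Fintype σ] in
theorem de_single (i : σ) : In K (Pi.single i (1 : Ω)) := fun j => by
  rw [Pi.single_apply]
  split_ifs
  exacts [one_mem K, zero_mem K]

theorem exists_de (hK : Fd K) (hQ : InQ K Q C) (h : Sm Q C Ω) (hN : 7 ≤ Fintype.card σ)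
    {y w : σ → Ω} (hy : InV Q C y) (hyK : In K y) (hw : Iso Q C y w) (hwK : In K w) :
    ∃ d e, In K d ∧ In K e ∧ d ∈ Hs Q C y ∧ e ∈ Hs Q C y ∧ Q.T e e = 0 ∧ Q.T w e ≠ 0 ∧
      Q.T w d = 0 ∧ Q.T e d = 0 ∧ ∀ b c c' : Ω, b • y + c • w + c' • d = 0 → c' = 0 ∧ c = 0 := by
  have : CharZero Ω := charZero_of_injective_algebraMap (algebraMap ℂ Ω).injective
  have qK : ∀ {a b}, In K a → In K b → Q.T a b ∈ K := fun ha hb => Q.mem_subring K hQ.q ha hb
  have qI : ∀ {a}, In K a → In K fun i => Q.T a (Pi.single i 1) := fun ha i => qK ha (de_single i)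
  have cI : In K fun i => C.T y y (Pi.single i 1) := fun i =>
    C.mem_subring K hQ.c hyK hyK (de_single i)
  have qd : ∀ a u : σ → Ω, (fun i => Q.T a (Pi.single i 1)) ⬝ᵥ u = Q.T a u := fun a u =>
    (lin_eq_dot (Q.L a) u).symm
  have cd : ∀ u : σ → Ω, (fun i => C.T y y (Pi.single i 1)) ⬝ᵥ u = C.T y y u := fun u =>
    (lin_eq_dot (C.L y y) u).symm
  obtain ⟨u0, ⟨a1, a2⟩, a3⟩ := hw.nr
  obtain ⟨u, uK, u1, u2⟩ := de_desc (K := K)
    ![fun i => Q.T y (Pi.single i 1), fun i => C.T y y (Pi.single i 1)]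
    (fun j => by fin_cases j; exacts [qI hyK, cI]) (qI hwK) (u := u0)
    (fun j => by fin_cases j; exacts [(qd _ _).trans a1, (cd _).trans a2]) (by rwa [qd])
  rw [qd] at u2
  have uH : u ∈ Hs Q C y := ⟨(qd _ _).symm.trans (u1 0), (cd _).symm.trans (u1 1)⟩
  have eK : In K (zt Q w u) := fun i =>
    sub_mem (mul_mem (mul_mem (ofNat_mem K 2) (qK hwK uK)) (uK i)) (mul_mem (qK uK uK) (hwK i))
  have eH : zt Q w u ∈ Hs Q C y := sub_mem (Submodule.smul_mem _ _ uH) (Submodule.smul_mem _ _ hw.h)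
  have we : Q.T w (zt Q w u) ≠ 0 := by simp [zt, Q.sub2, Q.smul2, hw.q, u2]
  obtain ⟨i, hi⟩ := Function.ne_iff.1 hy.ne
  obtain ⟨d, d0, dK, hd⟩ := ts_lin hK
    ![fun i => Q.T y (Pi.single i 1), fun i => C.T y y (Pi.single i 1),
      fun i => Q.T w (Pi.single i 1), fun i => Q.T (zt Q w u) (Pi.single i 1), Pi.single i 1]
    (fun j => by fin_cases j; exacts [qI hyK, cI, qI hwK, qI eK, de_single i])
    (by simp; omega)
  have d3 : Q.T (zt Q w u) d = 0 := (qd _ _).symm.trans (hd 3)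
  have d4 : d i = 0 := by simpa using hd 4
  refine ⟨d, _, dK, eK, ⟨(qd _ _).symm.trans (hd 0), (cd _).symm.trans (hd 1)⟩, eH, zt_iso Q hw.q u,
    we, (qd _ _).symm.trans (hd 2), d3, fun b c c' hb => ?_⟩
  have hc : c = 0 := by
    have := congrArg (Q.T (zt Q w u)) hb
    rw [Q.add2, Q.add2, Q.smul2, Q.smul2, Q.smul2, d3, Q.T12 _ y, (mem_Hs Q C).1 eH |>.1, Q.T12 _ w,
      Q.zero2] at this
    simpa [we] using this
  have hb0 : b = 0 := by simpa [hc, d4, show y i ≠ 0 from hi] using congrFun hb i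
  exact ⟨by simpa [hc, hb0, d0] using hb, hc⟩

end

end Pool.Agent.MP_e0214e_ag.H64
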